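import Mathlib
import Pool.Agent.Y298.CA.Stm2

/-!
# The distance from a Collet-Eckmann parameter to the superattracting parameters of bounded period
-/

set_option autoImplicit false

open Set Filter Metric MeasureTheory Topology

namespace Pool.Agent.V1186.CN

open Pool.Agent.TH279.MD Pool.Agent.Y298.SH Pool.Agent.Y298.SH.CD Pool.Agent.Y298.CA
open Pool.Agent.H712R2 (P P_succ)

/-- The superattracting parameters of period at most `n`. -/
def cen (d n : ℕ) : Set ℂ := {c | ∃ p : ℕ, 1 ≤ p ∧ p ≤ n ∧ (f d c)^[p] 0 = 0}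

theorem iter_zero {d : ℕ} (hd : 2 ≤ d) (c : ℂ) (j : ℕ) : (f d c)^[j + 1] 0 = zz d c j := by
  rw [Function.iterate_succ_apply]
  unfold zz
  congr 1
  unfold f
  rw [zero_pow (by omega), zero_add]

theorem P_iter {d : ℕ} (hd : 2 ≤ d) (c : ℂ) (j : ℕ) : P d (j + 1) c = (f d c)^[j + 1] 0 := by
  rw [P_succ_eq hd, iter_zero hd]
  rfl

theorem cen_zero {d : ℕ} (hd : 2 ≤ d) {n : ℕ} (hn : 1 ≤ n) : (0 : ℂ) ∈ cen d n := by
  refine ⟨1, le_rfl, hn, ?_⟩
  show (0 : ℂ) ^ d + 0 = 0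
  rw [zero_pow (by omega), zero_add]

theorem cen_mono {d m n : ℕ} (h : m ≤ n) : cen d m ⊆ cen d n :=
  fun _ ⟨p, h1, h2, h3⟩ => ⟨p, h1, h2.trans h, h3⟩

/-- the elementary inequality -/
theorem pow_sub_le {a b : ℂ} (hb : b ≠ 0) (d : ℕ) :
    ‖a ^ d - b ^ d‖ ≤ d * ‖b‖ ^ (d - 1) * ‖a - b‖ *
      Real.exp (((d : ℝ) - 1) * (‖a - b‖ / ‖b‖)) := by
  rcases Nat.eq_zero_or_pos d with rfl | hd
  · simp
  have hb0 : 0 < ‖b‖ := norm_pos_iff.2 hb
  have h1 : ‖a ^ d - b ^ d‖ ≤ ‖a - b‖ * (d * (‖b‖ + ‖a - b‖) ^ (d - 1)) := by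
    rw [← (Commute.all a b).mul_geom_sum₂ d, norm_mul]
    refine mul_le_mul_of_nonneg_left ?_ (norm_nonneg _)
    refine (norm_sum_le _ _).trans ?_
    have h2 : ∀ i ∈ Finset.range d, ‖a ^ i * b ^ (d - 1 - i)‖ ≤ (‖b‖ + ‖a - b‖) ^ (d - 1) := by
      intro i hi
      rw [Finset.mem_range] at hi
      rw [norm_mul, norm_pow, norm_pow]
      have ha : ‖a‖ ≤ ‖b‖ + ‖a - b‖ := by
        calc ‖a‖ = ‖b + (a - b)‖ := by congr 1; ring
          _ ≤ _ := norm_add_le _ _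
      have hb' : ‖b‖ ≤ ‖b‖ + ‖a - b‖ := by linarith [norm_nonneg (a - b)]
      calc ‖a‖ ^ i * ‖b‖ ^ (d - 1 - i) ≤ (‖b‖ + ‖a - b‖) ^ i * (‖b‖ + ‖a - b‖) ^ (d - 1 - i) := by
            gcongr
        _ = _ := by rw [← pow_add]; congr 1; omega
    refine (Finset.sum_le_sum h2).trans ?_
    rw [Finset.sum_const, Finset.card_range, nsmul_eq_mul]
  refine h1.trans ?_
  have h3 : (‖b‖ + ‖a - b‖) ^ (d - 1) = ‖b‖ ^ (d - 1) * (1 + ‖a - b‖ / ‖b‖) ^ (d - 1) := by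
    rw [← mul_pow]
    congr 1
    field_simp
  have h4 : (1 + ‖a - b‖ / ‖b‖) ^ (d - 1) ≤ Real.exp (((d : ℝ) - 1) * (‖a - b‖ / ‖b‖)) := by
    have h5 : 1 + ‖a - b‖ / ‖b‖ ≤ Real.exp (‖a - b‖ / ‖b‖) := by
      have := Real.add_one_le_exp (‖a - b‖ / ‖b‖)
      linarith
    calc (1 + ‖a - b‖ / ‖b‖) ^ (d - 1) ≤ Real.exp (‖a - b‖ / ‖b‖) ^ (d - 1) := by gcongr
      _ = _ := by
        rw [← Real.exp_nat_mul, Nat.cast_sub hd]
        push_cast
        ring_nf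
  rw [h3]
  calc ‖a - b‖ * (d * (‖b‖ ^ (d - 1) * (1 + ‖a - b‖ / ‖b‖) ^ (d - 1))) ≤
      ‖a - b‖ * (d * (‖b‖ ^ (d - 1) * Real.exp (((d : ℝ) - 1) * (‖a - b‖ / ‖b‖)))) := by gcongr
    _ = _ := by ring

/-- comparison of the critical orbits of two parameters -/
theorem orbit_cmp {d : ℕ} (hd : 2 ≤ d) {c₀ c : ℂ} {S : ℝ} {n : ℕ}
    (hpos : ∀ j ≤ n, 0 < Pd d c₀ j) (hz : ∀ j ≤ n, zz d c₀ j ≠ 0)
    (hS : ∑ j ∈ Finset.range (n + 1), (Pd d c₀ j)⁻¹ ≤ S)
    (hT : Real.exp 1 * S * ‖c - c₀‖ * ∑ j ∈ Finset.range (n + 1), Pd d c₀ j / ‖zz d c₀ j‖ ≤ 1 / d) :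
    ∀ j ≤ n, ‖zz d c j - zz d c₀ j‖ ≤ Real.exp 1 * S * ‖c - c₀‖ * Pd d c₀ j := by
  have hdR : (2 : ℝ) ≤ d := by exact_mod_cast hd
  have hS0 : 0 ≤ S := by
    refine le_trans (Finset.sum_nonneg fun j hj => ?_) hS
    exact inv_nonneg.2 (Pd_nonneg d c₀ j)
  set δ := ‖c - c₀‖ with hδ
  have hδ0 : 0 ≤ δ := norm_nonneg _
  have hterm : ∀ j, 0 ≤ Pd d c₀ j / ‖zz d c₀ j‖ := fun j =>
    div_nonneg (Pd_nonneg d c₀ j) (norm_nonneg _)
  -- partial sums
  have hTj : ∀ j ≤ n + 1, Real.exp 1 * S * δ * ∑ i ∈ Finset.range j, Pd d c₀ i / ‖zz d c₀ i‖ ≤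
      1 / d := by
    intro j hj
    refine le_trans ?_ hT
    refine mul_le_mul_of_nonneg_left ?_ (by positivity)
    exact Finset.sum_le_sum_of_subset_of_nonneg (Finset.range_mono hj) fun i _ _ => hterm i
  have hSj : ∀ j ≤ n + 1, ∑ i ∈ Finset.range j, (Pd d c₀ i)⁻¹ ≤ S := by
    intro j hj
    refine le_trans ?_ hS
    exact Finset.sum_le_sum_of_subset_of_nonneg (Finset.range_mono hj) fun i _ _ =>
      inv_nonneg.2 (Pd_nonneg d c₀ i)
  have hone : ((d : ℝ) - 1) * (1 / d) ≤ 1 := by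
    rw [mul_one_div, div_le_one (by linarith)]
    linarith
  have key : ∀ j ≤ n, ‖zz d c j - zz d c₀ j‖ ≤ Pd d c₀ j * δ *
      (∑ i ∈ Finset.range (j + 1), (Pd d c₀ i)⁻¹) *
      Real.exp (((d : ℝ) - 1) * (Real.exp 1 * S * δ *
        ∑ i ∈ Finset.range j, Pd d c₀ i / ‖zz d c₀ i‖)) := by
    have hfin : ∀ j ≤ n, ‖zz d c j - zz d c₀ j‖ ≤ Pd d c₀ j * δ *
        (∑ i ∈ Finset.range (j + 1), (Pd d c₀ i)⁻¹) *
        Real.exp (((d : ℝ) - 1) * (Real.exp 1 * S * δ *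
          ∑ i ∈ Finset.range j, Pd d c₀ i / ‖zz d c₀ i‖)) →
        ‖zz d c j - zz d c₀ j‖ ≤ Real.exp 1 * S * δ * Pd d c₀ j := by
      intro j hj h
      refine h.trans ?_
      have h1 := hTj j (by omega)
      have h2 : Real.exp (((d : ℝ) - 1) * (Real.exp 1 * S * δ *
          ∑ i ∈ Finset.range j, Pd d c₀ i / ‖zz d c₀ i‖)) ≤ Real.exp 1 := by
        rw [Real.exp_le_exp]
        refine le_trans ?_ hone
        exact mul_le_mul_of_nonneg_left h1 (by linarith)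
      have h3 := hSj (j + 1) (by omega)
      have h4 := (hpos j hj).le
      calc Pd d c₀ j * δ * (∑ i ∈ Finset.range (j + 1), (Pd d c₀ i)⁻¹) *
          Real.exp (((d : ℝ) - 1) * (Real.exp 1 * S * δ *
            ∑ i ∈ Finset.range j, Pd d c₀ i / ‖zz d c₀ i‖)) ≤
          Pd d c₀ j * δ * S * Real.exp 1 := by gcongr
        _ = _ := by ring
    intro j
    induction j with
    | zero =>
      intro _
      simp [zz_zero, Pd_zero, hδ]
    | succ j ih =>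
      intro hj
      have ihj := ih (by omega)
      have hu := hfin j (by omega) ihj
      set u := ‖zz d c j - zz d c₀ j‖ with hudef
      have hb := hz j (by omega)
      have hb0 : 0 < ‖zz d c₀ j‖ := norm_pos_iff.2 hb
      have hP0 := hpos j (by omega)
      have hP1 := hpos (j + 1) hj
      set T := ∑ i ∈ Finset.range j, Pd d c₀ i / ‖zz d c₀ i‖ with hTdef
      set Sj := ∑ i ∈ Finset.range (j + 1), (Pd d c₀ i)⁻¹ with hSjdef
      have hSj0 : 0 ≤ Sj := Finset.sum_nonneg fun i _ => inv_nonneg.2 (Pd_nonneg d c₀ i)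
      have h1 : ‖zz d c (j + 1) - zz d c₀ (j + 1)‖ ≤ d * ‖zz d c₀ j‖ ^ (d - 1) * u *
          Real.exp (((d : ℝ) - 1) * (u / ‖zz d c₀ j‖)) + δ := by
        rw [zz_succ, zz_succ]
        have h2 : zz d c j ^ d + c - (zz d c₀ j ^ d + c₀) =
            (zz d c j ^ d - zz d c₀ j ^ d) + (c - c₀) := by ring
        rw [h2]
        exact (norm_add_le _ _).trans (add_le_add (pow_sub_le hb d) le_rfl)
      have h2 : u / ‖zz d c₀ j‖ ≤ Real.exp 1 * S * δ * (Pd d c₀ j / ‖zz d c₀ j‖) := by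
        rw [← mul_div_assoc]
        gcongr
      have h3 : Real.exp (((d : ℝ) - 1) * (u / ‖zz d c₀ j‖)) ≤
          Real.exp (((d : ℝ) - 1) * (Real.exp 1 * S * δ * (Pd d c₀ j / ‖zz d c₀ j‖))) := by
        rw [Real.exp_le_exp]
        exact mul_le_mul_of_nonneg_left h2 (by linarith)
      set E := Real.exp (((d : ℝ) - 1) * (Real.exp 1 * S * δ *
        ∑ i ∈ Finset.range (j + 1), Pd d c₀ i / ‖zz d c₀ i‖)) with hE
      have h4 : Real.exp (((d : ℝ) - 1) * (Real.exp 1 * S * δ * T)) *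
          Real.exp (((d : ℝ) - 1) * (Real.exp 1 * S * δ * (Pd d c₀ j / ‖zz d c₀ j‖))) = E := by
        rw [← Real.exp_add, hE, Finset.sum_range_succ]
        congr 1
        ring
      have hE1 : 1 ≤ E := by
        rw [hE]
        apply Real.one_le_exp
        apply mul_nonneg (by linarith)
        apply mul_nonneg (by positivity)
        exact Finset.sum_nonneg fun i _ => hterm i
      have h5 : d * ‖zz d c₀ j‖ ^ (d - 1) * u * Real.exp (((d : ℝ) - 1) * (u / ‖zz d c₀ j‖)) ≤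
          Pd d c₀ (j + 1) * δ * Sj * E := by
        calc d * ‖zz d c₀ j‖ ^ (d - 1) * u * Real.exp (((d : ℝ) - 1) * (u / ‖zz d c₀ j‖)) ≤
            d * ‖zz d c₀ j‖ ^ (d - 1) * (Pd d c₀ j * δ * Sj *
              Real.exp (((d : ℝ) - 1) * (Real.exp 1 * S * δ * T))) *
              Real.exp (((d : ℝ) - 1) * (Real.exp 1 * S * δ * (Pd d c₀ j / ‖zz d c₀ j‖))) := by
              gcongr
          _ = (d * ‖zz d c₀ j‖ ^ (d - 1) * Pd d c₀ j) * δ * Sj *
              (Real.exp (((d : ℝ) - 1) * (Real.exp 1 * S * δ * T)) *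
              Real.exp (((d : ℝ) - 1) * (Real.exp 1 * S * δ * (Pd d c₀ j / ‖zz d c₀ j‖)))) := by
              ring
          _ = _ := by rw [h4, ← Pd_succ]
      have h6 : δ ≤ Pd d c₀ (j + 1) * δ * (Pd d c₀ (j + 1))⁻¹ * E := by
        have h7 : Pd d c₀ (j + 1) * δ * (Pd d c₀ (j + 1))⁻¹ = δ := by
          field_simp
        rw [h7]
        exact le_mul_of_one_le_right hδ0 hE1
      rw [Finset.sum_range_succ]
      calc ‖zz d c (j + 1) - zz d c₀ (j + 1)‖ ≤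
          Pd d c₀ (j + 1) * δ * Sj * E + Pd d c₀ (j + 1) * δ * (Pd d c₀ (j + 1))⁻¹ * E :=
            h1.trans (add_le_add h5 h6)
        _ = _ := by ring
  intro j hj
  refine (key j hj).trans ?_
  have h1 := hTj j (by omega)
  have h2 : Real.exp (((d : ℝ) - 1) * (Real.exp 1 * S * δ *
      ∑ i ∈ Finset.range j, Pd d c₀ i / ‖zz d c₀ i‖)) ≤ Real.exp 1 := by
    rw [Real.exp_le_exp]
    refine le_trans ?_ hone
    exact mul_le_mul_of_nonneg_left h1 (by linarith)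
  have h3 := hSj (j + 1) (by omega)
  have h4 := (hpos j hj).le
  calc Pd d c₀ j * δ * (∑ i ∈ Finset.range (j + 1), (Pd d c₀ i)⁻¹) *
      Real.exp (((d : ℝ) - 1) * (Real.exp 1 * S * δ *
        ∑ i ∈ Finset.range j, Pd d c₀ i / ‖zz d c₀ i‖)) ≤
      Pd d c₀ j * δ * S * Real.exp 1 := by gcongr
    _ = _ := by ring

/-- the sum of the inverses -/
theorem sum_inv_le {d : ℕ} {C₁ lam : ℝ} {c : ℂ} (h : CEp d C₁ lam c) (n : ℕ) :
    ∑ j ∈ Finset.range n, (Pd d c j)⁻¹ ≤ C₁ * lam / (lam - 1) := by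
  have hl := h.lam1
  have hl0 : 0 < lam := by linarith
  have hC := h.C1
  have h1 : ∀ j ∈ Finset.range n, (Pd d c j)⁻¹ ≤ C₁ * (lam⁻¹) ^ j := by
    intro j _
    have h2 := h.exp j
    have h3 := h.Pd_pos j
    rw [inv_pow, inv_le_iff_one_le_mul₀ h3]
    have h4 : 0 < lam ^ j := by positivity
    have h5 : C₁ * (lam ^ j)⁻¹ * Pd d c j = C₁ * Pd d c j / lam ^ j := by
      rw [div_eq_mul_inv]; ring
    rw [h5, le_div_iff₀ h4]
    linarith
  refine (Finset.sum_le_sum h1).trans ?_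
  rw [← Finset.mul_sum, mul_div_assoc]
  refine mul_le_mul_of_nonneg_left ?_ (by linarith)
  have h2 : lam⁻¹ < 1 := inv_lt_one_of_one_lt₀ hl
  have h3 : Summable fun j : ℕ => (lam⁻¹) ^ j := summable_geometric_of_lt_one (by positivity) h2
  refine (h3.sum_le_tsum _ fun j _ => by positivity).trans ?_
  rw [tsum_geometric_of_lt_one (by positivity) h2]
  apply le_of_eq
  have h4 : lam - 1 ≠ 0 := by linarith
  have h5 : 1 - lam⁻¹ ≠ 0 := by
    have : lam⁻¹ ≠ 1 := h2.ne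
    intro h; apply this; linarith
  rw [inv_eq_one_div, div_eq_div_iff h5 h4]
  field_simp

/-- the explicit constant of the lower bound -/
noncomputable def kap (d : ℕ) (C₁ lam : ℝ) : ℝ := (lam - 1) / (d * Real.exp 1 * (C₁ * lam))

theorem kap_pos {d : ℕ} {C₁ lam : ℝ} (hd : 2 ≤ d) (hC : 1 ≤ C₁) (hl : 1 < lam) :
    0 < kap d C₁ lam := by
  have hdR : (2 : ℝ) ≤ d := by exact_mod_cast hd
  unfold kap
  apply div_pos (by linarith)
  have := Real.exp_pos 1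
  positivity

/-- the critical orbit does not return to zero up to time `n` near the parameter -/
theorem no_return {d : ℕ} {C₁ lam : ℝ} {c₀ c : ℂ} (h : CEp d C₁ lam c₀) {n : ℕ}
    (hT : ‖c - c₀‖ * ∑ j ∈ Finset.range (n + 1), Pd d c₀ j / ‖zz d c₀ j‖ ≤ kap d C₁ lam) :
    ∀ j ≤ n, zz d c j ≠ 0 := by
  have hd := h.hd
  have hdR : (2 : ℝ) ≤ d := by exact_mod_cast hd
  have hl := h.lam1
  have hC := h.C1
  have hl0 : 0 < lam := by linarith
  have he := Real.exp_pos 1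
  have hTn : Real.exp 1 * (C₁ * lam / (lam - 1)) * ‖c - c₀‖ *
      ∑ j ∈ Finset.range (n + 1), Pd d c₀ j / ‖zz d c₀ j‖ ≤ 1 / d := by
    have h1 : 0 < C₁ * lam := by positivity
    have h2 : 0 < lam - 1 := by linarith
    calc Real.exp 1 * (C₁ * lam / (lam - 1)) * ‖c - c₀‖ *
        ∑ j ∈ Finset.range (n + 1), Pd d c₀ j / ‖zz d c₀ j‖ =
        Real.exp 1 * (C₁ * lam / (lam - 1)) * (‖c - c₀‖ *
          ∑ j ∈ Finset.range (n + 1), Pd d c₀ j / ‖zz d c₀ j‖) := by ring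
      _ ≤ Real.exp 1 * (C₁ * lam / (lam - 1)) * kap d C₁ lam := by gcongr
      _ = _ := by
        unfold kap
        field_simp
  have hcmp := orbit_cmp hd (fun j _ => h.Pd_pos j) (fun j _ => h.zz_ne j) (sum_inv_le h (n + 1)) hTn
  intro j hj h0
  have h1 := hcmp j hj
  rw [h0, zero_sub, norm_neg] at h1
  have hb0 : 0 < ‖zz d c₀ j‖ := norm_pos_iff.2 (h.zz_ne j)
  have h2 : Pd d c₀ j / ‖zz d c₀ j‖ ≤
      ∑ j ∈ Finset.range (n + 1), Pd d c₀ j / ‖zz d c₀ j‖ :=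
    Finset.single_le_sum (f := fun j => Pd d c₀ j / ‖zz d c₀ j‖)
      (fun i _ => div_nonneg (Pd_nonneg d c₀ i) (norm_nonneg _)) (Finset.mem_range.2 (by omega))
  have hS0 : 0 ≤ C₁ * lam / (lam - 1) := div_nonneg (by positivity) (by linarith)
  have h3 : Real.exp 1 * (C₁ * lam / (lam - 1)) * ‖c - c₀‖ * (Pd d c₀ j / ‖zz d c₀ j‖) ≤ 1 / d :=
    (mul_le_mul_of_nonneg_left h2 (by positivity)).trans hTn
  have h4 : 1 ≤ Real.exp 1 * (C₁ * lam / (lam - 1)) * ‖c - c₀‖ * (Pd d c₀ j / ‖zz d c₀ j‖) := by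
    rw [← mul_div_assoc, le_div_iff₀ hb0, one_mul]
    exact h1
  have h5 : (1 : ℝ) / d ≤ 1 / 2 := one_div_le_one_div_of_le (by norm_num) hdR
  linarith

/-- the lower bound of the distance -/
theorem lower {d : ℕ} {C₁ lam : ℝ} {c₀ : ℂ} (h : CEp d C₁ lam c₀) (n : ℕ) :
    kap d C₁ lam ≤ infDist c₀ (cen d (n + 1)) *
      ∑ j ∈ Finset.range (n + 1), Pd d c₀ j / ‖zz d c₀ j‖ := by
  have hd := h.hd
  have hT0 : 0 < ∑ j ∈ Finset.range (n + 1), Pd d c₀ j / ‖zz d c₀ j‖ :=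
    Finset.sum_pos (fun j _ => div_pos (h.Pd_pos j) (norm_pos_iff.2 (h.zz_ne j)))
      ⟨0, Finset.mem_range.2 (by omega)⟩
  by_contra hcon
  push Not at hcon
  rw [← lt_div_iff₀ hT0, infDist_lt_iff ⟨0, cen_zero hd (by omega)⟩] at hcon
  obtain ⟨c, ⟨p, hp1, hpn, hp0⟩, hc⟩ := hcon
  rw [lt_div_iff₀ hT0, dist_comm, dist_eq_norm] at hc
  obtain ⟨j, rfl⟩ : ∃ j, p = j + 1 := ⟨p - 1, by omega⟩
  rw [iter_zero hd] at hp0
  exact no_return h hc.le j (by omega) hp0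

/-- the upper bound of the distance, near one parameter -/
theorem upper_local {d : ℕ} {C₁ lam : ℝ} {c₀ : ℂ} (h : CEp d C₁ lam c₀) :
    ∃ K ε : ℝ, 0 < K ∧ 0 < ε ∧ ∀ c₁ ∈ ball c₀ ε, CEp d C₁ lam c₁ → ∀ N : ℕ,
      infDist c₁ (cen d (N + 1)) * Pd d c₁ N ≤ K := by
  obtain ⟨κ, ε, J, hκ, hε, hgrow⟩ := h.grow
  have hd := h.hd
  have hdR : (2 : ℝ) ≤ d := by exact_mod_cast hd
  have hc0 : c₀ ≠ 0 := h.zz_ne 0
  have hc0n : 0 < ‖c₀‖ := norm_pos_iff.mpr hc0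
  set M : ℝ := 2 ^ d / (‖c₀‖ / 2) with hM
  have hM0 : 0 < M := by positivity
  obtain ⟨C', hC'⟩ := Pool.Agent.Lev.J_schottky.main M
  set D : ℝ := max C' 1 with hD
  have hD1 : 1 ≤ D := le_max_right _ _
  have hDC : C' ≤ D := le_max_left _ _
  set Q : ℝ := (1 + M + 8 * D) / κ + 1 with hQ
  have hQ0 : 0 < Q := by positivity
  set r₀ : ℝ := min 1 (‖c₀‖ / 4) with hr₀
  have hr₀0 : 0 < r₀ := by positivity
  set J' : ℕ := max J 1 with hJ'
  set G0 : ℝ := (d * 2 ^ (d - 1)) ^ J' with hG0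
  have hG1 : 1 ≤ (d : ℝ) * 2 ^ (d - 1) := by
    have : (1 : ℝ) ≤ 2 ^ (d - 1) := one_le_pow₀ (by norm_num)
    nlinarith
  have hG00 : 0 < G0 := by positivity
  refine ⟨2 * G0 + 2 * (Q / r₀) + Q, min ε (‖c₀‖ / 2), by positivity, by positivity, ?_⟩
  intro c₁ hc₁ h₁ N
  rw [mem_ball, dist_eq_norm] at hc₁
  have hcε : ‖c₁ - c₀‖ ≤ ε := (hc₁.trans_le (min_le_left _ _)).le
  have hc1n : ‖c₀‖ / 2 ≤ ‖c₁‖ := by
    have h1 : ‖c₁ - c₀‖ < ‖c₀‖ / 2 := hc₁.trans_le (min_le_right _ _)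
    have h2 : ‖c₀‖ ≤ ‖c₁‖ + ‖c₁ - c₀‖ := by
      calc ‖c₀‖ = ‖c₁ - (c₁ - c₀)‖ := by congr 1; ring
        _ ≤ _ := norm_sub_le _ _
    linarith
  have hP0 := h₁.Pd_pos N
  have hinf2 : infDist c₁ (cen d (N + 1)) ≤ 2 := by
    refine (infDist_le_dist_of_mem (cen_zero hd (by omega))).trans ?_
    rw [dist_zero_right]
    exact h₁.bd 0
  have hinf0 : 0 ≤ infDist c₁ (cen d (N + 1)) := infDist_nonneg
  -- few iterates
  rcases lt_or_ge N J' with hNJ' | hNJ'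
  · have h1 : ∀ n, Pd d c₁ n ≤ (d * 2 ^ (d - 1)) ^ n := by
      intro n
      induction n with
      | zero => rw [Pd_zero, pow_zero]
      | succ n ih =>
        rw [Pd_succ, pow_succ, mul_comm]
        have h2 := h₁.bd n
        have h3 := Pd_nonneg d c₁ n
        gcongr
    have h2 : Pd d c₁ N ≤ G0 := (h1 N).trans (pow_le_pow_right₀ hG1 hNJ'.le)
    have h3 : 0 ≤ 2 * (Q / r₀) + Q := by positivity
    nlinarith
  have hJN : J ≤ N := (le_max_left _ _).trans hNJ'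
  have hN1 : 1 ≤ N := (le_max_right _ _).trans hNJ'
  -- the derivative is not large
  rcases lt_or_ge (Pd d c₁ N) (Q / r₀) with hsm | hlg
  · nlinarith
  -- the main case
  have hmain : infDist c₁ (cen d (N + 1)) ≤ Q / Pd d c₁ N := by
    by_contra hcon
    push Not at hcon
    set r : ℝ := Q / Pd d c₁ N with hr
    have hr0 : 0 < r := by positivity
    have hrr : r ≤ r₀ := by
      rw [hr, div_le_iff₀ hP0]
      rw [div_le_iff₀ hr₀0] at hlg
      linarith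
    have hr1 : r ≤ 1 := hrr.trans (min_le_left _ _)
    have hr2 : r ≤ ‖c₀‖ / 4 := hrr.trans (min_le_right _ _)
    have hno : ∀ n : ℕ, 1 ≤ n → n ≤ N + 1 → ∀ c ∈ ball c₁ r, P d n c ≠ 0 := by
      intro n hn1 hn2 c hc h0
      obtain ⟨j, rfl⟩ : ∃ j, n = j + 1 := ⟨n - 1, by omega⟩
      have h2 : infDist c₁ (cen d (N + 1)) ≤ dist c₁ c :=
        infDist_le_dist_of_mem ⟨j + 1, hn1, hn2, by rw [← P_iter hd]; exact h0⟩
      rw [mem_ball, dist_comm] at hc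
      linarith
    have hne : ∀ c ∈ ball c₁ r, c ≠ 0 := by
      rintro c hc rfl
      rw [mem_ball, dist_eq_norm, zero_sub, norm_neg] at hc
      linarith
    have hPd : Differentiable ℂ (P d N) := Pool.Agent.H713R2.differentiable_P d N
    set G : ℂ → ℂ := fun c => -(P d N c) ^ d / c with hG
    have hGd : DifferentiableOn ℂ G (ball c₁ r) := by
      apply DifferentiableOn.div
      · exact ((hPd.pow d).neg).differentiableOn
      · exact differentiableOn_id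
      · exact hne
    have hG01 : ∀ z ∈ ball c₁ r, G z ≠ 0 ∧ G z ≠ 1 := by
      intro z hz
      have h1 := hno N hN1 (by omega) z hz
      have h2 := hno (N + 1) (by omega) le_rfl z hz
      refine ⟨?_, ?_⟩
      · exact div_ne_zero (neg_ne_zero.mpr (pow_ne_zero _ h1)) (hne z hz)
      · intro h3
        apply h2
        rw [P_succ]
        have h4 : -(P d N z) ^ d / z = 1 := h3
        rw [div_eq_one_iff_eq (hne z hz)] at h4
        linear_combination -h4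
    have hPb : ‖P d N c₁‖ ≤ 2 := by
      obtain ⟨k, rfl⟩ : ∃ k, N = k + 1 := ⟨N - 1, by omega⟩
      rw [P_succ_eq hd]
      exact h₁.bd k
    have hGM : ‖G c₁‖ ≤ M := by
      show ‖-(P d N c₁) ^ d / c₁‖ ≤ M
      rw [norm_div, norm_neg, norm_pow, hM]
      gcongr
    have hb := hC' G c₁ r hr0 hGd hG01 hGM
    have hder : ‖deriv G c₁‖ ≤ D / (r / 4) := by
      apply Complex.norm_deriv_le_of_forall_mem_sphere_norm_le (by positivity)
      · apply DifferentiableOn.diffContOnCl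
        rw [closure_ball _ (by positivity)]
        exact hGd.mono (closedBall_subset_ball (by linarith))
      · intro z hz
        refine (hb z ?_).trans hDC
        rw [mem_sphere] at hz
        rw [mem_ball, hz]
        linarith
    have heq : P d (N + 1) =ᶠ[𝓝 c₁] fun c => c - c * G c := by
      filter_upwards [isOpen_ball.mem_nhds (mem_ball_self hr0)] with c hc
      rw [P_succ]
      have h5 : c * G c = -(P d N c) ^ d := by
        show c * (-(P d N c) ^ d / c) = _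
        rw [mul_div_cancel₀ _ (hne c hc)]
      rw [h5]
      ring
    have hGc : HasDerivAt G (deriv G c₁) c₁ :=
      (hGd.differentiableAt (isOpen_ball.mem_nhds (mem_ball_self hr0))).hasDerivAt
    have h6 : HasDerivAt (fun c => c - c * G c) (1 - (1 * G c₁ + c₁ * deriv G c₁)) c₁ :=
      (hasDerivAt_id c₁).sub ((hasDerivAt_id c₁).mul hGc)
    have h7 : deriv (P d (N + 1)) c₁ = 1 - (1 * G c₁ + c₁ * deriv G c₁) := by
      rw [heq.deriv_eq]
      exact h6.deriv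
    have h8 : ‖deriv (P d (N + 1)) c₁‖ ≤ 1 + (M + 2 * (D / (r / 4))) := by
      rw [h7, one_mul]
      refine (norm_sub_le _ _).trans ?_
      rw [norm_one]
      refine add_le_add le_rfl ((norm_add_le _ _).trans (add_le_add hGM ?_))
      rw [norm_mul]
      have h9 : ‖c₁‖ ≤ 2 := h₁.bd 0
      gcongr
    have hg := hgrow c₁ h₁ c₁ hcε N hJN (fun j _ => by
      show Pd d c₁ j / 2 ≤ Pd d c₁ j
      linarith [Pd_nonneg d c₁ j])
    have h9 : κ * Pd d c₁ N ≤ 1 + (M + 2 * (D / (r / 4))) := hg.trans h8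
    have h10 : r * (1 + (M + 2 * (D / (r / 4)))) = r + r * M + 8 * D := by
      field_simp
      ring
    have h11 : r * (κ * Pd d c₁ N) ≤ 1 + M + 8 * D := by
      calc r * (κ * Pd d c₁ N) ≤ r * (1 + (M + 2 * (D / (r / 4)))) := by gcongr
        _ = r + r * M + 8 * D := h10
        _ ≤ 1 + M + 8 * D := by nlinarith
    have h12 : r * Pd d c₁ N = Q := by rw [hr]; field_simp
    have h13 : κ * Q = 1 + M + 8 * D + κ := by rw [hQ]; field_simp
    nlinarith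
  rw [le_div_iff₀ hP0] at hmain
  have : 0 ≤ 2 * G0 + 2 * (Q / r₀) := by positivity
  linarith

/-- the upper bound of the distance, uniformly in the class -/
theorem upper (d : ℕ) (C₁ lam : ℝ) : ∃ K : ℝ, 0 < K ∧ ∀ c : ℂ, CEp d C₁ lam c → ∀ N : ℕ,
    infDist c (cen d (N + 1)) * Pd d c N ≤ K := by
  have hcomp := isCompact_CEp d C₁ lam
  have key : ∃ K : ℝ, 0 < K ∧ ∀ c ∈ {c : ℂ | CEp d C₁ lam c}, CEp d C₁ lam c → ∀ N : ℕ,
      infDist c (cen d (N + 1)) * Pd d c N ≤ K := by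
    refine hcomp.induction_on (p := fun s => ∃ K : ℝ, 0 < K ∧ ∀ c ∈ s, CEp d C₁ lam c →
      ∀ N : ℕ, infDist c (cen d (N + 1)) * Pd d c N ≤ K) ?_ ?_ ?_ ?_
    · exact ⟨1, one_pos, fun c hc => absurd hc (notMem_empty c)⟩
    · rintro s t hst ⟨K, hK, H⟩
      exact ⟨K, hK, fun c hc => H c (hst hc)⟩
    · rintro s t ⟨K, hK, H⟩ ⟨K', hK', H'⟩
      refine ⟨max K K', lt_max_of_lt_left hK, ?_⟩
      rintro c (hc | hc) h N
      · exact (H c hc h N).trans (le_max_left _ _)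
      · exact (H' c hc h N).trans (le_max_right _ _)
    · intro c₀ hc₀
      obtain ⟨K, ε, hK, hε, H⟩ := upper_local (show CEp d C₁ lam c₀ from hc₀)
      exact ⟨ball c₀ ε, mem_nhdsWithin_of_mem_nhds (ball_mem_nhds c₀ hε), K, hK, H⟩
  obtain ⟨K, hK, H⟩ := key
  exact ⟨K, hK, fun c hc => H c hc hc⟩

end Pool.Agent.V1186.CN
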