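import Mathlib
import Pool.Agent.V1186.CN.Dist
import Pool.Agent.Y298.CA.ScaAll

/-!
# Consequences: Lyapunov exponents, expanding critical orbits, typical parameters
-/

set_option autoImplicit false

open Set Filter Metric MeasureTheory Topology

namespace Pool.Agent.V1186.CN

open Pool.Agent.TH279.MD Pool.Agent.Y298.SH Pool.Agent.Y298.SH.CD Pool.Agent.Y298.CA
open Pool.Agent.H712R2 (P P_succ)

/-- The distance to the superattracting parameters of period at most `n`. -/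
noncomputable def gap (d : ℕ) (c : ℂ) (n : ℕ) : ℝ := infDist c (cen d n)

/-- The smallest period of a superattracting parameter at distance less than `r`. -/
noncomputable def per (d : ℕ) (c : ℂ) (r : ℝ) : ℕ := sInf {n : ℕ | ∃ c' ∈ cen d n, ‖c' - c‖ < r}

variable {d : ℕ} {C₁ lam : ℝ} {c : ℂ}

theorem sum_pos' (h : CEp d C₁ lam c) (n : ℕ) :
    0 < ∑ j ∈ Finset.range (n + 1), Pd d c j / ‖zz d c j‖ :=
  Finset.sum_pos (fun j _ => div_pos (h.Pd_pos j) (norm_pos_iff.2 (h.zz_ne j)))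
    ⟨0, Finset.mem_range.2 (by omega)⟩

theorem gap_nonneg (n : ℕ) : 0 ≤ gap d c n := infDist_nonneg

theorem gap_anti (hd : 2 ≤ d) {m n : ℕ} (hm : 1 ≤ m) (h : m ≤ n) : gap d c n ≤ gap d c m :=
  infDist_le_infDist_of_subset (cen_mono h) ⟨0, cen_zero hd hm⟩

theorem gap_pos (h : CEp d C₁ lam c) {n : ℕ} (hn : 1 ≤ n) : 0 < gap d c n := by
  obtain ⟨m, rfl⟩ : ∃ m, n = m + 1 := ⟨n - 1, by omega⟩
  have h1 := lower h m
  have h2 := kap_pos h.hd h.C1 h.lam1
  have h3 := sum_pos' h m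
  by_contra hcon
  have h4 : gap d c (m + 1) = 0 := le_antisymm (not_lt.1 hcon) (gap_nonneg _)
  unfold gap at h4
  rw [h4, zero_mul] at h1
  linarith

/-- the two-sided bound with one constant for the class -/
theorem two_sided (d : ℕ) (C₁ lam : ℝ) : ∃ K : ℝ, 1 ≤ K ∧ ∀ c : ℂ, CEp d C₁ lam c → ∀ n : ℕ,
    (∀ j ≤ n, gap d c (n + 1) * Pd d c j ≤ K) ∧
    1 ≤ K * gap d c (n + 1) * ∑ j ∈ Finset.range (n + 1), Pd d c j / ‖zz d c j‖ := by
  obtain ⟨K, hK, H⟩ := upper d C₁ lam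
  refine ⟨max (max K (1 / kap d C₁ lam)) 1, le_max_right _ _, fun c h n => ⟨fun j hj => ?_, ?_⟩⟩
  · refine le_trans ?_ ((le_max_left K _).trans (le_max_left _ _))
    refine le_trans ?_ (H c h j)
    exact mul_le_mul_of_nonneg_right (gap_anti h.hd (by omega) (by omega)) (Pd_nonneg d c j)
  · have h1 := lower h n
    have h2 := kap_pos h.hd h.C1 h.lam1
    have h3 := sum_pos' h n
    have h4 : 1 / kap d C₁ lam ≤ max (max K (1 / kap d C₁ lam)) 1 :=
      (le_max_right K _).trans (le_max_left _ _)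
    have h5 : 0 ≤ gap d c (n + 1) * ∑ j ∈ Finset.range (n + 1), Pd d c j / ‖zz d c j‖ :=
      mul_nonneg (gap_nonneg _) h3.le
    rw [mul_assoc]
    calc (1 : ℝ) = 1 / kap d C₁ lam * kap d C₁ lam := by field_simp
      _ ≤ 1 / kap d C₁ lam * (gap d c (n + 1) *
          ∑ j ∈ Finset.range (n + 1), Pd d c j / ‖zz d c j‖) := by
          apply mul_le_mul_of_nonneg_left h1 (by positivity)
      _ ≤ _ := mul_le_mul_of_nonneg_right h4 h5

/-! ### Expanding critical orbits -/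

/-- uniform expansion along the orbit of the critical value -/
theorem exp_consts (hd : 2 ≤ d) {N : ℕ} (hM : ∀ j, ‖zz d c j‖ ≤ 2)
    (hexp : ∀ j : ℕ, 2 ≤ ‖deriv ((f d c)^[N]) (zz d c j)‖) :
    1 ≤ N ∧ ∀ j m : ℕ, ((2 : ℝ) ^ (1 / (N : ℝ))) ^ m * Pd d c j ≤
      ((d : ℝ) * 2 ^ (d - 1)) ^ N * Pd d c (m + j) := by
  have hdR : (2 : ℝ) ≤ d := by exact_mod_cast hd
  have hG1 : 1 ≤ (d : ℝ) * 2 ^ (d - 1) := by
    have : (1 : ℝ) ≤ 2 ^ (d - 1) := one_le_pow₀ (by norm_num)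
    nlinarith
  have hN : 1 ≤ N := by
    by_contra hcon
    have h0 : N = 0 := by omega
    have h1 := hexp 0
    rw [h0] at h1
    simp at h1
  have hN0 : (0 : ℝ) < N := by exact_mod_cast (by omega : 0 < N)
  refine ⟨hN, fun j m => ?_⟩
  -- growth upper bound
  have hup : ∀ i k : ℕ, Pd d c (i + k) ≤ ((d : ℝ) * 2 ^ (d - 1)) ^ i * Pd d c k := by
    intro i k
    induction i with
    | zero => simp
    | succ i ih =>
      rw [show i + 1 + k = (i + k) + 1 by ring, Pd_succ, pow_succ]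
      have h2 := hM (i + k)
      have h3 := Pd_nonneg d c (i + k)
      calc (d : ℝ) * ‖zz d c (i + k)‖ ^ (d - 1) * Pd d c (i + k) ≤
          d * 2 ^ (d - 1) * (((d : ℝ) * 2 ^ (d - 1)) ^ i * Pd d c k) := by gcongr
        _ = _ := by ring
  -- blocks
  have hblk : ∀ q k : ℕ, (2 : ℝ) ^ q * Pd d c k ≤ Pd d c (q * N + k) := by
    intro q k
    induction q with
    | zero => simp
    | succ q ih =>
      rw [show (q + 1) * N + k = N + (q * N + k) by ring, Pd_add, pow_succ]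
      have h2 := hexp (q * N + k)
      have h3 := Pd_nonneg d c k
      calc (2 : ℝ) ^ q * 2 * Pd d c k = 2 * (2 ^ q * Pd d c k) := by ring
        _ ≤ ‖deriv ((f d c)^[N]) (zz d c (q * N + k))‖ * Pd d c (q * N + k) := by gcongr
  have hdm := Nat.div_add_mod m N
  have hmod := Nat.mod_lt m (by omega : 0 < N)
  have h1 := hblk (m / N + 1) j
  have h2 := hup (N - m % N) (m + j)
  have h3 : N - m % N + (m + j) = (m / N + 1) * N + j := by
    have : m = N * (m / N) + m % N := hdm.symm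
    have h4 : (m / N + 1) * N = N * (m / N) + N := by ring
    omega
  rw [h3] at h2
  have h4 : ((2 : ℝ) ^ (1 / (N : ℝ))) ^ m ≤ 2 ^ (m / N + 1) := by
    rw [← Real.rpow_natCast, ← Real.rpow_mul (by norm_num), ← Real.rpow_natCast 2 (m / N + 1)]
    apply Real.rpow_le_rpow_of_exponent_le (by norm_num)
    rw [one_div, inv_mul_le_iff₀ hN0]
    have h5 : (m : ℝ) ≤ N * ((m / N : ℕ) : ℝ) + N := by
      have h6 : m ≤ N * (m / N) + N := by omega
      exact_mod_cast h6
    push_cast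
    linarith
  have h5 : ((d : ℝ) * 2 ^ (d - 1)) ^ (N - m % N) ≤ ((d : ℝ) * 2 ^ (d - 1)) ^ N :=
    pow_le_pow_right₀ hG1 (by omega)
  calc ((2 : ℝ) ^ (1 / (N : ℝ))) ^ m * Pd d c j ≤ 2 ^ (m / N + 1) * Pd d c j :=
        mul_le_mul_of_nonneg_right h4 (Pd_nonneg d c j)
    _ ≤ _ := h1
    _ ≤ _ := h2
    _ ≤ _ := mul_le_mul_of_nonneg_right h5 (Pd_nonneg d c _)

theorem expanding_two_sided (hd : 2 ≤ d) (N : ℕ) : ∃ K : ℝ, 1 ≤ K ∧ ∀ c : ℂ,
    (∀ j, ‖zz d c j‖ ≤ 2) → (∀ j : ℕ, 2 ≤ ‖deriv ((f d c)^[N]) (zz d c j)‖) → ∀ n : ℕ,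
      gap d c (n + 1) * Pd d c n ≤ K ∧ 1 ≤ K * (gap d c (n + 1) * Pd d c n) := by
  have hdR : (2 : ℝ) ≤ d := by exact_mod_cast hd
  have hd0 : (0 : ℝ) < d := by linarith
  rcases Nat.eq_zero_or_pos N with rfl | hN
  · refine ⟨1, le_rfl, fun c hM hexp => ?_⟩
    have := (exp_consts hd hM hexp).1
    omega
  have hN0 : (0 : ℝ) < N := by exact_mod_cast hN
  set G : ℝ := ((d : ℝ) * 2 ^ (d - 1)) ^ N with hG
  have hG1 : 1 ≤ G := by
    apply one_le_pow₀
    have : (1 : ℝ) ≤ 2 ^ (d - 1) := one_le_pow₀ (by norm_num)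
    nlinarith
  set mu : ℝ := (2 : ℝ) ^ (1 / (N : ℝ)) with hmu
  have hmu1 : 1 < mu := Real.one_lt_rpow (by norm_num) (by positivity)
  have hmu0 : 0 < mu := by linarith
  obtain ⟨K, hK, H⟩ := two_sided d G mu
  set Q : ℝ := G * d * 2 ^ (d - 2) * (G * mu / (mu - 1)) with hQ
  have hmm : 0 < mu - 1 := by linarith
  have hQ0 : 0 < Q := by positivity
  refine ⟨K * (Q + 1), by nlinarith, fun c hM hexp n => ?_⟩
  have hE := (exp_consts hd hM hexp).2
  have hce : CEp d G mu c := by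
    refine ⟨hd, hM, hG1, hmu1, fun m => ?_⟩
    have := hE 0 m
    rwa [Pd_zero, mul_one, add_zero] at this
  obtain ⟨h1, h2⟩ := H c hce n
  have hg0 := gap_nonneg (d := d) (c := c) (n + 1)
  have hP0 := hce.Pd_pos n
  refine ⟨(h1 n le_rfl).trans (by nlinarith), ?_⟩
  -- the sum is comparable with the last term
  have h3 : ∀ j ∈ Finset.range (n + 1), Pd d c j / ‖zz d c j‖ ≤
      G * d * 2 ^ (d - 2) * G * Pd d c n * (mu⁻¹) ^ (n - j) := by
    intro j hj
    rw [Finset.mem_range] at hj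
    have hz0 : 0 < ‖zz d c j‖ := norm_pos_iff.2 (hce.zz_ne j)
    have hPj := hce.Pd_pos j
    -- lower bound of the orbit point
    have h4 : 1 / ‖zz d c j‖ ≤ G * d * 2 ^ (d - 2) := by
      have h5 := hE j 1
      rw [pow_one, show 1 + j = j + 1 by ring, Pd_succ] at h5
      have h6 : mu ≤ G * (d * ‖zz d c j‖ ^ (d - 1)) := by
        by_contra hcon
        push Not at hcon
        nlinarith
      have h7 : ‖zz d c j‖ ^ (d - 1) ≤ ‖zz d c j‖ * 2 ^ (d - 2) := by
        rw [show d - 1 = (d - 2) + 1 by omega, pow_succ, mul_comm]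
        exact mul_le_mul_of_nonneg_left (pow_le_pow_left₀ hz0.le (hM j) _) hz0.le
      rw [div_le_iff₀ hz0]
      calc (1 : ℝ) ≤ mu := hmu1.le
        _ ≤ _ := h6
        _ ≤ G * (d * (‖zz d c j‖ * 2 ^ (d - 2))) := by gcongr
        _ = _ := by ring
    have h8 : Pd d c j ≤ G * Pd d c n * (mu⁻¹) ^ (n - j) := by
      have h9 := hE j (n - j)
      rw [show n - j + j = n by omega] at h9
      rw [inv_pow, ← div_eq_mul_inv, le_div_iff₀ (by positivity)]
      linarith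
    calc Pd d c j / ‖zz d c j‖ = (1 / ‖zz d c j‖) * Pd d c j := by ring
      _ ≤ (G * d * 2 ^ (d - 2)) * (G * Pd d c n * (mu⁻¹) ^ (n - j)) := by gcongr
      _ = _ := by ring
  have h4 : ∑ j ∈ Finset.range (n + 1), (mu⁻¹) ^ (n - j) ≤ mu / (mu - 1) := by
    have h5 : ∑ j ∈ Finset.range (n + 1), (mu⁻¹) ^ (n - j) =
        ∑ j ∈ Finset.range (n + 1), (mu⁻¹) ^ j := by
      rw [← Finset.sum_range_reflect (fun j => (mu⁻¹ : ℝ) ^ j) (n + 1)]
      refine Finset.sum_congr rfl fun j hj => ?_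
      rw [Finset.mem_range] at hj
      congr 1
    rw [h5]
    have h2 : mu⁻¹ < 1 := inv_lt_one_of_one_lt₀ hmu1
    have h3 : Summable fun j : ℕ => (mu⁻¹) ^ j :=
      summable_geometric_of_lt_one (by positivity) h2
    refine (h3.sum_le_tsum _ fun j _ => by positivity).trans ?_
    rw [tsum_geometric_of_lt_one (by positivity) h2]
    apply le_of_eq
    have h4 : mu - 1 ≠ 0 := by linarith
    have h5 : 1 - mu⁻¹ ≠ 0 := by
      intro h
      exact h2.ne (by linarith)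
    rw [inv_eq_one_div, div_eq_div_iff h5 h4]
    field_simp
  have h5 : ∑ j ∈ Finset.range (n + 1), Pd d c j / ‖zz d c j‖ ≤ Q * Pd d c n := by
    refine (Finset.sum_le_sum h3).trans ?_
    rw [← Finset.mul_sum]
    calc G * d * 2 ^ (d - 2) * G * Pd d c n * ∑ j ∈ Finset.range (n + 1), (mu⁻¹) ^ (n - j) ≤
        G * d * 2 ^ (d - 2) * G * Pd d c n * (mu / (mu - 1)) := by gcongr
      _ = _ := by rw [hQ]; ring
  have h6 : 0 ≤ K * gap d c (n + 1) := by positivity
  calc (1 : ℝ) ≤ K * gap d c (n + 1) * ∑ j ∈ Finset.range (n + 1), Pd d c j / ‖zz d c j‖ := h2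
    _ ≤ K * gap d c (n + 1) * (Q * Pd d c n) := by gcongr
    _ ≤ K * gap d c (n + 1) * ((Q + 1) * Pd d c n) := by
        apply mul_le_mul_of_nonneg_left _ h6
        exact mul_le_mul_of_nonneg_right (by linarith) hP0.le
    _ = _ := by ring

/-! ### The smallest period -/

theorem per_spec (hd : 2 ≤ d) (hlim : Tendsto (gap d c) atTop (𝓝 0)) {r : ℝ} (hr : 0 < r) :
    gap d c (per d c r) < r ∧ 1 ≤ per d c r ∧
      ∀ m : ℕ, 1 ≤ m → m < per d c r → r ≤ gap d c m := by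
  have hne : {n : ℕ | ∃ c' ∈ cen d n, ‖c' - c‖ < r}.Nonempty := by
    obtain ⟨n, hn1, hn2⟩ :=
      ((hlim.eventually (gt_mem_nhds hr)).and (eventually_ge_atTop 1)).exists
    unfold gap at hn1
    rw [infDist_lt_iff ⟨0, cen_zero hd hn2⟩] at hn1
    obtain ⟨c', h1, h2⟩ := hn1
    rw [dist_comm, dist_eq_norm] at h2
    exact ⟨n, c', h1, h2⟩
  have hmem := Nat.sInf_mem hne
  change ∃ c' ∈ cen d (per d c r), ‖c' - c‖ < r at hmem
  obtain ⟨c', h1, h2⟩ := hmem
  refine ⟨?_, ?_, ?_⟩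
  · unfold gap
    refine (infDist_le_dist_of_mem h1).trans_lt ?_
    rw [dist_comm, dist_eq_norm]
    exact h2
  · obtain ⟨p, h3, h4, -⟩ := h1
    omega
  · intro m hm1 hm2
    by_contra hcon
    push Not at hcon
    unfold gap at hcon
    rw [infDist_lt_iff ⟨0, cen_zero hd hm1⟩] at hcon
    obtain ⟨c'', h3, h4⟩ := hcon
    rw [dist_comm, dist_eq_norm] at h4
    have h5 : per d c r ≤ m := Nat.sInf_le ⟨c'', h3, h4⟩
    omega

theorem per_tendsto (hd : 2 ≤ d) (hlim : Tendsto (gap d c) atTop (𝓝 0))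
    (hpos : ∀ n : ℕ, 1 ≤ n → 0 < gap d c n) : Tendsto (per d c) (𝓝[>] 0) atTop := by
  rw [Filter.tendsto_atTop]
  intro N
  have h1 : ∀ᶠ r : ℝ in 𝓝[>] 0, r < gap d c (N + 1) :=
    mem_nhdsWithin_of_mem_nhds (gt_mem_nhds (hpos (N + 1) (by omega)))
  filter_upwards [h1, self_mem_nhdsWithin] with r hr hr0
  obtain ⟨h2, h3, -⟩ := per_spec hd hlim hr0
  by_contra hcon
  push Not at hcon
  have h4 := gap_anti (c := c) hd h3 (by omega : per d c r ≤ N + 1)
  linarith

/-! ### Lyapunov exponents -/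

theorem log_small (K ε : ℝ) (hε : 0 < ε) :
    ∀ᶠ m : ℕ in atTop, K + Real.log ((m : ℝ) + 1) ≤ ε * ((m : ℝ) + 1) := by
  have h1 : Tendsto (fun x : ℝ => Real.log x ^ 1 / (1 * x + 0)) atTop (𝓝 0) :=
    Real.tendsto_pow_log_div_mul_add_atTop 1 0 1 one_ne_zero
  have h2 : Tendsto (fun m : ℕ => (m : ℝ) + 1) atTop atTop :=
    tendsto_atTop_add_const_right _ _ tendsto_natCast_atTop_atTop
  have h3 := (h1.comp h2).eventually (gt_mem_nhds (half_pos hε))
  have h4 : ∀ᶠ m : ℕ in atTop, K / (ε / 2) ≤ (m : ℝ) + 1 := h2.eventually_ge_atTop _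
  filter_upwards [h3, h4] with m h5 h6
  have hm : 0 < (m : ℝ) + 1 := by positivity
  simp only [Function.comp_apply, pow_one, one_mul, add_zero] at h5
  rw [div_lt_iff₀ hm] at h5
  rw [div_le_iff₀ (by positivity)] at h6
  linarith

theorem bounds_log {K : ℝ} (hK : 1 ≤ K) (h : CEp d C₁ lam c) {n : ℕ}
    (h1 : gap d c (n + 1) * Pd d c n ≤ K)
    (h2 : 1 ≤ K * gap d c (n + 1) * ∑ j ∈ Finset.range (n + 1), Pd d c j / ‖zz d c j‖) :
    Real.log (Pd d c n) - Real.log K ≤ -Real.log (gap d c (n + 1)) ∧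
      -Real.log (gap d c (n + 1)) ≤
        Real.log K + Real.log (∑ j ∈ Finset.range (n + 1), Pd d c j / ‖zz d c j‖) := by
  have hg := gap_pos h (n := n + 1) (by omega)
  have hP := h.Pd_pos n
  have hS := sum_pos' h n
  have hK0 : 0 < K := by linarith
  constructor
  · have h3 := Real.log_le_log (by positivity) h1
    rw [Real.log_mul hg.ne' hP.ne'] at h3
    linarith
  · have h3 := Real.log_le_log one_pos h2
    rw [Real.log_one, Real.log_mul (by positivity) hS.ne', Real.log_mul hK0.ne' hg.ne'] at h3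
    linarith

theorem lyap_gap (hd : 2 ≤ d) {χ : ℝ} (h : Lyap d χ c) :
    Tendsto (fun n : ℕ => -Real.log (gap d c n) / n) atTop (𝓝 χ) := by
  obtain ⟨⟨C₁, lam, hc⟩, hC⟩ := Pool.Agent.Y674.CA.lya d χ c hd h
  obtain ⟨K, hK, H⟩ := two_sided d C₁ lam
  have hK0 : 0 < K := by linarith
  have hχ := h.1
  rw [← tendsto_add_atTop_iff_nat 1, Metric.tendsto_atTop']
  intro ε hε
  obtain ⟨C, hC1, hCb⟩ := hC (ε / 4) (by positivity)
  have hC0 : 0 < C := by linarith
  have h1 := log_small (Real.log K + Real.log (C ^ 2)) (ε / 4) (by positivity)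
  have h2 := log_small (Real.log K + Real.log C + χ) (ε / 4) (by positivity)
  obtain ⟨N, hN⟩ := eventually_atTop.1 (h1.and h2)
  refine ⟨N, fun n hn => ?_⟩
  obtain ⟨h3, h4⟩ := hN n hn.le
  obtain ⟨h5, h6⟩ := H c hc n
  obtain ⟨h7, h8⟩ := bounds_log hK hc (h5 n le_rfl) h6
  obtain ⟨h9, -, -⟩ := hCb n
  have hP := hc.Pd_pos n
  have hn1 : 0 < (n : ℝ) + 1 := by positivity
  have hlog0 : 0 ≤ Real.log ((n : ℝ) + 1) := Real.log_nonneg (by linarith [(Nat.cast_nonneg n : (0:ℝ) ≤ n)])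
  -- lower bound
  have h10 : (χ - ε / 4) * n - Real.log C ≤ Real.log (Pd d c n) := by
    have h11 := Real.log_le_log (Real.exp_pos _) h9
    rw [Real.log_exp, Real.log_mul hC0.ne' hP.ne'] at h11
    linarith
  -- upper bound
  have h12 : Real.log (∑ j ∈ Finset.range (n + 1), Pd d c j / ‖zz d c j‖) ≤
      Real.log ((n : ℝ) + 1) + Real.log (C ^ 2) + (χ + ε / 4 + ε / 4) * n := by
    have h13 : ∑ j ∈ Finset.range (n + 1), Pd d c j / ‖zz d c j‖ ≤
        ((n : ℝ) + 1) * (C ^ 2 * Real.exp ((χ + ε / 4 + ε / 4) * n)) := by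
      have h14 : ∀ j ∈ Finset.range (n + 1), Pd d c j / ‖zz d c j‖ ≤
          C ^ 2 * Real.exp ((χ + ε / 4 + ε / 4) * n) := by
        intro j hj
        rw [Finset.mem_range] at hj
        obtain ⟨-, h15, h16⟩ := hCb j
        have hz0 : 0 < ‖zz d c j‖ := norm_pos_iff.2 (hc.zz_ne j)
        have h17 : 1 / ‖zz d c j‖ ≤ C * Real.exp (ε / 4 * j) := by
          rw [div_le_iff₀ hz0]
          exact h16
        have hjn : (j : ℝ) ≤ n := by exact_mod_cast (by omega : j ≤ n)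
        calc Pd d c j / ‖zz d c j‖ = Pd d c j * (1 / ‖zz d c j‖) := by ring
          _ ≤ (C * Real.exp ((χ + ε / 4) * j)) * (C * Real.exp (ε / 4 * j)) := by gcongr
          _ = C ^ 2 * Real.exp ((χ + ε / 4 + ε / 4) * j) := by
            rw [show (C * Real.exp ((χ + ε / 4) * j)) * (C * Real.exp (ε / 4 * j)) =
              C ^ 2 * (Real.exp ((χ + ε / 4) * j) * Real.exp (ε / 4 * j)) by ring, ← Real.exp_add]
            congr 2
            ring
          _ ≤ _ := by gcongr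
      refine (Finset.sum_le_sum h14).trans ?_
      rw [Finset.sum_const, Finset.card_range, nsmul_eq_mul]
      push_cast
      exact le_rfl
    have h14 := Real.log_le_log (sum_pos' hc n) h13
    rw [Real.log_mul (by positivity) (by positivity), Real.log_mul (by positivity)
      (Real.exp_ne_zero _), Real.log_exp] at h14
    linarith
  rw [Real.dist_eq, abs_lt]
  push_cast
  constructor
  · rw [lt_sub_iff_add_lt, lt_div_iff₀ hn1]
    nlinarith
  · rw [sub_lt_iff_lt_add, div_lt_iff₀ hn1]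
    nlinarith

theorem gap_tendsto (h : CEp d C₁ lam c) : Tendsto (gap d c) atTop (𝓝 0) := by
  obtain ⟨K, hK, H⟩ := two_sided d C₁ lam
  have hl := h.lam1
  have hC := h.C1
  rw [← tendsto_add_atTop_iff_nat 1]
  have h1 : Tendsto (fun n : ℕ => K * C₁ * (lam⁻¹) ^ n) atTop (𝓝 (K * C₁ * 0)) :=
    (tendsto_pow_atTop_nhds_zero_of_lt_one (by positivity)
      (inv_lt_one_of_one_lt₀ hl)).const_mul _
  rw [mul_zero] at h1
  refine squeeze_zero (fun n => gap_nonneg _) (fun n => ?_) h1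
  have h2 := (H c h n).1 n le_rfl
  have h3 := h.exp n
  have h4 : 0 < lam ^ n := by positivity
  have hg := gap_nonneg (d := d) (c := c) (n + 1)
  rw [inv_pow, ← div_eq_mul_inv, le_div_iff₀ h4]
  calc gap d c (n + 1) * lam ^ n ≤ gap d c (n + 1) * (C₁ * Pd d c n) := by gcongr
    _ = C₁ * (gap d c (n + 1) * Pd d c n) := by ring
    _ ≤ C₁ * K := by gcongr
    _ = _ := by ring

theorem per_log (hd : 2 ≤ d) (h : CEp d C₁ lam c) {r : ℝ} (hr : 0 < r)
    (h2 : 2 ≤ per d c r) : -Real.log (gap d c (per d c r - 1)) ≤ -Real.log r ∧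
      -Real.log r < -Real.log (gap d c (per d c r)) := by
  obtain ⟨h3, h4, h5⟩ := per_spec hd (gap_tendsto h) hr
  constructor
  · have := Real.log_le_log hr (h5 (per d c r - 1) (by omega) (by omega))
    linarith
  · have := Real.log_lt_log (gap_pos h h4) h3
    linarith

theorem lyap_per (hd : 2 ≤ d) {χ : ℝ} (h : Lyap d χ c) :
    Tendsto (fun r : ℝ => -Real.log r / per d c r) (𝓝[>] 0) (𝓝 χ) := by
  obtain ⟨⟨C₁, lam, hc⟩, -⟩ := Pool.Agent.Y674.CA.lya d χ c hd h
  have hlim := lyap_gap hd h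
  have hper := per_tendsto hd (gap_tendsto hc) fun n hn => gap_pos hc hn
  have hsub : Tendsto (fun r : ℝ => per d c r - 1) (𝓝[>] 0) atTop :=
    (tendsto_sub_atTop_nat 1).comp hper
  have h1 := hlim.comp hper
  have h2 := hlim.comp hsub
  have h3 : Tendsto (fun r : ℝ => ((per d c r - 1 : ℕ) : ℝ) / (per d c r : ℝ)) (𝓝[>] 0) (𝓝 1) := by
    have h4 : Tendsto (fun n : ℕ => ((n - 1 : ℕ) : ℝ) / (n : ℝ)) atTop (𝓝 1) := by
      have h5 : Tendsto (fun n : ℕ => 1 - 1 / (n : ℝ)) atTop (𝓝 (1 - 0)) :=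
        tendsto_const_nhds.sub tendsto_one_div_atTop_nhds_zero_nat
      rw [sub_zero] at h5
      refine h5.congr' ?_
      filter_upwards [eventually_ge_atTop 1] with n hn
      have hn0 : (n : ℝ) ≠ 0 := by
        have : (0 : ℝ) < n := by exact_mod_cast (by omega : 0 < n)
        exact this.ne'
      rw [Nat.cast_sub hn]
      field_simp
      push_cast
      ring
    exact h4.comp hper
  have h4 := h2.mul h3
  rw [mul_one] at h4
  refine tendsto_of_tendsto_of_tendsto_of_le_of_le' h4 h1 ?_ ?_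
  · filter_upwards [self_mem_nhdsWithin, hper.eventually_ge_atTop 2] with r hr hp
    obtain ⟨h5, -⟩ := per_log hd hc hr hp
    have hp0 : (0 : ℝ) < per d c r := by exact_mod_cast (by omega : 0 < per d c r)
    have hp1 : (0 : ℝ) < ((per d c r - 1 : ℕ) : ℝ) := by
      exact_mod_cast (by omega : 0 < per d c r - 1)
    show -Real.log (gap d c (per d c r - 1)) / ((per d c r - 1 : ℕ) : ℝ) *
      (((per d c r - 1 : ℕ) : ℝ) / (per d c r : ℝ)) ≤ _
    rw [div_mul_div_cancel₀ hp1.ne']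
    gcongr
  · filter_upwards [self_mem_nhdsWithin, hper.eventually_ge_atTop 2] with r hr hp
    obtain ⟨-, h5⟩ := per_log hd hc hr hp
    have hp0 : (0 : ℝ) < per d c r := by exact_mod_cast (by omega : 0 < per d c r)
    show _ ≤ -Real.log (gap d c (per d c r)) / (per d c r : ℝ)
    gcongr

end Pool.Agent.V1186.CN
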