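import Mathlib
import Pool.Agent.V1186.CN.Cons
import Pool.Agent.Y272.TY.All

/-!
# Consequences for typical parameters
-/

set_option autoImplicit false

open Set Filter Metric MeasureTheory Topology

namespace Pool.Agent.V1186.CN

open Pool.Agent.TH279.MD Pool.Agent.Y298.SH Pool.Agent.Y298.SH.CD Pool.Agent.Y298.CA
open Pool.Agent.H712R2 (P P_succ)
open Pool.Agent.H713R2 (IsBeta)
open Pool.Agent.Y272.TY (Typ MM deriv_iter log_sq_small log_two_le loglog16)

variable {d : ℕ} {C₁ lam : ℝ} {c : ℂ} {β : ℂ → ℂ} {θ A : ℝ} {R : ℂ}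

/-- The largest of the first derivatives. -/
noncomputable def mx (d : ℕ) (c : ℂ) (n : ℕ) : ℝ :=
  (Finset.range (n + 1)).sup' ⟨0, Finset.mem_range.2 (by omega)⟩ fun j => Pd d c j

theorem le_mx {j n : ℕ} (h : j ≤ n) : Pd d c j ≤ mx d c n :=
  Finset.le_sup' (fun j => Pd d c j) (Finset.mem_range.2 (by omega))

theorem mx_eq (n : ℕ) : ∃ j ≤ n, mx d c n = Pd d c j := by
  obtain ⟨j, hj, h⟩ := Finset.exists_mem_eq_sup' (s := Finset.range (n + 1))
    ⟨0, Finset.mem_range.2 (by omega)⟩ (fun j => Pd d c j)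
  rw [Finset.mem_range] at hj
  exact ⟨j, by omega, h⟩

theorem Pd_eq_MM (hd : 2 ≤ d) (n : ℕ) : Pd d c n = ‖MM d c (n + 1)‖ := by
  rw [← (deriv_iter hd c n).deriv]
  rfl

theorem zz_eq_P (hd : 2 ≤ d) (n : ℕ) : zz d c n = P d (n + 1) c := by
  rw [P_succ_eq hd]
  rfl

theorem cep_of_typ (hd : 2 ≤ d) (hβ : IsBeta d β) (h : Typ d β θ c A R) :
    ∃ C₁ : ℝ, CEp d C₁ (3 / 2) c := by
  have hdR : (2 : ℝ) ≤ d := by exact_mod_cast hd
  obtain ⟨C₁, hC₁, H⟩ := h.ce hd (lam := 3 / 2) (by norm_num) (by linarith)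
  refine ⟨C₁, hd, fun j => ?_, hC₁, by norm_num, H⟩
  rw [zz_eq_P hd]
  exact h.P_le hd hβ (j + 1)

/-- the gap and the largest derivative are inverse to each other up to a power of the time -/
theorem typ_gap (hd : 2 ≤ d) (hβ : IsBeta d β) (h : Typ d β θ c A R) :
    ∃ B : ℝ, 0 ≤ B ∧ ∀ n : ℕ,
      |Real.log (gap d c (n + 1)) + Real.log (mx d c n)| ≤ B * Real.log (n + 2) := by
  obtain ⟨C₁, hc⟩ := cep_of_typ hd hβ h
  obtain ⟨K, hK, H⟩ := two_sided d C₁ (3 / 2)
  have hK0 : 0 < K := by linarith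
  have hA := h.A0
  have hlK : 0 ≤ Real.log K := Real.log_nonneg hK
  refine ⟨2 * Real.log K + 1 + A, by linarith, fun n => ?_⟩
  obtain ⟨h1, h2⟩ := H c hc n
  have hL := log_two_le n
  have hg := gap_pos hc (n := n + 1) (by omega)
  obtain ⟨j, hj, hmx⟩ := mx_eq (d := d) (c := c) n
  have hm0 : 0 < mx d c n := by rw [hmx]; exact hc.Pd_pos j
  have h3 : gap d c (n + 1) * mx d c n ≤ K := by
    rw [hmx]
    exact h1 j hj
  have h4 : ∑ j ∈ Finset.range (n + 1), Pd d c j / ‖zz d c j‖ ≤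
      ((n : ℝ) + 1) * (mx d c n * Real.exp (A * Real.log (n + 2))) := by
    have h5 : ∀ j ∈ Finset.range (n + 1), Pd d c j / ‖zz d c j‖ ≤
        mx d c n * Real.exp (A * Real.log (n + 2)) := by
      intro j hj
      rw [Finset.mem_range] at hj
      have h6 := h.rec' j
      rw [← zz_eq_P hd] at h6
      have hz0 : 0 < ‖zz d c j‖ := norm_pos_iff.2 (hc.zz_ne j)
      have h7 : 1 / ‖zz d c j‖ ≤ Real.exp (A * Real.log (n + 2)) := by
        have h8 : Real.exp (-(A * Real.log (n + 2))) ≤ ‖zz d c j‖ := by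
          refine le_trans ?_ h6
          rw [Real.exp_le_exp, neg_le_neg_iff]
          apply mul_le_mul_of_nonneg_left _ hA
          apply Real.log_le_log (by positivity)
          have : (j : ℝ) ≤ n := by exact_mod_cast (by omega : j ≤ n)
          linarith
        rw [Real.exp_neg] at h8
        rw [div_le_iff₀ hz0]
        have h9 := Real.exp_pos (A * Real.log ((n : ℝ) + 2))
        rw [inv_le_iff_one_le_mul₀ h9] at h8
        linarith
      calc Pd d c j / ‖zz d c j‖ = Pd d c j * (1 / ‖zz d c j‖) := by ring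
        _ ≤ _ := by
          have h8 := le_mx (d := d) (c := c) (by omega : j ≤ n)
          gcongr
    refine (Finset.sum_le_sum h5).trans ?_
    rw [Finset.sum_const, Finset.card_range, nsmul_eq_mul]
    push_cast
    exact le_rfl
  have h5 : 1 ≤ K * gap d c (n + 1) *
      (((n : ℝ) + 1) * (mx d c n * Real.exp (A * Real.log (n + 2)))) :=
    h2.trans (mul_le_mul_of_nonneg_left h4 (by positivity))
  have h6 := Real.log_le_log one_pos h5
  have h7 := Real.log_le_log (by positivity) h3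
  rw [Real.log_one, Real.log_mul (by positivity) (by positivity),
    Real.log_mul hK0.ne' hg.ne', Real.log_mul (by positivity) (by positivity),
    Real.log_mul hm0.ne' (Real.exp_ne_zero _), Real.log_exp] at h6
  rw [Real.log_mul hg.ne' hm0.ne'] at h7
  have h8 : Real.log ((n : ℝ) + 1) ≤ Real.log ((n : ℝ) + 2) :=
    Real.log_le_log (by positivity) (by linarith)
  rw [abs_le]
  constructor
  · nlinarith
  · nlinarith [mul_nonneg hA (by linarith : 0 ≤ Real.log ((n : ℝ) + 2))]

/-- the iterated logarithm -/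
noncomputable def LL (d n : ℕ) : ℝ := √(n * Real.log d * Real.log (Real.log n))

theorem LL_mono (hd : 2 ≤ d) {m n : ℕ} (hm : 16 ≤ m) (h : m ≤ n) : LL d m ≤ LL d n := by
  unfold LL
  have h1 : (16 : ℝ) ≤ m := by exact_mod_cast hm
  have h2 : (m : ℝ) ≤ n := by exact_mod_cast h
  have h3 : 0 ≤ Real.log d := Real.log_natCast_nonneg d
  have h4 : 1 < Real.log m := by
    have h5 : Real.log 16 ≤ Real.log m := Real.log_le_log (by norm_num) h1
    have h6 : Real.log 16 = 4 * Real.log 2 := by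
      rw [show (16 : ℝ) = 2 ^ 4 by norm_num, Real.log_pow]; norm_num
    have := Real.log_two_gt_d9
    linarith
  have h5 : Real.log m ≤ Real.log n := Real.log_le_log (by linarith) h2
  have h6 : Real.log (Real.log m) ≤ Real.log (Real.log n) := Real.log_le_log (by linarith) h5
  have h7 : 0 ≤ Real.log (Real.log m) := Real.log_nonneg h4.le
  gcongr

theorem LL_ge (hd : 2 ≤ d) {n : ℕ} (hn : 16 ≤ n) : √(n : ℝ) ≤ 2 * LL d n := by
  unfold LL
  have hn1 : (16 : ℝ) ≤ n := by exact_mod_cast hn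
  have h5 : 1 ≤ Real.log (Real.log (n : ℝ)) := by
    have := loglog16 (n - 16)
    rw [Nat.cast_sub hn] at this
    push_cast at this
    rwa [sub_add_cancel] at this
  have h6 : 0.69 ≤ Real.log d := by
    have h7 := Real.log_two_gt_d9
    have h8 : Real.log 2 ≤ Real.log d :=
      Real.log_le_log (by norm_num) (by exact_mod_cast hd)
    linarith
  rw [Real.sqrt_le_left (by positivity), mul_pow, Real.sq_sqrt (by positivity)]
  have h9 : 0.69 ≤ Real.log d * Real.log (Real.log (n : ℝ)) := by nlinarith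
  nlinarith

/-- small terms are absorbed -/
theorem absorb (hd : 2 ≤ d) (K B : ℝ) (hB : 0 ≤ B) : ∀ᶠ n : ℕ in atTop,
    K + B * Real.log (n + 2) ≤ LL d n := by
  filter_upwards [log_sq_small (2 * (4 * |K| + 2 * B)), eventually_ge_atTop 16] with n h1 h2
  have h3 := LL_ge hd h2
  have h4 := log_two_le n
  have h5 : |K| ≤ 4 * |K| * Real.log ((n : ℝ) + 2) ^ 2 := by
    have : (1 : ℝ) ≤ 4 * Real.log ((n : ℝ) + 2) ^ 2 := by nlinarith
    nlinarith [abs_nonneg K]
  have h6 : B * Real.log ((n : ℝ) + 2) ≤ 2 * B * Real.log ((n : ℝ) + 2) ^ 2 := by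
    have : Real.log ((n : ℝ) + 2) ≤ 2 * Real.log ((n : ℝ) + 2) ^ 2 := by nlinarith
    nlinarith
  have h7 := le_abs_self K
  nlinarith

/-- the largest derivative satisfies the same estimate -/
theorem typ_mx (hd : 2 ≤ d) (hβ : IsBeta d β) (h : Typ d β θ c A R) : ∀ᶠ n : ℕ in atTop,
    |Real.log (mx d c n) - n * Real.log d| ≤ 32 * LL d n := by
  obtain ⟨C₁, hc⟩ := cep_of_typ hd hβ h
  obtain ⟨N, hN⟩ := eventually_atTop.1 ((h.lilM hd).and (eventually_ge_atTop 16))
  have hld : 0 < Real.log d := Real.log_pos (by exact_mod_cast (by omega : 1 < d))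
  have h16 : 16 ≤ N := (hN N le_rfl).2
  have hlin : ∀ᶠ n : ℕ in atTop, Real.log (mx d c N) ≤ n * Real.log d :=
    (tendsto_natCast_atTop_atTop.atTop_mul_const hld).eventually_ge_atTop _
  filter_upwards [hlin, eventually_ge_atTop N] with n h1 hn
  have hLL : 0 ≤ LL d n := Real.sqrt_nonneg _
  obtain ⟨j, hj, hmx⟩ := mx_eq (d := d) (c := c) n
  rw [abs_le]
  constructor
  · have h2 := (abs_le.1 (hN n hn).1).1
    rw [← Pd_eq_MM hd] at h2
    have h3 := Real.log_le_log (hc.Pd_pos n) (le_mx (d := d) (c := c) (le_refl n))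
    show -(32 * √(n * Real.log d * Real.log (Real.log n))) ≤ _
    linarith
  · rcases le_or_gt N j with hNj | hNj
    · have h2 := (abs_le.1 (hN j hNj).1).2
      rw [← Pd_eq_MM hd, ← hmx] at h2
      have h3 := LL_mono hd (h16.trans hNj) hj
      have h4 : (j : ℝ) * Real.log d ≤ n * Real.log d := by gcongr
      have h5 : 32 * √(j * Real.log d * Real.log (Real.log j)) = 32 * LL d j := rfl
      linarith
    · have h2 : mx d c n ≤ mx d c N := by rw [hmx]; exact le_mx hNj.le
      have h3 : 0 < mx d c n := by rw [hmx]; exact hc.Pd_pos j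
      have h4 := Real.log_le_log h3 h2
      linarith

/-- the law of the iterated logarithm for the gap -/
theorem typ_gap_lil (hd : 2 ≤ d) (hβ : IsBeta d β) (h : Typ d β θ c A R) : ∀ᶠ n : ℕ in atTop,
    |Real.log (gap d c n) + n * Real.log d| ≤ 33 * LL d n := by
  obtain ⟨B, hB, hgap⟩ := typ_gap hd hβ h
  have hld : 0 < Real.log d := Real.log_pos (by exact_mod_cast (by omega : 1 < d))
  obtain ⟨N, hN⟩ := eventually_atTop.1
    (((typ_mx hd hβ h).and (absorb hd (Real.log d) B hB)).and (eventually_ge_atTop 16))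
  filter_upwards [eventually_ge_atTop (N + 1)] with n hn
  obtain ⟨m, rfl⟩ : ∃ m, n = m + 1 := ⟨n - 1, by omega⟩
  obtain ⟨⟨h1, h2⟩, h3⟩ := hN m (by omega)
  have h4 := hgap m
  have h5 := LL_mono hd h3 (Nat.le_succ m)
  rw [abs_le] at h1 h4 ⊢
  push_cast
  constructor <;> nlinarith [h1.1, h1.2, h4.1, h4.2]

/-- the law of the iterated logarithm for the smallest period -/
theorem typ_per_lil (hd : 2 ≤ d) (hβ : IsBeta d β) (h : Typ d β θ c A R) :
    ∀ᶠ r : ℝ in 𝓝[>] 0, |Real.log r + per d c r * Real.log d| ≤ 34 * LL d (per d c r) := by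
  obtain ⟨C₁, hc⟩ := cep_of_typ hd hβ h
  have hld : 0 < Real.log d := Real.log_pos (by exact_mod_cast (by omega : 1 < d))
  have hper := per_tendsto hd (gap_tendsto hc) fun n hn => gap_pos hc hn
  obtain ⟨N, hN⟩ := eventually_atTop.1
    (((typ_gap_lil hd hβ h).and (absorb hd (Real.log d) 0 le_rfl)).and (eventually_ge_atTop 16))
  filter_upwards [self_mem_nhdsWithin, hper.eventually_ge_atTop (N + 2)] with r hr hp
  obtain ⟨h1, h2⟩ := per_log hd hc hr (by omega)
  obtain ⟨m, hm⟩ : ∃ m, per d c r = m + 1 := ⟨per d c r - 1, by omega⟩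
  rw [hm] at h1 h2 ⊢
  rw [Nat.add_sub_cancel] at h1
  obtain ⟨⟨h3, h4⟩, h5⟩ := hN m (by omega)
  obtain ⟨⟨h6, h7⟩, -⟩ := hN (m + 1) (by omega)
  have h8 := LL_mono hd h5 (Nat.le_succ m)
  rw [abs_le] at h3 h6 ⊢
  rw [zero_mul, add_zero] at h4 h7
  push_cast at h6 h7 ⊢
  constructor <;> nlinarith [h3.1, h3.2, h6.1, h6.2]

end Pool.Agent.V1186.CN
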