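import Mathlib
import Pool.Agent.V1186.CN.Typ

/-!
# Sequences of distances between the two bounds
-/

set_option autoImplicit false

open Set Filter Metric MeasureTheory Topology

namespace Pool.Agent.V1186.CN

open Pool.Agent.TH279.MD Pool.Agent.Y298.SH Pool.Agent.Y298.SH.CD Pool.Agent.Y298.CA
open Pool.Agent.H712R2 (P P_succ)
open Pool.Agent.H713R2 (IsBeta)
open Pool.Agent.Y272.TY (Typ MM deriv_iter log_sq_small log_two_le loglog16)

variable {d : ℕ} {C₁ lam : ℝ} {c : ℂ} {β : ℂ → ℂ} {θ A : ℝ} {R : ℂ} {K : ℝ} {D : ℕ → ℝ}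

/-- `D (n + 1)` is at most the distance to the superattracting parameters, and satisfies the lower
bound with the constant `K`. -/
structure Btw (d : ℕ) (c : ℂ) (K : ℝ) (D : ℕ → ℝ) : Prop where
  one : 1 ≤ K
  up : ∀ n : ℕ, D (n + 1) ≤ gap d c (n + 1)
  low : ∀ n : ℕ, 1 ≤ K * (D (n + 1) * ∑ j ∈ Finset.range (n + 1), Pd d c j / ‖zz d c j‖)

theorem Btw.pos (b : Btw d c K D) (h : CEp d C₁ lam c) (n : ℕ) : 0 < D (n + 1) := by
  have h1 := b.low n
  have h2 := b.one
  have h3 := sum_pos' h n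
  by_contra hcon
  push Not at hcon
  have h4 : D (n + 1) * ∑ j ∈ Finset.range (n + 1), Pd d c j / ‖zz d c j‖ ≤ 0 :=
    mul_nonpos_of_nonpos_of_nonneg hcon h3.le
  nlinarith

theorem Btw.logs (b : Btw d c K D) (h : CEp d C₁ lam c) (n : ℕ) :
    -Real.log (gap d c (n + 1)) ≤ -Real.log (D (n + 1)) ∧ -Real.log (D (n + 1)) ≤
      Real.log K + Real.log (∑ j ∈ Finset.range (n + 1), Pd d c j / ‖zz d c j‖) := by
  have hD := b.pos h n
  have hS := sum_pos' h n
  have hK := b.one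
  have hK0 : 0 < K := by linarith
  constructor
  · have := Real.log_le_log hD (b.up n)
    linarith
  · have h3 := Real.log_le_log one_pos (b.low n)
    rw [Real.log_one, Real.log_mul hK0.ne' (by positivity), Real.log_mul hD.ne' hS.ne'] at h3
    linarith

theorem lyap_sum (hd : 2 ≤ d) {χ : ℝ} (h : Lyap d χ c) {ε : ℝ} (hε : 0 < ε) (K : ℝ) :
    ∀ᶠ n : ℕ in atTop, K + Real.log (∑ j ∈ Finset.range (n + 1), Pd d c j / ‖zz d c j‖) ≤
      (χ + ε) * (n + 1) := by
  obtain ⟨⟨C₁, lam, hc⟩, hC⟩ := Pool.Agent.Y674.CA.lya d χ c hd h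
  have hχ := h.1
  obtain ⟨C, hC1, hCb⟩ := hC (ε / 4) (by positivity)
  have hC0 : 0 < C := by linarith
  filter_upwards [log_small (K + Real.log (C ^ 2)) (ε / 4) (by positivity)] with n h3
  have hlog0 : 0 ≤ Real.log ((n : ℝ) + 1) :=
    Real.log_nonneg (by linarith [(Nat.cast_nonneg n : (0:ℝ) ≤ n)])
  have h13 : ∑ j ∈ Finset.range (n + 1), Pd d c j / ‖zz d c j‖ ≤
      ((n : ℝ) + 1) * (C ^ 2 * Real.exp ((χ + ε / 4 + ε / 4) * n)) := by
    have h14 : ∀ j ∈ Finset.range (n + 1), Pd d c j / ‖zz d c j‖ ≤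
        C ^ 2 * Real.exp ((χ + ε / 4 + ε / 4) * n) := by
      intro j hj
      rw [Finset.mem_range] at hj
      obtain ⟨-, h15, h16⟩ := hCb j
      have hz0 : 0 < ‖zz d c j‖ := norm_pos_iff.2 (hc.zz_ne j)
      have h17 : 1 / ‖zz d c j‖ ≤ C * Real.exp (ε / 4 * j) := by
        rw [div_le_iff₀ hz0]
        exact h16
      have hjn : (j : ℝ) ≤ n := by exact_mod_cast (by omega : j ≤ n)
      calc Pd d c j / ‖zz d c j‖ = Pd d c j * (1 / ‖zz d c j‖) := by ring
        _ ≤ (C * Real.exp ((χ + ε / 4) * j)) * (C * Real.exp (ε / 4 * j)) := by gcongr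
        _ = C ^ 2 * Real.exp ((χ + ε / 4 + ε / 4) * j) := by
          rw [show (C * Real.exp ((χ + ε / 4) * j)) * (C * Real.exp (ε / 4 * j)) =
            C ^ 2 * (Real.exp ((χ + ε / 4) * j) * Real.exp (ε / 4 * j)) by ring, ← Real.exp_add]
          congr 2
          ring
        _ ≤ _ := by gcongr
    refine (Finset.sum_le_sum h14).trans ?_
    rw [Finset.sum_const, Finset.card_range, nsmul_eq_mul]
    push_cast
    exact le_rfl
  have h14 := Real.log_le_log (sum_pos' hc n) h13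
  rw [Real.log_mul (by positivity) (by positivity), Real.log_mul (by positivity)
    (Real.exp_ne_zero _), Real.log_exp] at h14
  nlinarith

theorem Btw.lyap (b : Btw d c K D) (hd : 2 ≤ d) {χ : ℝ} (h : Lyap d χ c) :
    Tendsto (fun n : ℕ => -Real.log (D n) / n) atTop (𝓝 χ) := by
  obtain ⟨⟨C₁, lam, hc⟩, -⟩ := Pool.Agent.Y674.CA.lya d χ c hd h
  have hg := lyap_gap hd h
  rw [← tendsto_add_atTop_iff_nat 1] at hg ⊢
  rw [tendsto_order] at hg ⊢
  refine ⟨fun a ha => ?_, fun a ha => ?_⟩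
  · filter_upwards [hg.1 a ha] with n hn
    refine hn.trans_le ?_
    have := (b.logs hc n).1
    gcongr
  · have hε : 0 < (a - χ) / 2 := by linarith
    filter_upwards [lyap_sum hd h hε (Real.log K)] with n hn
    have h1 := (b.logs hc n).2
    have hn1 : 0 < (n : ℝ) + 1 := by positivity
    push_cast
    rw [div_lt_iff₀ hn1]
    nlinarith

/-- for typical parameters, up to a power of the time -/
theorem Btw.typ (b : Btw d c K D) (hd : 2 ≤ d) (hβ : IsBeta d β) (h : Typ d β θ c A R) :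
    ∃ B : ℝ, 0 ≤ B ∧ ∀ n : ℕ,
      |Real.log (D (n + 1)) + Real.log (mx d c n)| ≤ B * Real.log (n + 2) := by
  obtain ⟨C₁, hc⟩ := cep_of_typ hd hβ h
  obtain ⟨B, hB, H⟩ := typ_gap hd hβ h
  have hK := b.one
  have hK0 : 0 < K := by linarith
  have hlK : 0 ≤ Real.log K := Real.log_nonneg hK
  have hA := h.A0
  refine ⟨B + (2 * Real.log K + 1 + A), by linarith, fun n => ?_⟩
  have hL := log_two_le n
  have hD := b.pos hc n
  obtain ⟨j, hj, hmx⟩ := mx_eq (d := d) (c := c) n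
  have hm0 : 0 < mx d c n := by rw [hmx]; exact hc.Pd_pos j
  have h4 : ∑ j ∈ Finset.range (n + 1), Pd d c j / ‖zz d c j‖ ≤
      ((n : ℝ) + 1) * (mx d c n * Real.exp (A * Real.log (n + 2))) := by
    have h5 : ∀ j ∈ Finset.range (n + 1), Pd d c j / ‖zz d c j‖ ≤
        mx d c n * Real.exp (A * Real.log (n + 2)) := by
      intro j hj
      rw [Finset.mem_range] at hj
      have h6 := h.rec' j
      rw [← zz_eq_P hd] at h6
      have hz0 : 0 < ‖zz d c j‖ := norm_pos_iff.2 (hc.zz_ne j)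
      have h7 : 1 / ‖zz d c j‖ ≤ Real.exp (A * Real.log (n + 2)) := by
        have h8 : Real.exp (-(A * Real.log (n + 2))) ≤ ‖zz d c j‖ := by
          refine le_trans ?_ h6
          rw [Real.exp_le_exp, neg_le_neg_iff]
          apply mul_le_mul_of_nonneg_left _ hA
          apply Real.log_le_log (by positivity)
          have : (j : ℝ) ≤ n := by exact_mod_cast (by omega : j ≤ n)
          linarith
        rw [Real.exp_neg] at h8
        rw [div_le_iff₀ hz0]
        have h9 := Real.exp_pos (A * Real.log ((n : ℝ) + 2))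
        rw [inv_le_iff_one_le_mul₀ h9] at h8
        linarith
      calc Pd d c j / ‖zz d c j‖ = Pd d c j * (1 / ‖zz d c j‖) := by ring
        _ ≤ _ := by
          have h8 := le_mx (d := d) (c := c) (by omega : j ≤ n)
          gcongr
    refine (Finset.sum_le_sum h5).trans ?_
    rw [Finset.sum_const, Finset.card_range, nsmul_eq_mul]
    push_cast
    exact le_rfl
  obtain ⟨l1, l2⟩ := b.logs hc n
  have h6 := Real.log_le_log (sum_pos' hc n) h4
  rw [Real.log_mul (by positivity) (by positivity),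
    Real.log_mul hm0.ne' (Real.exp_ne_zero _), Real.log_exp] at h6
  have h7 := (abs_le.1 (H n)).2
  have h8 : Real.log ((n : ℝ) + 1) ≤ Real.log ((n : ℝ) + 2) :=
    Real.log_le_log (by positivity) (by linarith)
  have g1 : 0 ≤ A * Real.log ((n : ℝ) + 2) := mul_nonneg hA (by linarith)
  have g2 : 0 ≤ B * Real.log ((n : ℝ) + 2) := mul_nonneg hB (by linarith)
  rw [abs_le]
  constructor
  · nlinarith
  · nlinarith

/-- the law of the iterated logarithm -/
theorem Btw.lil (b : Btw d c K D) (hd : 2 ≤ d) (hβ : IsBeta d β) (h : Typ d β θ c A R) :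
    ∀ᶠ n : ℕ in atTop, |Real.log (D n) + n * Real.log d| ≤ 33 * LL d n := by
  obtain ⟨B, hB, hgap⟩ := b.typ hd hβ h
  have hld : 0 < Real.log d := Real.log_pos (by exact_mod_cast (by omega : 1 < d))
  obtain ⟨N, hN⟩ := eventually_atTop.1
    (((typ_mx hd hβ h).and (absorb hd (Real.log d) B hB)).and (eventually_ge_atTop 16))
  filter_upwards [eventually_ge_atTop (N + 1)] with n hn
  obtain ⟨m, rfl⟩ : ∃ m, n = m + 1 := ⟨n - 1, by omega⟩
  obtain ⟨⟨h1, h2⟩, h3⟩ := hN m (by omega)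
  have h4 := hgap m
  have h5 := LL_mono hd h3 (Nat.le_succ m)
  rw [abs_le] at h1 h4 ⊢
  push_cast
  constructor <;> nlinarith [h1.1, h1.2, h4.1, h4.2]

/-- expanding critical orbits: the sum is comparable with the last derivative -/
theorem exp_sum (hd : 2 ≤ d) (N : ℕ) : ∃ G mu Q : ℝ, 1 ≤ G ∧ 1 < mu ∧ 1 ≤ Q ∧ ∀ c : ℂ,
    (∀ j, ‖zz d c j‖ ≤ 2) → (∀ j : ℕ, 2 ≤ ‖deriv ((f d c)^[N]) (zz d c j)‖) →
      CEp d G mu c ∧ ∀ n : ℕ,
        ∑ j ∈ Finset.range (n + 1), Pd d c j / ‖zz d c j‖ ≤ Q * Pd d c n := by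
  have hdR : (2 : ℝ) ≤ d := by exact_mod_cast hd
  have hd0 : (0 : ℝ) < d := by linarith
  rcases Nat.eq_zero_or_pos N with rfl | hN
  · refine ⟨1, 2, 1, le_rfl, by norm_num, le_rfl, fun c hM hexp => ?_⟩
    have := (exp_consts hd hM hexp).1
    omega
  have hN0 : (0 : ℝ) < N := by exact_mod_cast hN
  set G : ℝ := ((d : ℝ) * 2 ^ (d - 1)) ^ N with hG
  have hG1 : 1 ≤ G := by
    apply one_le_pow₀
    have : (1 : ℝ) ≤ 2 ^ (d - 1) := one_le_pow₀ (by norm_num)
    nlinarith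
  set mu : ℝ := (2 : ℝ) ^ (1 / (N : ℝ)) with hmu
  have hmu1 : 1 < mu := Real.one_lt_rpow (by norm_num) (by positivity)
  have hmu0 : 0 < mu := by linarith
  set Q : ℝ := G * d * 2 ^ (d - 2) * (G * mu / (mu - 1)) with hQ
  have hmm : 0 < mu - 1 := by linarith
  have hQ0 : 0 < Q := by positivity
  refine ⟨G, mu, Q + 1, hG1, hmu1, by linarith, fun c hM hexp => ?_⟩
  have hE := (exp_consts hd hM hexp).2
  have hce : CEp d G mu c := by
    refine ⟨hd, hM, hG1, hmu1, fun m => ?_⟩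
    have := hE 0 m
    rwa [Pd_zero, mul_one, add_zero] at this
  refine ⟨hce, fun n => ?_⟩
  have hP0 := hce.Pd_pos n
  have h3 : ∀ j ∈ Finset.range (n + 1), Pd d c j / ‖zz d c j‖ ≤
      G * d * 2 ^ (d - 2) * G * Pd d c n * (mu⁻¹) ^ (n - j) := by
    intro j hj
    rw [Finset.mem_range] at hj
    have hz0 : 0 < ‖zz d c j‖ := norm_pos_iff.2 (hce.zz_ne j)
    have hPj := hce.Pd_pos j
    have h4 : 1 / ‖zz d c j‖ ≤ G * d * 2 ^ (d - 2) := by
      have h5 := hE j 1
      rw [pow_one, show 1 + j = j + 1 by ring, Pd_succ] at h5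
      have h6 : mu ≤ G * (d * ‖zz d c j‖ ^ (d - 1)) := by
        by_contra hcon
        push Not at hcon
        nlinarith
      have h7 : ‖zz d c j‖ ^ (d - 1) ≤ ‖zz d c j‖ * 2 ^ (d - 2) := by
        rw [show d - 1 = (d - 2) + 1 by omega, pow_succ, mul_comm]
        exact mul_le_mul_of_nonneg_left (pow_le_pow_left₀ hz0.le (hM j) _) hz0.le
      rw [div_le_iff₀ hz0]
      calc (1 : ℝ) ≤ mu := hmu1.le
        _ ≤ _ := h6
        _ ≤ G * (d * (‖zz d c j‖ * 2 ^ (d - 2))) := by gcongr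
        _ = _ := by ring
    have h8 : Pd d c j ≤ G * Pd d c n * (mu⁻¹) ^ (n - j) := by
      have h9 := hE j (n - j)
      rw [show n - j + j = n by omega] at h9
      rw [inv_pow, ← div_eq_mul_inv, le_div_iff₀ (by positivity)]
      linarith
    calc Pd d c j / ‖zz d c j‖ = (1 / ‖zz d c j‖) * Pd d c j := by ring
      _ ≤ (G * d * 2 ^ (d - 2)) * (G * Pd d c n * (mu⁻¹) ^ (n - j)) := by gcongr
      _ = _ := by ring
  have h4 : ∑ j ∈ Finset.range (n + 1), (mu⁻¹) ^ (n - j) ≤ mu / (mu - 1) := by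
    have h5 : ∑ j ∈ Finset.range (n + 1), (mu⁻¹) ^ (n - j) =
        ∑ j ∈ Finset.range (n + 1), (mu⁻¹) ^ j := by
      rw [← Finset.sum_range_reflect (fun j => (mu⁻¹ : ℝ) ^ j) (n + 1)]
      refine Finset.sum_congr rfl fun j hj => ?_
      rw [Finset.mem_range] at hj
      congr 1
    rw [h5]
    have h2 : mu⁻¹ < 1 := inv_lt_one_of_one_lt₀ hmu1
    have h3 : Summable fun j : ℕ => (mu⁻¹) ^ j :=
      summable_geometric_of_lt_one (by positivity) h2
    refine (h3.sum_le_tsum _ fun j _ => by positivity).trans ?_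
    rw [tsum_geometric_of_lt_one (by positivity) h2]
    apply le_of_eq
    have h4 : mu - 1 ≠ 0 := by linarith
    have h5 : 1 - mu⁻¹ ≠ 0 := by
      intro h
      exact h2.ne (by linarith)
    rw [inv_eq_one_div, div_eq_div_iff h5 h4]
    field_simp
  refine (Finset.sum_le_sum h3).trans ?_
  rw [← Finset.mul_sum]
  calc G * d * 2 ^ (d - 2) * G * Pd d c n * ∑ j ∈ Finset.range (n + 1), (mu⁻¹) ^ (n - j) ≤
      G * d * 2 ^ (d - 2) * G * Pd d c n * (mu / (mu - 1)) := by gcongr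
    _ = Q * Pd d c n := by rw [hQ]; ring
    _ ≤ _ := by nlinarith

/-! ### The first time at which a family of sets meets the ball -/

/-- the smallest `n` for which `S n` meets the open ball -/
noncomputable def first {X : Type*} [PseudoMetricSpace X] (x₀ : X) (S : ℕ → Set X) (r : ℝ) : ℕ :=
  sInf {n : ℕ | ∃ a ∈ S n, dist a x₀ < r}

theorem infDist_le_gap {X : Type*} [PseudoMetricSpace X] {x₀ : X} {T : Set X} (hd : 2 ≤ d)
    (u : ℂ → X) (hu : ∀ c', dist (u c') x₀ ≤ ‖c' - c‖) {n : ℕ} (hn : 1 ≤ n)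
    (hT : u '' cen d n ⊆ T) : infDist x₀ T ≤ gap d c n := by
  refine le_of_forall_gt_imp_ge_of_dense fun t ht => ?_
  unfold gap at ht
  rw [infDist_lt_iff ⟨0, cen_zero hd hn⟩] at ht
  obtain ⟨c', h1, h2⟩ := ht
  refine (infDist_le_dist_of_mem (hT (mem_image_of_mem u h1))).trans ?_
  rw [dist_comm x₀]
  refine (hu c').trans ?_
  rw [dist_comm, dist_eq_norm] at h2
  exact h2.le

theorem first_lyap {X : Type*} [PseudoMetricSpace X] {x₀ : X} {S : ℕ → Set X} (hd : 2 ≤ d) {χ : ℝ}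
    (h : Lyap d χ c) (u : ℂ → X) (hu : ∀ c', dist (u c') x₀ ≤ ‖c' - c‖)
    (hS : ∀ n, u '' cen d n ⊆ S n) (h0 : S 0 = ∅)
    (b : Btw d c K fun n => infDist x₀ (S n)) :
    Tendsto (fun r : ℝ => -Real.log r / first x₀ S r) (𝓝[>] 0) (𝓝 χ) := by
  obtain ⟨⟨C₁, lam, hc⟩, -⟩ := Pool.Agent.Y674.CA.lya d χ c hd h
  have hgl := gap_tendsto hc
  have hne : ∀ n : ℕ, 1 ≤ n → (S n).Nonempty := fun n hn =>
    ⟨u 0, hS n (mem_image_of_mem u (cen_zero hd hn))⟩
  have hperlim := per_tendsto hd hgl fun n hn => gap_pos hc hn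
  -- basic properties
  have hle : ∀ r : ℝ, 0 < r → first x₀ S r ≤ per d c r ∧
      ∃ a ∈ S (first x₀ S r), dist a x₀ < r := by
    intro r hr
    have hmem : per d c r ∈ {n : ℕ | ∃ a ∈ S n, dist a x₀ < r} := by
      have h1 : per d c r ∈ {n : ℕ | ∃ c' ∈ cen d n, ‖c' - c‖ < r} := by
        apply Nat.sInf_mem
        obtain ⟨n, hn1, hn2⟩ :=
          ((hgl.eventually (gt_mem_nhds hr)).and (eventually_ge_atTop 1)).exists
        unfold gap at hn1
        rw [infDist_lt_iff ⟨0, cen_zero hd hn2⟩] at hn1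
        obtain ⟨c', h1, h2⟩ := hn1
        rw [dist_comm, dist_eq_norm] at h2
        exact ⟨n, c', h1, h2⟩
      obtain ⟨c', h2, h3⟩ := h1
      exact ⟨u c', hS _ (mem_image_of_mem u h2), (hu c').trans_lt h3⟩
    exact ⟨Nat.sInf_le hmem, Nat.sInf_mem ⟨_, hmem⟩⟩
  have hpos1 : ∀ r : ℝ, 0 < r → 1 ≤ first x₀ S r := by
    intro r hr
    obtain ⟨-, a, ha, -⟩ := hle r hr
    by_contra hcon
    have h1 : first x₀ S r = 0 := by omega
    rw [h1, h0] at ha
    exact ha
  have hDlt : ∀ r : ℝ, 0 < r → infDist x₀ (S (first x₀ S r)) < r := by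
    intro r hr
    obtain ⟨-, a, ha, h1⟩ := hle r hr
    rw [dist_comm] at h1
    exact (infDist_le_dist_of_mem ha).trans_lt h1
  have htend : Tendsto (first x₀ S) (𝓝[>] 0) atTop := by
    rw [Filter.tendsto_atTop]
    intro N
    have hmin : ∃ η : ℝ, 0 < η ∧ ∀ n ≤ N, η ≤ infDist x₀ (S (n + 1)) := by
      have h1 : ∀ n ∈ Finset.range (N + 1), 0 < infDist x₀ (S (n + 1)) := fun n _ => b.pos hc n
      obtain ⟨m, hm, hmin⟩ := Finset.exists_min_image (Finset.range (N + 1))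
        (fun n => infDist x₀ (S (n + 1))) ⟨0, Finset.mem_range.2 (by omega)⟩
      exact ⟨_, h1 m hm, fun n hn => hmin n (Finset.mem_range.2 (by omega))⟩
    obtain ⟨η, hη, H⟩ := hmin
    have h1 : ∀ᶠ r : ℝ in 𝓝[>] 0, r < η := mem_nhdsWithin_of_mem_nhds (gt_mem_nhds hη)
    filter_upwards [h1, self_mem_nhdsWithin] with r hr hr0
    by_contra hcon
    push Not at hcon
    obtain ⟨m, hm⟩ : ∃ m, first x₀ S r = m + 1 := ⟨first x₀ S r - 1, by
      have := hpos1 r hr0
      omega⟩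
    have h2 := hDlt r hr0
    rw [hm] at h2
    have h3 := H m (by omega)
    linarith
  have hup := (b.lyap hd h).comp htend
  have hlow := lyap_per hd h
  refine tendsto_of_tendsto_of_tendsto_of_le_of_le' hlow hup ?_ ?_
  · have h1 : ∀ᶠ r : ℝ in 𝓝[>] 0, r < 1 := mem_nhdsWithin_of_mem_nhds (gt_mem_nhds one_pos)
    filter_upwards [self_mem_nhdsWithin, h1] with r hr hr1
    have hr' : (0 : ℝ) < r := hr
    obtain ⟨h2, -⟩ := hle r hr'
    have h3 := hpos1 r hr'
    have h4 : (0 : ℝ) < first x₀ S r := by exact_mod_cast (by omega : 0 < first x₀ S r)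
    have h5 : (first x₀ S r : ℝ) ≤ per d c r := by exact_mod_cast h2
    have h6 : 0 ≤ -Real.log r := by
      have := Real.log_nonpos hr'.le hr1.le
      linarith
    gcongr
  · filter_upwards [self_mem_nhdsWithin] with r hr
    have hr' : (0 : ℝ) < r := hr
    have h3 := hpos1 r hr'
    have h4 : (0 : ℝ) < first x₀ S r := by exact_mod_cast (by omega : 0 < first x₀ S r)
    have h5 := hDlt r hr'
    have h6 : 0 < infDist x₀ (S (first x₀ S r)) := by
      obtain ⟨m, hm⟩ : ∃ m, first x₀ S r = m + 1 := ⟨first x₀ S r - 1, by omega⟩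
      rw [hm]
      exact b.pos hc m
    have h7 := Real.log_lt_log h6 h5
    show _ ≤ -Real.log (infDist x₀ (S (first x₀ S r))) / (first x₀ S r : ℝ)
    gcongr

end Pool.Agent.V1186.CN
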