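import Mathlib
import Pool.Agent.V1186.CN.Dist

/-!
# Holomorphic maps near a Collet-Eckmann unicritical polynomial have no short critical relations
-/

set_option autoImplicit false

open Set Filter Metric MeasureTheory Topology

namespace Pool.Agent.V1186.CN

open Pool.Agent.TH279.MD Pool.Agent.Y298.SH Pool.Agent.Y298.SH.CD Pool.Agent.Y298.CA
open Pool.Agent.H712R2 (P P_succ)

/-- comparison of the orbit of the critical value with a pseudo-orbit -/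
theorem pseudo_cmp {d : ℕ} (hd : 2 ≤ d) {c₀ : ℂ} {S δ : ℝ} {n : ℕ} {x : ℕ → ℂ} (hδ0 : 0 ≤ δ)
    (hx0 : ‖x 0 - c₀‖ ≤ δ) (hstep : ∀ j, ‖x j‖ ≤ 3 → ‖x (j + 1) - (x j ^ d + c₀)‖ ≤ δ)
    (hbd : ∀ j ≤ n, ‖zz d c₀ j‖ ≤ 2)
    (hpos : ∀ j ≤ n, 0 < Pd d c₀ j) (hz : ∀ j ≤ n, zz d c₀ j ≠ 0)
    (hS : ∑ j ∈ Finset.range (n + 1), (Pd d c₀ j)⁻¹ ≤ S)
    (hT : Real.exp 1 * S * δ * ∑ j ∈ Finset.range (n + 1), Pd d c₀ j / ‖zz d c₀ j‖ ≤ 1 / d) :
    ∀ j ≤ n, ‖x j - zz d c₀ j‖ ≤ Real.exp 1 * S * δ * Pd d c₀ j := by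
  have hdR : (2 : ℝ) ≤ d := by exact_mod_cast hd
  have hS0 : 0 ≤ S := by
    refine le_trans (Finset.sum_nonneg fun j hj => ?_) hS
    exact inv_nonneg.2 (Pd_nonneg d c₀ j)
  have hterm : ∀ j, 0 ≤ Pd d c₀ j / ‖zz d c₀ j‖ := fun j =>
    div_nonneg (Pd_nonneg d c₀ j) (norm_nonneg _)
  -- partial sums
  have hTj : ∀ j ≤ n + 1, Real.exp 1 * S * δ * ∑ i ∈ Finset.range j, Pd d c₀ i / ‖zz d c₀ i‖ ≤
      1 / d := by
    intro j hj
    refine le_trans ?_ hT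
    refine mul_le_mul_of_nonneg_left ?_ (by positivity)
    exact Finset.sum_le_sum_of_subset_of_nonneg (Finset.range_mono hj) fun i _ _ => hterm i
  have hSj : ∀ j ≤ n + 1, ∑ i ∈ Finset.range j, (Pd d c₀ i)⁻¹ ≤ S := by
    intro j hj
    refine le_trans ?_ hS
    exact Finset.sum_le_sum_of_subset_of_nonneg (Finset.range_mono hj) fun i _ _ =>
      inv_nonneg.2 (Pd_nonneg d c₀ i)
  have hone : ((d : ℝ) - 1) * (1 / d) ≤ 1 := by
    rw [mul_one_div, div_le_one (by linarith)]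
    linarith
  have hfin : ∀ j ≤ n, ‖x j - zz d c₀ j‖ ≤ Pd d c₀ j * δ *
      (∑ i ∈ Finset.range (j + 1), (Pd d c₀ i)⁻¹) *
      Real.exp (((d : ℝ) - 1) * (Real.exp 1 * S * δ *
        ∑ i ∈ Finset.range j, Pd d c₀ i / ‖zz d c₀ i‖)) →
      ‖x j - zz d c₀ j‖ ≤ Real.exp 1 * S * δ * Pd d c₀ j := by
    intro j hj h
    refine h.trans ?_
    have h1 := hTj j (by omega)
    have h2 : Real.exp (((d : ℝ) - 1) * (Real.exp 1 * S * δ *
        ∑ i ∈ Finset.range j, Pd d c₀ i / ‖zz d c₀ i‖)) ≤ Real.exp 1 := by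
      rw [Real.exp_le_exp]
      refine le_trans ?_ hone
      exact mul_le_mul_of_nonneg_left h1 (by linarith)
    have h3 := hSj (j + 1) (by omega)
    have h4 := (hpos j hj).le
    calc Pd d c₀ j * δ * (∑ i ∈ Finset.range (j + 1), (Pd d c₀ i)⁻¹) *
        Real.exp (((d : ℝ) - 1) * (Real.exp 1 * S * δ *
          ∑ i ∈ Finset.range j, Pd d c₀ i / ‖zz d c₀ i‖)) ≤
        Pd d c₀ j * δ * S * Real.exp 1 := by gcongr
      _ = _ := by ring
  have key : ∀ j ≤ n, ‖x j - zz d c₀ j‖ ≤ Pd d c₀ j * δ *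
      (∑ i ∈ Finset.range (j + 1), (Pd d c₀ i)⁻¹) *
      Real.exp (((d : ℝ) - 1) * (Real.exp 1 * S * δ *
        ∑ i ∈ Finset.range j, Pd d c₀ i / ‖zz d c₀ i‖)) := by
    intro j
    induction j with
    | zero =>
      intro _
      simp only [zz_zero, Pd_zero, zero_add, Finset.range_one, Finset.sum_singleton,
        Finset.range_zero, Finset.sum_empty, mul_zero, Real.exp_zero, one_mul, mul_one, inv_one]
      exact hx0
    | succ j ih =>
      intro hj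
      have ihj := ih (by omega)
      have hu := hfin j (by omega) ihj
      set u := ‖x j - zz d c₀ j‖ with hudef
      have hb := hz j (by omega)
      have hb0 : 0 < ‖zz d c₀ j‖ := norm_pos_iff.2 hb
      have hP0 := hpos j (by omega)
      have hP1 := hpos (j + 1) hj
      -- the pseudo-orbit is bounded
      have hx3 : ‖x j‖ ≤ 3 := by
        have h1 : Real.exp 1 * S * δ * (Pd d c₀ j / ‖zz d c₀ j‖) ≤ 1 / d := by
          refine le_trans ?_ hT
          refine mul_le_mul_of_nonneg_left ?_ (by positivity)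
          exact Finset.single_le_sum (f := fun j => Pd d c₀ j / ‖zz d c₀ j‖)
            (fun i _ => hterm i) (Finset.mem_range.2 (by omega))
        have h2 : u ≤ ‖zz d c₀ j‖ * (1 / d) := by
          calc u ≤ Real.exp 1 * S * δ * Pd d c₀ j := hu
            _ = ‖zz d c₀ j‖ * (Real.exp 1 * S * δ * (Pd d c₀ j / ‖zz d c₀ j‖)) := by
              field_simp
            _ ≤ _ := by gcongr
        have h3 := hbd j (by omega)
        have h4 : (1 : ℝ) / d ≤ 1 / 2 := one_div_le_one_div_of_le (by norm_num) hdR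
        have h5 : ‖x j‖ ≤ ‖zz d c₀ j‖ + u := by
          calc ‖x j‖ = ‖zz d c₀ j + (x j - zz d c₀ j)‖ := by congr 1; ring
            _ ≤ _ := norm_add_le _ _
        have h6 : ‖zz d c₀ j‖ * (1 / d) ≤ 2 * (1 / 2) :=
          mul_le_mul h3 h4 (by positivity) (by norm_num)
        linarith
      set T := ∑ i ∈ Finset.range j, Pd d c₀ i / ‖zz d c₀ i‖ with hTdef
      set Sj := ∑ i ∈ Finset.range (j + 1), (Pd d c₀ i)⁻¹ with hSjdef
      have hSj0 : 0 ≤ Sj := Finset.sum_nonneg fun i _ => inv_nonneg.2 (Pd_nonneg d c₀ i)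
      have h1 : ‖x (j + 1) - zz d c₀ (j + 1)‖ ≤ d * ‖zz d c₀ j‖ ^ (d - 1) * u *
          Real.exp (((d : ℝ) - 1) * (u / ‖zz d c₀ j‖)) + δ := by
        rw [zz_succ]
        have h2 : x (j + 1) - (zz d c₀ j ^ d + c₀) =
            (x j ^ d - zz d c₀ j ^ d) + (x (j + 1) - (x j ^ d + c₀)) := by ring
        rw [h2]
        exact (norm_add_le _ _).trans (add_le_add (pow_sub_le hb d) (hstep j hx3))
      have h2 : u / ‖zz d c₀ j‖ ≤ Real.exp 1 * S * δ * (Pd d c₀ j / ‖zz d c₀ j‖) := by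
        rw [← mul_div_assoc]
        gcongr
      have h3 : Real.exp (((d : ℝ) - 1) * (u / ‖zz d c₀ j‖)) ≤
          Real.exp (((d : ℝ) - 1) * (Real.exp 1 * S * δ * (Pd d c₀ j / ‖zz d c₀ j‖))) := by
        rw [Real.exp_le_exp]
        exact mul_le_mul_of_nonneg_left h2 (by linarith)
      set E := Real.exp (((d : ℝ) - 1) * (Real.exp 1 * S * δ *
        ∑ i ∈ Finset.range (j + 1), Pd d c₀ i / ‖zz d c₀ i‖)) with hE
      have h4 : Real.exp (((d : ℝ) - 1) * (Real.exp 1 * S * δ * T)) *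
          Real.exp (((d : ℝ) - 1) * (Real.exp 1 * S * δ * (Pd d c₀ j / ‖zz d c₀ j‖))) = E := by
        rw [← Real.exp_add, hE, Finset.sum_range_succ]
        congr 1
        ring
      have hE1 : 1 ≤ E := by
        rw [hE]
        apply Real.one_le_exp
        apply mul_nonneg (by linarith)
        apply mul_nonneg (by positivity)
        exact Finset.sum_nonneg fun i _ => hterm i
      have h5 : d * ‖zz d c₀ j‖ ^ (d - 1) * u * Real.exp (((d : ℝ) - 1) * (u / ‖zz d c₀ j‖)) ≤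
          Pd d c₀ (j + 1) * δ * Sj * E := by
        calc d * ‖zz d c₀ j‖ ^ (d - 1) * u * Real.exp (((d : ℝ) - 1) * (u / ‖zz d c₀ j‖)) ≤
            d * ‖zz d c₀ j‖ ^ (d - 1) * (Pd d c₀ j * δ * Sj *
              Real.exp (((d : ℝ) - 1) * (Real.exp 1 * S * δ * T))) *
              Real.exp (((d : ℝ) - 1) * (Real.exp 1 * S * δ * (Pd d c₀ j / ‖zz d c₀ j‖))) := by
              gcongr
          _ = (d * ‖zz d c₀ j‖ ^ (d - 1) * Pd d c₀ j) * δ * Sj *
              (Real.exp (((d : ℝ) - 1) * (Real.exp 1 * S * δ * T)) *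
              Real.exp (((d : ℝ) - 1) * (Real.exp 1 * S * δ * (Pd d c₀ j / ‖zz d c₀ j‖)))) := by
              ring
          _ = _ := by rw [h4, ← Pd_succ]
      have h6 : δ ≤ Pd d c₀ (j + 1) * δ * (Pd d c₀ (j + 1))⁻¹ * E := by
        have h7 : Pd d c₀ (j + 1) * δ * (Pd d c₀ (j + 1))⁻¹ = δ := by
          field_simp
        rw [h7]
        exact le_mul_of_one_le_right hδ0 hE1
      rw [Finset.sum_range_succ]
      calc ‖x (j + 1) - zz d c₀ (j + 1)‖ ≤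
          Pd d c₀ (j + 1) * δ * Sj * E + Pd d c₀ (j + 1) * δ * (Pd d c₀ (j + 1))⁻¹ * E :=
            h1.trans (add_le_add h5 h6)
        _ = _ := by ring
  exact fun j hj => hfin j hj (key j hj)

/-- the critical points of a nearby holomorphic map -/
theorem crit_near {d : ℕ} (hd : 2 ≤ d) {c₀ : ℂ} {g : ℂ → ℂ} {r : ℝ}
    (hg : DifferentiableOn ℂ g (ball 0 4)) (hr : ∀ z ∈ ball (0 : ℂ) 4, ‖g z - (z ^ d + c₀)‖ ≤ r)
    {w : ℂ} (hw : ‖w‖ ≤ 3) (hcw : deriv g w = 0) :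
    ‖w‖ ^ (d - 1) ≤ r ∧ ‖g w - c₀‖ ≤ 4 * r := by
  have hdR : (2 : ℝ) ≤ d := by exact_mod_cast hd
  have hw4 : w ∈ ball (0 : ℂ) 4 := by rw [mem_ball_zero_iff]; linarith
  have hr0 : 0 ≤ r := (norm_nonneg _).trans (hr w hw4)
  have hsub : closedBall w (1 / 2) ⊆ ball (0 : ℂ) 4 := by
    intro z hz
    rw [mem_closedBall, dist_eq_norm] at hz
    rw [mem_ball_zero_iff]
    calc ‖z‖ = ‖w + (z - w)‖ := by congr 1; ring
      _ ≤ ‖w‖ + ‖z - w‖ := norm_add_le _ _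
      _ < 4 := by linarith
  have hdiff : DifferentiableOn ℂ (fun z => g z - (z ^ d + c₀)) (ball 0 4) :=
    hg.sub (by fun_prop)
  have h1 : ‖deriv (fun z => g z - (z ^ d + c₀)) w‖ ≤ r / (1 / 2) := by
    apply Complex.norm_deriv_le_of_forall_mem_sphere_norm_le (by norm_num)
    · apply DifferentiableOn.diffContOnCl
      rw [closure_ball _ (by norm_num)]
      exact hdiff.mono hsub
    · intro z hz
      exact hr z (hsub (sphere_subset_closedBall hz))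
  have h2 : deriv (fun z => g z - (z ^ d + c₀)) w = -(d * w ^ (d - 1)) := by
    have h3 : HasDerivAt g 0 w := by
      have := (hg.differentiableAt (isOpen_ball.mem_nhds hw4)).hasDerivAt
      rwa [hcw] at this
    have h4 : HasDerivAt (fun z : ℂ => z ^ d + c₀) (d * w ^ (d - 1)) w := by
      simpa using (hasDerivAt_pow d w).add_const c₀
    have h5 := (h3.sub h4).deriv
    rw [zero_sub] at h5
    exact h5
  rw [h2, norm_neg, norm_mul, norm_pow, Complex.norm_natCast] at h1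
  have h3 : ‖w‖ ^ (d - 1) ≤ r := by
    have h4 : 0 ≤ ‖w‖ ^ (d - 1) := by positivity
    nlinarith
  refine ⟨h3, ?_⟩
  have h4 : ‖w ^ d‖ ≤ 3 * r := by
    rw [norm_pow]
    calc ‖w‖ ^ d = ‖w‖ ^ (d - 1) * ‖w‖ := by rw [← pow_succ]; congr 1; omega
      _ ≤ r * 3 := mul_le_mul h3 hw (norm_nonneg _) hr0
      _ = 3 * r := by ring
  calc ‖g w - c₀‖ = ‖(g w - (w ^ d + c₀)) + w ^ d‖ := by congr 1; ring
    _ ≤ ‖g w - (w ^ d + c₀)‖ + ‖w ^ d‖ := norm_add_le _ _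
    _ ≤ r + 3 * r := add_le_add (hr w hw4) h4
    _ = 4 * r := by ring

/-- the constant -/
noncomputable def kapp (d : ℕ) (C₁ lam : ℝ) : ℝ :=
  min (kap d C₁ lam / 8) (1 / (3 * C₁ * d * 2 ^ (d - 1)))

theorem kapp_pos {d : ℕ} {C₁ lam : ℝ} (hd : 2 ≤ d) (hC : 1 ≤ C₁) (hl : 1 < lam) :
    0 < kapp d C₁ lam := by
  have hdR : (2 : ℝ) ≤ d := by exact_mod_cast hd
  have h1 := kap_pos hd hC hl
  unfold kapp
  apply lt_min (by positivity)
  have : 0 < C₁ := by linarith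
  positivity

/-- the orbit of a critical point near zero stays in the disc and meets no critical point up to the
time `n + 1` -/
theorem no_relation {d : ℕ} {C₁ lam : ℝ} {c₀ : ℂ} (h : CEp d C₁ lam c₀) {g : ℂ → ℂ} {r : ℝ}
    (hg : DifferentiableOn ℂ g (ball 0 4)) (hr : ∀ z ∈ ball (0 : ℂ) 4, ‖g z - (z ^ d + c₀)‖ ≤ r)
    {w : ℂ} (hw : ‖w‖ ≤ 3) (hcw : deriv g w = 0)
    {n : ℕ} (hT : r * ∑ j ∈ Finset.range (n + 1), Pd d c₀ j / ‖zz d c₀ j‖ ≤ kapp d C₁ lam) :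
    ∀ j ≤ n, ‖g^[j + 1] w‖ ≤ 3 ∧ deriv g (g^[j + 1] w) ≠ 0 := by
  have hd := h.hd
  have hdR : (2 : ℝ) ≤ d := by exact_mod_cast hd
  have hl := h.lam1
  have hC := h.C1
  have hl0 : 0 < lam := by linarith
  have hC0 : 0 < C₁ := by linarith
  have he := Real.exp_pos 1
  obtain ⟨hw1, hw2⟩ := crit_near hd hg hr hw hcw
  have hr0 : 0 ≤ r := (by positivity : 0 ≤ ‖w‖ ^ (d - 1)).trans hw1
  set SS := ∑ j ∈ Finset.range (n + 1), Pd d c₀ j / ‖zz d c₀ j‖ with hSS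
  set S := C₁ * lam / (lam - 1) with hS
  have hlm : 0 < lam - 1 := by linarith
  have hS0 : 0 ≤ S := by positivity
  have hTn : Real.exp 1 * S * (4 * r) * SS ≤ 1 / (2 * d) := by
    have h1 : r * SS ≤ kap d C₁ lam / 8 := hT.trans (min_le_left _ _)
    calc Real.exp 1 * S * (4 * r) * SS = Real.exp 1 * S * 4 * (r * SS) := by ring
      _ ≤ Real.exp 1 * S * 4 * (kap d C₁ lam / 8) := by gcongr
      _ = _ := by
        unfold kap
        rw [hS]
        field_simp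
        norm_num
  have hTn' : Real.exp 1 * S * (4 * r) * SS ≤ 1 / d := by
    refine hTn.trans ?_
    apply one_div_le_one_div_of_le (by linarith)
    linarith
  have hcmp := pseudo_cmp (x := fun j => g^[j + 1] w) (δ := 4 * r) (n := n) hd (by positivity)
    (by simpa using hw2) (fun j hj => by
      have h1 : g^[j + 1] w ∈ ball (0 : ℂ) 4 := by
        rw [mem_ball_zero_iff]
        exact lt_of_le_of_lt hj (by norm_num)
      have h2 := hr _ h1
      show ‖g^[j + 1 + 1] w - ((g^[j + 1] w) ^ d + c₀)‖ ≤ 4 * r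
      rw [Function.iterate_succ_apply' g (j + 1)]
      linarith)
    (fun j _ => h.bd j) (fun j _ => h.Pd_pos j) (fun j _ => h.zz_ne j) (sum_inv_le h (n + 1)) hTn'
  intro j hj
  have h1 := hcmp j hj
  set w' := g^[j + 1] w with hw'def
  have hb0 : 0 < ‖zz d c₀ j‖ := norm_pos_iff.2 (h.zz_ne j)
  have hPj := h.Pd_pos j
  have h2 : Pd d c₀ j / ‖zz d c₀ j‖ ≤ SS :=
    Finset.single_le_sum (f := fun j => Pd d c₀ j / ‖zz d c₀ j‖)
      (fun i _ => div_nonneg (Pd_nonneg d c₀ i) (norm_nonneg _)) (Finset.mem_range.2 (by omega))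
  have h3 : ‖w' - zz d c₀ j‖ ≤ ‖zz d c₀ j‖ * (1 / (2 * d)) := by
    calc ‖w' - zz d c₀ j‖ ≤ Real.exp 1 * S * (4 * r) * Pd d c₀ j := h1
      _ = ‖zz d c₀ j‖ * (Real.exp 1 * S * (4 * r) * (Pd d c₀ j / ‖zz d c₀ j‖)) := by field_simp
      _ ≤ ‖zz d c₀ j‖ * (Real.exp 1 * S * (4 * r) * SS) := by gcongr
      _ ≤ _ := by gcongr
  have h50 : (1 : ℝ) / (2 * d) ≤ 1 / 2 := one_div_le_one_div_of_le (by norm_num) (by linarith)
  have hbd := h.bd j
  have hw' : ‖w'‖ ≤ 3 := by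
    have h6 : ‖w'‖ ≤ ‖zz d c₀ j‖ + ‖w' - zz d c₀ j‖ := by
      calc ‖w'‖ = ‖zz d c₀ j + (w' - zz d c₀ j)‖ := by congr 1; ring
        _ ≤ _ := norm_add_le _ _
    nlinarith
  refine ⟨hw', fun hcw' => ?_⟩
  obtain ⟨hw1', -⟩ := crit_near hd hg hr hw' hcw'
  have h4 : ‖zz d c₀ j‖ ≤ 2 * ‖w'‖ := by
    have h6 : ‖zz d c₀ j‖ ≤ ‖w'‖ + ‖w' - zz d c₀ j‖ := by
      calc ‖zz d c₀ j‖ = ‖w' - (w' - zz d c₀ j)‖ := by congr 1; ring
        _ ≤ _ := norm_sub_le _ _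
    nlinarith
  have h5 : ‖zz d c₀ j‖ ^ (d - 1) ≤ 2 ^ (d - 1) * r := by
    calc ‖zz d c₀ j‖ ^ (d - 1) ≤ (2 * ‖w'‖) ^ (d - 1) := by gcongr
      _ = 2 ^ (d - 1) * ‖w'‖ ^ (d - 1) := mul_pow _ _ _
      _ ≤ _ := by gcongr
  -- the next derivative is not small
  have h6 := h.exp (j + 1)
  rw [Pd_succ] at h6
  have h7 : 1 < lam ^ (j + 1) := one_lt_pow₀ hl (by omega)
  have h8 : 1 < C₁ * (d * (2 ^ (d - 1) * r) * Pd d c₀ j) := by
    refine h7.trans_le (h6.trans ?_)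
    gcongr
  have h9 : Pd d c₀ j ≤ 2 * (Pd d c₀ j / ‖zz d c₀ j‖) := by
    rw [← mul_div_assoc, le_div_iff₀ hb0]
    nlinarith
  have h10 : r * SS ≤ 1 / (3 * C₁ * d * 2 ^ (d - 1)) := hT.trans (min_le_right _ _)
  have h11 : C₁ * (d * (2 ^ (d - 1) * r) * Pd d c₀ j) ≤
      2 * C₁ * d * 2 ^ (d - 1) * (r * SS) := by
    calc C₁ * (d * (2 ^ (d - 1) * r) * Pd d c₀ j) ≤
        C₁ * (d * (2 ^ (d - 1) * r) * (2 * SS)) := by
          have : Pd d c₀ j ≤ 2 * SS := h9.trans (by linarith)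
          gcongr
      _ = _ := by ring
  have h12 : 2 * C₁ * d * 2 ^ (d - 1) * (r * SS) ≤ 2 / 3 := by
    calc 2 * C₁ * d * 2 ^ (d - 1) * (r * SS) ≤
        2 * C₁ * d * 2 ^ (d - 1) * (1 / (3 * C₁ * d * 2 ^ (d - 1))) := by gcongr
      _ = 2 / 3 := by field_simp
  linarith

end Pool.Agent.V1186.CN
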