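import Mathlib
import Pool.Agent.V1186.CN.Cons
import Pool.Agent.V1186.CN.Hol
import Pool.Agent.Y811.CA.PS
import Pool.Agent.Y932.CA.ME

/-!
# The cycles of the maps near a unicritical polynomial: products of derivatives, expansion away from
the critical point
-/

set_option autoImplicit false

open Set Filter Metric MeasureTheory Topology

namespace Pool.Agent.V1186.CN

open Pool.Agent.TH279.MD Pool.Agent.Y298.SH Pool.Agent.Y298.SH.CD Pool.Agent.Y298.CA
open Pool.Agent.H712R2 (P P_succ)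

variable {d : ℕ} {χ : ℝ} {c₀ : ℂ}

/-- `g` is holomorphic on the disc of radius `4` and `r`-close to `z ^ d + c₀` there. -/
def Near (d : ℕ) (c₀ : ℂ) (g : ℂ → ℂ) (r : ℝ) : Prop :=
  DifferentiableOn ℂ g (ball 0 4) ∧ ∀ z ∈ ball (0 : ℂ) 4, ‖g z - (z ^ d + c₀)‖ ≤ r

/-- The product of the derivatives along the orbit. -/
noncomputable def mu (g : ℂ → ℂ) (z : ℂ) (n : ℕ) : ℂ := ∏ i ∈ Finset.range n, deriv g (g^[i] z)

theorem mu_zero (g : ℂ → ℂ) (z : ℂ) : mu g z 0 = 1 := by simp [mu]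

theorem mu_succ (g : ℂ → ℂ) (z : ℂ) (n : ℕ) : mu g z (n + 1) = mu g z n * deriv g (g^[n] z) := by
  unfold mu
  rw [Finset.prod_range_succ]

theorem mu_add (g : ℂ → ℂ) (z : ℂ) (m n : ℕ) : mu g z (m + n) = mu g z m * mu g (g^[m] z) n := by
  unfold mu
  rw [Finset.prod_range_add]
  congr 1
  refine Finset.prod_congr rfl fun i _ => ?_
  rw [← Function.iterate_add_apply, add_comm]

theorem mu_one (g : ℂ → ℂ) (z : ℂ) : mu g z 1 = deriv g z := by simp [mu]

theorem mu_rot (g : ℂ → ℂ) (z : ℂ) {p : ℕ} (h : g^[p] z = z) : mu g (g z) p = mu g z p := by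
  rcases p with _ | q
  · rw [mu_zero, mu_zero]
  · unfold mu
    rw [Finset.prod_range_succ, Finset.prod_range_succ']
    have h1 : g^[q] (g z) = z := by
      rw [← Function.iterate_succ_apply]
      exact h
    rw [h1]
    congr 1

theorem iter_cyc {g : ℂ → ℂ} {z : ℂ} {p : ℕ} (h : g^[p] z = z) (i : ℕ) :
    g^[p] (g^[i] z) = g^[i] z := by
  rw [← Function.iterate_add_apply, add_comm, Function.iterate_add_apply, h]

theorem mu_rot' (g : ℂ → ℂ) (z : ℂ) {p : ℕ} (h : g^[p] z = z) (i : ℕ) :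
    mu g (g^[i] z) p = mu g z p := by
  induction i with
  | zero => rfl
  | succ i ih =>
    rw [Function.iterate_succ_apply', mu_rot g _ (iter_cyc h i), ih]

theorem mu_mul {g : ℂ → ℂ} {z : ℂ} {p : ℕ} (h : g^[p] z = z) (q s : ℕ) :
    mu g z (p * q + s) = mu g z p ^ q * mu g z s := by
  induction q with
  | zero => simp
  | succ q ih =>
    have h1 : p * (q + 1) + s = p + (p * q + s) := by ring
    rw [h1, mu_add, h, ih]
    ring

theorem hasDerivAt_iter {g : ℂ → ℂ} {z : ℂ} {n : ℕ} (h : ∀ i < n, DifferentiableAt ℂ g (g^[i] z)) :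
    HasDerivAt (g^[n]) (mu g z n) z := by
  induction n with
  | zero =>
    rw [mu_zero]
    exact hasDerivAt_id z
  | succ n ih =>
    rw [mu_succ, Function.iterate_succ', mul_comm]
    exact (h n (by omega)).hasDerivAt.comp z (ih fun i hi => h i (by omega))

theorem mu_f (d : ℕ) (c z : ℂ) (n : ℕ) : mu (f d c) z n = deriv ((f d c)^[n]) z := by
  have h1 : Differentiable ℂ (f d c) := by
    unfold f
    fun_prop
  exact (hasDerivAt_iter fun i _ => h1 _).deriv.symm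

theorem deriv_f' (d : ℕ) (c z : ℂ) : deriv (f d c) z = d * z ^ (d - 1) := by
  have h1 : HasDerivAt (f d c) (d * z ^ (d - 1)) z := by
    unfold f
    simpa using (hasDerivAt_pow d z).add_const c
  exact h1.deriv

theorem Near.nonneg {g : ℂ → ℂ} {r : ℝ} (h : Near d c₀ g r) : 0 ≤ r :=
  (norm_nonneg _).trans (h.2 0 (mem_ball_self (by norm_num)))

theorem Near.diffAt {g : ℂ → ℂ} {r : ℝ} (h : Near d c₀ g r) {z : ℂ} (hz : ‖z‖ ≤ 3) :
    DifferentiableAt ℂ g z :=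
  h.1.differentiableAt (isOpen_ball.mem_nhds (by
    rw [mem_ball_zero_iff]
    linarith))

theorem Near.deriv {g : ℂ → ℂ} {r : ℝ} (h : Near d c₀ g r) {z : ℂ} (hz : ‖z‖ ≤ 3) :
    ‖deriv g z - d * z ^ (d - 1)‖ ≤ 2 * r := by
  have hz4 : z ∈ ball (0 : ℂ) 4 := by rw [mem_ball_zero_iff]; linarith
  have hsub : closedBall z (1 / 2) ⊆ ball (0 : ℂ) 4 := by
    intro w hw
    rw [mem_closedBall, dist_eq_norm] at hw
    rw [mem_ball_zero_iff]
    calc ‖w‖ = ‖z + (w - z)‖ := by congr 1; ring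
      _ ≤ ‖z‖ + ‖w - z‖ := norm_add_le _ _
      _ < 4 := by linarith
  have hdiff : DifferentiableOn ℂ (fun w => g w - (w ^ d + c₀)) (ball 0 4) :=
    h.1.sub (by fun_prop)
  have h1 : ‖_root_.deriv (fun w => g w - (w ^ d + c₀)) z‖ ≤ r / (1 / 2) := by
    apply Complex.norm_deriv_le_of_forall_mem_sphere_norm_le (by norm_num)
    · apply DifferentiableOn.diffContOnCl
      rw [closure_ball _ (by norm_num)]
      exact hdiff.mono hsub
    · intro w hw
      exact h.2 w (hsub (sphere_subset_closedBall hw))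
  have h2 : _root_.deriv (fun w => g w - (w ^ d + c₀)) z = _root_.deriv g z - d * z ^ (d - 1) := by
    have h3 := (h.diffAt hz).hasDerivAt
    have h4 : HasDerivAt (fun w : ℂ => w ^ d + c₀) (d * z ^ (d - 1)) z := by
      simpa using (hasDerivAt_pow d z).add_const c₀
    exact (h3.sub h4).deriv
  rw [h2] at h1
  linarith

theorem pow_lip (k : ℕ) {R : ℝ} {a b : ℂ} (ha : ‖a‖ ≤ R) (hb : ‖b‖ ≤ R) :
    ‖a ^ k - b ^ k‖ ≤ k * R ^ (k - 1) * ‖a - b‖ := by
  rw [← (Commute.all a b).mul_geom_sum₂ k, norm_mul, mul_comm]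
  refine mul_le_mul_of_nonneg_right ?_ (norm_nonneg _)
  have hR : 0 ≤ R := (norm_nonneg _).trans ha
  have h2 : ∀ i ∈ Finset.range k, ‖a ^ i * b ^ (k - 1 - i)‖ ≤ R ^ (k - 1) := by
    intro i hi
    rw [Finset.mem_range] at hi
    rw [norm_mul, norm_pow, norm_pow]
    calc ‖a‖ ^ i * ‖b‖ ^ (k - 1 - i) ≤ R ^ i * R ^ (k - 1 - i) := by gcongr
      _ = _ := by rw [← pow_add]; congr 1; omega
  refine (norm_sum_le _ _).trans ((Finset.sum_le_sum h2).trans ?_)
  rw [Finset.sum_const, Finset.card_range, nsmul_eq_mul]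

/-- closeness of finitely many iterates -/
theorem close_ex (n : ℕ) : ∃ C : ℝ, 0 ≤ C ∧ ∀ (g : ℂ → ℂ) (r : ℝ),
    Near d c₀ g r → r ≤ 1 → ∀ z : ℂ, (∀ i < n, ‖g^[i] z‖ ≤ 3) → (n = 0 → ‖z‖ ≤ 3) →
    ‖g^[n] z - (f d c₀)^[n] z‖ ≤ C * r ∧ ‖mu g z n - mu (f d c₀) z n‖ ≤ C * r ∧
      ‖mu g z n‖ ≤ C := by
  induction n with
  | zero =>
    refine ⟨1, zero_le_one, fun g r h _ z _ _ => ?_⟩
    have hr := h.nonneg
    simp only [Function.iterate_zero, id_eq, sub_self, norm_zero, mu_zero, norm_one, one_mul]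
    exact ⟨hr, hr, le_rfl⟩
  | succ n ih =>
    obtain ⟨C, hC, H⟩ := ih
    refine ⟨(1 + d * (3 + C) ^ (d - 1) * C) + (C * (d * (3 + C) ^ (d - 1)) +
      C * (2 + d * (((d - 1 : ℕ) : ℝ) * (3 + C) ^ (d - 1 - 1) * C))) + C * (d * 3 ^ (d - 1) + 2),
      by positivity, ?_⟩
    intro g r h hr1 z hz _
    have hr := h.nonneg
    obtain ⟨h1, h2, h3⟩ := H g r h hr1 z (fun i hi => hz i (by omega)) (by
      rintro rfl
      exact hz 0 (by omega))
    set x := g^[n] z with hx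
    set y := (f d c₀)^[n] z with hy
    have hx3 : ‖x‖ ≤ 3 := hz n (by omega)
    have hx4 : x ∈ ball (0 : ℂ) 4 := by rw [mem_ball_zero_iff]; linarith
    have hCr : C * r ≤ C := by nlinarith
    have hyC : ‖y‖ ≤ 3 + C := by
      calc ‖y‖ = ‖x - (x - y)‖ := by congr 1; ring
        _ ≤ ‖x‖ + ‖x - y‖ := norm_sub_le _ _
        _ ≤ _ := by linarith
    have hxC : ‖x‖ ≤ 3 + C := by linarith
    have e1 : ‖g^[n + 1] z - (f d c₀)^[n + 1] z‖ ≤ (1 + d * (3 + C) ^ (d - 1) * C) * r := by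
      rw [Function.iterate_succ_apply', Function.iterate_succ_apply', ← hx, ← hy]
      have h4 : g x - f d c₀ y = (g x - (x ^ d + c₀)) + (x ^ d - y ^ d) := by
        unfold f
        ring
      rw [h4]
      calc ‖(g x - (x ^ d + c₀)) + (x ^ d - y ^ d)‖ ≤
          ‖g x - (x ^ d + c₀)‖ + ‖x ^ d - y ^ d‖ := norm_add_le _ _
        _ ≤ r + d * (3 + C) ^ (d - 1) * (C * r) := by
          refine add_le_add (h.2 x hx4) ((pow_lip d hxC hyC).trans ?_)
          gcongr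
        _ = _ := by ring
    have e3 : ‖_root_.deriv g x‖ ≤ d * 3 ^ (d - 1) + 2 := by
      have h5 := h.deriv hx3
      calc ‖_root_.deriv g x‖ = ‖(d * x ^ (d - 1)) + (_root_.deriv g x - d * x ^ (d - 1))‖ := by
            congr 1; ring
        _ ≤ ‖(d : ℂ) * x ^ (d - 1)‖ + ‖_root_.deriv g x - d * x ^ (d - 1)‖ := norm_add_le _ _
        _ ≤ d * 3 ^ (d - 1) + 2 * 1 := by
          rw [norm_mul, norm_pow, Complex.norm_natCast]
          refine add_le_add ?_ (h5.trans (by linarith))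
          gcongr
        _ = _ := by ring
    have e2 : ‖mu g z (n + 1) - mu (f d c₀) z (n + 1)‖ ≤ (C * (d * (3 + C) ^ (d - 1)) +
        C * (2 + d * (((d - 1 : ℕ) : ℝ) * (3 + C) ^ (d - 1 - 1) * C))) * r := by
      rw [mu_succ, mu_succ, ← hx, ← hy]
      have h4 : mu g z n * _root_.deriv g x - mu (f d c₀) z n * _root_.deriv (f d c₀) y =
          (mu g z n - mu (f d c₀) z n) * _root_.deriv (f d c₀) y +
            mu g z n * (_root_.deriv g x - _root_.deriv (f d c₀) y) := by ring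
      rw [h4]
      have h5 : ‖_root_.deriv (f d c₀) y‖ ≤ d * (3 + C) ^ (d - 1) := by
        rw [deriv_f', norm_mul, norm_pow, Complex.norm_natCast]
        gcongr
      have h6 : ‖_root_.deriv g x - _root_.deriv (f d c₀) y‖ ≤
          (2 + d * (((d - 1 : ℕ) : ℝ) * (3 + C) ^ (d - 1 - 1) * C)) * r := by
        rw [deriv_f']
        have h7 : _root_.deriv g x - d * y ^ (d - 1) =
            (_root_.deriv g x - d * x ^ (d - 1)) + d * (x ^ (d - 1) - y ^ (d - 1)) := by ring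
        rw [h7]
        calc ‖(_root_.deriv g x - d * x ^ (d - 1)) + d * (x ^ (d - 1) - y ^ (d - 1))‖ ≤
            ‖_root_.deriv g x - d * x ^ (d - 1)‖ + ‖(d : ℂ) * (x ^ (d - 1) - y ^ (d - 1))‖ :=
              norm_add_le _ _
          _ ≤ 2 * r + d * (((d - 1 : ℕ) : ℝ) * (3 + C) ^ (d - 1 - 1) * (C * r)) := by
            rw [norm_mul, Complex.norm_natCast]
            refine add_le_add (h.deriv hx3) ?_
            refine mul_le_mul_of_nonneg_left ((pow_lip (d - 1) hxC hyC).trans ?_) (by positivity)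
            gcongr
          _ = _ := by ring
      calc ‖(mu g z n - mu (f d c₀) z n) * _root_.deriv (f d c₀) y +
            mu g z n * (_root_.deriv g x - _root_.deriv (f d c₀) y)‖ ≤
          ‖mu g z n - mu (f d c₀) z n‖ * ‖_root_.deriv (f d c₀) y‖ +
            ‖mu g z n‖ * ‖_root_.deriv g x - _root_.deriv (f d c₀) y‖ := by
            refine (norm_add_le _ _).trans (le_of_eq ?_)
            rw [norm_mul, norm_mul]
        _ ≤ (C * r) * (d * (3 + C) ^ (d - 1)) +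
            C * ((2 + d * (((d - 1 : ℕ) : ℝ) * (3 + C) ^ (d - 1 - 1) * C)) * r) := by
            gcongr
        _ = _ := by ring
    have e4 : ‖mu g z (n + 1)‖ ≤ C * (d * 3 ^ (d - 1) + 2) := by
      rw [mu_succ, norm_mul, ← hx]
      gcongr
    have p1 : (0 : ℝ) ≤ 1 + d * (3 + C) ^ (d - 1) * C := by positivity
    have p2 : (0 : ℝ) ≤ C * (d * (3 + C) ^ (d - 1)) +
        C * (2 + d * (((d - 1 : ℕ) : ℝ) * (3 + C) ^ (d - 1 - 1) * C)) := by positivity
    have p3 : (0 : ℝ) ≤ C * (d * 3 ^ (d - 1) + 2) := by positivity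
    refine ⟨e1.trans ?_, e2.trans ?_, e4.trans ?_⟩
    · apply mul_le_mul_of_nonneg_right _ hr
      linarith
    · apply mul_le_mul_of_nonneg_right _ hr
      linarith
    · linarith

/-- expansion away from the critical point -/
theorem outside {C₁ lam : ℝ} (h : CEp d C₁ lam c₀) : ∃ ρ₀ G : ℝ, 0 < ρ₀ ∧ 1 ≤ G ∧
    ∀ δ : ℝ, 0 < δ → δ ≤ ρ₀ → ∃ (N : ℕ) (e : ℝ), 1 ≤ N ∧ 0 < e ∧ ∀ (g : ℂ → ℂ) (r : ℝ),
      Near d c₀ g r → r ≤ e → ∀ z : ℂ, (∀ i, ‖g^[i] z‖ ≤ 3) →
        ((∀ i < N, δ ≤ ‖g^[i] z‖) → 2 ≤ ‖mu g z N‖) ∧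
        ∀ n : ℕ, (∀ i < n, δ ≤ ‖g^[i] z‖) → ‖g^[n] z‖ ≤ δ →
          2 ^ (n / N) ≤ G * ‖mu g z n‖ := by
  have hd := h.hd
  obtain ⟨ρ₁, Γ₀, hρ₁, hΓ₀, hsum⟩ := Pool.Agent.Y811.CA.psi_sum3 h
  obtain ⟨ρ₂, _, hρ₂, _, hps⟩ := Pool.Agent.Y811.CA.ps d C₁ lam c₀ h
  set Γ : ℝ := Γ₀ + 1 with hΓ
  have hΓ1 : 1 ≤ Γ := by linarith
  refine ⟨min (min ρ₁ ρ₂) 1, 2 * Γ, lt_min (lt_min hρ₁ hρ₂) one_pos, by linarith, ?_⟩
  intro δ hδ hδρ
  have hδ1 : δ ≤ ρ₁ := hδρ.trans ((min_le_left _ _).trans (min_le_left _ _))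
  have hδ2 : δ ≤ ρ₂ := hδρ.trans ((min_le_left _ _).trans (min_le_right _ _))
  have hδ3 : δ ≤ 1 := hδρ.trans (min_le_right _ _)
  set δ' : ℝ := 2 / 5 * δ with hδ'
  have hδ'0 : 0 < δ' := by positivity
  obtain ⟨A', -, hA'⟩ := hps δ' hδ'0 (by rw [hδ']; linarith)
  obtain ⟨N, hN, e₁, he₁, hN'⟩ := hA' (1 / 16) (by norm_num)
  obtain ⟨-, hN2, -⟩ := hN' c₀ (by rw [sub_self, norm_zero]; exact he₁.le)
  -- the unperturbed map
  have O1 : ∀ y : ℂ, (∀ i < N, 2 * δ' ≤ ‖(f d c₀)^[i] y‖) → ‖(f d c₀)^[N] y‖ ≤ 4 →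
      4 ≤ ‖mu (f d c₀) y N‖ := by
    intro y hy hyN
    have h1 := Pool.Agent.Y932.CA.one d δ' c₀ N y hd hδ'0 hy
    have h2 := hN2 _ hyN
    rw [mu_f]
    set D := ‖deriv ((f d c₀)^[N]) y‖ with hD
    have hD0 : 0 ≤ D := norm_nonneg _
    have h3 : 1 ≤ 1 / 16 * D ^ 2 := h1.trans (by gcongr)
    nlinarith
  have O2 : ∀ (n : ℕ) (y : ℂ), (∀ i < n, 2 * δ' ≤ ‖(f d c₀)^[i] y‖) →
      ‖(f d c₀)^[n] y‖ ≤ 3 * δ' → 1 ≤ Γ * ‖mu (f d c₀) y n‖ := by
    intro n y hy hyn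
    have h1 := Pool.Agent.Y932.CA.one d δ' c₀ n y hd hδ'0 hy
    have h2 : psi d δ' c₀ n ((f d c₀)^[n] y) ≤ Γ₀ := by
      refine le_trans ?_ (hsum δ' hδ'0 (by rw [hδ']; linarith) (n + 1) _ hyn)
      refine Finset.single_le_sum (f := fun j => psi d δ' c₀ j ((f d c₀)^[n] y)) ?_
        (Finset.mem_range.2 (Nat.lt_succ_self n))
      intro i _
      exact psi_nonneg hδ'0 _ _ _
    rw [mu_f]
    set D := ‖deriv ((f d c₀)^[n]) y‖ with hD
    have hD0 : 0 ≤ D := norm_nonneg _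
    have h3 : 1 ≤ Γ * D ^ 2 := by
      refine h1.trans ?_
      have : psi d δ' c₀ n ((f d c₀)^[n] y) ≤ Γ := by linarith
      gcongr
    rcases le_total 1 D with h4 | h4
    · nlinarith
    · have h5 : D ^ 2 ≤ D := by nlinarith
      calc 1 ≤ Γ * D ^ 2 := h3
        _ ≤ Γ * D := by gcongr
  -- closeness
  choose C hC hCn using fun n => close_ex (d := d) (c₀ := c₀) n
  set Ct : ℝ := ∑ i ∈ Finset.range (N + 1), C i with hCt
  have hCt0 : 0 ≤ Ct := Finset.sum_nonneg fun i _ => hC i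
  have hCi : ∀ i ≤ N, C i ≤ Ct := fun i hi =>
    Finset.single_le_sum (fun i _ => hC i) (Finset.mem_range.2 (by omega))
  set e : ℝ := min 1 (min (δ / 5 / (Ct + 1)) (1 / (2 * Γ) / (Ct + 1))) with he
  have hΓ0 : 0 < Γ := by linarith
  have he0 : 0 < e := by
    apply lt_min one_pos
    apply lt_min <;> positivity
  have hCe1 : ∀ r : ℝ, 0 ≤ r → r ≤ e → ∀ i ≤ N, C i * r ≤ δ / 5 := by
    intro r hr0 hr i hi
    have h1 : r ≤ δ / 5 / (Ct + 1) := hr.trans ((min_le_right _ _).trans (min_le_left _ _))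
    calc C i * r ≤ (Ct + 1) * (δ / 5 / (Ct + 1)) := by
          have := hCi i hi
          gcongr
          linarith
      _ = _ := by field_simp
  have hCe2 : ∀ r : ℝ, 0 ≤ r → r ≤ e → ∀ i ≤ N, C i * r ≤ 1 / (2 * Γ) := by
    intro r hr0 hr i hi
    have h1 : r ≤ 1 / (2 * Γ) / (Ct + 1) := hr.trans ((min_le_right _ _).trans (min_le_right _ _))
    calc C i * r ≤ (Ct + 1) * (1 / (2 * Γ) / (Ct + 1)) := by
          have := hCi i hi
          gcongr
          linarith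
      _ = _ := by field_simp
  have hΓh : 1 / (2 * Γ) ≤ 1 / 2 := one_div_le_one_div_of_le (by norm_num) (by linarith)
  refine ⟨N, e, hN, he0, fun g r hg hr => ?_⟩
  have hr0 := hg.nonneg
  have hr1 : r ≤ 1 := hr.trans (min_le_left _ _)
  have B1 : ∀ z : ℂ, (∀ i, ‖g^[i] z‖ ≤ 3) → (∀ i < N, δ ≤ ‖g^[i] z‖) → 2 ≤ ‖mu g z N‖ := by
    intro z hz hout
    have hcl := fun n => hCn n g r hg hr1 z (fun i _ => hz i) (fun _ => hz 0)
    have h1 := O1 z (fun i hi => by
      have h2 := (hcl i).1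
      have h3 := hCe1 r hr0 hr i hi.le
      have h4 := hout i hi
      have h5 : ‖g^[i] z‖ ≤ ‖(f d c₀)^[i] z‖ + ‖g^[i] z - (f d c₀)^[i] z‖ := by
        calc ‖g^[i] z‖ = ‖(f d c₀)^[i] z + (g^[i] z - (f d c₀)^[i] z)‖ := by congr 1; ring
          _ ≤ _ := norm_add_le _ _
      rw [hδ']
      linarith) (by
      have h2 := (hcl N).1
      have h3 := hCe1 r hr0 hr N le_rfl
      have h4 := hz N
      have h5 : ‖(f d c₀)^[N] z‖ ≤ ‖g^[N] z‖ + ‖g^[N] z - (f d c₀)^[N] z‖ := by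
        calc ‖(f d c₀)^[N] z‖ = ‖g^[N] z - (g^[N] z - (f d c₀)^[N] z)‖ := by congr 1; ring
          _ ≤ _ := norm_sub_le _ _
      linarith)
    have h2 := (hcl N).2.1
    have h3 := hCe2 r hr0 hr N le_rfl
    have h5 : ‖mu (f d c₀) z N‖ ≤ ‖mu g z N‖ + ‖mu g z N - mu (f d c₀) z N‖ := by
      calc ‖mu (f d c₀) z N‖ = ‖mu g z N - (mu g z N - mu (f d c₀) z N)‖ := by congr 1; ring
        _ ≤ _ := norm_sub_le _ _
    linarith
  intro z hz
  refine ⟨B1 z hz, ?_⟩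
  intro n
  induction n using Nat.strong_induction_on generalizing z with
  | _ n ih =>
    intro hout hland
    rcases lt_or_ge n N with hn | hn
    · rw [Nat.div_eq_of_lt hn, pow_zero]
      have hcl := fun n => hCn n g r hg hr1 z (fun i _ => hz i) (fun _ => hz 0)
      have h1 := O2 n z (fun i hi => by
        have h2 := (hcl i).1
        have h3 := hCe1 r hr0 hr i (by omega)
        have h4 := hout i hi
        have h5 : ‖g^[i] z‖ ≤ ‖(f d c₀)^[i] z‖ + ‖g^[i] z - (f d c₀)^[i] z‖ := by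
          calc ‖g^[i] z‖ = ‖(f d c₀)^[i] z + (g^[i] z - (f d c₀)^[i] z)‖ := by congr 1; ring
            _ ≤ _ := norm_add_le _ _
        rw [hδ']
        linarith) (by
        have h2 := (hcl n).1
        have h3 := hCe1 r hr0 hr n hn.le
        have h5 : ‖(f d c₀)^[n] z‖ ≤ ‖g^[n] z‖ + ‖g^[n] z - (f d c₀)^[n] z‖ := by
          calc ‖(f d c₀)^[n] z‖ = ‖g^[n] z - (g^[n] z - (f d c₀)^[n] z)‖ := by congr 1; ring
            _ ≤ _ := norm_sub_le _ _
        rw [hδ']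
        linarith)
      have h2 := (hcl n).2.1
      have h3 := hCe2 r hr0 hr n hn.le
      have h5 : ‖mu (f d c₀) z n‖ ≤ ‖mu g z n‖ + ‖mu g z n - mu (f d c₀) z n‖ := by
        calc ‖mu (f d c₀) z n‖ = ‖mu g z n - (mu g z n - mu (f d c₀) z n)‖ := by congr 1; ring
          _ ≤ _ := norm_sub_le _ _
      have h6 : 1 / Γ ≤ ‖mu (f d c₀) z n‖ := by
        rw [div_le_iff₀ hΓ0]
        linarith
      have h7 : 1 / Γ - 1 / (2 * Γ) = 1 / (2 * Γ) := by
        field_simp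
        norm_num
      have h8 : 1 / (2 * Γ) ≤ ‖mu g z n‖ := by linarith
      rw [div_le_iff₀ (by positivity)] at h8
      linarith
    · have h1 := B1 z hz (fun i hi => hout i (by omega))
      have h2 := ih (n - N) (by omega) (g^[N] z)
        (fun i => by rw [← Function.iterate_add_apply]; exact hz _)
        (fun i hi => by
          rw [← Function.iterate_add_apply]
          exact hout (i + N) (by omega))
        (by
          rw [← Function.iterate_add_apply, Nat.sub_add_cancel hn]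
          exact hland)
      have h3 : n / N = (n - N) / N + 1 := by
        conv_lhs => rw [← Nat.sub_add_cancel hn]
        exact Nat.add_div_right _ (by omega)
      have h4 : mu g z n = mu g z N * mu g (g^[N] z) (n - N) := by
        rw [← mu_add]
        congr 1
        omega
      rw [h3, pow_succ, h4, norm_mul]
      have h5 : (0 : ℝ) ≤ 2 ^ ((n - N) / N) := by positivity
      calc (2 : ℝ) ^ ((n - N) / N) * 2 ≤ (2 * Γ * ‖mu g (g^[N] z) (n - N)‖) * ‖mu g z N‖ :=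
            mul_le_mul h2 h1 (by norm_num) (by positivity)
        _ = _ := by ring

end Pool.Agent.V1186.CN
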