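import Mathlib
import Pool.Agent.V1186.CN.Cyc

/-!
# The cycles of the maps near a unicritical polynomial: shadowing of the critical orbit, main result
-/

set_option autoImplicit false

open Set Filter Metric MeasureTheory Topology

namespace Pool.Agent.V1186.CN

open Pool.Agent.TH279.MD Pool.Agent.Y298.SH Pool.Agent.Y298.SH.CD Pool.Agent.Y298.CA
open Pool.Agent.H712R2 (P P_succ)

variable {d : ℕ} {χ : ℝ} {c₀ : ℂ}

theorem ev_exp (a b c A : ℝ) (hc : 0 < c) (hA : 0 < A) :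
    ∀ᶠ l : ℝ in atTop, (a * l + b) * Real.exp (-c * l) < A := by
  have h1 : Tendsto (fun l : ℝ => a * (l ^ (1 : ℝ) * Real.exp (-c * l)) +
      b * (l ^ (0 : ℝ) * Real.exp (-c * l))) atTop (𝓝 (a * 0 + b * 0)) :=
    ((tendsto_rpow_mul_exp_neg_mul_atTop_nhds_zero 1 c hc).const_mul a).add
      ((tendsto_rpow_mul_exp_neg_mul_atTop_nhds_zero 0 c hc).const_mul b)
  rw [mul_zero, mul_zero, add_zero] at h1
  filter_upwards [h1.eventually_lt_const hA] with l hl
  rw [Real.rpow_one, Real.rpow_zero] at hl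
  calc (a * l + b) * Real.exp (-c * l) =
      a * (l * Real.exp (-c * l)) + b * (1 * Real.exp (-c * l)) := by ring
    _ < A := hl

/-- products of factors close to one -/
theorem prod_low {n : ℕ} {m P w : ℕ → ℝ} (hP : ∀ j < n, 0 ≤ P j) (hw : ∀ j < n, 0 ≤ w j)
    {D : ℕ → ℝ} {q : ℕ → ℝ} (hD0 : 1 ≤ D 0) (hP0 : P 0 = 1)
    (hPs : ∀ j < n, P (j + 1) = q j * P j) (hq : ∀ j < n, 0 ≤ q j)
    (hDs : ∀ j < n, D j * m j ≤ D (j + 1)) (hm : ∀ j < n, q j * (1 - w j) ≤ m j)
    (hm0 : ∀ j < n, 0 ≤ m j) (hsum : ∑ j ∈ Finset.range n, w j ≤ 1) :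
    ∀ j ≤ n, P j * (1 - ∑ i ∈ Finset.range j, w i) ≤ D j := by
  intro j
  induction j with
  | zero =>
    intro _
    simp only [Finset.range_zero, Finset.sum_empty, sub_zero, mul_one]
    rw [hP0]
    exact hD0
  | succ j ih =>
    intro hj
    have ihj := ih (by omega)
    have hj' : j < n := by omega
    set A := ∑ i ∈ Finset.range j, w i with hA
    have hA0 : 0 ≤ A := Finset.sum_nonneg fun i hi => hw i (by
      rw [Finset.mem_range] at hi; omega)
    have hA1 : A ≤ 1 := by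
      refine le_trans ?_ hsum
      refine Finset.sum_le_sum_of_subset_of_nonneg (Finset.range_mono (by omega)) ?_
      intro i hi _
      rw [Finset.mem_range] at hi
      exact hw i hi
    rw [Finset.sum_range_succ, ← hA, hPs j hj']
    have hwj := hw j hj'
    have hqj := hq j hj'
    have hPj := hP j hj'
    have hmj := hm j hj'
    have hmj0 := hm0 j hj'
    have h1 : P j * (1 - A) * m j ≤ D j * m j := mul_le_mul_of_nonneg_right ihj hmj0
    have h2 : P j * (1 - A) * (q j * (1 - w j)) ≤ P j * (1 - A) * m j :=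
      mul_le_mul_of_nonneg_left hmj (mul_nonneg hPj (by linarith))
    have h3 : q j * P j * (1 - (A + w j)) ≤ P j * (1 - A) * (q j * (1 - w j)) := by
      have h4 : 0 ≤ q j * P j * (A * w j) := by positivity
      nlinarith
    exact h3.trans (h2.trans (h1.trans (hDs j hj')))

/-- **Shadowing of the critical orbit.** -/
theorem shadow (hd : 2 ≤ d) (h : Lyap d χ c₀) {ε : ℝ} (hε : 0 < ε) (hε1 : ε < 1) :
    ∃ l₀ : ℝ, 0 < l₀ ∧ ∀ l : ℝ, l₀ ≤ l → ∀ (g : ℂ → ℂ) (r : ℝ), Near d c₀ g r →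
      r ≤ Real.exp (-l) → ∀ z : ℂ, ‖z‖ ≤ 3 → ‖z‖ ^ d ≤ Real.exp (-l) → (∀ i, ‖g^[i] z‖ ≤ 3) →
      ∀ k : ℕ, (k : ℝ) ≤ (1 - ε) * l / χ →
        Real.exp (-l) < ‖g^[k + 1] z‖ ^ d ∧ Pd d c₀ k / 2 ≤ ‖mu g (g z) k‖ := by
  obtain ⟨⟨C₁, lam, hc⟩, hlya⟩ := Pool.Agent.Y674.CA.lya d χ c₀ hd h
  have hχ : 0 < χ := h.1
  have hdR : (2 : ℝ) ≤ d := by exact_mod_cast hd
  have hl1 := hc.lam1
  have hC₁ := hc.C1
  set S : ℝ := C₁ * lam / (lam - 1) with hS
  have hlm : 0 < lam - 1 := by linarith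
  have hlam0 : 0 < lam := by linarith
  have hC₁0 : 0 < C₁ := by linarith
  have hS0 : 0 < S := by positivity
  set ε₂ : ℝ := min (ε * χ / 8) (χ / (4 * d)) with hε₂
  have hε₂0 : 0 < ε₂ := lt_min (by positivity) (by positivity)
  have hε₂a : ε₂ ≤ ε * χ / 8 := min_le_left _ _
  have hε₂b : ε₂ ≤ χ / (4 * d) := min_le_right _ _
  obtain ⟨C, hC1, hC⟩ := hlya ε₂ hε₂0
  have hC0 : 0 < C := by linarith
  -- thresholds
  have t1 := ev_exp (1 / χ * C ^ 2) (C ^ 2) (ε / 2) (1 / (16 * d * (Real.exp 1 * S))) (by positivity)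
    (by positivity)
  have t2 := ev_exp (1 / χ * C ^ (d - 1)) (C ^ (d - 1)) (1 / 2) (1 / 8) (by positivity)
    (by positivity)
  have t3 := ev_exp 0 ((2 * C) ^ d) (1 / 2) 1 (by positivity) (by positivity)
  obtain ⟨l₀, hl₀⟩ := eventually_atTop.mp (t1.and (t2.and t3))
  refine ⟨max l₀ 1, by positivity, ?_⟩
  intro l hl g r hg hr z hz3 hz hin k hk
  obtain ⟨s1, s2, s3⟩ := hl₀ l ((le_max_left _ _).trans hl)
  have hl0 : 1 ≤ l := (le_max_right _ _).trans hl
  have hr0 := hg.nonneg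
  set s : ℝ := Real.exp (-l) with hs
  have hs0 : 0 < s := Real.exp_pos _
  have hkl : (k : ℝ) ≤ l / χ := by
    refine hk.trans ?_
    rw [div_le_div_iff_of_pos_right hχ]
    nlinarith
  have hkl' : ((k : ℝ) + 1) ≤ 1 / χ * l + 1 := by
    have : l / χ = 1 / χ * l := by ring
    linarith
  -- the terms
  have hterm : ∀ j ≤ k, s * (Pd d c₀ j / ‖zz d c₀ j‖) ≤ C ^ 2 * Real.exp (-(ε / 2) * l) := by
    intro j hj
    obtain ⟨-, g2, g3⟩ := hC j
    have hz0 : 0 < ‖zz d c₀ j‖ := norm_pos_iff.2 (hc.zz_ne j)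
    have h17 : 1 / ‖zz d c₀ j‖ ≤ C * Real.exp (ε₂ * j) := by
      rw [div_le_iff₀ hz0]
      exact g3
    have hjl : (j : ℝ) ≤ (1 - ε) * l / χ := le_trans (by exact_mod_cast hj) hk
    have hexp : -l + (χ + 2 * ε₂) * j ≤ -(ε / 2) * l := by
      have h1 : (χ + 2 * ε₂) * j ≤ (χ + 2 * ε₂) * ((1 - ε) * l / χ) := by gcongr
      have h2 : (χ + 2 * ε₂) * ((1 - ε) * l / χ) = (1 - ε) * l + 2 * (ε₂ / χ) * ((1 - ε) * l) := by
        field_simp
      have h3 : ε₂ / χ ≤ ε / 8 := by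
        rw [div_le_iff₀ hχ]
        linarith
      have h4 : 0 ≤ (1 - ε) * l := mul_nonneg (by linarith) (by linarith)
      have h5 : 2 * (ε₂ / χ) * ((1 - ε) * l) ≤ 2 * (ε / 8) * ((1 - ε) * l) := by gcongr
      have h6 : (1 - ε) * l ≤ l := by nlinarith
      have h7 : 2 * (ε / 8) * ((1 - ε) * l) ≤ 2 * (ε / 8) * l := by gcongr
      nlinarith
    calc s * (Pd d c₀ j / ‖zz d c₀ j‖) = s * (Pd d c₀ j * (1 / ‖zz d c₀ j‖)) := by ring
      _ ≤ s * ((C * Real.exp ((χ + ε₂) * j)) * (C * Real.exp (ε₂ * j))) := by gcongr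
      _ = C ^ 2 * Real.exp (-l + (χ + 2 * ε₂) * j) := by
        rw [hs]
        rw [show Real.exp (-l) * ((C * Real.exp ((χ + ε₂) * j)) * (C * Real.exp (ε₂ * j))) =
          C ^ 2 * (Real.exp (-l) * (Real.exp ((χ + ε₂) * j) * Real.exp (ε₂ * j))) by ring,
          ← Real.exp_add, ← Real.exp_add]
        congr 2
        ring
      _ ≤ _ := by gcongr
  set T : ℝ := ∑ j ∈ Finset.range (k + 1), Pd d c₀ j / ‖zz d c₀ j‖ with hT
  have hTs : Real.exp 1 * S * (2 * s) * T ≤ 1 / (8 * d) := by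
    have h1 : s * T ≤ (1 / χ * l + 1) * (C ^ 2 * Real.exp (-(ε / 2) * l)) := by
      rw [hT, Finset.mul_sum]
      refine (Finset.sum_le_sum fun j hj => hterm j (by rw [Finset.mem_range] at hj; omega)).trans ?_
      rw [Finset.sum_const, Finset.card_range, nsmul_eq_mul]
      push_cast
      gcongr
    have h2 : (1 / χ * l + 1) * (C ^ 2 * Real.exp (-(ε / 2) * l)) =
        (1 / χ * C ^ 2 * l + C ^ 2) * Real.exp (-(ε / 2) * l) := by ring
    rw [h2] at h1
    calc Real.exp 1 * S * (2 * s) * T = 2 * (Real.exp 1 * S) * (s * T) := by ring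
      _ ≤ 2 * (Real.exp 1 * S) * (1 / (16 * d * (Real.exp 1 * S))) := by
        have := h1.trans s1.le
        gcongr
      _ = 1 / (8 * d) := by
        field_simp
        norm_num
  have hTs' : Real.exp 1 * S * (2 * s) * T ≤ 1 / d := by
    refine hTs.trans ?_
    apply one_div_le_one_div_of_le (by linarith)
    linarith
  have hrs : r ≤ s := hr
  have hgz : ‖g z - c₀‖ ≤ 2 * s := by
    have hz4 : z ∈ ball (0 : ℂ) 4 := by rw [mem_ball_zero_iff]; linarith
    have h1 := hg.2 z hz4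
    calc ‖g z - c₀‖ = ‖(g z - (z ^ d + c₀)) + z ^ d‖ := by congr 1; ring
      _ ≤ ‖g z - (z ^ d + c₀)‖ + ‖z ^ d‖ := norm_add_le _ _
      _ ≤ s + s := by
        rw [norm_pow]
        exact add_le_add (h1.trans hrs) hz
      _ = 2 * s := by ring
  have hcmp := pseudo_cmp (x := fun j => g^[j + 1] z) (δ := 2 * s) (n := k) hd (by positivity)
    (by simpa using hgz) (fun j hj => by
      have h1 : g^[j + 1] z ∈ ball (0 : ℂ) 4 := by
        rw [mem_ball_zero_iff]
        exact lt_of_le_of_lt hj (by norm_num)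
      have h2 := hg.2 _ h1
      show ‖g^[j + 1 + 1] z - ((g^[j + 1] z) ^ d + c₀)‖ ≤ 2 * s
      rw [Function.iterate_succ_apply']
      linarith) (fun j _ => hc.bd j) (fun j _ => hc.Pd_pos j) (fun j _ => hc.zz_ne j)
    (sum_inv_le hc (k + 1)) hTs'
  -- the relative errors
  set u : ℕ → ℝ := fun j => Real.exp 1 * S * (2 * s) * (Pd d c₀ j / ‖zz d c₀ j‖) with hu
  have hu0 : ∀ j, 0 ≤ u j := fun j =>
    mul_nonneg (by positivity) (div_nonneg (Pd_nonneg d c₀ j) (norm_nonneg _))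
  have hus : ∑ j ∈ Finset.range (k + 1), u j ≤ 1 / (8 * d) := by
    rw [hu, ← Finset.mul_sum]
    exact hTs
  have hu1 : ∀ j ≤ k, u j ≤ 1 / (8 * d) := fun j hj =>
    (Finset.single_le_sum (fun i _ => hu0 i) (Finset.mem_range.2 (by omega))).trans hus
  have hrel : ∀ j ≤ k, ‖g^[j + 1] z - zz d c₀ j‖ ≤ u j * ‖zz d c₀ j‖ := by
    intro j hj
    refine (hcmp j hj).trans (le_of_eq ?_)
    have hz0 : ‖zz d c₀ j‖ ≠ 0 := norm_ne_zero_iff.2 (hc.zz_ne j)
    show Real.exp 1 * S * (2 * s) * Pd d c₀ j =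
      Real.exp 1 * S * (2 * s) * (Pd d c₀ j / ‖zz d c₀ j‖) * ‖zz d c₀ j‖
    rw [mul_assoc (Real.exp 1 * S * (2 * s)), div_mul_cancel₀ _ hz0]
  have hlow : ∀ j ≤ k, (1 - u j) * ‖zz d c₀ j‖ ≤ ‖g^[j + 1] z‖ := by
    intro j hj
    have h1 := hrel j hj
    have h2 : ‖zz d c₀ j‖ ≤ ‖g^[j + 1] z‖ + ‖g^[j + 1] z - zz d c₀ j‖ := by
      calc ‖zz d c₀ j‖ = ‖g^[j + 1] z - (g^[j + 1] z - zz d c₀ j)‖ := by congr 1; ring
        _ ≤ _ := norm_sub_le _ _
    linarith
  have h8d : 1 / (8 * (d : ℝ)) ≤ 1 / 16 := one_div_le_one_div_of_le (by norm_num) (by linarith)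
  have hjε : ∀ j ≤ k, ε₂ * (j : ℝ) * d ≤ 1 / 4 * l := by
    intro j hj
    have h1 : (j : ℝ) ≤ l / χ := le_trans (by exact_mod_cast hj) hkl
    calc ε₂ * (j : ℝ) * d ≤ χ / (4 * d) * (l / χ) * d := by gcongr
      _ = 1 / 4 * l := by field_simp
  refine ⟨?_, ?_⟩
  · -- no return
    obtain ⟨-, -, g3⟩ := hC k
    have hz0 : 0 < ‖zz d c₀ k‖ := norm_pos_iff.2 (hc.zz_ne k)
    have h1 := hlow k le_rfl
    have h2 := hu1 k le_rfl
    have h3 : 1 / 2 * ‖zz d c₀ k‖ ≤ ‖g^[k + 1] z‖ := by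
      refine le_trans ?_ h1
      gcongr
      linarith
    have h4 : Real.exp (-(ε₂ * k)) / (2 * C) ≤ ‖g^[k + 1] z‖ := by
      refine le_trans ?_ h3
      rw [div_le_iff₀ (by positivity), Real.exp_neg, inv_le_iff_one_le_mul₀ (Real.exp_pos _)]
      linarith
    have h5 : (Real.exp (-(ε₂ * k)) / (2 * C)) ^ d ≤ ‖g^[k + 1] z‖ ^ d := by gcongr
    refine lt_of_lt_of_le ?_ h5
    rw [div_pow, lt_div_iff₀ (by positivity), ← Real.exp_nat_mul]
    have h6 : Real.exp (-(1 / 4 * l)) ≤ Real.exp (d * -(ε₂ * k)) := by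
      apply Real.exp_le_exp.mpr
      have := hjε k le_rfl
      linarith
    refine lt_of_lt_of_le ?_ h6
    have h7 : (2 * C) ^ d * Real.exp (-(1 / 2) * l) < 1 := by
      have h8 : (0 * l + (2 * C) ^ d) * Real.exp (-(1 / 2) * l) < 1 := s3
      rwa [zero_mul, zero_add] at h8
    have h9 : Real.exp (-l) = Real.exp (-(1 / 2) * l) * Real.exp (-(1 / 2) * l) := by
      rw [← Real.exp_add]
      congr 1
      ring
    calc Real.exp (-l) * (2 * C) ^ d =
        ((2 * C) ^ d * Real.exp (-(1 / 2) * l)) * Real.exp (-(1 / 2) * l) := by rw [h9]; ring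
      _ < 1 * Real.exp (-(1 / 2) * l) := by
        apply mul_lt_mul_of_pos_right h7 (Real.exp_pos _)
      _ ≤ Real.exp (-(1 / 4 * l)) := by
        rw [one_mul]
        apply Real.exp_le_exp.mpr
        linarith
  · -- the derivative
    set w : ℕ → ℝ := fun j => d * u j + C ^ (d - 1) * Real.exp (-(1 / 2) * l) with hw
    have hw0 : ∀ j, 0 ≤ w j := fun j => by
      have := hu0 j
      rw [hw]
      positivity
    have hws : ∑ j ∈ Finset.range k, w j ≤ 1 / 2 := by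
      rw [hw, Finset.sum_add_distrib, ← Finset.mul_sum, Finset.sum_const, Finset.card_range,
        nsmul_eq_mul]
      have h1 : ∑ j ∈ Finset.range k, u j ≤ 1 / (8 * d) := by
        refine le_trans ?_ hus
        exact Finset.sum_le_sum_of_subset_of_nonneg (Finset.range_mono (by omega)) fun i _ _ => hu0 i
      have h2 : (d : ℝ) * ∑ j ∈ Finset.range k, u j ≤ d * (1 / (8 * d)) := by gcongr
      have h3 : (d : ℝ) * (1 / (8 * d)) = 1 / 8 := by field_simp
      have h4 : (k : ℝ) * (C ^ (d - 1) * Real.exp (-(1 / 2) * l)) ≤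
          (1 / χ * C ^ (d - 1) * l + C ^ (d - 1)) * Real.exp (-(1 / 2) * l) := by
        calc (k : ℝ) * (C ^ (d - 1) * Real.exp (-(1 / 2) * l)) ≤
            (1 / χ * l + 1) * (C ^ (d - 1) * Real.exp (-(1 / 2) * l)) := by
              gcongr
              linarith
          _ = _ := by ring
      linarith
    have key := prod_low (n := k) (m := fun j => ‖deriv g (g^[j + 1] z)‖) (P := Pd d c₀) (w := w)
      (D := fun j => ‖mu g (g z) j‖) (q := fun j => d * ‖zz d c₀ j‖ ^ (d - 1))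
      (fun j _ => Pd_nonneg d c₀ j) (fun j _ => hw0 j) (by
        show 1 ≤ ‖mu g (g z) 0‖
        rw [mu_zero, norm_one]) (Pd_zero d c₀) (fun j _ => Pd_succ d c₀ j)
      (fun j _ => by positivity) (fun j _ => by
        show ‖mu g (g z) j‖ * ‖deriv g (g^[j + 1] z)‖ ≤ ‖mu g (g z) (j + 1)‖
        rw [mu_succ, norm_mul, ← Function.iterate_succ_apply]) (fun j hj => by
        -- one step
        obtain ⟨-, -, g3⟩ := hC j
        have hz0 : 0 < ‖zz d c₀ j‖ := norm_pos_iff.2 (hc.zz_ne j)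
        have h1 := hg.deriv (hin (j + 1))
        have h2 : ‖(d : ℂ) * (g^[j + 1] z) ^ (d - 1)‖ ≤
            ‖deriv g (g^[j + 1] z)‖ + ‖deriv g (g^[j + 1] z) - d * (g^[j + 1] z) ^ (d - 1)‖ := by
          calc ‖(d : ℂ) * (g^[j + 1] z) ^ (d - 1)‖ = ‖deriv g (g^[j + 1] z) -
                (deriv g (g^[j + 1] z) - d * (g^[j + 1] z) ^ (d - 1))‖ := by congr 1; ring
            _ ≤ _ := norm_sub_le _ _
        rw [norm_mul, norm_pow, Complex.norm_natCast] at h2
        have h3 := hlow j hj.le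
        have h4 := hu1 j hj.le
        have h5 : ((1 - u j) * ‖zz d c₀ j‖) ^ (d - 1) ≤ ‖g^[j + 1] z‖ ^ (d - 1) := by
          apply pow_le_pow_left₀ _ h3
          exact mul_nonneg (by linarith) hz0.le
        have h6 : 1 - d * u j ≤ (1 - u j) ^ (d - 1) := by
          have h7 := one_add_mul_le_pow (a := -u j) (by linarith) (d - 1)
          have h8 : ((d - 1 : ℕ) : ℝ) ≤ d := by exact_mod_cast Nat.sub_le d 1
          have h9 : ((d - 1 : ℕ) : ℝ) * u j ≤ d * u j := by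
            have := hu0 j
            gcongr
          have h10 : 1 + ((d - 1 : ℕ) : ℝ) * -u j ≤ (1 - u j) ^ (d - 1) := by
            have : (1 - u j) = 1 + -u j := by ring
            rw [this]
            exact h7
          linarith
        -- the error in terms of the critical orbit
        have h11 : 2 * s ≤ d * ‖zz d c₀ j‖ ^ (d - 1) * (C ^ (d - 1) * Real.exp (-(1 / 2) * l)) := by
          have e1 : 1 ≤ (C * Real.exp (ε₂ * j) * ‖zz d c₀ j‖) ^ (d - 1) := one_le_pow₀ g3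
          rw [mul_pow, mul_pow] at e1
          have e2 : Real.exp (ε₂ * j) ^ (d - 1) ≤ Real.exp (1 / 4 * l) := by
            rw [← Real.exp_nat_mul]
            apply Real.exp_le_exp.mpr
            have h8 : ((d - 1 : ℕ) : ℝ) ≤ d := by exact_mod_cast Nat.sub_le d 1
            calc ((d - 1 : ℕ) : ℝ) * (ε₂ * j) ≤ d * (ε₂ * j) := by gcongr
              _ = ε₂ * j * d := by ring
              _ ≤ _ := hjε j hj.le
          have e3 : 1 ≤ C ^ (d - 1) * Real.exp (1 / 4 * l) * ‖zz d c₀ j‖ ^ (d - 1) := by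
            refine e1.trans ?_
            gcongr
          have e4 : s = Real.exp (-(1 / 2) * l) * Real.exp (-(1 / 2) * l) := by
            rw [hs, ← Real.exp_add]
            congr 1
            ring
          have e5 : Real.exp (-(1 / 2) * l) * Real.exp (1 / 4 * l) ≤ 1 := by
            rw [← Real.exp_add, Real.exp_le_one_iff]
            linarith
          calc 2 * s ≤ d * s := by gcongr
            _ = d * (Real.exp (-(1 / 2) * l) * Real.exp (-(1 / 2) * l)) * 1 := by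
              rw [← e4, mul_one]
            _ ≤ d * (Real.exp (-(1 / 2) * l) * Real.exp (-(1 / 2) * l)) *
                (C ^ (d - 1) * Real.exp (1 / 4 * l) * ‖zz d c₀ j‖ ^ (d - 1)) := by gcongr
            _ = (Real.exp (-(1 / 2) * l) * Real.exp (1 / 4 * l)) *
                (d * ‖zz d c₀ j‖ ^ (d - 1) * (C ^ (d - 1) * Real.exp (-(1 / 2) * l))) := by ring
            _ ≤ 1 * (d * ‖zz d c₀ j‖ ^ (d - 1) * (C ^ (d - 1) * Real.exp (-(1 / 2) * l))) := by
              gcongr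
            _ = _ := one_mul _
        rw [mul_pow] at h5
        have h12 : d * ‖zz d c₀ j‖ ^ (d - 1) * (1 - d * u j) ≤ d * ‖g^[j + 1] z‖ ^ (d - 1) := by
          calc d * ‖zz d c₀ j‖ ^ (d - 1) * (1 - d * u j) ≤
              d * ‖zz d c₀ j‖ ^ (d - 1) * (1 - u j) ^ (d - 1) := by gcongr
            _ = d * ((1 - u j) ^ (d - 1) * ‖zz d c₀ j‖ ^ (d - 1)) := by ring
            _ ≤ _ := by gcongr
        show d * ‖zz d c₀ j‖ ^ (d - 1) * (1 - (d * u j + C ^ (d - 1) * Real.exp (-(1 / 2) * l))) ≤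
          ‖deriv g (g^[j + 1] z)‖
        have h13 : 2 * r ≤ 2 * s := by linarith
        nlinarith) (fun j _ => norm_nonneg _) (by linarith)
    have h1 := key k le_rfl
    refine le_trans ?_ h1
    have := (hc.Pd_pos k).le
    nlinarith

end Pool.Agent.V1186.CN
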