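import Mathlib
import Pool.Agent.V1186.CN.Cyc2

/-!
# The cycles of the maps near a unicritical polynomial: main result
-/

set_option autoImplicit false

open Set Filter Metric MeasureTheory Topology

namespace Pool.Agent.V1186.CN

open Pool.Agent.TH279.MD Pool.Agent.Y298.SH Pool.Agent.Y298.SH.CD Pool.Agent.Y298.CA
open Pool.Agent.H712R2 (P P_succ)

variable {d : ℕ} {χ : ℝ} {c₀ : ℂ}

/-- **The gain of a passage near the critical point.** -/
theorem gain (hd : 2 ≤ d) (h : Lyap d χ c₀) (G : ℝ) (hG : 0 < G) :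
    ∃ l₀ : ℝ, 0 < l₀ ∧ ∀ l : ℝ, l₀ ≤ l → ∀ (g : ℂ → ℂ) (r : ℝ), Near d c₀ g r →
      r ≤ Real.exp (-l) → ∀ z : ℂ, ‖z‖ ^ d = Real.exp (-l) → (∀ i, ‖g^[i] z‖ ≤ 3) →
      ∃ k : ℕ, G * Real.exp (χ / (4 * d) * ((k : ℝ) + 1)) ≤ ‖mu g z (k + 1)‖ := by
  obtain ⟨⟨C₁, lam, hc⟩, hlya⟩ := Pool.Agent.Y674.CA.lya d χ c₀ hd h
  have hχ : 0 < χ := h.1
  have hdR : (2 : ℝ) ≤ d := by exact_mod_cast hd
  set ε₀ : ℝ := 1 / (8 * d) with hε₀
  have hε₀0 : 0 < ε₀ := by positivity
  have hε₀1 : ε₀ ≤ 1 / 16 := one_div_le_one_div_of_le (by norm_num) (by linarith)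
  obtain ⟨l₁, hl₁, H⟩ := shadow hd h hε₀0 (by linarith)
  set ε₂ : ℝ := χ / (8 * d) with hε₂
  have hε₂0 : 0 < ε₂ := by positivity
  obtain ⟨C, hC1, hC⟩ := hlya ε₂ hε₂0
  have hC0 : 0 < C := by linarith
  set B : ℝ := Real.log (2 * C) + χ + Real.log G + χ / (4 * d) with hB
  refine ⟨max l₁ (max (d * Real.log 2) (2 * d * |B|)), lt_of_lt_of_le hl₁ (le_max_left _ _), ?_⟩
  intro l hl g r hg hr z hz hin
  have hl1 : l₁ ≤ l := (le_max_left _ _).trans hl
  have hl2 : d * Real.log 2 ≤ l := (le_max_left _ _).trans ((le_max_right _ _).trans hl)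
  have hl3 : 2 * d * |B| ≤ l := (le_max_right _ _).trans ((le_max_right _ _).trans hl)
  have hl0 : 0 < l := lt_of_lt_of_le hl₁ hl1
  have hr0 := hg.nonneg
  have hz3 : ‖z‖ ≤ 3 := hin 0
  have hk0 : 0 ≤ (1 - ε₀) * l / χ := by
    have : 0 ≤ 1 - ε₀ := by linarith
    positivity
  set k : ℕ := ⌊(1 - ε₀) * l / χ⌋₊ with hk
  have hk1 : (k : ℝ) ≤ (1 - ε₀) * l / χ := Nat.floor_le hk0
  have hk2 : (1 - ε₀) * l / χ < k + 1 := Nat.lt_floor_add_one _
  obtain ⟨-, h1⟩ := H l hl1 g r hg hr z hz3 hz.le hin k hk1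
  refine ⟨k, ?_⟩
  -- the first factor
  set t : ℝ := ‖z‖ with ht
  have ht0 : 0 ≤ t := norm_nonneg _
  have htpos : 0 < t := by
    rcases ht0.lt_or_eq with h2 | h2
    · exact h2
    · rw [← h2, zero_pow (by omega)] at hz
      exact absurd hz.symm (Real.exp_pos _).ne'
  have hlt : (d : ℝ) * Real.log t = -l := by
    rw [← Real.log_pow, hz, Real.log_exp]
  have ht2 : t ≤ 1 / 2 := by
    rw [← Real.log_le_log_iff htpos (by norm_num), one_div, Real.log_inv]
    have hd0 : (0 : ℝ) < d := by linarith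
    rw [← mul_le_mul_iff_right₀ hd0, hlt]
    linarith
  have hfirst : t ^ (d - 1) ≤ ‖deriv g z‖ := by
    have h2 := hg.deriv hz3
    have h3 : ‖(d : ℂ) * z ^ (d - 1)‖ ≤ ‖deriv g z‖ + ‖deriv g z - d * z ^ (d - 1)‖ := by
      calc ‖(d : ℂ) * z ^ (d - 1)‖ = ‖deriv g z - (deriv g z - d * z ^ (d - 1))‖ := by
            congr 1; ring
        _ ≤ _ := norm_sub_le _ _
    rw [norm_mul, norm_pow, Complex.norm_natCast, ← ht] at h3
    have h4 : r ≤ t ^ (d - 1) * t := by
      rw [← pow_succ, Nat.sub_add_cancel (by omega)]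
      exact hr.trans hz.ge
    have h5 : 0 ≤ t ^ (d - 1) := by positivity
    have h6 : t ^ (d - 1) * t ≤ t ^ (d - 1) * (1 / 2) := by gcongr
    nlinarith
  have hmu : mu g z (k + 1) = deriv g z * mu g (g z) k := by
    rw [add_comm, mu_add, mu_one, Function.iterate_one]
  rw [hmu, norm_mul]
  have h2 : t ^ (d - 1) * (Pd d c₀ k / 2) ≤ ‖deriv g z‖ * ‖mu g (g z) k‖ :=
    mul_le_mul hfirst h1 (div_nonneg (Pd_nonneg d c₀ k) (by norm_num)) (norm_nonneg _)
  refine le_trans ?_ h2
  obtain ⟨g1, -, -⟩ := hC k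
  have h3 : Real.exp ((χ - ε₂) * k) / (2 * C) ≤ Pd d c₀ k / 2 := by
    rw [div_le_div_iff₀ (by positivity) (by norm_num)]
    nlinarith
  have h4 : t ^ (d - 1) * (Real.exp ((χ - ε₂) * k) / (2 * C)) ≤ t ^ (d - 1) * (Pd d c₀ k / 2) := by
    gcongr
  refine le_trans ?_ h4
  -- in logarithms
  have hlhs : 0 < G * Real.exp (χ / (4 * d) * ((k : ℝ) + 1)) := by positivity
  have hrhs : 0 < t ^ (d - 1) * (Real.exp ((χ - ε₂) * k) / (2 * C)) := by positivity
  rw [← Real.log_le_log_iff hlhs hrhs, Real.log_mul hG.ne' (Real.exp_pos _).ne', Real.log_exp,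
    Real.log_mul (by positivity) (by positivity), Real.log_pow,
    Real.log_div (Real.exp_pos _).ne' (by positivity), Real.log_exp, Nat.cast_sub (by omega),
    Nat.cast_one]
  have h5 : ((d : ℝ) - 1) * Real.log t = -l + l / d := by
    have : Real.log t = -l / d := by
      rw [eq_div_iff (by positivity)]
      linarith
    rw [this]
    field_simp
    ring
  rw [h5]
  have h6 : χ / (4 * d) * ((k : ℝ) + 1) ≤ l / (4 * d) + χ / (4 * d) := by
    have h7 : (k : ℝ) ≤ l / χ := by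
      refine hk1.trans ?_
      rw [div_le_div_iff_of_pos_right hχ]
      nlinarith
    calc χ / (4 * d) * ((k : ℝ) + 1) ≤ χ / (4 * d) * (l / χ + 1) := by gcongr
      _ = _ := by field_simp
  have h7 : l * (1 - ε₀) - l / (8 * d) - χ ≤ (χ - ε₂) * k := by
    have h8 : (1 - ε₀) * l / χ - 1 ≤ k := by linarith
    have h9 : 0 ≤ χ - ε₂ := by
      have : ε₂ ≤ χ := by
        rw [hε₂]
        apply div_le_self hχ.le
        linarith
      linarith
    have h10 : (χ - ε₂) * ((1 - ε₀) * l / χ - 1) ≤ (χ - ε₂) * k := by gcongr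
    have h11 : (χ - ε₂) * ((1 - ε₀) * l / χ - 1) =
        (1 - ε₀) * l - χ - ε₂ / χ * ((1 - ε₀) * l) + ε₂ := by
      field_simp
      ring
    have h12 : ε₂ / χ = 1 / (8 * d) := by
      rw [hε₂]
      field_simp
    rw [h11, h12] at h10
    have h13 : 1 / (8 * (d : ℝ)) * ((1 - ε₀) * l) ≤ 1 / (8 * d) * l := by
      have : (1 - ε₀) * l ≤ l := by nlinarith
      gcongr
    have h14 : 1 / (8 * (d : ℝ)) * l = l / (8 * d) := by ring
    linarith
  have h8 : l * ε₀ = l / (8 * d) := by rw [hε₀]; ring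
  have h9 : l / (d : ℝ) = 8 * (l / (8 * d)) := by field_simp
  have h10 : l / (4 * (d : ℝ)) = 2 * (l / (8 * d)) := by
    field_simp
    norm_num
  have h11 : B ≤ 4 * (l / (8 * d)) := by
    have h12 : B ≤ |B| := le_abs_self B
    have h13 : 4 * (l / (8 * (d : ℝ))) = l / (2 * d) := by
      field_simp
      norm_num
    rw [h13, le_div_iff₀ (by positivity)]
    nlinarith
  rw [hB] at h11
  have h12 : l * (1 - ε₀) = l - l / (8 * d) := by rw [mul_sub, h8, mul_one]
  rw [h12] at h7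
  rw [h9]
  rw [h10] at h6
  linarith

/-- from the growth along a subsequence to the multiplier -/
theorem growth {g : ℂ → ℂ} {w : ℂ} {p : ℕ} (hp : 1 ≤ p) (hw : g^[p] w = w) {ν : ℝ} (hν : 0 ≤ ν)
    (h : ∀ T : ℕ, ∃ t ≥ T, Real.exp (ν * t) ≤ ‖mu g w t‖) : Real.exp (ν * p) ≤ ‖mu g w p‖ := by
  by_contra hcon
  rw [not_le] at hcon
  set m := ‖mu g w p‖ with hm
  have hm0 : 0 ≤ m := norm_nonneg _
  set B : ℝ := ∑ s ∈ Finset.range p, ‖mu g w s‖ + 1 with hB
  have hB0 : 0 < B := by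
    have : 0 ≤ ∑ s ∈ Finset.range p, ‖mu g w s‖ := Finset.sum_nonneg fun i _ => norm_nonneg _
    linarith
  have hE : 0 < Real.exp (ν * p) := Real.exp_pos _
  have hρ1 : m / Real.exp (ν * p) < 1 := by rwa [div_lt_one hE]
  have hρ0 : 0 ≤ m / Real.exp (ν * p) := by positivity
  have hlim : Tendsto (fun q : ℕ => (m / Real.exp (ν * p)) ^ q * B) atTop (𝓝 (0 * B)) :=
    (tendsto_pow_atTop_nhds_zero_of_lt_one hρ0 hρ1).mul_const B
  rw [zero_mul] at hlim
  obtain ⟨Q, hQ⟩ := eventually_atTop.1 (hlim.eventually_lt_const one_pos)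
  obtain ⟨t, htT, ht⟩ := h (p * Q)
  set q := t / p with hq
  set s := t % p with hs
  have hts : t = p * q + s := (Nat.div_add_mod t p).symm
  have hqQ : Q ≤ q := by
    rw [hq, Nat.le_div_iff_mul_le (by omega), mul_comm]
    exact htT
  have hsp : s < p := Nat.mod_lt _ (by omega)
  have h1 := hQ q hqQ
  have h2 : ‖mu g w s‖ ≤ B := by
    have h3 : ‖mu g w s‖ ≤ ∑ s ∈ Finset.range p, ‖mu g w s‖ :=
      Finset.single_le_sum (f := fun s => ‖mu g w s‖) (fun i _ => norm_nonneg _)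
        (Finset.mem_range.2 hsp)
    linarith
  have h3 : Real.exp (ν * p) ^ q ≤ m ^ q * B := by
    calc Real.exp (ν * p) ^ q = Real.exp (ν * (p * q)) := by
          rw [← Real.exp_nat_mul]
          congr 1
          ring
      _ ≤ Real.exp (ν * t) := by
          apply Real.exp_le_exp.mpr
          rw [hts]
          push_cast
          have : 0 ≤ ν * (s : ℝ) := by positivity
          nlinarith
      _ ≤ ‖mu g w t‖ := ht
      _ = m ^ q * ‖mu g w s‖ := by
          rw [hts, mu_mul hw, norm_mul, norm_pow]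
      _ ≤ m ^ q * B := by gcongr
  rw [div_pow, div_mul_eq_mul_div, div_lt_one (by positivity)] at h1
  linarith

/-- **All the cycles of period less than `(1 - ε) log (1 / r) / χ` of the maps `r`-close to a
unicritical polynomial with a Lyapunov exponent are uniformly repelling.** -/
theorem cycles (hd : 2 ≤ d) (h : Lyap d χ c₀) : ∃ ν : ℝ, 0 < ν ∧ ∀ ε : ℝ, 0 < ε → ε < 1 →
    ∃ r₀ : ℝ, 0 < r₀ ∧ ∀ (g : ℂ → ℂ) (r : ℝ), 0 < r → r ≤ r₀ → Near d c₀ g r →
      ∀ (z : ℂ) (p : ℕ), 1 ≤ p → (p : ℝ) ≤ (1 - ε) * -Real.log r / χ → g^[p] z = z →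
        (∀ i, ‖g^[i] z‖ ≤ 3) → Real.exp (ν * p) ≤ ‖mu g z p‖ := by
  obtain ⟨⟨C₁, lam, hc⟩, -⟩ := Pool.Agent.Y674.CA.lya d χ c₀ hd h
  have hχ : 0 < χ := h.1
  have hdR : (2 : ℝ) ≤ d := by exact_mod_cast hd
  obtain ⟨ρ₀, G, hρ₀, hG, hout⟩ := outside hc
  have hG0 : 0 < G := by linarith
  obtain ⟨l₁, hl₁, hgain⟩ := gain hd h (2 * G) (by positivity)
  set δ : ℝ := min ρ₀ (min (1 / 2) (Real.exp (-l₁))) with hδ
  have hδ0 : 0 < δ := lt_min hρ₀ (lt_min (by norm_num) (Real.exp_pos _))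
  have hδρ : δ ≤ ρ₀ := min_le_left _ _
  have hδ2 : δ ≤ 1 / 2 := (min_le_right _ _).trans (min_le_left _ _)
  have hδl : δ ≤ Real.exp (-l₁) := (min_le_right _ _).trans (min_le_right _ _)
  have hδd : δ ^ d ≤ Real.exp (-l₁) := by
    refine le_trans ?_ hδl
    calc δ ^ d ≤ δ ^ 1 := pow_le_pow_of_le_one hδ0.le (by linarith) (by omega)
      _ = δ := pow_one _
  obtain ⟨N, e, hN, he, hout'⟩ := hout δ hδ0 hδρ
  have hNR : (1 : ℝ) ≤ N := by exact_mod_cast hN
  have hl2 : 0 < Real.log 2 := Real.log_pos (by norm_num)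
  set ν : ℝ := min (Real.log 2 / N) (χ / (4 * d)) with hν
  have hν0 : 0 < ν := lt_min (by positivity) (by positivity)
  have hνa : ν * N ≤ Real.log 2 := by
    have : ν ≤ Real.log 2 / N := min_le_left _ _
    rwa [le_div_iff₀ (by positivity)] at this
  have hνb : ν ≤ χ / (4 * d) := min_le_right _ _
  refine ⟨ν, hν0, fun ε hε hε1 => ?_⟩
  obtain ⟨l₀, hl₀, hsh⟩ := shadow hd h hε hε1
  refine ⟨min e (Real.exp (-l₀)), lt_min he (Real.exp_pos _), ?_⟩
  intro g r hr0 hr hg z p hp hpr hz hin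
  have hre : r ≤ e := hr.trans (min_le_left _ _)
  have hrl : r ≤ Real.exp (-l₀) := hr.trans (min_le_right _ _)
  have hr1 : r ≤ 1 := hrl.trans (Real.exp_le_one_iff.mpr (by linarith))
  have hrexp : Real.exp (-(-Real.log r)) = r := by rw [neg_neg, Real.exp_log hr0]
  have hl : l₀ ≤ -Real.log r := by
    have := Real.log_le_log hr0 hrl
    rw [Real.log_exp] at this
    linarith
  have hin' : ∀ j, ∀ i, ‖g^[i] (g^[j] z)‖ ≤ 3 := fun j i => by
    rw [← Function.iterate_add_apply]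
    exact hin _
  -- the points of the cycle are not too close to the critical point
  have hfar : ∀ j, r < ‖g^[j] z‖ ^ d := by
    intro j
    by_contra hcon
    rw [not_lt] at hcon
    obtain ⟨h1, -⟩ := hsh (-Real.log r) hl g r hg hrexp.ge (g^[j] z) (hin j) (by rwa [hrexp])
      (hin' j) (p - 1) (by
        refine le_trans ?_ hpr
        exact_mod_cast Nat.sub_le p 1)
    rw [Nat.sub_add_cancel hp, iter_cyc hz j, hrexp] at h1
    linarith
  by_cases hcase : ∃ i, ‖g^[i] z‖ < δ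
  · obtain ⟨i₀, hi₀⟩ := hcase
    rw [← mu_rot' g z hz i₀]
    set w := g^[i₀] z with hw
    have hwp : g^[p] w = w := iter_cyc hz i₀
    have hwin : ∀ i, ‖g^[i] w‖ ≤ 3 := hin' i₀
    -- one step
    have step : ∀ t : ℕ, ‖g^[t] w‖ < δ → ∃ n : ℕ, 1 ≤ n ∧ ‖g^[t + n] w‖ < δ ∧
        Real.exp (ν * n) ≤ ‖mu g (g^[t] w) n‖ := by
      intro t ht
      set x := g^[t] w with hx
      have hxin : ∀ i, ‖g^[i] x‖ ≤ 3 := fun i => by
        rw [hx, ← Function.iterate_add_apply]
        exact hwin _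
      have hxr : r < ‖x‖ ^ d := by
        rw [hx, hw, ← Function.iterate_add_apply]
        exact hfar _
      have hx0 : 0 < ‖x‖ ^ d := hr0.trans hxr
      set l := -Real.log (‖x‖ ^ d) with hl'
      have hlx : Real.exp (-l) = ‖x‖ ^ d := by rw [hl', neg_neg, Real.exp_log hx0]
      have hll : l₁ ≤ l := by
        have h1 : ‖x‖ ^ d ≤ Real.exp (-l₁) := le_trans (by gcongr) hδd
        have h2 := Real.log_le_log hx0 h1
        rw [Real.log_exp] at h2
        linarith
      obtain ⟨k, hk⟩ := hgain l hll g r hg (by rw [hlx]; exact hxr.le) x hlx.symm hxin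
      set y := g^[k + 1] x with hy
      have hyin : ∀ i, ‖g^[i] y‖ ≤ 3 := fun i => by
        rw [hy, ← Function.iterate_add_apply]
        exact hxin _
      -- the next entrance
      have hex : ∃ n : ℕ, ‖g^[n] y‖ < δ := by
        refine ⟨p * (k + 1) - (k + 1), ?_⟩
        rw [hy, ← Function.iterate_add_apply]
        have h1 : p * (k + 1) - (k + 1) + (k + 1) = p * (k + 1) := by
          apply Nat.sub_add_cancel
          nlinarith
        rw [h1]
        have h2 : g^[p * (k + 1)] x = x := by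
          have h3 : Function.IsPeriodicPt g p x := by
            show g^[p] x = x
            rw [hx]
            exact iter_cyc hwp t
          exact h3.mul_const (k + 1)
        rw [h2]
        exact ht
      classical
      obtain ⟨n, hn1, hn2⟩ : ∃ n : ℕ, ‖g^[n] y‖ < δ ∧ ∀ i < n, δ ≤ ‖g^[i] y‖ :=
        ⟨Nat.find hex, Nat.find_spec hex, fun i hi => not_lt.mp (Nat.find_min hex hi)⟩
      have h1 := (hout' g r hg hre y hyin).2 n hn2 hn1.le
      refine ⟨k + 1 + n, by omega, ?_, ?_⟩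
      · have h2 : g^[t + (k + 1 + n)] w = g^[n] y := by
          have h5 : t + (k + 1 + n) = n + ((k + 1) + t) := by omega
          rw [h5, Function.iterate_add_apply, Function.iterate_add_apply]
        rw [h2]
        exact hn1
      · rw [mu_add, norm_mul, ← hy]
        have h3 : Real.exp (ν * n) ≤ 2 * 2 ^ (n / N) := by
          have h4 : (n : ℝ) ≤ N * ((n / N : ℕ) + 1) := by
            have h5 : n < N * (n / N + 1) := Nat.lt_mul_div_succ n (by omega)
            exact_mod_cast h5.le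
          calc Real.exp (ν * n) ≤ Real.exp (Real.log 2 * ((n / N : ℕ) + 1)) := by
                apply Real.exp_le_exp.mpr
                calc ν * n ≤ ν * (N * ((n / N : ℕ) + 1)) := by gcongr
                  _ = (ν * N) * ((n / N : ℕ) + 1) := by ring
                  _ ≤ _ := by gcongr
            _ = 2 * 2 ^ (n / N) := by
                rw [mul_add, mul_one, Real.exp_add, Real.exp_log (by norm_num), mul_comm (Real.log 2),
                  Real.exp_nat_mul, Real.exp_log (by norm_num)]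
                ring
        have h4 : Real.exp (ν * ((k : ℝ) + 1)) ≤ Real.exp (χ / (4 * d) * ((k : ℝ) + 1)) := by
          apply Real.exp_le_exp.mpr
          gcongr
        push_cast
        rw [mul_add, Real.exp_add]
        calc Real.exp (ν * ((k : ℝ) + 1)) * Real.exp (ν * n) ≤
            Real.exp (χ / (4 * d) * ((k : ℝ) + 1)) * (2 * 2 ^ (n / N)) := by gcongr
          _ ≤ Real.exp (χ / (4 * d) * ((k : ℝ) + 1)) * (2 * (G * ‖mu g y n‖)) := by gcongr
          _ = (2 * G * Real.exp (χ / (4 * d) * ((k : ℝ) + 1))) * ‖mu g y n‖ := by ring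
          _ ≤ _ := by gcongr
    -- the growth
    refine growth hp hwp hν0.le fun T => ?_
    have hT : ∃ t ≥ T, ‖g^[t] w‖ < δ ∧ Real.exp (ν * t) ≤ ‖mu g w t‖ := by
      induction T with
      | zero =>
        refine ⟨0, le_rfl, hi₀, ?_⟩
        rw [mu_zero, norm_one]
        simp
      | succ T ih =>
        obtain ⟨t, ht, ht1, ht2⟩ := ih
        obtain ⟨n, hn, hn1, hn2⟩ := step t ht1
        refine ⟨t + n, by omega, hn1, ?_⟩
        rw [mu_add, norm_mul]
        push_cast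
        rw [mul_add, Real.exp_add]
        gcongr
    obtain ⟨t, h1, -, h2⟩ := hT
    exact ⟨t, h1, h2⟩
  · -- the whole cycle is away from the critical point
    push Not at hcase
    refine growth hp hz hν0.le fun T => ⟨N * T, Nat.le_mul_of_pos_left T (by omega), ?_⟩
    induction T with
    | zero => simp [mu_zero]
    | succ T ih =>
      have h1 := (hout' g r hg hre (g^[N * T] z) (hin' _)).1 (fun i _ => by
        rw [← Function.iterate_add_apply]
        exact hcase _)
      have h2 : N * (T + 1) = N * T + N := by ring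
      rw [h2, mu_add, norm_mul]
      push_cast
      push_cast at ih
      rw [mul_add, Real.exp_add]
      have h3 : Real.exp (ν * N) ≤ 2 := by
        rw [← Real.exp_log (by norm_num : (0 : ℝ) < 2)]
        exact Real.exp_le_exp.mpr hνa
      exact mul_le_mul ih (h3.trans h1) (Real.exp_pos _).le (norm_nonneg _)

end Pool.Agent.V1186.CN
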