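import Mathlib
import Pool.Agent.V1186.CN.Hol
import Pool.Agent.V1186.CN.Abs

/-!
# Polynomials near a Collet-Eckmann unicritical polynomial
-/

set_option autoImplicit false

open Set Filter Metric MeasureTheory Topology Polynomial

namespace Pool.Agent.V1186.CN

open Pool.Agent.Y298.SH.CD

/-- The polynomial with the given coefficients. -/
noncomputable def poly {d : ℕ} (a : Fin (d + 1) → ℂ) : ℂ[X] :=
  ∑ i : Fin (d + 1), C (a i) * X ^ (i : ℕ)

/-- The coefficients of the polynomial `z ^ d + c₀`. -/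
noncomputable def centre (d : ℕ) (c₀ : ℂ) : Fin (d + 1) → ℂ :=
  fun i => (X ^ d + C c₀ : ℂ[X]).coeff i

theorem eval_poly {d : ℕ} (a : Fin (d + 1) → ℂ) (z : ℂ) :
    (poly a).eval z = ∑ i : Fin (d + 1), a i * z ^ (i : ℕ) := by
  unfold poly
  rw [eval_finset_sum]
  refine Finset.sum_congr rfl fun i _ => ?_
  simp

theorem poly_centre {d : ℕ} (hd : 1 ≤ d) (c₀ : ℂ) : poly (centre d c₀) = X ^ d + C c₀ := by
  have h1 := as_sum_range' (X ^ d + C c₀ : ℂ[X]) (d + 1) (by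
    rw [natDegree_X_pow_add_C]; omega)
  rw [h1]
  unfold poly centre
  rw [Finset.sum_range]
  refine Finset.sum_congr rfl fun i _ => ?_
  rw [C_mul_X_pow_eq_monomial]

theorem centre_dist {d : ℕ} (hd : 2 ≤ d) (c c₀ : ℂ) : dist (centre d c) (centre d c₀) ≤ ‖c - c₀‖ := by
  rw [dist_pi_le_iff (norm_nonneg _)]
  intro i
  unfold centre
  rw [dist_eq_norm, ← coeff_sub, add_sub_add_left_eq_sub, ← C_sub, coeff_C]
  split_ifs
  · exact le_rfl
  · rw [norm_zero]; exact norm_nonneg _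

theorem poly_sub_le {d : ℕ} (hd : 2 ≤ d) (a : Fin (d + 1) → ℂ) (c₀ : ℂ) {z : ℂ}
    (hz : z ∈ ball (0 : ℂ) 4) : ‖(poly a).eval z - (z ^ d + c₀)‖ ≤
      dist a (centre d c₀) * ((d + 1) * 4 ^ d) := by
  have h1 : z ^ d + c₀ = (poly (centre d c₀)).eval z := by
    rw [poly_centre (by omega)]; simp
  rw [h1, eval_poly, eval_poly, ← Finset.sum_sub_distrib]
  rw [mem_ball_zero_iff] at hz
  refine (norm_sum_le _ _).trans ?_
  have h2 : ∀ i ∈ (Finset.univ : Finset (Fin (d + 1))), ‖a i * z ^ (i : ℕ) -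
      centre d c₀ i * z ^ (i : ℕ)‖ ≤ dist a (centre d c₀) * 4 ^ d := by
    intro i _
    rw [← sub_mul, norm_mul, norm_pow]
    have h3 : ‖a i - centre d c₀ i‖ ≤ dist a (centre d c₀) := by
      rw [← dist_eq_norm]
      exact dist_le_pi_dist a (centre d c₀) i
    have h4 : ‖z‖ ^ (i : ℕ) ≤ 4 ^ d :=
      (pow_le_pow_left₀ (norm_nonneg _) hz.le _).trans
        (pow_le_pow_right₀ (by norm_num) (by omega))
    exact mul_le_mul h3 h4 (by positivity) dist_nonneg
  refine (Finset.sum_le_sum h2).trans ?_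
  rw [Finset.sum_const, Finset.card_univ, Fintype.card_fin, nsmul_eq_mul]
  push_cast
  exact le_of_eq (by ring)

theorem crit_le {d : ℕ} (hd : 2 ≤ d) {a : Fin (d + 1) → ℂ} {c₀ : ℂ}
    (hs : dist a (centre d c₀) * (d + 1) < 1) {w : ℂ} (hw : (poly a).derivative.eval w = 0) :
    ‖w‖ ≤ 1 := by
  by_contra hcon
  push Not at hcon
  have hdR : (2 : ℝ) ≤ d := by exact_mod_cast hd
  set s := dist a (centre d c₀) with hsdef
  have hs0 : 0 ≤ s := dist_nonneg
  have h1 : (poly a).derivative.eval w = d * w ^ (d - 1) +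
      ∑ i : Fin (d + 1), (a i - centre d c₀ i) * (i : ℕ) * w ^ ((i : ℕ) - 1) := by
    have h2 : poly a = (X ^ d + C c₀) + ∑ i : Fin (d + 1),
        C (a i - centre d c₀ i) * X ^ (i : ℕ) := by
      rw [← poly_centre (by omega) c₀]
      unfold poly
      rw [← Finset.sum_add_distrib]
      refine Finset.sum_congr rfl fun i _ => ?_
      rw [← add_mul, ← C_add]
      congr 2
      ring
    rw [h2, derivative_add, eval_add, derivative_sum, eval_finset_sum]
    congr 1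
    · rw [derivative_add, derivative_C, add_zero, derivative_X_pow]
      simp
    · refine Finset.sum_congr rfl fun i _ => ?_
      rw [derivative_C_mul_X_pow]
      simp
  rw [hw] at h1
  have h3 : ‖(d : ℂ) * w ^ (d - 1)‖ ≤ s * (d + 1) * (d * ‖w‖ ^ (d - 1)) := by
    have h4 : (d : ℂ) * w ^ (d - 1) =
        -∑ i : Fin (d + 1), (a i - centre d c₀ i) * (i : ℕ) * w ^ ((i : ℕ) - 1) := by
      linear_combination -h1
    rw [h4, norm_neg]
    refine (norm_sum_le _ _).trans ?_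
    have h5 : ∀ i ∈ (Finset.univ : Finset (Fin (d + 1))),
        ‖(a i - centre d c₀ i) * ((i : ℕ) : ℂ) * w ^ ((i : ℕ) - 1)‖ ≤
          s * (d * ‖w‖ ^ (d - 1)) := by
      intro i _
      rw [norm_mul, norm_mul, norm_pow, Complex.norm_natCast, mul_assoc]
      have h6 : ‖a i - centre d c₀ i‖ ≤ s := by
        rw [← dist_eq_norm]
        exact dist_le_pi_dist a (centre d c₀) i
      have h7 : ((i : ℕ) : ℝ) ≤ d := by exact_mod_cast (by omega : (i : ℕ) ≤ d)
      have h8 : ‖w‖ ^ ((i : ℕ) - 1) ≤ ‖w‖ ^ (d - 1) := pow_le_pow_right₀ hcon.le (by omega)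
      gcongr
    refine (Finset.sum_le_sum h5).trans ?_
    rw [Finset.sum_const, Finset.card_univ, Fintype.card_fin, nsmul_eq_mul]
    push_cast
    exact le_of_eq (by ring)
  rw [norm_mul, norm_pow, Complex.norm_natCast] at h3
  have h4 : 0 < (d : ℝ) * ‖w‖ ^ (d - 1) := by positivity
  nlinarith

/-- the constant -/
noncomputable def kpol (d : ℕ) (C₁ lam : ℝ) : ℝ :=
  min (kapp d C₁ lam / ((d + 1) * 4 ^ d)) (1 / (4 * (d + 1)))

theorem kpol_pos {d : ℕ} {C₁ lam : ℝ} (hd : 2 ≤ d) (hC : 1 ≤ C₁) (hl : 1 < lam) :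
    0 < kpol d C₁ lam := by
  have h1 := kapp_pos hd hC hl
  unfold kpol
  apply lt_min <;> positivity

theorem sum_ge_half {d : ℕ} {C₁ lam : ℝ} {c₀ : ℂ} (h : CEp d C₁ lam c₀) (n : ℕ) :
    1 / 2 ≤ ∑ j ∈ Finset.range (n + 1), Pd d c₀ j / ‖zz d c₀ j‖ := by
  have h1 : Pd d c₀ 0 / ‖zz d c₀ 0‖ ≤ ∑ j ∈ Finset.range (n + 1), Pd d c₀ j / ‖zz d c₀ j‖ :=
    Finset.single_le_sum (f := fun j => Pd d c₀ j / ‖zz d c₀ j‖)
      (fun i _ => div_nonneg (Pd_nonneg d c₀ i) (norm_nonneg _)) (Finset.mem_range.2 (by omega))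
  refine le_trans ?_ h1
  rw [Pd_zero]
  exact one_div_le_one_div_of_le (norm_pos_iff.2 (h.zz_ne 0)) (h.bd 0)

theorem pol_no {d : ℕ} {C₁ lam : ℝ} {c₀ : ℂ} (h : CEp d C₁ lam c₀) {a : Fin (d + 1) → ℂ} {n : ℕ}
    (hT : dist a (centre d c₀) * ∑ j ∈ Finset.range (n + 1), Pd d c₀ j / ‖zz d c₀ j‖ ≤
      kpol d C₁ lam) {w : ℂ} (hw : (poly a).derivative.eval w = 0) :
    ‖w‖ ≤ 1 ∧ ∀ j ≤ n, ‖(fun z => (poly a).eval z)^[j + 1] w‖ ≤ 3 ∧
      (poly a).derivative.eval ((fun z => (poly a).eval z)^[j + 1] w) ≠ 0 := by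
  have hd := h.hd
  have h1 := sum_ge_half h n
  have hs0 : 0 ≤ dist a (centre d c₀) := dist_nonneg
  have hs : dist a (centre d c₀) * (d + 1) < 1 := by
    have h2 : dist a (centre d c₀) * (1 / 2) ≤ 1 / (4 * (d + 1)) :=
      (mul_le_mul_of_nonneg_left h1 hs0).trans (hT.trans (min_le_right _ _))
    have h3 : dist a (centre d c₀) ≤ 1 / (2 * (d + 1)) := by
      have h4 : (1 : ℝ) / (2 * (d + 1)) = 2 * (1 / (4 * (d + 1))) := by
        field_simp
        norm_num
      rw [h4]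
      linarith
    calc dist a (centre d c₀) * (d + 1) ≤ 1 / (2 * (d + 1)) * (d + 1) := by gcongr
      _ = 1 / 2 := by field_simp
      _ < 1 := by norm_num
  have hw1 := crit_le hd hs hw
  refine ⟨hw1, ?_⟩
  have hder : ∀ z, deriv (fun z => (poly a).eval z) z = (poly a).derivative.eval z := fun z =>
    Polynomial.deriv _
  have hE : (0 : ℝ) < (d + 1) * 4 ^ d := by positivity
  have key := no_relation h (g := fun z => (poly a).eval z)
    (r := dist a (centre d c₀) * ((d + 1) * 4 ^ d))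
    (poly a).differentiable.differentiableOn (fun z hz => poly_sub_le hd a c₀ hz)
    (w := w) (by linarith) (by rw [hder]; exact hw) (n := n) (by
      have h2 : dist a (centre d c₀) * ∑ j ∈ Finset.range (n + 1), Pd d c₀ j / ‖zz d c₀ j‖ ≤
        kapp d C₁ lam / ((d + 1) * 4 ^ d) := hT.trans (min_le_left _ _)
      rw [le_div_iff₀ hE] at h2
      linarith)
  intro j hj
  obtain ⟨h3, h4⟩ := key j hj
  rw [hder] at h4
  exact ⟨h3, h4⟩

end Pool.Agent.V1186.CN
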