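import Mathlib
import Pool.Agent.V1186.CN.Pol

/-!
# Rational maps near a Collet-Eckmann unicritical polynomial
-/

set_option autoImplicit false

open Set Filter Metric MeasureTheory Topology Polynomial

namespace Pool.Agent.V1186.CN

open Pool.Agent.Y298.SH.CD

/-- The coefficients of the polynomial `1`. -/
noncomputable def cone (d : ℕ) : Fin (d + 1) → ℂ := fun i => (1 : ℂ[X]).coeff i

theorem poly_cone (d : ℕ) : poly (cone d) = 1 := by
  have h1 := as_sum_range' (1 : ℂ[X]) (d + 1) (by rw [natDegree_one]; omega)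
  rw [h1]
  unfold poly cone
  rw [Finset.sum_range]
  refine Finset.sum_congr rfl fun i _ => ?_
  rw [C_mul_X_pow_eq_monomial]

theorem poly_diff_le {d : ℕ} (a b : Fin (d + 1) → ℂ) {z : ℂ}
    (hz : z ∈ ball (0 : ℂ) 4) : ‖(poly a).eval z - (poly b).eval z‖ ≤
      dist a b * ((d + 1) * 4 ^ d) := by
  rw [eval_poly, eval_poly, ← Finset.sum_sub_distrib]
  rw [mem_ball_zero_iff] at hz
  refine (norm_sum_le _ _).trans ?_
  have h2 : ∀ i ∈ (Finset.univ : Finset (Fin (d + 1))), ‖a i * z ^ (i : ℕ) -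
      b i * z ^ (i : ℕ)‖ ≤ dist a b * 4 ^ d := by
    intro i _
    rw [← sub_mul, norm_mul, norm_pow]
    have h3 : ‖a i - b i‖ ≤ dist a b := by
      rw [← dist_eq_norm]
      exact dist_le_pi_dist a b i
    have h4 : ‖z‖ ^ (i : ℕ) ≤ 4 ^ d :=
      (pow_le_pow_left₀ (norm_nonneg _) hz.le _).trans
        (pow_le_pow_right₀ (by norm_num) (by omega))
    exact mul_le_mul h3 h4 (by positivity) dist_nonneg
  refine (Finset.sum_le_sum h2).trans ?_
  rw [Finset.sum_const, Finset.card_univ, Fintype.card_fin, nsmul_eq_mul]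
  push_cast
  exact le_of_eq (by ring)

/-- the constant -/
noncomputable def krat (d : ℕ) (C₁ lam : ℝ) : ℝ :=
  min (kapp d C₁ lam / (2 * ((d + 1) * 4 ^ d) * (4 ^ d + 3))) (1 / (4 * ((d + 1) * 4 ^ d)))

theorem krat_pos {d : ℕ} {C₁ lam : ℝ} (hd : 2 ≤ d) (hC : 1 ≤ C₁) (hl : 1 < lam) :
    0 < krat d C₁ lam := by
  have h1 := kapp_pos hd hC hl
  unfold krat
  apply lt_min <;> positivity

/-- the quotient of two polynomials -/
noncomputable def quo {d : ℕ} (x : (Fin (d + 1) → ℂ) × (Fin (d + 1) → ℂ)) : ℂ → ℂ :=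
  fun z => (poly x.1).eval z / (poly x.2).eval z

theorem rat_no {d : ℕ} {C₁ lam : ℝ} {c₀ : ℂ} (h : CEp d C₁ lam c₀)
    {x : (Fin (d + 1) → ℂ) × (Fin (d + 1) → ℂ)} {n : ℕ}
    (hT : dist x (centre d c₀, cone d) *
      ∑ j ∈ Finset.range (n + 1), Pd d c₀ j / ‖zz d c₀ j‖ ≤ krat d C₁ lam) :
    (∀ z ∈ ball (0 : ℂ) 4, (poly x.2).eval z ≠ 0) ∧ ∀ w : ℂ, ‖w‖ ≤ 3 → deriv (quo x) w = 0 →
      ∀ j ≤ n, ‖(quo x)^[j + 1] w‖ ≤ 3 ∧ deriv (quo x) ((quo x)^[j + 1] w) ≠ 0 := by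
  have hd := h.hd
  have h1 := sum_ge_half h n
  set s := dist x (centre d c₀, cone d) with hs
  have hs0 : 0 ≤ s := dist_nonneg
  have hE : (0 : ℝ) < (d + 1) * 4 ^ d := by positivity
  set E : ℝ := (d + 1) * 4 ^ d with hEdef
  have hsE : s * E ≤ 1 / 2 := by
    have h2 : s * (1 / 2) ≤ 1 / (4 * E) :=
      (mul_le_mul_of_nonneg_left h1 hs0).trans (hT.trans (min_le_right _ _))
    have h3 : s ≤ 1 / (2 * E) := by
      have h4 : (1 : ℝ) / (2 * E) = 2 * (1 / (4 * E)) := by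
        field_simp
        norm_num
      rw [h4]
      linarith
    calc s * E ≤ 1 / (2 * E) * E := by gcongr
      _ = 1 / 2 := by field_simp
  have hP : ∀ z ∈ ball (0 : ℂ) 4, ‖(poly x.1).eval z - (z ^ d + c₀)‖ ≤ s * E := by
    intro z hz
    have h2 := poly_diff_le x.1 (centre d c₀) hz
    rw [poly_centre (by omega)] at h2
    simp only [eval_add, eval_pow, eval_X, eval_C] at h2
    refine h2.trans (mul_le_mul_of_nonneg_right ?_ hE.le)
    exact le_max_left _ _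
  have hQ : ∀ z ∈ ball (0 : ℂ) 4, ‖(poly x.2).eval z - 1‖ ≤ s * E := by
    intro z hz
    have h2 := poly_diff_le x.2 (cone d) hz
    rw [poly_cone, eval_one] at h2
    refine h2.trans (mul_le_mul_of_nonneg_right ?_ hE.le)
    exact le_max_right _ _
  have hQ2 : ∀ z ∈ ball (0 : ℂ) 4, 1 / 2 ≤ ‖(poly x.2).eval z‖ := by
    intro z hz
    have h2 := hQ z hz
    have h3 : (1 : ℝ) ≤ ‖(poly x.2).eval z‖ + ‖(poly x.2).eval z - 1‖ := by
      calc (1 : ℝ) = ‖(poly x.2).eval z - ((poly x.2).eval z - 1)‖ := by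
            rw [sub_sub_cancel, norm_one]
        _ ≤ _ := norm_sub_le _ _
    linarith
  have hQ0 : ∀ z ∈ ball (0 : ℂ) 4, (poly x.2).eval z ≠ 0 := by
    intro z hz h0
    have h2 := hQ2 z hz
    rw [h0, norm_zero] at h2
    norm_num at h2
  refine ⟨hQ0, fun w hw hcw => ?_⟩
  have hdiff : DifferentiableOn ℂ (quo x) (ball 0 4) := by
    intro z hz
    exact ((poly x.1).differentiable.differentiableAt.div
      (poly x.2).differentiable.differentiableAt (hQ0 z hz)).differentiableWithinAt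
  have hclose : ∀ z ∈ ball (0 : ℂ) 4, ‖quo x z - (z ^ d + c₀)‖ ≤ s * (2 * E * (4 ^ d + 3)) := by
    intro z hz
    have h2 := hP z hz
    have h3 := hQ z hz
    have h4 := hQ2 z hz
    have h5 : ‖z ^ d + c₀‖ ≤ 4 ^ d + 2 := by
      refine (norm_add_le _ _).trans (add_le_add ?_ (h.bd 0))
      rw [norm_pow]
      rw [mem_ball_zero_iff] at hz
      exact pow_le_pow_left₀ (norm_nonneg _) hz.le _
    have h6 : quo x z - (z ^ d + c₀) = (((poly x.1).eval z - (z ^ d + c₀)) -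
        (z ^ d + c₀) * ((poly x.2).eval z - 1)) / (poly x.2).eval z := by
      unfold quo
      rw [eq_div_iff (hQ0 z hz), sub_mul, div_mul_cancel₀ _ (hQ0 z hz)]
      ring
    rw [h6, norm_div, div_le_iff₀ (by linarith)]
    calc ‖((poly x.1).eval z - (z ^ d + c₀)) - (z ^ d + c₀) * ((poly x.2).eval z - 1)‖ ≤
        s * E + (4 ^ d + 2) * (s * E) := by
          refine (norm_sub_le _ _).trans (add_le_add h2 ?_)
          rw [norm_mul]
          gcongr
      _ = s * (2 * E * (4 ^ d + 3)) * (1 / 2) := by ring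
      _ ≤ _ := mul_le_mul_of_nonneg_left h4 (by positivity)
  exact no_relation h hdiff hclose hw hcw (n := n) (by
    have h2 : s * ∑ j ∈ Finset.range (n + 1), Pd d c₀ j / ‖zz d c₀ j‖ ≤
      kapp d C₁ lam / (2 * E * (4 ^ d + 3)) := hT.trans (min_le_left _ _)
    rw [le_div_iff₀ (by positivity)] at h2
    linarith)

/-- the orbit on the sphere -/
theorem sphere_orbit {d : ℕ} {x : (Fin (d + 1) → ℂ) × (Fin (d + 1) → ℂ)}
    {F : OnePoint ℂ → OnePoint ℂ}
    (hF : ∀ z : ℂ, (poly x.2).eval z ≠ 0 → F (z : OnePoint ℂ) = (quo x z : OnePoint ℂ))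
    (hQ : ∀ z ∈ ball (0 : ℂ) 4, (poly x.2).eval z ≠ 0) {w : ℂ} (hw : ‖w‖ ≤ 3) {n : ℕ}
    (h : ∀ j ≤ n, ‖(quo x)^[j + 1] w‖ ≤ 3) : ∀ m ≤ n + 1,
      F^[m] (w : OnePoint ℂ) = ((quo x)^[m] w : ℂ) := by
  intro m
  induction m with
  | zero => intro _; rfl
  | succ m ih =>
    intro hm
    rw [Function.iterate_succ_apply', ih (by omega), Function.iterate_succ_apply']
    apply hF
    apply hQ
    rw [mem_ball_zero_iff]
    rcases Nat.eq_zero_or_pos m with rfl | hm0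
    · exact lt_of_le_of_lt hw (by norm_num)
    · obtain ⟨j, rfl⟩ : ∃ j, m = j + 1 := ⟨m - 1, by omega⟩
      exact lt_of_le_of_lt (h j (by omega)) (by norm_num)

end Pool.Agent.V1186.CN
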