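import Mathlib
import Pool.Agent.V1186.CN.Cyc3
import Pool.Agent.V1186.CN.Abs
import Pool.Agent.V1186.CN.Rat

/-!
# Non-repelling cycles near a unicritical polynomial: distances and first periods
-/

set_option autoImplicit false

open Set Filter Metric MeasureTheory Topology

namespace Pool.Agent.V1186.CN

open Pool.Agent.TH279.MD Pool.Agent.Y298.SH Pool.Agent.Y298.SH.CD Pool.Agent.Y298.CA
open Pool.Agent.H712R2 (P P_succ)

variable {d : ℕ} {χ : ℝ} {c₀ : ℂ}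

/-- a cycle lies in the disc outside of which the map increases the modulus -/
theorem cyc_in {g : ℂ → ℂ} {R : ℝ} (hesc : ∀ z, R < ‖z‖ → ‖z‖ < ‖g z‖) {z : ℂ} {p : ℕ}
    (hp : 1 ≤ p) (h : g^[p] z = z) : ∀ i, ‖g^[i] z‖ ≤ R := by
  intro i
  by_contra hcon
  rw [not_le] at hcon
  set w := g^[i] z with hw
  have hwp : g^[p] w = w := iter_cyc h i
  have key : ∀ j : ℕ, ‖w‖ ≤ ‖g^[j] w‖ ∧ (1 ≤ j → ‖w‖ < ‖g^[j] w‖) := by
    intro j
    induction j with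
    | zero => exact ⟨le_rfl, fun h => absurd h (by norm_num)⟩
    | succ j ih =>
      have h1 := hesc (g^[j] w) (hcon.trans_le ih.1)
      rw [← Function.iterate_succ_apply' g j w] at h1
      have h2 := lt_of_le_of_lt ih.1 h1
      exact ⟨h2.le, fun _ => h2⟩
  have h1 := (key p).2 hp
  rw [hwp] at h1
  exact lt_irrefl _ h1

/-- the main result in terms of the multipliers -/
theorem cycles' (hd : 2 ≤ d) (h : Lyap d χ c₀) : ∃ Λ : ℝ, 1 < Λ ∧ ∀ ε : ℝ, 0 < ε → ε < 1 →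
    ∃ r₀ : ℝ, 0 < r₀ ∧ ∀ (g : ℂ → ℂ) (r : ℝ), 0 < r → r ≤ r₀ → Near d c₀ g r →
      ∀ (z : ℂ) (p : ℕ), 1 ≤ p → (p : ℝ) ≤ (1 - ε) * -Real.log r / χ → g^[p] z = z →
        (∀ i, ‖g^[i] z‖ ≤ 3) → Λ ^ p ≤ ‖deriv (g^[p]) z‖ := by
  obtain ⟨ν, hν, H⟩ := cycles hd h
  refine ⟨Real.exp ν, Real.one_lt_exp_iff.mpr hν, fun ε hε hε1 => ?_⟩
  obtain ⟨r₀, hr₀, H'⟩ := H ε hε hε1
  refine ⟨r₀, hr₀, fun g r hr hrr hg z p hp hpr hz hin => ?_⟩
  have h1 := H' g r hr hrr hg z p hp hpr hz hin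
  rw [(hasDerivAt_iter fun i _ => hg.diffAt (hin i)).deriv, ← Real.exp_nat_mul, mul_comm]
  exact h1

/-- the cycles of the polynomial itself -/
theorem cycles_self (hd : 2 ≤ d) (h : Lyap d χ c₀) {Λ r₀ : ℝ} (hr₀ : 0 < r₀)
    (H : ∀ (g : ℂ → ℂ) (r : ℝ), 0 < r → r ≤ r₀ → Near d c₀ g r →
      ∀ (z : ℂ) (p : ℕ), 1 ≤ p → (p : ℝ) ≤ (1 - 1 / 2) * -Real.log r / χ → g^[p] z = z →
        (∀ i, ‖g^[i] z‖ ≤ 3) → Λ ^ p ≤ ‖deriv (g^[p]) z‖) {z : ℂ} {p : ℕ} (hp : 1 ≤ p)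
    (hz : (f d c₀)^[p] z = z) (hin : ∀ i, ‖(f d c₀)^[i] z‖ ≤ 3) :
    Λ ^ p ≤ ‖deriv ((f d c₀)^[p]) z‖ := by
  have hχ := h.1
  set r : ℝ := min r₀ (Real.exp (-(2 * χ * p))) with hr
  have hr0 : 0 < r := lt_min hr₀ (Real.exp_pos _)
  refine H (f d c₀) r hr0 (min_le_left _ _) ⟨?_, fun z _ => ?_⟩ z p hp ?_ hz hin
  · unfold f
    fun_prop
  · show ‖z ^ d + c₀ - (z ^ d + c₀)‖ ≤ r
    rw [sub_self, norm_zero]
    exact hr0.le
  · have h1 := Real.log_le_log hr0 (min_le_right r₀ (Real.exp (-(2 * χ * p))))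
    rw [Real.log_exp] at h1
    rw [le_div_iff₀ hχ]
    linarith

/-- unicritical polynomials -/
theorem esc_uni {c z : ℂ} (hd : 2 ≤ d) (hc : ‖c‖ ≤ 3) (hz : 3 < ‖z‖) : ‖z‖ < ‖f d c z‖ := by
  have h1 : ‖z ^ d‖ ≤ ‖f d c z‖ + ‖c‖ := by
    calc ‖z ^ d‖ = ‖f d c z - c‖ := by
          congr 1
          unfold f
          ring
      _ ≤ _ := norm_sub_le _ _
  have h2 : 3 * ‖z‖ ≤ ‖z ^ d‖ := by
    rw [norm_pow]
    calc 3 * ‖z‖ ≤ ‖z‖ * ‖z‖ := by gcongr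
      _ = ‖z‖ ^ 2 := by ring
      _ ≤ ‖z‖ ^ d := pow_le_pow_right₀ (by linarith) hd
  linarith

theorem near_uni {c : ℂ} : Near d c₀ (f d c) ‖c - c₀‖ := by
  refine ⟨?_, fun z _ => ?_⟩
  · unfold f
    fun_prop
  · show ‖z ^ d + c - (z ^ d + c₀)‖ ≤ ‖c - c₀‖
    rw [add_sub_add_left_eq_sub]

/-- the sets `S n` are not met before the time `(1 - ε) log (1 / s) / χ` -/
def Far {X : Type*} [PseudoMetricSpace X] (χ : ℝ) (x₀ : X) (S : ℕ → Set X) : Prop :=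
  ∀ ε : ℝ, 0 < ε → ε < 1 → ∃ s₀ : ℝ, 0 < s₀ ∧ ∀ n : ℕ, ∀ a ∈ S n, ∀ s : ℝ, 0 < s → s ≤ s₀ →
    dist a x₀ ≤ s → (1 - ε) * -Real.log s / χ < n

/-- absorbing a constant -/
theorem far_of {X : Type*} [PseudoMetricSpace X] {x₀ : X} {S : ℕ → Set X} (hχ : 0 < χ)
    {K : ℝ} (hK : 1 ≤ K) (h : ∀ ε : ℝ, 0 < ε → ε < 1 → ∃ s₀ : ℝ, 0 < s₀ ∧ ∀ n : ℕ, ∀ a ∈ S n,
      ∀ s : ℝ, 0 < s → s ≤ s₀ → dist a x₀ ≤ s → (1 - ε) * -Real.log (K * s) / χ < n) :
    Far χ x₀ S := by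
  intro ε hε hε1
  obtain ⟨s₀, hs₀, H⟩ := h (ε / 2) (by positivity) (by linarith)
  have hK0 : 0 < K := by linarith
  set B : ℝ := Real.log K * (2 / ε) with hB
  refine ⟨min s₀ (Real.exp (-B)), lt_min hs₀ (Real.exp_pos _), ?_⟩
  intro n a ha s hs hss hd
  have h1 := H n a ha s hs (hss.trans (min_le_left _ _)) hd
  refine lt_of_le_of_lt ?_ h1
  rw [div_le_div_iff_of_pos_right hχ, Real.log_mul hK0.ne' hs.ne']
  have h2 := Real.log_le_log hs (hss.trans (min_le_right _ _))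
  rw [Real.log_exp] at h2
  have h3 : 0 ≤ Real.log K := Real.log_nonneg hK
  have h4 : Real.log K = ε / 2 * B := by
    rw [hB]
    field_simp
  have h5 : ε / 2 * B ≤ ε / 2 * -Real.log s := by
    gcongr
    linarith
  nlinarith

theorem Far.lim {X : Type*} [PseudoMetricSpace X] {x₀ : X} {S : ℕ → Set X} (H : Far χ x₀ S)
    (hd : 2 ≤ d) (h : Lyap d χ c₀) (u : ℂ → X) (hu : ∀ c', dist (u c') x₀ ≤ ‖c' - c₀‖)
    (hS : ∀ n, u '' cen d n ⊆ S n) :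
    Tendsto (fun n : ℕ => -Real.log (infDist x₀ (S n)) / n) atTop (𝓝 χ) := by
  have hχ := h.1
  obtain ⟨⟨C₁, lam, hc⟩, -⟩ := Pool.Agent.Y674.CA.lya d χ c₀ hd h
  have hlow := lyap_gap hd h
  rw [Metric.tendsto_atTop']
  intro η hη
  set η' : ℝ := η / 2 with hη'
  have hη'0 : 0 < η' := by positivity
  set ε : ℝ := η' / (χ + η') with hε
  have hε0 : 0 < ε := by positivity
  have hε1 : ε < 1 := by
    rw [hε, div_lt_one (by positivity)]
    linarith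
  have hε2 : (1 - ε) * (χ + η') = χ := by
    rw [hε]
    field_simp
    ring
  obtain ⟨s₀, hs₀, H'⟩ := H ε hε0 hε1
  have h1 : ∀ᶠ n : ℕ in atTop, -Real.log s₀ < (χ + η') * n := ev_lin' (χ + η') _ (by positivity)
  have h2 := hlow.eventually_const_lt (by linarith : χ - η < χ)
  obtain ⟨N, hN⟩ := eventually_atTop.1 (h1.and (h2.and (eventually_ge_atTop 1)))
  refine ⟨N, fun n hn => ?_⟩
  obtain ⟨h3, h4, h5⟩ := hN n hn.le
  have hn0 : (0 : ℝ) < n := by exact_mod_cast h5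
  have hne : (S n).Nonempty := ⟨u 0, hS n (mem_image_of_mem u (cen_zero hd h5))⟩
  have hD1 : Real.exp (-(χ + η') * n) ≤ infDist x₀ (S n) := by
    by_contra hcon
    rw [not_le, infDist_lt_iff hne] at hcon
    obtain ⟨a, ha, had⟩ := hcon
    rw [dist_comm] at had
    have h6 := H' n a ha (Real.exp (-(χ + η') * n)) (Real.exp_pos _) (by
      rw [← Real.exp_log hs₀]
      apply Real.exp_le_exp.mpr
      linarith) had.le
    rw [Real.log_exp, div_lt_iff₀ hχ] at h6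
    have h7 : (1 - ε) * -(-(χ + η') * (n : ℝ)) = ((1 - ε) * (χ + η')) * n := by ring
    rw [h7, hε2] at h6
    linarith
  have hD0 : 0 < infDist x₀ (S n) := (Real.exp_pos _).trans_le hD1
  have hD2 : infDist x₀ (S n) ≤ gap d c₀ n := infDist_le_gap hd u hu h5 (hS n)
  have h6 := Real.log_le_log (Real.exp_pos _) hD1
  rw [Real.log_exp] at h6
  have h7 := Real.log_le_log hD0 hD2
  rw [Real.dist_eq, abs_lt]
  constructor
  · rw [lt_div_iff₀ hn0] at h4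
    rw [lt_sub_iff_add_lt, lt_div_iff₀ hn0]
    linarith
  · rw [sub_lt_iff_lt_add, div_lt_iff₀ hn0]
    nlinarith
where
  ev_lin' (a b : ℝ) (ha : 0 < a) : ∀ᶠ n : ℕ in atTop, b < a * n :=
    (tendsto_natCast_atTop_atTop.const_mul_atTop ha).eventually_gt_atTop b

theorem Far.first_lim {X : Type*} [PseudoMetricSpace X] {x₀ : X} {S : ℕ → Set X}
    (H : Far χ x₀ S) (hd : 2 ≤ d) (h : Lyap d χ c₀) (u : ℂ → X)
    (hu : ∀ c', dist (u c') x₀ ≤ ‖c' - c₀‖) (hS : ∀ n, u '' cen d n ⊆ S n) :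
    Tendsto (fun r : ℝ => -Real.log r / first x₀ S r) (𝓝[>] 0) (𝓝 χ) := by
  have hχ := h.1
  obtain ⟨⟨C₁, lam, hc⟩, -⟩ := Pool.Agent.Y674.CA.lya d χ c₀ hd h
  have hgl := gap_tendsto hc
  have hle : ∀ r : ℝ, 0 < r → first x₀ S r ≤ per d c₀ r ∧
      ∃ a ∈ S (first x₀ S r), dist a x₀ < r := by
    intro r hr
    have hmem : per d c₀ r ∈ {n : ℕ | ∃ a ∈ S n, dist a x₀ < r} := by
      have h1 : per d c₀ r ∈ {n : ℕ | ∃ c' ∈ cen d n, ‖c' - c₀‖ < r} := by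
        apply Nat.sInf_mem
        obtain ⟨n, hn1, hn2⟩ :=
          ((hgl.eventually (gt_mem_nhds hr)).and (eventually_ge_atTop 1)).exists
        unfold gap at hn1
        rw [infDist_lt_iff ⟨0, cen_zero hd hn2⟩] at hn1
        obtain ⟨c', h1, h2⟩ := hn1
        rw [dist_comm, dist_eq_norm] at h2
        exact ⟨n, c', h1, h2⟩
      obtain ⟨c', h2, h3⟩ := h1
      exact ⟨u c', hS _ (mem_image_of_mem u h2), (hu c').trans_lt h3⟩
    exact ⟨Nat.sInf_le hmem, Nat.sInf_mem ⟨_, hmem⟩⟩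
  rw [tendsto_order]
  have hr1 : ∀ᶠ r : ℝ in 𝓝[>] 0, r < 1 := mem_nhdsWithin_of_mem_nhds (gt_mem_nhds one_pos)
  have key : ∀ ε : ℝ, 0 < ε → ε < 1 → ∀ᶠ r : ℝ in 𝓝[>] 0,
      (1 - ε) * -Real.log r / χ < first x₀ S r := by
    intro ε hε hε1
    obtain ⟨s₀, hs₀, H'⟩ := H ε hε hε1
    have hr2 : ∀ᶠ r : ℝ in 𝓝[>] 0, r < s₀ := mem_nhdsWithin_of_mem_nhds (gt_mem_nhds hs₀)
    filter_upwards [hr2, self_mem_nhdsWithin] with r hr hr0
    obtain ⟨-, a, ha, had⟩ := hle r hr0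
    exact H' _ a ha r hr0 hr.le had.le
  have hpos : ∀ᶠ r : ℝ in 𝓝[>] 0, (0 : ℝ) < first x₀ S r := by
    filter_upwards [key (1 / 2) (by norm_num) (by norm_num), hr1, self_mem_nhdsWithin]
      with r h1 h2 h3
    refine lt_of_le_of_lt ?_ h1
    have h4 : 0 ≤ -Real.log r := by
      have := Real.log_nonpos (le_of_lt h3) h2.le
      linarith
    positivity
  constructor
  · intro a ha
    have h1 := (tendsto_order.1 (lyap_per hd h)).1 a ha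
    filter_upwards [h1, hpos, hr1, self_mem_nhdsWithin] with r h2 h3 h4 h5
    refine h2.trans_le ?_
    have h6 : 0 ≤ -Real.log r := by
      have := Real.log_nonpos (le_of_lt h5) h4.le
      linarith
    have h7 : (first x₀ S r : ℝ) ≤ per d c₀ r := by exact_mod_cast (hle r h5).1
    gcongr
  · intro a ha
    have ha0 : 0 < a := hχ.trans ha
    set ε : ℝ := 1 - χ / a with hε
    have hε0 : 0 < ε := by
      have : χ / a < 1 := by rwa [div_lt_one ha0]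
      linarith
    have hε1 : ε < 1 := by
      have : 0 < χ / a := by positivity
      linarith
    filter_upwards [key ε hε0 hε1, hpos] with r h2 h3
    rw [div_lt_iff₀ h3]
    have h4 : 1 - ε = χ / a := by rw [hε]; ring
    rw [h4, div_mul_eq_mul_div, div_div, div_lt_iff₀ (by positivity)] at h2
    have h5 : χ * -Real.log r < χ * (a * first x₀ S r) := by linarith
    exact lt_of_mul_lt_mul_left h5 hχ.le

end Pool.Agent.V1186.CN
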