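import Mathlib
import Pool.Agent.V1186.CN.Cyc4

/-!
# Polynomials and rational maps near a unicritical polynomial: the cycles
-/

set_option autoImplicit false

open Set Filter Metric MeasureTheory Topology Polynomial

namespace Pool.Agent.V1186.CN

open Pool.Agent.Y298.SH.CD Pool.Agent.Y298.CA

variable {d : ℕ} {χ : ℝ} {c₀ : ℂ}

/-- the same with a constant -/
theorem cyclesK (hd : 2 ≤ d) (h : Lyap d χ c₀) {K : ℝ} (hK : 1 ≤ K) : ∃ Λ : ℝ, 1 < Λ ∧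
    ∀ ε : ℝ, 0 < ε → ε < 1 → ∃ s₀ : ℝ, 0 < s₀ ∧ ∀ (g : ℂ → ℂ) (s : ℝ), 0 < s → s ≤ s₀ →
      Near d c₀ g (K * s) → ∀ (z : ℂ) (p : ℕ), 1 ≤ p → (p : ℝ) ≤ (1 - ε) * -Real.log s / χ →
        g^[p] z = z → (∀ i, ‖g^[i] z‖ ≤ 3) → Λ ^ p ≤ ‖deriv (g^[p]) z‖ := by
  have hχ := h.1
  obtain ⟨Λ, hΛ, H⟩ := cycles' hd h
  refine ⟨Λ, hΛ, fun ε hε hε1 => ?_⟩
  obtain ⟨r₀, hr₀, H'⟩ := H (ε / 2) (by positivity) (by linarith)
  have hK0 : 0 < K := by linarith
  set B : ℝ := Real.log K * (2 / ε) with hB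
  refine ⟨min (r₀ / K) (Real.exp (-B)), lt_min (by positivity) (Real.exp_pos _), ?_⟩
  intro g s hs hss hg z p hp hpr hz hin
  have h1 : K * s ≤ r₀ := by
    have := hss.trans (min_le_left _ _)
    rw [le_div_iff₀ hK0] at this
    linarith
  refine H' g (K * s) (by positivity) h1 hg z p hp (hpr.trans ?_) hz hin
  rw [div_le_div_iff_of_pos_right hχ, Real.log_mul hK0.ne' hs.ne']
  have h2 := Real.log_le_log hs (hss.trans (min_le_right _ _))
  rw [Real.log_exp] at h2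
  have h3 : 0 ≤ Real.log K := Real.log_nonneg hK
  have h4 : Real.log K = ε / 2 * B := by
    rw [hB]
    field_simp
  have h5 : ε / 2 * B ≤ ε / 2 * -Real.log s := by
    gcongr
    linarith
  nlinarith

theorem near_pol (hd : 2 ≤ d) {a : Fin (d + 1) → ℂ} {s : ℝ} (hs : dist a (centre d c₀) ≤ s) :
    Near d c₀ (fun z => (poly a).eval z) ((d + 1) * 4 ^ d * s) := by
  refine ⟨(poly a).differentiable.differentiableOn, fun z hz => ?_⟩
  refine (poly_sub_le hd a c₀ hz).trans ?_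
  rw [mul_comm]
  gcongr

/-- difference of two polynomials at the points of modulus at least one -/
theorem poly_diff_ge {a b : Fin (d + 1) → ℂ} {s : ℝ} (hs : dist a b ≤ s) {z : ℂ}
    (hz : 1 ≤ ‖z‖) : ‖(poly a).eval z - (poly b).eval z‖ ≤ s * (d + 1) * ‖z‖ ^ d := by
  rw [eval_poly, eval_poly, ← Finset.sum_sub_distrib]
  refine (norm_sum_le _ _).trans ?_
  have h2 : ∀ i ∈ (Finset.univ : Finset (Fin (d + 1))), ‖a i * z ^ (i : ℕ) -
      b i * z ^ (i : ℕ)‖ ≤ s * ‖z‖ ^ d := by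
    intro i _
    rw [← sub_mul, norm_mul, norm_pow]
    have h3 : ‖a i - b i‖ ≤ s := by
      rw [← dist_eq_norm]
      exact (dist_le_pi_dist a b i).trans hs
    have h4 : ‖z‖ ^ (i : ℕ) ≤ ‖z‖ ^ d := pow_le_pow_right₀ hz (by omega)
    exact mul_le_mul h3 h4 (by positivity) (dist_nonneg.trans hs)
  refine (Finset.sum_le_sum h2).trans ?_
  rw [Finset.sum_const, Finset.card_univ, Fintype.card_fin, nsmul_eq_mul]
  push_cast
  exact le_of_eq (by ring)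

/-- outside the disc of radius three -/
theorem num_ge (hd : 2 ≤ d) (hc : ‖c₀‖ ≤ 2) {a : Fin (d + 1) → ℂ} {s : ℝ}
    (hs : dist a (centre d c₀) ≤ s) (hs1 : s * (d + 1) ≤ 1 / 12) {z : ℂ} (hz : 3 ≤ ‖z‖) :
    11 / 12 * ‖z‖ ^ d - 2 ≤ ‖(poly a).eval z‖ := by
  have h1 := poly_diff_ge hs (z := z) (by linarith)
  rw [poly_centre (by omega)] at h1
  simp only [eval_add, eval_pow, eval_X, eval_C] at h1
  have h2 : ‖z ^ d‖ ≤ ‖(poly a).eval z‖ + ‖(poly a).eval z - (z ^ d + c₀)‖ + ‖c₀‖ := by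
    calc ‖z ^ d‖ = ‖(poly a).eval z - ((poly a).eval z - (z ^ d + c₀)) - c₀‖ := by
          congr 1; ring
      _ ≤ ‖(poly a).eval z - ((poly a).eval z - (z ^ d + c₀))‖ + ‖c₀‖ := norm_sub_le _ _
      _ ≤ _ := by
        have := norm_sub_le ((poly a).eval z) ((poly a).eval z - (z ^ d + c₀))
        linarith
  rw [norm_pow] at h2
  have h3 : s * (d + 1) * ‖z‖ ^ d ≤ 1 / 12 * ‖z‖ ^ d := by gcongr
  linarith

theorem pow_ge (hd : 2 ≤ d) {z : ℂ} (hz : 3 ≤ ‖z‖) : 3 * ‖z‖ ≤ ‖z‖ ^ d := by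
  calc 3 * ‖z‖ ≤ ‖z‖ * ‖z‖ := by gcongr
    _ = ‖z‖ ^ 2 := by ring
    _ ≤ ‖z‖ ^ d := pow_le_pow_right₀ (by linarith) hd

theorem esc_pol (hd : 2 ≤ d) (hc : ‖c₀‖ ≤ 2) {a : Fin (d + 1) → ℂ} {s : ℝ}
    (hs : dist a (centre d c₀) ≤ s) (hs1 : s * (d + 1) ≤ 1 / 12) {z : ℂ} (hz : 3 < ‖z‖) :
    ‖z‖ < ‖(poly a).eval z‖ := by
  have h1 := num_ge hd hc hs hs1 hz.le
  have h2 := pow_ge hd hz.le
  linarith

theorem den_le {b : Fin (d + 1) → ℂ} {s : ℝ} (hs : dist b (cone d) ≤ s)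
    (hs1 : s * (d + 1) ≤ 1 / 12) {z : ℂ} (hz : 3 ≤ ‖z‖) :
    ‖(poly b).eval z‖ ≤ 1 + 1 / 12 * ‖z‖ ^ d := by
  have h1 := poly_diff_ge hs (z := z) (by linarith)
  rw [poly_cone, eval_one] at h1
  have h2 : ‖(poly b).eval z‖ ≤ 1 + ‖(poly b).eval z - 1‖ := by
    calc ‖(poly b).eval z‖ = ‖1 + ((poly b).eval z - 1)‖ := by congr 1; ring
      _ ≤ ‖(1 : ℂ)‖ + ‖(poly b).eval z - 1‖ := norm_add_le _ _
      _ = _ := by rw [norm_one]
  have h3 : s * (d + 1) * ‖z‖ ^ d ≤ 1 / 12 * ‖z‖ ^ d := by gcongr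
  linarith

/-- `|P| > 3 |Q|` outside the disc -/
theorem num_den (hd : 2 ≤ d) (hc : ‖c₀‖ ≤ 2)
    {x : (Fin (d + 1) → ℂ) × (Fin (d + 1) → ℂ)} {s : ℝ}
    (hs : dist x (centre d c₀, cone d) ≤ s) (hs1 : s * (d + 1) ≤ 1 / 12) :
    (∀ z : ℂ, 3 ≤ ‖z‖ → 3 * ‖(poly x.2).eval z‖ < ‖(poly x.1).eval z‖) ∧
      3 * ‖x.2 (Fin.last d)‖ < ‖x.1 (Fin.last d)‖ := by
  have ha : dist x.1 (centre d c₀) ≤ s := (le_max_left _ _).trans hs
  have hb : dist x.2 (cone d) ≤ s := (le_max_right _ _).trans hs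
  have hdR : (2 : ℝ) ≤ d := by exact_mod_cast hd
  have hs0 : 0 ≤ s := dist_nonneg.trans hs
  refine ⟨fun z hz => ?_, ?_⟩
  · have h1 := num_ge hd hc ha hs1 hz
    have h2 := den_le hb hs1 hz
    have h3 := pow_ge hd hz
    linarith
  · have h1 : ‖x.2 (Fin.last d) - cone d (Fin.last d)‖ ≤ s := by
      rw [← dist_eq_norm]
      exact (dist_le_pi_dist _ _ _).trans hb
    have h2 : ‖x.1 (Fin.last d) - centre d c₀ (Fin.last d)‖ ≤ s := by
      rw [← dist_eq_norm]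
      exact (dist_le_pi_dist _ _ _).trans ha
    have h3 : cone d (Fin.last d) = 0 := by
      show (1 : ℂ[X]).coeff d = 0
      rw [coeff_one, if_neg (by omega)]
    have h4 : centre d c₀ (Fin.last d) = 1 := by
      show (X ^ d + C c₀ : ℂ[X]).coeff d = 1
      rw [coeff_add, coeff_X_pow, if_pos rfl, coeff_C, if_neg (by omega), add_zero]
    rw [h3, sub_zero] at h1
    rw [h4] at h2
    have h5 : (1 : ℝ) ≤ ‖x.1 (Fin.last d)‖ + ‖x.1 (Fin.last d) - 1‖ := by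
      calc (1 : ℝ) = ‖x.1 (Fin.last d) - (x.1 (Fin.last d) - 1)‖ := by
            rw [sub_sub_cancel, norm_one]
        _ ≤ _ := norm_sub_le _ _
    have h6 : s ≤ 1 / 12 := by nlinarith
    linarith

theorem near_rat (hd : 2 ≤ d) (hc : ‖c₀‖ ≤ 2)
    {x : (Fin (d + 1) → ℂ) × (Fin (d + 1) → ℂ)} {s : ℝ}
    (hx : dist x (centre d c₀, cone d) ≤ s) (hs1 : s * ((d + 1) * 4 ^ d) ≤ 1 / 2) :
    (∀ z ∈ ball (0 : ℂ) 4, (poly x.2).eval z ≠ 0) ∧
      Near d c₀ (quo x) (2 * ((d + 1) * 4 ^ d) * (4 ^ d + 3) * s) := by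
  have hE : (0 : ℝ) < (d + 1) * 4 ^ d := by positivity
  set E : ℝ := (d + 1) * 4 ^ d with hEdef
  have hs0 : 0 ≤ s := dist_nonneg.trans hx
  have hP : ∀ z ∈ ball (0 : ℂ) 4, ‖(poly x.1).eval z - (z ^ d + c₀)‖ ≤ s * E := by
    intro z hz
    have h2 := poly_diff_le x.1 (centre d c₀) hz
    rw [poly_centre (by omega)] at h2
    simp only [eval_add, eval_pow, eval_X, eval_C] at h2
    refine h2.trans (mul_le_mul_of_nonneg_right ?_ hE.le)
    exact (le_max_left _ _).trans hx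
  have hQ : ∀ z ∈ ball (0 : ℂ) 4, ‖(poly x.2).eval z - 1‖ ≤ s * E := by
    intro z hz
    have h2 := poly_diff_le x.2 (cone d) hz
    rw [poly_cone, eval_one] at h2
    refine h2.trans (mul_le_mul_of_nonneg_right ?_ hE.le)
    exact (le_max_right _ _).trans hx
  have hQ2 : ∀ z ∈ ball (0 : ℂ) 4, 1 / 2 ≤ ‖(poly x.2).eval z‖ := by
    intro z hz
    have h2 := hQ z hz
    have h3 : (1 : ℝ) ≤ ‖(poly x.2).eval z‖ + ‖(poly x.2).eval z - 1‖ := by
      calc (1 : ℝ) = ‖(poly x.2).eval z - ((poly x.2).eval z - 1)‖ := by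
            rw [sub_sub_cancel, norm_one]
        _ ≤ _ := norm_sub_le _ _
    linarith
  have hQ0 : ∀ z ∈ ball (0 : ℂ) 4, (poly x.2).eval z ≠ 0 := by
    intro z hz h0
    have h2 := hQ2 z hz
    rw [h0, norm_zero] at h2
    norm_num at h2
  refine ⟨hQ0, ?_, ?_⟩
  · intro z hz
    exact ((poly x.1).differentiable.differentiableAt.div
      (poly x.2).differentiable.differentiableAt (hQ0 z hz)).differentiableWithinAt
  · intro z hz
    have h2 := hP z hz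
    have h3 := hQ z hz
    have h4 := hQ2 z hz
    have h5 : ‖z ^ d + c₀‖ ≤ 4 ^ d + 2 := by
      refine (norm_add_le _ _).trans (add_le_add ?_ hc)
      rw [norm_pow]
      rw [mem_ball_zero_iff] at hz
      exact pow_le_pow_left₀ (norm_nonneg _) hz.le _
    have h6 : quo x z - (z ^ d + c₀) = (((poly x.1).eval z - (z ^ d + c₀)) -
        (z ^ d + c₀) * ((poly x.2).eval z - 1)) / (poly x.2).eval z := by
      unfold quo
      rw [eq_div_iff (hQ0 z hz), sub_mul, div_mul_cancel₀ _ (hQ0 z hz)]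
      ring
    rw [h6, norm_div, div_le_iff₀ (by linarith)]
    calc ‖((poly x.1).eval z - (z ^ d + c₀)) - (z ^ d + c₀) * ((poly x.2).eval z - 1)‖ ≤
        s * E + (4 ^ d + 2) * (s * E) := by
          refine (norm_sub_le _ _).trans (add_le_add h2 ?_)
          rw [norm_mul]
          gcongr
      _ = 2 * E * (4 ^ d + 3) * s * (1 / 2) := by ring
      _ ≤ _ := mul_le_mul_of_nonneg_left h4 (by positivity)

end Pool.Agent.V1186.CN
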