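import Mathlib
import Pool.Agent.V1186.CN.Cyc5

/-!
# Orbits which stay away from the critical point, for the maps near a unicritical polynomial
-/

set_option autoImplicit false

open Set Filter Metric MeasureTheory Topology

namespace Pool.Agent.V1186.CN

open Pool.Agent.TH279.MD Pool.Agent.Y298.SH Pool.Agent.Y298.SH.CD Pool.Agent.Y298.CA
open Pool.Agent.H712R2 (P P_succ)

variable {d : ℕ} {χ : ℝ} {c₀ : ℂ}

/-- **The gain of a passage near the critical point, with a small derivative at the first step.** -/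
theorem gain2 (hd : 2 ≤ d) (h : Lyap d χ c₀) {κ : ℝ} (hκ : 0 < κ) (hκ1 : κ < 1) (G : ℝ)
    (hG : 0 < G) : ∃ l₀ c₁ : ℝ, 0 < l₀ ∧ 0 < c₁ ∧ ∀ l : ℝ, l₀ ≤ l → ∀ (g : ℂ → ℂ) (r : ℝ),
      Near d c₀ g r → r ≤ Real.exp (-l) → ∀ z : ℂ, ‖z‖ ^ d ≤ Real.exp (-l) →
      Real.exp (-((1 - κ) * l)) ≤ ‖z‖ ^ (d - 1) → (∀ i, ‖g^[i] z‖ ≤ 3) →
      ∃ k : ℕ, G * Real.exp (κ * χ / 4 * ((k : ℝ) + 1)) ≤ ‖mu g z (k + 1)‖ ∧
        ∀ j ≤ k, c₁ * (‖z‖ ^ (d - 1) * Real.exp (κ * χ / 4 * ((j : ℝ) + 1))) ≤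
          ‖mu g z (j + 1)‖ := by
  obtain ⟨⟨C₁, lam, hc⟩, hlya⟩ := Pool.Agent.Y674.CA.lya d χ c₀ hd h
  have hχ : 0 < χ := h.1
  have hdR : (2 : ℝ) ≤ d := by exact_mod_cast hd
  set ε₁ : ℝ := κ / 4 with hε₁
  have hε₁0 : 0 < ε₁ := by positivity
  obtain ⟨l₁, hl₁, H⟩ := shadow hd h hε₁0 (by linarith)
  set ε₂ : ℝ := κ * χ / 4 with hε₂
  have hε₂0 : 0 < ε₂ := by positivity
  have hε₂1 : ε₂ ≤ χ / 4 := by
    rw [hε₂]
    nlinarith
  obtain ⟨C, hC1, hC⟩ := hlya ε₂ hε₂0
  have hC0 : 0 < C := by linarith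
  set B : ℝ := Real.log (2 * C) + χ + Real.log G + ε₂ with hB
  refine ⟨max l₁ (max (Real.log 2 / κ) (4 / κ * |B|)), Real.exp (-ε₂) / (2 * C),
    lt_of_lt_of_le hl₁ (le_max_left _ _), by positivity, ?_⟩
  intro l hl g r hg hr z hz hzlow hin
  have hl1 : l₁ ≤ l := (le_max_left _ _).trans hl
  have hl2 : Real.log 2 / κ ≤ l := (le_max_left _ _).trans ((le_max_right _ _).trans hl)
  have hl3 : 4 / κ * |B| ≤ l := (le_max_right _ _).trans ((le_max_right _ _).trans hl)
  have hl0 : 0 < l := lt_of_lt_of_le hl₁ hl1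
  have hr0 := hg.nonneg
  have hz3 : ‖z‖ ≤ 3 := hin 0
  have hκl : Real.log 2 ≤ κ * l := by
    rw [div_le_iff₀ hκ] at hl2
    linarith
  -- the first factor
  have hzpos : 0 < ‖z‖ ^ (d - 1) := lt_of_lt_of_le (Real.exp_pos _) hzlow
  have hrz : 2 * r ≤ ‖z‖ ^ (d - 1) := by
    refine le_trans ?_ hzlow
    calc 2 * r ≤ Real.exp (Real.log 2) * Real.exp (-l) := by
          rw [Real.exp_log (by norm_num)]
          linarith
      _ = Real.exp (Real.log 2 - l) := by rw [← Real.exp_add]; ring_nf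
      _ ≤ _ := by
          apply Real.exp_le_exp.mpr
          nlinarith
  have hfirst : ‖z‖ ^ (d - 1) ≤ ‖deriv g z‖ := by
    have h2 := hg.deriv hz3
    have h3 : ‖(d : ℂ) * z ^ (d - 1)‖ ≤ ‖deriv g z‖ + ‖deriv g z - d * z ^ (d - 1)‖ := by
      calc ‖(d : ℂ) * z ^ (d - 1)‖ = ‖deriv g z - (deriv g z - d * z ^ (d - 1))‖ := by
            congr 1; ring
        _ ≤ _ := norm_sub_le _ _
    rw [norm_mul, norm_pow, Complex.norm_natCast] at h3
    nlinarith
  -- all the times
  have hall : ∀ j : ℕ, (j : ℝ) ≤ (1 - ε₁) * l / χ →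
      ‖z‖ ^ (d - 1) * (Real.exp ((χ - ε₂) * j) / (2 * C)) ≤ ‖mu g z (j + 1)‖ := by
    intro j hj
    obtain ⟨-, h1⟩ := H l hl1 g r hg hr z hz3 hz hin j hj
    have hmu : mu g z (j + 1) = deriv g z * mu g (g z) j := by
      rw [add_comm, mu_add, mu_one, Function.iterate_one]
    rw [hmu, norm_mul]
    obtain ⟨g1, -, -⟩ := hC j
    have h3 : Real.exp ((χ - ε₂) * j) / (2 * C) ≤ Pd d c₀ j / 2 := by
      rw [div_le_div_iff₀ (by positivity) (by norm_num)]
      nlinarith
    exact mul_le_mul hfirst (h3.trans h1) (by positivity) (norm_nonneg _)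
  have hk0 : 0 ≤ (1 - ε₁) * l / χ := by
    have : 0 ≤ 1 - ε₁ := by linarith
    positivity
  set k : ℕ := ⌊(1 - ε₁) * l / χ⌋₊ with hk
  have hk1 : (k : ℝ) ≤ (1 - ε₁) * l / χ := Nat.floor_le hk0
  have hk2 : (1 - ε₁) * l / χ < k + 1 := Nat.lt_floor_add_one _
  refine ⟨k, ?_, fun j hj => ?_⟩
  · refine le_trans ?_ (hall k hk1)
    have h1 : Real.exp (-((1 - κ) * l)) * (Real.exp ((χ - ε₂) * k) / (2 * C)) ≤
        ‖z‖ ^ (d - 1) * (Real.exp ((χ - ε₂) * k) / (2 * C)) := by gcongr
    refine le_trans ?_ h1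
    have hlhs : 0 < G * Real.exp (κ * χ / 4 * ((k : ℝ) + 1)) := by positivity
    have hrhs : 0 < Real.exp (-((1 - κ) * l)) * (Real.exp ((χ - ε₂) * k) / (2 * C)) := by
      positivity
    rw [← Real.log_le_log_iff hlhs hrhs, Real.log_mul hG.ne' (Real.exp_pos _).ne', Real.log_exp,
      Real.log_mul (Real.exp_pos _).ne' (by positivity),
      Real.log_div (Real.exp_pos _).ne' (by positivity), Real.log_exp, Real.log_exp]
    have h6 : κ * χ / 4 * ((k : ℝ) + 1) ≤ κ / 4 * l + ε₂ := by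
      have h7 : (k : ℝ) ≤ l / χ := by
        refine hk1.trans ?_
        rw [div_le_div_iff_of_pos_right hχ]
        nlinarith
      calc κ * χ / 4 * ((k : ℝ) + 1) ≤ κ * χ / 4 * (l / χ + 1) := by gcongr
        _ = _ := by
          rw [hε₂]
          field_simp
    have h7 : l * (1 - ε₁) - κ / 4 * l - χ ≤ (χ - ε₂) * k := by
      have h8 : (1 - ε₁) * l / χ - 1 ≤ k := by linarith
      have h9 : 0 ≤ χ - ε₂ := by linarith
      have h10 : (χ - ε₂) * ((1 - ε₁) * l / χ - 1) ≤ (χ - ε₂) * k := by gcongr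
      have h11 : (χ - ε₂) * ((1 - ε₁) * l / χ - 1) =
          (1 - ε₁) * l - χ - ε₂ / χ * ((1 - ε₁) * l) + ε₂ := by
        field_simp
        ring
      have h12 : ε₂ / χ = κ / 4 := by
        rw [hε₂]
        field_simp
      rw [h11, h12] at h10
      have h13 : κ / 4 * ((1 - ε₁) * l) ≤ κ / 4 * l := by
        have : (1 - ε₁) * l ≤ l := by nlinarith
        gcongr
      linarith
    have h11 : B ≤ κ / 4 * l := by
      have h12 : B ≤ |B| := le_abs_self B
      have h13 : κ / 4 * (4 / κ * |B|) ≤ κ / 4 * l := by gcongr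
      have h14 : κ / 4 * (4 / κ * |B|) = |B| := by field_simp
      linarith
    rw [hB] at h11
    have h12 : l * (1 - ε₁) = l - κ / 4 * l := by rw [hε₁]; ring
    rw [h12] at h7
    linarith
  · have hjR : (j : ℝ) ≤ k := by exact_mod_cast hj
    refine le_trans ?_ (hall j (hjR.trans hk1))
    have h1 : κ * χ / 4 * ((j : ℝ) + 1) - ε₂ ≤ (χ - ε₂) * j := by
      have h2 : ε₂ * (j : ℝ) ≤ (χ - ε₂) * j := by
        gcongr
        linarith
      rw [← hε₂]
      linarith
    calc Real.exp (-ε₂) / (2 * C) * (‖z‖ ^ (d - 1) * Real.exp (κ * χ / 4 * ((j : ℝ) + 1))) =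
        ‖z‖ ^ (d - 1) * (Real.exp (κ * χ / 4 * ((j : ℝ) + 1) - ε₂) / (2 * C)) := by
          rw [sub_eq_add_neg, Real.exp_add]
          ring
      _ ≤ _ := by gcongr

/-- from the growth to the multiplier, with a constant -/
theorem growthA {g : ℂ → ℂ} {w : ℂ} {p : ℕ} (hp : 1 ≤ p) (hw : g^[p] w = w) {ν A : ℝ}
    (hA : 0 < A) (h : ∀ t : ℕ, A * Real.exp (ν * t) ≤ ‖mu g w t‖) :
    Real.exp (ν * p) ≤ ‖mu g w p‖ := by
  by_contra hcon
  rw [not_le] at hcon
  set m := ‖mu g w p‖ with hm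
  have hm0 : 0 ≤ m := norm_nonneg _
  have hE : 0 < Real.exp (ν * p) := Real.exp_pos _
  have hρ1 : m / Real.exp (ν * p) < 1 := by rwa [div_lt_one hE]
  have hρ0 : 0 ≤ m / Real.exp (ν * p) := by positivity
  have hlim := tendsto_pow_atTop_nhds_zero_of_lt_one hρ0 hρ1
  obtain ⟨Q, hQ⟩ := eventually_atTop.1 (hlim.eventually_lt_const hA)
  have h1 := hQ Q le_rfl
  have h2 := h (p * Q)
  have h3 : mu g w (p * Q) = mu g w p ^ Q := by
    have := mu_mul hw Q 0
    rwa [add_zero, mu_zero, mul_one] at this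
  rw [h3, norm_pow, ← hm] at h2
  have h4 : Real.exp (ν * ((p * Q : ℕ) : ℝ)) = Real.exp (ν * p) ^ Q := by
    rw [← Real.exp_nat_mul]
    congr 1
    push_cast
    ring
  rw [h4] at h2
  rw [div_pow, div_lt_iff₀ (by positivity)] at h1
  linarith

/-- **Orbits which stay away from the critical point are uniformly expanded.** -/
theorem recur (hd : 2 ≤ d) (h : Lyap d χ c₀) {ε : ℝ} (hε : 0 < ε) (hε1 : ε < 1) :
    ∃ ν r₀ c₁ : ℝ, 0 < ν ∧ 0 < r₀ ∧ 0 < c₁ ∧ ∀ (g : ℂ → ℂ) (r : ℝ), 0 < r → r ≤ r₀ →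
      Near d c₀ g r → ∀ z : ℂ, (∀ i, ‖g^[i] z‖ ≤ 3) → ∀ n : ℕ,
        (∀ i < n, r ^ (1 - ε) ≤ ‖g^[i] z‖ ^ (d - 1)) →
        c₁ * r * Real.exp (ν * n) ≤ ‖mu g z n‖ := by
  obtain ⟨⟨C₁, lam, hc⟩, -⟩ := Pool.Agent.Y674.CA.lya d χ c₀ hd h
  have hχ : 0 < χ := h.1
  have hdR : (2 : ℝ) ≤ d := by exact_mod_cast hd
  obtain ⟨ρ₀, G, hρ₀, hG, hout⟩ := outside hc
  have hG0 : 0 < G := by linarith
  set κ : ℝ := min (1 / d) ε with hκ
  have hκ0 : 0 < κ := lt_min (by positivity) hε
  have hκd : κ ≤ 1 / d := min_le_left _ _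
  have hκε : κ ≤ ε := min_le_right _ _
  have hκ1 : κ < 1 := hκε.trans_lt hε1
  obtain ⟨l₁, cg, hl₁, hcg, hgain⟩ := gain2 hd h hκ0 hκ1 (2 * G) (by positivity)
  set δ : ℝ := min ρ₀ (min (1 / 2) (Real.exp (-l₁))) with hδ
  have hδ0 : 0 < δ := lt_min hρ₀ (lt_min (by norm_num) (Real.exp_pos _))
  have hδρ : δ ≤ ρ₀ := min_le_left _ _
  have hδ2 : δ ≤ 1 / 2 := (min_le_right _ _).trans (min_le_left _ _)
  have hδl : δ ≤ Real.exp (-l₁) := (min_le_right _ _).trans (min_le_right _ _)
  have hδd : δ ^ d ≤ Real.exp (-l₁) := by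
    refine le_trans ?_ hδl
    calc δ ^ d ≤ δ ^ 1 := pow_le_pow_of_le_one hδ0.le (by linarith) (by omega)
      _ = δ := pow_one _
  obtain ⟨N, e, hN, he, hout'⟩ := hout δ hδ0 hδρ
  have hNR : (1 : ℝ) ≤ N := by exact_mod_cast hN
  have hl2 : 0 < Real.log 2 := Real.log_pos (by norm_num)
  set ν : ℝ := min (Real.log 2 / N) (κ * χ / 4) with hν
  have hν0 : 0 < ν := lt_min (by positivity) (by positivity)
  have hνa : ν * N ≤ Real.log 2 := by
    have : ν ≤ Real.log 2 / N := min_le_left _ _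
    rwa [le_div_iff₀ (by positivity)] at this
  have hνb : ν ≤ κ * χ / 4 := min_le_right _ _
  set a₀ : ℝ := (δ ^ (d - 1)) ^ N with ha₀
  have ha₀0 : 0 < a₀ := by positivity
  have hδp1 : δ ^ (d - 1) ≤ 1 := pow_le_one₀ hδ0.le (by linarith)
  set c₁ : ℝ := min (a₀ / 2) (cg / (2 * G)) with hc₁
  have hc₁0 : 0 < c₁ := lt_min (by positivity) (by positivity)
  have hc₁a : c₁ ≤ a₀ / 2 := min_le_left _ _
  have hc₁b : c₁ ≤ cg / (2 * G) := min_le_right _ _
  set r₀ : ℝ := min (min e (Real.exp (-l₁))) (min 1 (δ ^ (d - 1) / 2)) with hr₀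
  have hr₀0 : 0 < r₀ := lt_min (lt_min he (Real.exp_pos _)) (lt_min one_pos (by positivity))
  refine ⟨ν, r₀, c₁, hν0, hr₀0, hc₁0, ?_⟩
  intro g r hr0 hr hg
  have hre : r ≤ e := hr.trans ((min_le_left _ _).trans (min_le_left _ _))
  have hrl : r ≤ Real.exp (-l₁) := hr.trans ((min_le_left _ _).trans (min_le_right _ _))
  have hr1 : r ≤ 1 := hr.trans ((min_le_right _ _).trans (min_le_left _ _))
  have hrδ : r ≤ δ ^ (d - 1) / 2 := hr.trans ((min_le_right _ _).trans (min_le_right _ _))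
  -- the growth of powers of two
  have hpow : ∀ n : ℕ, Real.exp (ν * n) ≤ 2 * 2 ^ (n / N) := by
    intro n
    have h4 : (n : ℝ) ≤ N * ((n / N : ℕ) + 1) := by
      have h5 : n < N * (n / N + 1) := Nat.lt_mul_div_succ n (by omega)
      exact_mod_cast h5.le
    calc Real.exp (ν * n) ≤ Real.exp (Real.log 2 * ((n / N : ℕ) + 1)) := by
          apply Real.exp_le_exp.mpr
          calc ν * n ≤ ν * (N * ((n / N : ℕ) + 1)) := by gcongr
            _ = (ν * N) * ((n / N : ℕ) + 1) := by ring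
            _ ≤ _ := by gcongr
      _ = 2 * 2 ^ (n / N) := by
          rw [mul_add, mul_one, Real.exp_add, Real.exp_log (by norm_num), mul_comm (Real.log 2),
            Real.exp_nat_mul, Real.exp_log (by norm_num)]
          ring
  -- segments away from the critical point
  have hfree : ∀ n : ℕ, ∀ z : ℂ, (∀ i, ‖g^[i] z‖ ≤ 3) → (∀ i < n, δ ≤ ‖g^[i] z‖) →
      a₀ * 2 ^ (n / N) ≤ ‖mu g z n‖ := by
    intro n
    induction n using Nat.strong_induction_on with
    | _ n ih =>
      intro z hz hfar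
      rcases lt_or_ge n N with hn | hn
      · rw [Nat.div_eq_of_lt hn, pow_zero, mul_one]
        have hstep : ∀ i < n, δ ^ (d - 1) ≤ ‖deriv g (g^[i] z)‖ := by
          intro i hi
          have h2 := hg.deriv (hz i)
          have h3 : ‖(d : ℂ) * (g^[i] z) ^ (d - 1)‖ ≤
              ‖deriv g (g^[i] z)‖ + ‖deriv g (g^[i] z) - d * (g^[i] z) ^ (d - 1)‖ := by
            calc ‖(d : ℂ) * (g^[i] z) ^ (d - 1)‖ =
                ‖deriv g (g^[i] z) - (deriv g (g^[i] z) - d * (g^[i] z) ^ (d - 1))‖ := by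
                  congr 1; ring
              _ ≤ _ := norm_sub_le _ _
          rw [norm_mul, norm_pow, Complex.norm_natCast] at h3
          have h4 : δ ^ (d - 1) ≤ ‖g^[i] z‖ ^ (d - 1) := pow_le_pow_left₀ hδ0.le (hfar i hi) _
          have h5 : 2 * δ ^ (d - 1) ≤ d * ‖g^[i] z‖ ^ (d - 1) := by gcongr
          linarith
        have h1 : (δ ^ (d - 1)) ^ n ≤ ‖mu g z n‖ := by
          unfold mu
          rw [norm_prod, ← Finset.card_range n, ← Finset.prod_const, Finset.card_range]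
          apply Finset.prod_le_prod
          · intro i _
            positivity
          · intro i hi
            exact hstep i (Finset.mem_range.1 hi)
        exact (pow_le_pow_of_le_one (by positivity) hδp1 hn.le).trans h1
      · have h1 := (hout' g r hg hre z hz).1 (fun i hi => hfar i (by omega))
        have h2 := ih (n - N) (by omega) (g^[N] z)
          (fun i => by rw [← Function.iterate_add_apply]; exact hz _)
          (fun i hi => by
            rw [← Function.iterate_add_apply]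
            exact hfar (i + N) (by omega))
        have h3 : n / N = (n - N) / N + 1 := by
          conv_lhs => rw [← Nat.sub_add_cancel hn]
          exact Nat.add_div_right _ (by omega)
        have h4 : mu g z n = mu g z N * mu g (g^[N] z) (n - N) := by
          rw [← mu_add]
          congr 1
          omega
        rw [h3, pow_succ, h4, norm_mul]
        calc a₀ * ((2 : ℝ) ^ ((n - N) / N) * 2) = (a₀ * 2 ^ ((n - N) / N)) * 2 := by ring
          _ ≤ ‖mu g (g^[N] z) (n - N)‖ * ‖mu g z N‖ :=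
              mul_le_mul h2 h1 (by norm_num) (norm_nonneg _)
          _ = _ := by ring
  intro z hz n
  induction n using Nat.strong_induction_on generalizing z with
  | _ n ih =>
    intro hfar
    by_cases hcase : ∃ i < n, ‖g^[i] z‖ < δ
    · -- the first entrance
      classical
      have hex : ∃ i, i < n ∧ ‖g^[i] z‖ < δ := hcase
      obtain ⟨m, ⟨hm1, hm2⟩, hm3⟩ : ∃ m, (m < n ∧ ‖g^[m] z‖ < δ) ∧ ∀ i < m, δ ≤ ‖g^[i] z‖ := by
        refine ⟨Nat.find hex, Nat.find_spec hex, fun i hi => ?_⟩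
        have h1 := Nat.find_min hex hi
        have h2 := (Nat.find_spec hex).1
        by_contra hcon
        rw [not_le] at hcon
        exact h1 ⟨hi.trans h2, hcon⟩
      set w := g^[m] z with hw
      have hwin : ∀ i, ‖g^[i] w‖ ≤ 3 := fun i => by
        rw [hw, ← Function.iterate_add_apply]
        exact hz _
      have h1 := (hout' g r hg hre z hz).2 m hm3 hm2.le
      have hseg : Real.exp (ν * m) / (2 * G) ≤ ‖mu g z m‖ := by
        rw [div_le_iff₀ (by positivity)]
        calc Real.exp (ν * m) ≤ 2 * 2 ^ (m / N) := hpow m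
          _ ≤ 2 * (G * ‖mu g z m‖) := by gcongr
          _ = _ := by ring
      -- the passage
      have hwlow : r ^ (1 - ε) ≤ ‖w‖ ^ (d - 1) := hfar m hm1
      have hw0 : 0 < ‖w‖ ^ (d - 1) := lt_of_lt_of_le (Real.rpow_pos_of_pos hr0 _) hwlow
      have hwpos : 0 < ‖w‖ := by
        rcases (norm_nonneg w).lt_or_eq with h2 | h2
        · exact h2
        · rw [← h2, zero_pow (by omega)] at hw0
          exact absurd hw0 (lt_irrefl _)
      have hw1 : ‖w‖ ≤ 1 := by linarith
      set s : ℝ := max (‖w‖ ^ d) r with hs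
      have hs0 : 0 < s := lt_max_of_lt_right hr0
      set l := -Real.log s with hl
      have hsl : Real.exp (-l) = s := by rw [hl, neg_neg, Real.exp_log hs0]
      have hll : l₁ ≤ l := by
        have h2 : s ≤ Real.exp (-l₁) := max_le (le_trans (by gcongr) hδd) hrl
        have h3 := Real.log_le_log hs0 h2
        rw [Real.log_exp] at h3
        linarith
      have hs1 : s ≤ 1 := max_le (pow_le_one₀ hwpos.le hw1) hr1
      have hlow : Real.exp (-((1 - κ) * l)) ≤ ‖w‖ ^ (d - 1) := by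
        have h2 : Real.exp (-((1 - κ) * l)) = s ^ (1 - κ) := by
          rw [Real.rpow_def_of_pos hs0, hl]
          congr 1
          ring
        rw [h2]
        rcases le_total (‖w‖ ^ d) r with h3 | h3
        · rw [hs, max_eq_right h3]
          refine le_trans ?_ hwlow
          exact Real.rpow_le_rpow_of_exponent_ge hr0 hr1 (by linarith)
        · rw [hs, max_eq_left h3, ← Real.rpow_natCast, ← Real.rpow_natCast, ← Real.rpow_mul hwpos.le]
          apply Real.rpow_le_rpow_of_exponent_ge hwpos hw1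
          rw [Nat.cast_sub (by omega), Nat.cast_one]
          have h4 : d * κ ≤ 1 := by
            calc d * κ ≤ d * (1 / d) := by gcongr
              _ = 1 := by field_simp
          linarith
      obtain ⟨k, hk1, hk2⟩ := hgain l hll g r hg (by rw [hsl]; exact le_max_right _ _) w
        (by rw [hsl]; exact le_max_left _ _) hlow hwin
      rcases le_or_gt (m + (k + 1)) n with hmk | hmk
      · -- complete passage
        set n' := n - (m + (k + 1)) with hn'
        set y := g^[k + 1] w with hy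
        have hyw : y = g^[m + (k + 1)] z := by
          rw [hy, hw, ← Function.iterate_add_apply]
          congr 1
          omega
        have h2 := ih n' (by omega) y (fun i => by
          rw [hyw, ← Function.iterate_add_apply]
          exact hz _) (fun i hi => by
          rw [hyw, ← Function.iterate_add_apply]
          exact hfar _ (by omega))
        have h3 : mu g z n = mu g z m * (mu g w (k + 1) * mu g y n') := by
          rw [hy, ← mu_add, hw, ← mu_add]
          congr 1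
          omega
        rw [h3, norm_mul, norm_mul]
        have h4 : (n : ℝ) = m + ((k : ℝ) + 1) + n' := by
          have : n = m + (k + 1) + n' := by omega
          exact_mod_cast this
        have h5 : Real.exp (ν * ((k : ℝ) + 1)) ≤ Real.exp (κ * χ / 4 * ((k : ℝ) + 1)) := by
          apply Real.exp_le_exp.mpr
          gcongr
        rw [h4, mul_add, mul_add, Real.exp_add, Real.exp_add]
        calc c₁ * r * (Real.exp (ν * m) * Real.exp (ν * ((k : ℝ) + 1)) * Real.exp (ν * n')) =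
            (Real.exp (ν * m) / (2 * G)) * ((2 * G * Real.exp (ν * ((k : ℝ) + 1))) *
              (c₁ * r * Real.exp (ν * n'))) := by
              field_simp
          _ ≤ (Real.exp (ν * m) / (2 * G)) * ((2 * G * Real.exp (κ * χ / 4 * ((k : ℝ) + 1))) *
              (c₁ * r * Real.exp (ν * n'))) := by gcongr
          _ ≤ _ := by gcongr
      · -- incomplete passage
        obtain ⟨j, hj⟩ : ∃ j, n = m + (j + 1) := ⟨n - m - 1, by omega⟩
        have h2 := hk2 j (by omega)
        have h3 : mu g z n = mu g z m * mu g w (j + 1) := by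
          rw [hw, ← mu_add, hj]
        rw [h3, norm_mul]
        have h4 : (n : ℝ) = m + ((j : ℝ) + 1) := by exact_mod_cast hj
        have h5 : Real.exp (ν * ((j : ℝ) + 1)) ≤ Real.exp (κ * χ / 4 * ((j : ℝ) + 1)) := by
          apply Real.exp_le_exp.mpr
          gcongr
        have h6 : r ≤ ‖w‖ ^ (d - 1) := by
          refine le_trans ?_ hwlow
          calc r = r ^ (1 : ℝ) := (Real.rpow_one r).symm
            _ ≤ _ := Real.rpow_le_rpow_of_exponent_ge hr0 hr1 (by linarith)
        rw [h4, mul_add, Real.exp_add]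
        calc c₁ * r * (Real.exp (ν * m) * Real.exp (ν * ((j : ℝ) + 1))) ≤
            cg / (2 * G) * ‖w‖ ^ (d - 1) * (Real.exp (ν * m) *
              Real.exp (κ * χ / 4 * ((j : ℝ) + 1))) := by gcongr
          _ = (Real.exp (ν * m) / (2 * G)) *
              (cg * (‖w‖ ^ (d - 1) * Real.exp (κ * χ / 4 * ((j : ℝ) + 1)))) := by ring
          _ ≤ _ := by gcongr
    · push Not at hcase
      refine le_trans ?_ (hfree n z hz hcase)
      have h1 := hpow n
      calc c₁ * r * Real.exp (ν * n) ≤ (a₀ / 2) * 1 * (2 * 2 ^ (n / N)) := by gcongr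
        _ = _ := by ring

end Pool.Agent.V1186.CN
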