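import Mathlib
import Pool.Agent.V1186.CN.Cyc6

/-!
# Deep recurrence: parameters in the interior, points in the interior of the filled Julia set
-/

set_option autoImplicit false

open Set Filter Metric MeasureTheory Topology

namespace Pool.Agent.V1186.CN

open Pool.Agent.TH279.MD Pool.Agent.Y298.SH Pool.Agent.Y298.SH.CD Pool.Agent.Y298.CA
open Pool.Agent.H712R2 (P P_succ)

variable {d : ℕ} {χ : ℝ} {c₀ : ℂ}

/-- Collet-Eckmann parameters are not interior -/
theorem cep_not_interior {C₁ lam : ℝ} {c : ℂ} (h : CEp d C₁ lam c) :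
    c ∉ interior (N62a1eb23.multibrotSet d) := by
  intro hint
  have hd := h.hd
  obtain ⟨s, hs, hsub⟩ := Metric.mem_nhds_iff.1 (mem_interior_iff_mem_nhds.1 hint)
  obtain ⟨κ, ε, J, hκ, hε, hgrow⟩ := h.grow
  -- the derivatives of the functions `P d n` are bounded
  have hbd : ∀ n : ℕ, ‖deriv (P d n) c‖ ≤ 2 / (s / 2) := by
    intro n
    apply Complex.norm_deriv_le_of_forall_mem_sphere_norm_le (by positivity)
    · exact (Pool.Agent.H713R2.differentiable_P d n).diffContOnCl
    · intro c' hc'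
      have h1 : c' ∈ N62a1eb23.multibrotSet d := hsub (by
        rw [mem_sphere] at hc'
        rw [mem_ball, hc']
        linarith)
      exact (Pool.Agent.H712R2.mem_multibrot_iff hd c').mp h1 n
  obtain ⟨n, hn⟩ := pow_unbounded_of_one_lt (C₁ * (2 / (s / 2) / κ)) h.lam1
  set N := max n J with hN
  have h1 := hgrow c h c (by rw [sub_self, norm_zero]; exact hε.le) N (le_max_right _ _)
    (fun j _ => by
      show Pd d c j / 2 ≤ Pd d c j
      linarith [Pd_nonneg d c j])
  have h2 : κ * Pd d c N ≤ 2 / (s / 2) := h1.trans (hbd (N + 1))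
  have h3 := h.exp N
  have h4 : lam ^ n ≤ lam ^ N := pow_le_pow_right₀ h.lam1.le (le_max_left _ _)
  have h5 : Pd d c N ≤ 2 / (s / 2) / κ := by
    rw [le_div_iff₀ hκ]
    linarith
  have hC := h.C1
  have h6 : C₁ * Pd d c N ≤ C₁ * (2 / (s / 2) / κ) := by gcongr
  linarith

/-- from the growth of the derivatives at the critical value -/
theorem cep_of_growth (hd : 2 ≤ d) {c : ℂ} (hc : c ∈ N62a1eb23.multibrotSet d) {a ν : ℝ}
    (ha : 0 < a) (hν : 0 < ν) (h : ∀ n : ℕ, a * Real.exp (ν * n) ≤ ‖mu (f d c) c n‖) :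
    CEp d (max 1 (1 / a)) (Real.exp ν) c := by
  refine ⟨hd, ?_, le_max_left _ _, Real.one_lt_exp_iff.mpr hν, fun n => ?_⟩
  · intro j
    have h1 := (Pool.Agent.H712R2.mem_multibrot_iff hd c).mp hc (j + 1)
    rwa [← zz_eq_P hd] at h1
  · have h1 := h n
    rw [mu_f] at h1
    have h2 : ‖deriv ((f d c)^[n]) c‖ = Pd d c n := rfl
    rw [h2] at h1
    have h3 : Real.exp ν ^ n = Real.exp (ν * n) := by
      rw [← Real.exp_nat_mul, mul_comm]
    rw [h3]
    have h4 : 0 ≤ Pd d c n := Pd_nonneg d c n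
    calc Real.exp (ν * n) = 1 / a * (a * Real.exp (ν * n)) := by field_simp
      _ ≤ 1 / a * Pd d c n := by gcongr
      _ ≤ _ := by
        gcongr
        exact le_max_right _ _

/-- points with a neighbourhood of bounded orbits are not expanded -/
theorem not_expanded {g : ℂ → ℂ} {r : ℝ} (hg : Near d c₀ g r) {z : ℂ} {s : ℝ} (hs : 0 < s)
    (hb : ∀ w ∈ ball z s, ∀ i, ‖g^[i] w‖ ≤ 3) (n : ℕ) : ‖mu g z n‖ ≤ 3 / (s / 2) := by
  rw [← (hasDerivAt_iter (n := n) fun i _ => hg.diffAt (hb z (mem_ball_self hs) i)).deriv]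
  apply Complex.norm_deriv_le_of_forall_mem_sphere_norm_le (by positivity)
  · apply DifferentiableOn.diffContOnCl
    rw [closure_ball _ (by positivity)]
    intro w hw
    have hw' : w ∈ ball z s := by
      rw [mem_closedBall] at hw
      rw [mem_ball]
      linarith
    exact (hasDerivAt_iter fun i _ => hg.diffAt (hb w hw' i)).differentiableAt.differentiableWithinAt
  · intro w hw
    refine hb w ?_ n
    rw [mem_sphere] at hw
    rw [mem_ball, hw]
    linarith

/-- exponential growth contradicts boundedness -/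
theorem exp_unbdd {a ν B : ℝ} (ha : 0 < a) (hν : 0 < ν) (h : ∀ n : ℕ, a * Real.exp (ν * n) ≤ B) :
    False := by
  have h1 : Tendsto (fun n : ℕ => a * Real.exp (ν * n)) atTop atTop :=
    (Real.tendsto_exp_atTop.comp (tendsto_natCast_atTop_atTop.const_mul_atTop hν)).const_mul_atTop ha
  obtain ⟨n, hn⟩ := (h1.eventually_gt_atTop B).exists
  exact absurd (h n) (not_le.2 hn)

end Pool.Agent.V1186.CN
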