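import Mathlib
import Pool.Agent.V1186.CN.Cyc7

/-!
# Orbits which stay away from the critical point: with a constant in the distance
-/

set_option autoImplicit false

open Set Filter Metric MeasureTheory Topology

namespace Pool.Agent.V1186.CN

open Pool.Agent.TH279.MD Pool.Agent.Y298.SH Pool.Agent.Y298.SH.CD Pool.Agent.Y298.CA

variable {d : ℕ} {χ : ℝ} {c₀ : ℂ}

theorem recurK (hd : 2 ≤ d) (h : Lyap d χ c₀) {K : ℝ} (hK : 1 ≤ K) {ε : ℝ} (hε : 0 < ε)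
    (hε1 : ε < 1) : ∃ ν r₀ c₁ : ℝ, 0 < ν ∧ 0 < r₀ ∧ 0 < c₁ ∧ ∀ (g : ℂ → ℂ) (r : ℝ), 0 < r →
      r ≤ r₀ → Near d c₀ g (K * r) → ∀ z : ℂ, (∀ i, ‖g^[i] z‖ ≤ 3) → ∀ n : ℕ,
        (∀ i < n, r ^ (1 - ε) ≤ ‖g^[i] z‖ ^ (d - 1)) →
        c₁ * r * Real.exp (ν * n) ≤ ‖mu g z n‖ := by
  obtain ⟨ν, r₁, c₁, hν, hr₁, hc₁, H⟩ := recur hd h (ε := ε / 2) (by positivity) (by linarith)
  have hK0 : 0 < K := by linarith
  -- the threshold
  have hlim : Tendsto (fun r : ℝ => K ^ (1 - ε / 2) * r ^ (ε / 2)) (𝓝[>] 0) (𝓝 0) := by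
    have h2 : Tendsto (fun r : ℝ => K ^ (1 - ε / 2) * r ^ (ε / 2)) (𝓝 0)
        (𝓝 (K ^ (1 - ε / 2) * (0 : ℝ) ^ (ε / 2))) :=
      (Real.continuousAt_rpow_const 0 _ (Or.inr (by positivity))).tendsto.const_mul _
    rw [Real.zero_rpow (by positivity), mul_zero] at h2
    exact h2.mono_left nhdsWithin_le_nhds
  have hev : ∀ᶠ r : ℝ in 𝓝[>] 0, K ^ (1 - ε / 2) * r ^ (ε / 2) < 1 :=
    hlim.eventually_lt_const one_pos
  rw [eventually_nhdsWithin_iff, Metric.eventually_nhds_iff] at hev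
  obtain ⟨r₂, hr₂, hr₂'⟩ := hev
  refine ⟨ν, min (r₁ / K) (r₂ / 2), c₁, hν, lt_min (by positivity) (by positivity), hc₁, ?_⟩
  intro g r hr hrr hg z hz n hn
  have h1 : K * r ≤ r₁ := by
    have := hrr.trans (min_le_left _ _)
    rw [le_div_iff₀ hK0] at this
    linarith
  have h2 : K ^ (1 - ε / 2) * r ^ (ε / 2) < 1 := by
    refine hr₂' ?_ hr
    rw [Real.dist_eq, sub_zero, abs_of_pos hr]
    have := hrr.trans (min_le_right _ _)
    linarith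
  have h3 : (K * r) ^ (1 - ε / 2) ≤ r ^ (1 - ε) := by
    have h4 : r ^ (1 - ε / 2) = r ^ (ε / 2) * r ^ (1 - ε) := by
      rw [← Real.rpow_add hr]
      congr 1
      ring
    rw [Real.mul_rpow hK0.le hr.le, h4]
    have h5 : 0 < r ^ (1 - ε) := Real.rpow_pos_of_pos hr _
    calc K ^ (1 - ε / 2) * (r ^ (ε / 2) * r ^ (1 - ε)) =
        (K ^ (1 - ε / 2) * r ^ (ε / 2)) * r ^ (1 - ε) := by ring
      _ ≤ 1 * r ^ (1 - ε) := by gcongr
      _ = _ := one_mul _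
  have h4 := H g (K * r) (by positivity) h1 hg z hz n fun i hi => h3.trans (hn i hi)
  refine le_trans ?_ h4
  have h5 : r ≤ K * r := by nlinarith
  gcongr

end Pool.Agent.V1186.CN
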