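import Mathlib
import Pool.Agent.V1186.CN.Cons
import Pool.Agent.Y298.CA.ScaAll

/-!
# The size of the hyperbolic components with a centre close to a parameter with a Lyapunov exponent
-/

set_option autoImplicit false

open Set Filter Metric MeasureTheory Topology

namespace Pool.Agent.V1186.CN

open Pool.Agent.TH279.MD Pool.Agent.Y298.SH Pool.Agent.Y298.SH.CD Pool.Agent.Y298.CA
open Pool.Agent.H712R2 (P P_succ)
open scoped NNReal

/-- superattracting parameters whose period divides `N` or `N + 1` -/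
theorem sch' {d : ℕ} {C₁ lam : ℝ} {c₀ : ℂ} (h : CEp d C₁ lam c₀) :
    ∃ (C r₀ : ℝ) (J : ℕ), 0 < C ∧ 0 < r₀ ∧ ∀ r : ℝ, 0 < r → r ≤ r₀ → ∀ N : ℕ, J ≤ N →
      C < r * Pd d c₀ N → ∃ n : ℕ, 1 ≤ n ∧ (n = N ∨ n = N + 1) ∧
        ∃ c' ∈ ball c₀ r, P d n c' = 0 := by
  obtain ⟨κ, ε, J, hκ, hε, hgrow⟩ := h.grow
  have hd := h.hd
  have hc0 : c₀ ≠ 0 := h.zz_ne 0
  have hc0n : 0 < ‖c₀‖ := norm_pos_iff.mpr hc0
  have hc2 : ‖c₀‖ ≤ 2 := h.bd 0
  set M : ℝ := 2 ^ d / ‖c₀‖ with hM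
  have hM0 : 0 < M := by positivity
  obtain ⟨C', hC'⟩ := Pool.Agent.Lev.J_schottky.main M
  set D : ℝ := max C' 1 with hD
  have hD1 : 1 ≤ D := le_max_right _ _
  have hDC : C' ≤ D := le_max_left _ _
  refine ⟨(1 + M + 8 * D) / κ + 1, min 1 (‖c₀‖ / 2), max J 1, by positivity, by positivity, ?_⟩
  intro r hr hrr N hN hC
  have hr1 : r ≤ 1 := hrr.trans (min_le_left _ _)
  have hr2 : r ≤ ‖c₀‖ / 2 := hrr.trans (min_le_right _ _)
  have hNJ : J ≤ N := (le_max_left _ _).trans hN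
  have hN1 : 1 ≤ N := (le_max_right _ _).trans hN
  by_contra hcon
  push Not at hcon
  have hne : ∀ c ∈ ball c₀ r, c ≠ 0 := by
    rintro c hc rfl
    rw [mem_ball, dist_eq_norm, zero_sub, norm_neg] at hc
    linarith
  have hPd : Differentiable ℂ (P d N) := Pool.Agent.H713R2.differentiable_P d N
  set G : ℂ → ℂ := fun c => -(P d N c) ^ d / c with hG
  have hGd : DifferentiableOn ℂ G (ball c₀ r) := by
    apply DifferentiableOn.div
    · exact ((hPd.pow d).neg).differentiableOn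
    · exact differentiableOn_id
    · exact hne
  have hG01 : ∀ z ∈ ball c₀ r, G z ≠ 0 ∧ G z ≠ 1 := by
    intro z hz
    have h1 := hcon N hN1 (Or.inl rfl) z hz
    have h2 := hcon (N + 1) (by omega) (Or.inr rfl) z hz
    refine ⟨?_, ?_⟩
    · exact div_ne_zero (neg_ne_zero.mpr (pow_ne_zero _ h1)) (hne z hz)
    · intro h3
      apply h2
      rw [P_succ]
      have h4 : -(P d N z) ^ d / z = 1 := h3
      rw [div_eq_one_iff_eq (hne z hz)] at h4
      linear_combination -h4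
  have hPb : ‖P d N c₀‖ ≤ 2 := by
    obtain ⟨k, rfl⟩ : ∃ k, N = k + 1 := ⟨N - 1, by omega⟩
    rw [P_succ_eq hd]
    exact h.bd k
  have hGM : ‖G c₀‖ ≤ M := by
    show ‖-(P d N c₀) ^ d / c₀‖ ≤ M
    rw [norm_div, norm_neg, norm_pow, hM]
    gcongr
  have hb := hC' G c₀ r hr hGd hG01 hGM
  have hder : ‖deriv G c₀‖ ≤ D / (r / 4) := by
    apply Complex.norm_deriv_le_of_forall_mem_sphere_norm_le (by positivity)
    · apply DifferentiableOn.diffContOnCl
      rw [closure_ball _ (by positivity)]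
      exact hGd.mono (closedBall_subset_ball (by linarith))
    · intro z hz
      refine (hb z ?_).trans hDC
      rw [mem_sphere] at hz
      rw [mem_ball, hz]
      linarith
  have heq : P d (N + 1) =ᶠ[𝓝 c₀] fun c => c - c * G c := by
    filter_upwards [isOpen_ball.mem_nhds (mem_ball_self hr)] with c hc
    rw [P_succ]
    have h5 : c * G c = -(P d N c) ^ d := by
      show c * (-(P d N c) ^ d / c) = _
      rw [mul_div_cancel₀ _ (hne c hc)]
    rw [h5]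
    ring
  have hGc : HasDerivAt G (deriv G c₀) c₀ :=
    (hGd.differentiableAt (isOpen_ball.mem_nhds (mem_ball_self hr))).hasDerivAt
  have h6 : HasDerivAt (fun c => c - c * G c) (1 - (1 * G c₀ + c₀ * deriv G c₀)) c₀ :=
    (hasDerivAt_id c₀).sub ((hasDerivAt_id c₀).mul hGc)
  have h7 : deriv (P d (N + 1)) c₀ = 1 - (1 * G c₀ + c₀ * deriv G c₀) := by
    rw [heq.deriv_eq]
    exact h6.deriv
  have h8 : ‖deriv (P d (N + 1)) c₀‖ ≤ 1 + (M + 2 * (D / (r / 4))) := by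
    rw [h7, one_mul]
    refine (norm_sub_le _ _).trans ?_
    rw [norm_one]
    refine add_le_add le_rfl ((norm_add_le _ _).trans (add_le_add hGM ?_))
    rw [norm_mul]
    gcongr
  have hg := hgrow c₀ h c₀ (by rw [sub_self, norm_zero]; exact hε.le) N hNJ (fun j _ => by
    show Pd d c₀ j / 2 ≤ Pd d c₀ j
    linarith [Pd_nonneg d c₀ j])
  have h9 : κ * Pd d c₀ N ≤ 1 + (M + 2 * (D / (r / 4))) := hg.trans h8
  have h10 : r * (1 + (M + 2 * (D / (r / 4)))) = r + r * M + 8 * D := by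
    field_simp
    ring
  have h11 : r * (κ * Pd d c₀ N) ≤ 1 + M + 8 * D := by
    calc r * (κ * Pd d c₀ N) ≤ r * (1 + (M + 2 * (D / (r / 4)))) := by gcongr
      _ = r + r * M + 8 * D := h10
      _ ≤ 1 + M + 8 * D := by nlinarith
  have h12 : r * Pd d c₀ N ≤ (1 + M + 8 * D) / κ := by
    rw [le_div_iff₀ hκ]
    linarith
  linarith

/-- a disc of hyperbolic parameters around a superattracting one, with the basin -/
theorem att' (d n : ℕ) (c' : ℂ) (η ρ A D : ℝ) (hd : 2 ≤ d) (hn : 1 ≤ n) (hP : P d n c' = 0)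
    (hη : 0 < η) (hρ : 0 < ρ) (hD : ∀ c ∈ ball c' η, ‖deriv (P d n) c‖ ≤ D)
    (hA : ∀ c ∈ ball c' η, ∀ x ∈ closedBall c (ρ ^ d), ‖deriv ((f d c)^[n - 1]) x‖ ≤ A)
    (h1 : 2 * D * η ≤ ρ) (h2 : 2 * d * A * ρ ^ (d - 1) ≤ 1) (c : ℂ) (hc : c ∈ ball c' η) :
    MapsTo ((f d c)^[n]) (closedBall (0 : ℂ) ρ) (closedBall (0 : ℂ) ρ) ∧
    ∃ z : ℂ, N62a1eb23.IsAttractingCycle (f d c) n z := by
  have hcc : ‖c - c'‖ < η := by rwa [mem_ball, dist_eq_norm] at hc
  have hD0 : 0 ≤ D := (norm_nonneg _).trans (hD c hc)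
  have hA0 : 0 ≤ A := (norm_nonneg _).trans (hA c hc c (mem_closedBall_self (by positivity)))
  -- the critical orbit returns close to the critical point
  have hPc : ‖P d n c‖ ≤ ρ / 2 := by
    have h3 := Convex.norm_image_sub_le_of_norm_deriv_le (f := P d n) (C := D)
      (fun x _ => (Pool.Agent.H713R2.differentiable_P d n) x) hD (convex_ball c' η)
      (mem_ball_self hη) hc
    rw [hP, sub_zero] at h3
    nlinarith
  set F : ℂ → ℂ := (f d c)^[n] with hF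
  have hF0 : F 0 = P d n c := rfl
  have hder : ∀ z ∈ closedBall (0 : ℂ) ρ, ‖deriv F z‖ ≤ 1 / 2 := by
    intro z hz
    rw [mem_closedBall_zero_iff] at hz
    obtain ⟨k, rfl⟩ : ∃ k, n = k + 1 := ⟨n - 1, by omega⟩
    rw [hF, deriv_iter_add, Function.iterate_one, deriv_f, norm_mul, norm_mul, norm_pow,
      Complex.norm_natCast]
    have h4 : ‖deriv ((f d c)^[k]) (f d c z)‖ ≤ A := by
      have h4' := hA c hc (f d c z)
      rw [Nat.add_sub_cancel] at h4'
      apply h4'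
      rw [mem_closedBall, dist_eq_norm]
      show ‖z ^ d + c - c‖ ≤ ρ ^ d
      rw [add_sub_cancel_right, norm_pow]
      exact pow_le_pow_left₀ (norm_nonneg _) hz d
    have h5 : ‖z‖ ^ (d - 1) ≤ ρ ^ (d - 1) := pow_le_pow_left₀ (norm_nonneg _) hz _
    calc ‖deriv ((f d c)^[k]) (f d c z)‖ * (d * ‖z‖ ^ (d - 1)) ≤ A * (d * ρ ^ (d - 1)) := by
          gcongr
      _ ≤ 1 / 2 := by linarith
  have hFd : Differentiable ℂ F := differentiable_fn d c n
  have hLip : ∀ z ∈ closedBall (0 : ℂ) ρ, ∀ w ∈ closedBall (0 : ℂ) ρ,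
      ‖F z - F w‖ ≤ 1 / 2 * ‖z - w‖ := by
    intro z hz w hw
    exact Convex.norm_image_sub_le_of_norm_deriv_le (f := F) (C := 1 / 2)
      (fun x _ => hFd x) hder (convex_closedBall 0 ρ) hw hz
  have hmaps : MapsTo F (closedBall (0 : ℂ) ρ) (closedBall (0 : ℂ) ρ) := by
    intro z hz
    have h3 := hLip z hz 0 (mem_closedBall_self hρ.le)
    rw [mem_closedBall_zero_iff] at hz ⊢
    rw [sub_zero] at h3
    have h4 : ‖F z‖ ≤ ‖F z - F 0‖ + ‖F 0‖ := by simpa using norm_add_le (F z - F 0) (F 0)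
    rw [hF0] at h3 h4
    linarith
  have hcontr : ContractingWith (1 / 2 : ℝ≥0) (hmaps.restrict F _ _) := by
    refine ⟨?_, ?_⟩
    · rw [← NNReal.coe_lt_coe]
      norm_num
    · apply LipschitzWith.of_dist_le_mul
      rintro ⟨z, hz⟩ ⟨w, hw⟩
      rw [Subtype.dist_eq, Subtype.dist_eq, dist_eq_norm, dist_eq_norm]
      have := hLip z hz w hw
      simpa using this
  obtain ⟨z, hz, hfix, -, -⟩ := hcontr.exists_fixedPoint' isClosed_closedBall.isComplete hmaps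
    (mem_closedBall_self hρ.le : (0 : ℂ) ∈ closedBall (0 : ℂ) ρ) (edist_ne_top _ _)
  exact ⟨hmaps, z, hn, hfix, hFd z, (hder z hz).trans_lt (by norm_num)⟩

theorem ball_of_trap {g : ℂ → ℂ} {ρ : ℝ} {n : ℕ} (hn : 1 ≤ n)
    (hm : MapsTo (g^[n]) (closedBall (0 : ℂ) ρ) (closedBall (0 : ℂ) ρ)) :
    closedBall (0 : ℂ) ρ ⊆ {z | ¬ Tendsto (fun k => g^[k] z) atTop (Bornology.cobounded ℂ)} := by
  intro z hz hT
  have h3 : Tendsto (fun i : ℕ => n * i) atTop atTop := by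
    refine tendsto_atTop_mono (fun i => ?_) tendsto_id
    show i ≤ n * i
    nlinarith
  have h4 := tendsto_norm_atTop_iff_cobounded.mpr (hT.comp h3)
  have h5 : ∀ i : ℕ, ‖((fun k : ℕ => g^[k] z) ∘ fun i : ℕ => n * i) i‖ ≤ ρ := by
    intro i
    have h6 := hm.iterate i hz
    rw [mem_closedBall_zero_iff] at h6
    show ‖g^[n * i] z‖ ≤ ρ
    rw [Function.iterate_mul]
    exact h6
  obtain ⟨i, hi⟩ := (h4.eventually_gt_atTop ρ).exists
  exact absurd (h5 i) (not_le.mpr hi)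

/-- the trapped disc -/
theorem rho_log {d : ℕ} (hd : 2 ≤ d) {m : ℕ} {r l G Ca L C₃ ε₃ ε c₅ A₀ μ ρ : ℝ} (hr0 : 0 < r)
    (hrl : Real.log r = -l) (hl : 0 < l) (hε : 0 < ε) (hG : G = 2 * d * Real.exp l)
    (hCa : 1 ≤ Ca) (hL : 1 < L) (hA₀ : A₀ = 3 * Ca * G * L ^ m)
    (hμ : μ = (((d - 1 : ℕ) : ℝ))⁻¹)
    (hρ : ρ = (1 / (2 * d * A₀)) ^ μ) (hε₃ : ε₃ = ε / (4 * Real.log L))
    (hmle : (m : ℝ) ≤ C₃ + ε₃ * l)
    (hc₅ : c₅ = Real.log (12 * d ^ 2 * Ca) + C₃ * Real.log L)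
    (t4 : d / (d - 1) * c₅ < ε / 2 * l) :
    r ^ (1 / ((d : ℝ) - 1) + ε) ≤ ρ := by
  have hdR : (2 : ℝ) ≤ d := by exact_mod_cast hd
  have hd1 : 0 < (d : ℝ) - 1 := by linarith
  have hG0 : 0 < G := by rw [hG]; positivity
  have hL0 : 0 < L := by linarith
  have hlL : 0 < Real.log L := Real.log_pos hL
  have hCa0 : 0 < Ca := by linarith
  have hA₀0 : 0 < A₀ := by rw [hA₀]; positivity
  have hX0 : 0 < 1 / (2 * d * A₀) := by positivity
  have hρ0 : 0 < ρ := by rw [hρ]; exact Real.rpow_pos_of_pos hX0 _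
  have hlogA : Real.log (2 * d * A₀) ≤ c₅ + (1 + ε / 4) * l := by
    have h1 : 2 * d * A₀ = (12 * d ^ 2 * Ca) * Real.exp l * L ^ m := by
      rw [hA₀, hG]
      ring
    rw [h1, Real.log_mul (by positivity) (by positivity), Real.log_mul (by positivity)
      (by positivity), Real.log_exp, Real.log_pow]
    have h2 : (m : ℝ) * Real.log L ≤ (C₃ + ε₃ * l) * Real.log L := by gcongr
    have h3 : ε₃ * Real.log L = ε / 4 := by
      rw [hε₃]
      field_simp
    have h4 : (C₃ + ε₃ * l) * Real.log L = C₃ * Real.log L + (ε₃ * Real.log L) * l := by ring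
    rw [hc₅]
    rw [h4, h3] at h2
    linarith
  have hμ2 : μ = 1 / ((d : ℝ) - 1) := by
    rw [hμ, Nat.cast_sub (by omega), Nat.cast_one, one_div]
  have hμ1 : μ ≤ 1 := by
    rw [hμ2, div_le_one hd1]
    linarith
  have hμ0 : 0 < μ := by
    rw [hμ2]
    positivity
  have hη2 : -(μ * Real.log (2 * d * A₀)) ≤ Real.log ρ := by
    rw [hρ, Real.log_rpow hX0, one_div, Real.log_inv]
    linarith
  have hle : Real.log (2 * d * A₀) ≤ ε / 2 * l + (1 + ε / 4) * l ∨ c₅ < 0 := by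
    by_cases h : 0 ≤ c₅
    · left
      have h1 : 1 ≤ (d : ℝ) / (d - 1) := by rw [le_div_iff₀ hd1]; linarith
      have h2 : c₅ ≤ d / (d - 1) * c₅ := by nlinarith
      linarith
    · right
      exact not_le.mp h
  have hle' : Real.log (2 * d * A₀) ≤ ε / 2 * l + (1 + ε / 4) * l := by
    rcases hle with h | h
    · exact h
    · have : 0 < ε / 2 * l := by positivity
      linarith
  rw [← Real.exp_log hρ0, Real.rpow_def_of_pos hr0]
  apply Real.exp_le_exp.mpr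
  rw [hrl, ← hμ2]
  have h6 : μ * Real.log (2 * d * A₀) ≤ μ * (ε / 2 * l + (1 + ε / 4) * l) := by gcongr
  have h7 : μ * (ε / 2 * l + ε / 4 * l) ≤ 1 * (ε / 2 * l + ε / 4 * l) := by gcongr
  nlinarith

/-- **Discs of hyperbolic parameters about the superattracting parameters of period `n` at distance
`exp (-(χ + o(1)) n)`.** -/
theorem siz_low {d : ℕ} (hd : 2 ≤ d) {χ : ℝ} {c₀ : ℂ} (h : Lyap d χ c₀) {ε : ℝ} (hε : 0 < ε) :
    ∃ δ : ℝ, 0 < δ ∧ δ < χ ∧ ∀ᶠ n : ℕ in atTop, ∀ c' : ℂ, P d n c' = 0 →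
      ‖c' - c₀‖ ≤ Real.exp (-(χ - δ) * n) →
      ∀ c ∈ ball c' (Real.exp (-(χ * (d / ((d : ℝ) - 1)) + ε) * n)),
        closedBall (0 : ℂ) (Real.exp (-(χ * (1 / ((d : ℝ) - 1)) + ε) * n)) ⊆
          {z | ¬ Tendsto (fun k => (f d c)^[k] z) atTop (Bornology.cobounded ℂ)} ∧
        ∃ z : ℂ, N62a1eb23.IsAttractingCycle (f d c) n z := by
  have hdR : (2 : ℝ) ≤ d := by exact_mod_cast hd
  have hd1 : 0 < (d : ℝ) - 1 := by linarith
  have hd0 : 0 < (d : ℝ) := by linarith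
  obtain ⟨⟨C₁, lam, hc⟩, hlya⟩ := Pool.Agent.Y674.CA.lya d χ c₀ hd h
  have hχ : 0 < χ := h.1
  -- the precision in terms of `r`
  obtain ⟨ε', hε', hεε⟩ : ∃ ε' : ℝ, 0 < ε' ∧ χ * ε' = ε :=
    ⟨ε / χ, by positivity, by field_simp⟩
  set L : ℝ := d * 3 ^ (d - 1) + 1 with hL
  have hL3 : (1 : ℝ) ≤ 3 ^ (d - 1) := one_le_pow₀ (by norm_num)
  have hL2 : 2 ≤ L := by
    rw [hL]
    nlinarith
  have hL0 : 0 < L := by linarith
  have hlL : 0 < Real.log L := Real.log_pos (by linarith)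
  set ε₃ : ℝ := ε' / (4 * Real.log L) with hε₃
  have hε₃0 : 0 < ε₃ := by positivity
  set ε₁ : ℝ := min (1 / 2) (ε₃ * χ / 3) with hε₁
  have hε₁0 : 0 < ε₁ := lt_min (by norm_num) (by positivity)
  have hε₁h : ε₁ ≤ 1 / 2 := min_le_left _ _
  have hε₁3 : 3 * ε₁ / χ ≤ ε₃ := by
    have h1 : ε₁ ≤ ε₃ * χ / 3 := min_le_right _ _
    rw [div_le_iff₀ hχ]
    linarith
  set ε₂ : ℝ := ε₁ * χ / 8 with hε₂
  have hε₂0 : 0 < ε₂ := by positivity
  have hε₂χ : ε₂ ≤ χ / 2 := by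
    rw [hε₂]
    nlinarith
  obtain ⟨C₂, hC₂1, hC₂⟩ := hlya ε₂ hε₂0
  have hC₂0 : 0 < C₂ := by linarith
  have hlC₂ : 0 ≤ Real.log C₂ := Real.log_nonneg hC₂1
  set θ : ℝ := Real.exp ε₂ with hθ
  have hθ1 : 1 < θ := Real.one_lt_exp_iff.mpr hε₂0
  obtain ⟨B, Ca, hPC⟩ := Pool.Agent.Y434.CA.pa d C₁ lam θ hd hc.C1 hc.lam1 hθ1
  have hCa1 := hPC.Ca1
  have hCa0 : 0 < Ca := by linarith
  have hB0 : 0 < B := by linarith [hPC.CaB]
  set lC : ℝ := Real.log C₂ + Real.log 4 with hlC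
  have hl4 : 0 < Real.log 4 := Real.log_pos (by norm_num)
  have hlC0 : 0 ≤ lC := by rw [hlC]; linarith
  set C₃ : ℝ := 1 + 3 / χ * lC with hC₃
  have hC₃0 : 0 ≤ C₃ := by positivity
  set c₅ : ℝ := Real.log (12 * d ^ 2 * Ca) + C₃ * Real.log L with hc₅
  -- the threshold
  have hlin : ∀ (a b : ℝ), 0 < a → ∀ᶠ l : ℝ in atTop, b < a * l := by
    intro a b ha
    exact (tendsto_id.const_mul_atTop ha).eventually_gt_atTop b
  have hev : ∀ᶠ l : ℝ in atTop, Real.log (B * C₂) + ε₁ / 2 * Real.log C₂ < ε₁ / 2 * l ∧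
      d / (d - 1) * c₅ < ε' / 2 * l ∧ 0 < 1 * l :=
    (hlin _ _ (by positivity)).and ((hlin _ _ (by positivity)).and (hlin _ _ one_pos))
  have hnl : Tendsto (fun n : ℕ => (χ - ε₂) * (n : ℝ) - Real.log 4) atTop atTop := by
    have h1 : 0 < χ - ε₂ := by linarith
    exact tendsto_atTop_add_const_right _ _ (tendsto_natCast_atTop_atTop.const_mul_atTop h1)
  refine ⟨ε₂, hε₂0, by linarith, ?_⟩
  filter_upwards [hnl.eventually hev, eventually_ge_atTop 1] with n hev1 hn1 c' hPn hcc c hcη'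
  obtain ⟨t1, t4, t5⟩ := hev1
  set l : ℝ := (χ - ε₂) * (n : ℝ) - Real.log 4 with hl
  have hl0 : 0 < l := by linarith
  set r : ℝ := Real.exp (-l) with hrl
  have hr0 : 0 < r := Real.exp_pos _
  have hlogr : Real.log r = -l := Real.log_exp _
  have hr1 : r ≤ 1 := by
    rw [hrl]
    apply Real.exp_le_one_iff.mpr
    linarith
  have hr4 : Real.exp (-(χ - ε₂) * n) = r / 4 := by
    rw [hrl, hl]
    have h1 : -((χ - ε₂) * (n : ℝ) - Real.log 4) = -(χ - ε₂) * n + Real.log 4 := by ring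
    rw [h1, Real.exp_add, Real.exp_log (by norm_num)]
    ring
  rw [hr4] at hcc
  -- unboundedness of the derivatives
  have hunb : ∀ X : ℝ, ∃ n, X ≤ Pd d c₀ n := by
    intro X
    obtain ⟨n, hn⟩ := pow_unbounded_of_one_lt (C₁ * X) hc.lam1
    refine ⟨n, ?_⟩
    have h1 := hc.exp n
    have h2 : C₁ * X < C₁ * Pd d c₀ n := lt_of_lt_of_le hn h1
    have h3 : 0 < C₁ := by linarith [hc.C1]
    exact (lt_of_mul_lt_mul_left h2 h3.le).le
  obtain ⟨k, hk1, hk2⟩ := first_ge (hunb (Real.exp ((1 - ε₁) * l)))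
  have hk0 : 0 < k := by
    by_contra hcon
    have h1 : k = 0 := by omega
    rw [h1, Pd_zero] at hk1
    have h2 : 1 < Real.exp ((1 - ε₁) * l) := by
      rw [Real.one_lt_exp_iff]
      apply mul_pos _ hl0
      linarith
    linarith
  -- the upper bound of the derivatives up to `k`
  set G : ℝ := 2 * d * Real.exp l with hG
  have hel : 1 ≤ Real.exp l := Real.one_le_exp hl0.le
  have hG1 : 1 ≤ G := by rw [hG]; nlinarith
  have hG0 : 0 < G := by linarith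
  have hPG' : ∀ j < k, Pd d c₀ j ≤ Real.exp l := by
    intro j hj
    refine (hk2 j hj).le.trans ?_
    apply Real.exp_le_exp.mpr
    nlinarith
  have hPG : ∀ j ≤ k, Pd d c₀ j ≤ G := by
    intro j hj
    rcases hj.lt_or_eq with h1 | h1
    · have h2 := hPG' j h1
      rw [hG]
      nlinarith
    · obtain ⟨i, hi⟩ : ∃ i, k = i + 1 := ⟨k - 1, by omega⟩
      rw [h1, hi, Pd_succ]
      have h2 := hPG' i (by omega)
      have h3 := hc.bd' i
      have h4 := (hc.Pd_pos i).le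
      calc d * ‖zz d c₀ i‖ ^ (d - 1) * Pd d c₀ i ≤ d * 2 * Real.exp l := by gcongr
        _ = G := by rw [hG]; ring
  -- the passage
  have hpass : ∀ j < k, B * θ ^ j * r * Pd d c₀ j ≤ ‖zz d c₀ j‖ := by
    intro j hj
    obtain ⟨g1, -, g3⟩ := hC₂ j
    have h1 := hk2 j hj
    have h2 : (χ - ε₂) * j ≤ Real.log C₂ + (1 - ε₁) * l := by
      have h3 : Real.exp ((χ - ε₂) * j) ≤ Real.exp (Real.log C₂ + (1 - ε₁) * l) := by
        rw [Real.exp_add, Real.exp_log hC₂0]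
        exact g1.trans (by gcongr)
      exact Real.exp_le_exp.mp h3
    have h4 : χ / 2 * j ≤ Real.log C₂ + l := by
      have h5 : χ / 2 * j ≤ (χ - ε₂) * j := by
        gcongr
        linarith
      nlinarith
    have h6 : 2 * ε₂ * j ≤ ε₁ / 2 * (Real.log C₂ + l) := by
      calc 2 * ε₂ * j = ε₁ / 2 * (χ / 2 * j) := by rw [hε₂]; ring
        _ ≤ _ := by gcongr
    have h7 : B * C₂ * Real.exp (2 * ε₂ * j) ≤ Real.exp (ε₁ * l) := by
      calc B * C₂ * Real.exp (2 * ε₂ * j) = Real.exp (Real.log (B * C₂) + 2 * ε₂ * j) := by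
            rw [Real.exp_add, Real.exp_log (by positivity)]
        _ ≤ _ := by
            apply Real.exp_le_exp.mpr
            linarith
    have h8 : θ ^ j = Real.exp (ε₂ * j) := by
      rw [hθ, ← Real.exp_nat_mul, mul_comm]
    have h9 : B * θ ^ j * r * Pd d c₀ j * (C₂ * Real.exp (ε₂ * j)) ≤ 1 := by
      calc B * θ ^ j * r * Pd d c₀ j * (C₂ * Real.exp (ε₂ * j))
          ≤ B * θ ^ j * r * Real.exp ((1 - ε₁) * l) * (C₂ * Real.exp (ε₂ * j)) := by gcongr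
        _ = (B * C₂ * (Real.exp (ε₂ * j) * Real.exp (ε₂ * j))) *
            (Real.exp (-l) * Real.exp ((1 - ε₁) * l)) := by
            rw [h8, hrl]
            ring
        _ = (B * C₂ * Real.exp (2 * ε₂ * j)) * Real.exp (-(ε₁ * l)) := by
            rw [← Real.exp_add, ← Real.exp_add]
            congr 2
            · congr 1
              ring
            · ring
        _ ≤ Real.exp (ε₁ * l) * Real.exp (-(ε₁ * l)) := by gcongr
        _ = 1 := by rw [← Real.exp_add]; simp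
    have h10 : 0 < C₂ * Real.exp (ε₂ * j) := by positivity
    refine le_of_mul_le_mul_right ?_ h10
    linarith
  -- the number of additional steps
  set m : ℕ := (n + 1) - k with hm
  have hkm : n ≤ k + m := by omega
  have hmle : (m : ℝ) ≤ C₃ + ε₃ * l := by
    have h1 : (χ - ε₂) * (((n + 1 : ℕ) : ℝ) - 1) ≤ lC + (1 + ε₁) * l := by
      push_cast
      rw [add_sub_cancel_right, hlC]
      have h2 : (χ - ε₂) * (n : ℝ) = l + Real.log 4 := by rw [hl]; ring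
      rw [h2]
      nlinarith
    have h2 : (1 - ε₁) * l - lC ≤ (χ + ε₂) * k := by
      obtain ⟨-, g2, -⟩ := hC₂ k
      have h3 : Real.exp ((1 - ε₁) * l) ≤ Real.exp (Real.log C₂ + (χ + ε₂) * k) := by
        rw [Real.exp_add, Real.exp_log hC₂0]
        exact hk1.trans g2
      have h4 := Real.exp_le_exp.mp h3
      rw [hlC]
      linarith
    have h3 := steps (N := n + 1) hχ hε₁0 hε₁h hε₂0 le_rfl hl0.le hlC0 h1 h2
    have h5 : (0 : ℝ) ≤ 1 + 3 / χ * lC + 3 * ε₁ / χ * l := by positivity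
    have h4 : (m : ℝ) ≤ 1 + 3 / χ * lC + 3 * ε₁ / χ * l := by
      rcases le_total k (n + 1) with hkn | hkn
      · rw [hm, Nat.cast_sub hkn]
        exact h3
      · have : m = 0 := by omega
        rw [this, Nat.cast_zero]
        exact h5
    refine h4.trans ?_
    rw [hC₃]
    gcongr
  have hLm1 : 1 ≤ L ^ m := one_le_pow₀ (by linarith)
  have hLm0 : 0 < L ^ m := by linarith
  have hbd : ∀ j, ‖P d j c'‖ ≤ 2 :=
    bd_of_centre hd hn1 hPn
  -- the radii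
  set A₀ : ℝ := 3 * Ca * G * L ^ m with hA₀
  set μ : ℝ := (((d - 1 : ℕ) : ℝ))⁻¹ with hμ
  set ρ : ℝ := (1 / (2 * d * A₀)) ^ μ with hρ
  set η : ℝ := ρ / (2 * A₀) with hη
  obtain ⟨-, hA₀1, hρ0, hρ1, hρp, hρd, hη0, hη1, hρd1, hsm, hA1, hA2⟩ :=
    radii hd hr0 hrl hl0 hG hCa1 hLm1 hA₀ hμ hρ hη
  have hA₀0 : 0 < A₀ := by linarith
  have htwo := Pool.Agent.Y100.CA.two d C₁ lam θ B Ca hd hPC c₀ hc r G k m hr0 hr1 hpass hPG c'
    hcc hbd η (ρ ^ d) hη0 (by linarith) (by positivity) hρd1 hsm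
  rw [← hL] at htwo
  have hηs : r ^ ((d : ℝ) / ((d : ℝ) - 1) + ε') ≤ η :=
    size_log hd hr0 hlogr hl0 hε' hG hCa1 (by linarith) hA₀ hμ hρ hη hε₃ hmle hc₅ t4
  have hρs : r ^ (1 / ((d : ℝ) - 1) + ε') ≤ ρ :=
    rho_log hd hr0 hlogr hl0 hε' hG hCa1 (by linarith) hA₀ hμ hρ hε₃ hmle hc₅ t4
  have hcmp : ∀ a : ℝ, 0 ≤ a → Real.exp (-(χ * a + ε) * n) ≤ r ^ (a + ε') := by
    intro a ha
    rw [Real.rpow_def_of_pos hr0, hlogr]
    apply Real.exp_le_exp.mpr
    rw [← hεε]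
    have hln : l ≤ χ * n := by
      rw [hl]
      have : 0 ≤ ε₂ * (n : ℝ) := by positivity
      nlinarith
    have h1 : l * (a + ε') ≤ χ * n * (a + ε') := by gcongr
    nlinarith
  have hcη : c ∈ ball c' η := by
    refine ball_subset_ball (le_trans ?_ hηs) hcη'
    exact hcmp _ (by positivity)
  obtain ⟨h1, h2⟩ := att' d n c' η ρ A₀ A₀ hd hn1 hPn hη0 hρ0 (by
    intro c hcη
    obtain ⟨-, h2⟩ := htwo c hcη (n - 1) (by omega)
    rw [Nat.sub_add_cancel hn1] at h2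
    exact h2.trans hA2) (by
    intro c hcη x hx
    obtain ⟨h1, -⟩ := htwo c hcη (n - 1) (by omega)
    exact (h1 x hx).trans hA1) (by
    rw [hη]
    apply le_of_eq
    field_simp) (by
    rw [hρp]
    apply le_of_eq
    field_simp) c hcη
  refine ⟨?_, h2⟩
  refine (closedBall_subset_closedBall (le_trans ?_ hρs)).trans (ball_of_trap hn1 h1)
  exact hcmp _ (by positivity)

end Pool.Agent.V1186.CN
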