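import Mathlib
import Pool.Agent.V1186.CN.Siz

/-!
# Existence, distance, exact period and sizes of the centres close to a parameter with a Lyapunov
exponent
-/

set_option autoImplicit false

open Set Filter Metric MeasureTheory Topology

namespace Pool.Agent.V1186.CN

open Pool.Agent.TH279.MD Pool.Agent.Y298.SH Pool.Agent.Y298.SH.CD Pool.Agent.Y298.CA
open Pool.Agent.H712R2 (P P_succ)

variable {d : ℕ} {χ : ℝ} {c₀ : ℂ}

theorem ev_lin (a b : ℝ) (ha : 0 < a) : ∀ᶠ n : ℕ in atTop, b < a * n :=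
  (tendsto_natCast_atTop_atTop.const_mul_atTop ha).eventually_gt_atTop b

/-- superattracting parameters of period `n` or `n + 1` close to `c₀` -/
theorem siz_ex (hd : 2 ≤ d) (h : Lyap d χ c₀) {δ : ℝ} (hδ : 0 < δ) :
    ∀ᶠ n : ℕ in atTop, ∃ c' : ℂ, (P d n c' = 0 ∨ P d (n + 1) c' = 0) ∧
      ‖c' - c₀‖ ≤ Real.exp (-(χ - δ) * ((n : ℝ) + 1)) := by
  wlog hδχ : δ ≤ χ / 2 generalizing δ with H
  · have h1 := H (δ := χ / 2) (by linarith [h.1]) le_rfl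
    filter_upwards [h1] with n ⟨c', h2, h3⟩
    refine ⟨c', h2, h3.trans (Real.exp_le_exp.mpr ?_)⟩
    have : (0 : ℝ) ≤ (n : ℝ) + 1 := by positivity
    nlinarith
  obtain ⟨⟨C₁, lam, hc⟩, hlya⟩ := Pool.Agent.Y674.CA.lya d χ c₀ hd h
  have hχ : 0 < χ := h.1
  obtain ⟨C, r₀, J, hC, hr₀, H⟩ := sch' hc
  obtain ⟨C₂, hC₂1, hC₂⟩ := hlya (δ / 2) (by positivity)
  have hC₂0 : 0 < C₂ := by linarith
  filter_upwards [ev_lin (δ / 2) (Real.log (C * C₂) + (χ - δ)) (by positivity),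
    ev_lin (χ / 2) (-Real.log r₀) (by positivity), eventually_ge_atTop J] with n h1 h2 h3
  obtain ⟨g1, -, -⟩ := hC₂ n
  obtain ⟨m, -, h4, c', h5, h6⟩ := H (Real.exp (-(χ - δ) * ((n : ℝ) + 1))) (Real.exp_pos _) (by
    rw [← Real.exp_log hr₀]
    apply Real.exp_le_exp.mpr
    have : (0 : ℝ) ≤ n := by positivity
    nlinarith) n h3 (by
    have h7 : C * C₂ < Real.exp (-(χ - δ) * ((n : ℝ) + 1)) * Real.exp ((χ - δ / 2) * n) := by
      rw [← Real.exp_add, ← Real.exp_log (by positivity : 0 < C * C₂)]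
      apply Real.exp_lt_exp.mpr
      nlinarith
    have h8 : Real.exp (-(χ - δ) * ((n : ℝ) + 1)) * Real.exp ((χ - δ / 2) * n) ≤
        Real.exp (-(χ - δ) * ((n : ℝ) + 1)) * (C₂ * Pd d c₀ n) := by gcongr
    have h9 := h7.trans_le h8
    have h10 : Real.exp (-(χ - δ) * ((n : ℝ) + 1)) * (C₂ * Pd d c₀ n) =
        (Real.exp (-(χ - δ) * ((n : ℝ) + 1)) * Pd d c₀ n) * C₂ := by ring
    rw [h10] at h9
    exact lt_of_mul_lt_mul_right h9 hC₂0.le)
  rw [mem_ball, dist_eq_norm] at h5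
  refine ⟨c', ?_, h5.le⟩
  rcases h4 with rfl | rfl
  · exact Or.inl h6
  · exact Or.inr h6

theorem gap_exp (hd : 2 ≤ d) (h : Lyap d χ c₀) {ε : ℝ} (hε : 0 < ε) :
    ∀ᶠ n : ℕ in atTop, Real.exp (-(χ + ε) * n) ≤ gap d c₀ n := by
  obtain ⟨⟨C₁, lam, hc⟩, -⟩ := Pool.Agent.Y674.CA.lya d χ c₀ hd h
  have h1 := (lyap_gap hd h).eventually_lt_const (by linarith : χ < χ + ε)
  filter_upwards [h1, eventually_ge_atTop 1] with n h2 h3
  have hn : (0 : ℝ) < n := by exact_mod_cast h3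
  rw [div_lt_iff₀ hn] at h2
  rw [← Real.exp_log (gap_pos hc h3)]
  apply Real.exp_le_exp.mpr
  linarith

/-- the distance is at least `exp (-(χ + ε) n)` -/
theorem siz_dist (hd : 2 ≤ d) (h : Lyap d χ c₀) {ε : ℝ} (hε : 0 < ε) :
    ∀ᶠ n : ℕ in atTop, ∀ c' : ℂ, P d n c' = 0 → Real.exp (-(χ + ε) * n) ≤ ‖c' - c₀‖ := by
  filter_upwards [gap_exp hd h hε, eventually_ge_atTop 1] with n h1 h2 c' hc'
  refine h1.trans ?_
  unfold gap
  rw [← dist_eq_norm, dist_comm]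
  exact infDist_le_dist_of_mem ⟨n, h2, le_rfl, hc'⟩

/-- the exact period -/
theorem siz_per (hd : 2 ≤ d) (h : Lyap d χ c₀) :
    ∀ᶠ n : ℕ in atTop, ∀ c' : ℂ, P d n c' = 0 → ‖c' - c₀‖ ≤ Real.exp (-(χ - χ / 4) * n) →
      Function.minimalPeriod (f d c') 0 = n := by
  have hχ := h.1
  obtain ⟨n₀, hn₀⟩ := eventually_atTop.1 (gap_exp hd h (ε := χ / 4) (by positivity))
  filter_upwards [eventually_ge_atTop (2 * n₀ + 2)] with n hn c' hc' hcc
  set p := Function.minimalPeriod (f d c') 0 with hp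
  have hper : Function.IsPeriodicPt (f d c') n 0 := hc'
  have hdvd : p ∣ n := hper.minimalPeriod_dvd
  have hp0 : 0 < p := hper.minimalPeriod_pos (by omega)
  by_contra hne
  obtain ⟨k, hk⟩ := hdvd
  have hk2 : 2 ≤ k := by
    rcases k with _ | _ | k
    · rw [mul_zero] at hk
      omega
    · rw [zero_add, mul_one] at hk
      exact absurd hk.symm hne
    · omega
  have hpn : p ≤ n / 2 := by
    rw [Nat.le_div_iff_mul_le (by norm_num)]
    rw [hk]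
    exact Nat.mul_le_mul_left p hk2
  have h1 := hn₀ (n / 2) (by omega)
  have h2 : gap d c₀ (n / 2) ≤ ‖c' - c₀‖ := by
    unfold gap
    rw [← dist_eq_norm, dist_comm]
    refine infDist_le_dist_of_mem ⟨p, hp0, hpn, ?_⟩
    exact Function.isPeriodicPt_minimalPeriod (f d c') 0
  have h3 := Real.exp_le_exp.mp ((h1.trans h2).trans hcc)
  have h4 : ((n / 2 : ℕ) : ℝ) ≤ (n : ℝ) / 2 := Nat.cast_div_le
  have h5 : (0 : ℝ) < n := by exact_mod_cast (by omega : 0 < n)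
  nlinarith

theorem centre_ne (hd : 2 ≤ d) (h : Lyap d χ c₀) {n : ℕ} (hn : 1 ≤ n) {c' : ℂ}
    (hc' : P d n c' = 0) : c' ≠ c₀ := by
  rintro rfl
  obtain ⟨⟨C₁, lam, hc⟩, -⟩ := Pool.Agent.Y674.CA.lya d χ c' hd h
  obtain ⟨j, rfl⟩ : ∃ j, n = j + 1 := ⟨n - 1, by omega⟩
  rw [P_iter hd, iter_zero hd] at hc'
  exact hc.zz_ne j hc'

theorem centre_mem (hd : 2 ≤ d) {n : ℕ} (hn : 1 ≤ n) {c' : ℂ} (hc' : P d n c' = 0) :
    c' ∈ N62a1eb23.multibrotSet d :=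
  (Pool.Agent.H712R2.mem_multibrot_iff hd c').mpr (bd_of_centre hd hn hc')

/-- powers of the distance -/
theorem pow_small {χ a : ℝ} (hχ : 0 < χ) (ha : 0 < a) {ε : ℝ} (hε : 0 < ε)
    {F : ℂ → ENNReal} {S : Set ℂ}
    (hF : ∀ σ : ℝ, 0 ≤ σ → σ < a → ∃ K : ℝ, 0 < K ∧ ∀ c ∈ S, c ≠ c₀ →
      F c ≤ ENNReal.ofReal (K * ‖c - c₀‖ ^ σ)) :
    ∃ δ : ℝ, 0 < δ ∧ δ < χ ∧ ∀ᶠ n : ℕ in atTop, ∀ c ∈ S, c ≠ c₀ →
      ‖c - c₀‖ ≤ 2 * Real.exp (-(χ - δ) * n) →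
      F c ≤ ENNReal.ofReal (Real.exp (-(χ * a - ε) * n)) := by
  -- the exponent
  obtain ⟨σ, hσ0, hσa, hσ1⟩ : ∃ σ : ℝ, 0 ≤ σ ∧ σ < a ∧ χ * a - ε / 4 ≤ χ * σ := by
    refine ⟨max 0 (a - ε / (4 * χ)), le_max_left _ _, max_lt ha ?_, ?_⟩
    · have : 0 < ε / (4 * χ) := by positivity
      linarith
    · have h1 : a - ε / (4 * χ) ≤ max 0 (a - ε / (4 * χ)) := le_max_right _ _
      have h2 : χ * (a - ε / (4 * χ)) = χ * a - ε / 4 := by field_simp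
      rw [← h2]
      gcongr
  obtain ⟨δ, hδ0, hδχ, hδ1⟩ : ∃ δ : ℝ, 0 < δ ∧ δ < χ ∧ δ * σ ≤ ε / 4 := by
    refine ⟨min (χ / 2) (ε / (4 * (σ + 1))), lt_min (by positivity) (by positivity), ?_, ?_⟩
    · refine (min_le_left _ _).trans_lt (by linarith)
    · have h1 : min (χ / 2) (ε / (4 * (σ + 1))) ≤ ε / (4 * (σ + 1)) := min_le_right _ _
      calc min (χ / 2) (ε / (4 * (σ + 1))) * σ ≤ ε / (4 * (σ + 1)) * (σ + 1) := by
            gcongr
            linarith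
        _ = ε / 4 := by field_simp
  obtain ⟨K, hK, H⟩ := hF σ hσ0 hσa
  refine ⟨δ, hδ0, hδχ, ?_⟩
  filter_upwards [ev_lin (ε / 2) (Real.log (K * 2 ^ σ)) (by positivity)] with n h1 c hc hcc hn
  refine (H c hc hcc).trans (ENNReal.ofReal_le_ofReal ?_)
  have h2 : ‖c - c₀‖ ^ σ ≤ (2 * Real.exp (-(χ - δ) * n)) ^ σ :=
    Real.rpow_le_rpow (norm_nonneg _) hn hσ0
  have h3 : (2 * Real.exp (-(χ - δ) * n)) ^ σ = 2 ^ σ * Real.exp (-(χ - δ) * n * σ) := by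
    rw [Real.mul_rpow (by norm_num) (Real.exp_pos _).le, ← Real.exp_mul]
  have h4 : (0 : ℝ) < K * 2 ^ σ := by positivity
  calc K * ‖c - c₀‖ ^ σ ≤ K * (2 ^ σ * Real.exp (-(χ - δ) * n * σ)) := by
        rw [← h3]
        gcongr
    _ = Real.exp (Real.log (K * 2 ^ σ) + (-(χ - δ) * n * σ)) := by
        rw [Real.exp_add, Real.exp_log h4]
        ring
    _ ≤ _ := by
        apply Real.exp_le_exp.mpr
        have h5 : (0 : ℝ) ≤ n := by positivity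
        have h6 : (χ * a - ε / 4) * n ≤ χ * σ * n := by gcongr
        have h7 : δ * σ * n ≤ ε / 4 * n := by gcongr
        nlinarith

/-- the limits along a sequence of centres -/
theorem lim_seq {F : ℂ → ℝ} {a : ℝ}
    (hF : ∀ ε : ℝ, 0 < ε → ∃ δ : ℝ, 0 < δ ∧ ∀ᶠ m : ℕ in atTop, ∀ c' : ℂ, P d m c' = 0 →
      ‖c' - c₀‖ ≤ Real.exp (-(χ - δ) * m) →
      Real.exp (-(a + ε) * m) ≤ F c' ∧ F c' ≤ Real.exp (-(a - ε) * m))
    {c : ℕ → ℂ} {p : ℕ → ℕ} (hp : Tendsto p atTop atTop)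
    (hc : ∀ δ : ℝ, 0 < δ → ∀ᶠ n : ℕ in atTop, P d (p n) (c n) = 0 ∧
      ‖c n - c₀‖ ≤ Real.exp (-(χ - δ) * (p n))) :
    Tendsto (fun n : ℕ => -Real.log (F (c n)) / p n) atTop (𝓝 a) := by
  rw [Metric.tendsto_atTop']
  intro ε hε
  obtain ⟨δ, hδ, H⟩ := hF (ε / 2) (by positivity)
  have h1 := (hp.eventually H).and ((hc δ hδ).and (hp.eventually_ge_atTop 1))
  obtain ⟨N, hN⟩ := eventually_atTop.1 h1
  refine ⟨N, fun n hn => ?_⟩
  obtain ⟨h2, ⟨h3, h4⟩, h5⟩ := hN n hn.le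
  obtain ⟨h6, h7⟩ := h2 (c n) h3 h4
  have hF0 : 0 < F (c n) := (Real.exp_pos _).trans_le h6
  have h8 := Real.log_le_log (Real.exp_pos _) h6
  have h9 := Real.log_le_log hF0 h7
  rw [Real.log_exp] at h8 h9
  have hp0 : (0 : ℝ) < p n := by exact_mod_cast h5
  rw [Real.dist_eq, abs_lt]
  constructor
  · rw [lt_sub_iff_add_lt, lt_div_iff₀ hp0]
    nlinarith
  · rw [sub_lt_iff_lt_add, div_lt_iff₀ hp0]
    nlinarith

theorem P_zero_zero (hd : 2 ≤ d) (n : ℕ) : P d (n + 1) 0 = 0 := by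
  rw [P_iter hd]
  have h1 : f d 0 0 = 0 := by
    show (0 : ℂ) ^ d + 0 = 0
    rw [zero_pow (by omega), zero_add]
  exact Function.iterate_fixed h1 (n + 1)

/-- a sequence of closest centres -/
theorem seq_ex (hd : 2 ≤ d) (h : Lyap d χ c₀) : ∃ (c : ℕ → ℂ) (p : ℕ → ℕ),
    (∀ n, p n = n ∨ p n = n + 1) ∧ ∀ δ : ℝ, 0 < δ → ∀ᶠ n : ℕ in atTop, P d (p n) (c n) = 0 ∧
      ‖c n - c₀‖ ≤ Real.exp (-(χ - δ) * (p n)) := by
  have hχ := h.1
  have hcl : ∀ n : ℕ, ∃ c' : ℂ, (P d n c' = 0 ∨ P d (n + 1) c' = 0) ∧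
      ∀ c'' : ℂ, (P d n c'' = 0 ∨ P d (n + 1) c'' = 0) → ‖c' - c₀‖ ≤ ‖c'' - c₀‖ := by
    intro n
    have hclosed : IsClosed {c' : ℂ | P d n c' = 0 ∨ P d (n + 1) c' = 0} := by
      have h1 : Continuous (P d n) := (Pool.Agent.H713R2.differentiable_P d n).continuous
      have h2 : Continuous (P d (n + 1)) := (Pool.Agent.H713R2.differentiable_P d (n + 1)).continuous
      exact (isClosed_eq h1 continuous_const).union (isClosed_eq h2 continuous_const)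
    obtain ⟨c', hc', hmin⟩ := hclosed.exists_infDist_eq_dist
      ⟨0, Or.inr (P_zero_zero hd n)⟩ c₀
    refine ⟨c', hc', fun c'' hc'' => ?_⟩
    have h3 := infDist_le_dist_of_mem (x := c₀) (show c'' ∈ {c' : ℂ | P d n c' = 0 ∨ P d (n + 1) c' = 0} from hc'')
    rw [hmin, dist_comm, dist_eq_norm, dist_comm, dist_eq_norm] at h3
    exact h3
  choose c hc hmin using hcl
  classical
  refine ⟨c, fun n => if P d n (c n) = 0 then n else n + 1, fun n => ?_, fun δ hδ => ?_⟩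
  · dsimp only
    split_ifs
    · exact Or.inl rfl
    · exact Or.inr rfl
  · filter_upwards [siz_ex hd h (δ := min (δ / 2) (χ / 2)) (lt_min (by positivity) (by positivity)),
      ev_lin (δ / 2) (χ - δ) (by positivity)] with n ⟨c', h1, h2⟩ h3
    have h4 := (hmin n c' h1).trans h2
    have hn : (0 : ℝ) ≤ n := by positivity
    have hm1 : min (δ / 2) (χ / 2) ≤ δ / 2 := min_le_left _ _
    have hm2 : min (δ / 2) (χ / 2) ≤ χ / 2 := min_le_right _ _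
    have hkey : ∀ q : ℝ, (n : ℝ) ≤ q → q ≤ n + 1 →
        Real.exp (-(χ - min (δ / 2) (χ / 2)) * ((n : ℝ) + 1)) ≤ Real.exp (-(χ - δ) * q) := by
      intro q hq1 hq2
      apply Real.exp_le_exp.mpr
      have h5 : (χ - min (δ / 2) (χ / 2)) * q ≤ (χ - min (δ / 2) (χ / 2)) * ((n : ℝ) + 1) := by
        gcongr
        linarith
      have hq0 : 0 ≤ q := hn.trans hq1
      have h6 : (χ - δ) * q ≤ (χ - min (δ / 2) (χ / 2)) * q := by
        apply mul_le_mul_of_nonneg_right _ hq0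
        linarith
      linarith
    by_cases hP : P d n (c n) = 0
    · rw [if_pos hP]
      exact ⟨hP, h4.trans (hkey n le_rfl (by linarith))⟩
    · rw [if_neg hP]
      refine ⟨(hc n).resolve_left hP, h4.trans (le_trans (hkey (n + 1) (by linarith) le_rfl) ?_)⟩
      push_cast
      exact le_rfl

end Pool.Agent.V1186.CN
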