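import Mathlib
import Pool.Agent.V1186.CN.Cyc2

/-!
# Counting superattracting parameters in small discs: the upper bound
-/

set_option autoImplicit false

open Set Filter Metric MeasureTheory Topology

namespace Pool.Agent.V1186.CN

open Pool.Agent.TH279.MD Pool.Agent.Y298.SH Pool.Agent.Y298.SH.CD Pool.Agent.Y298.CA
open Pool.Agent.H712R2 (P P_succ)

/-- counting zeros (Jensen) -/
theorem jensen_count {c : ℂ} {r : ℝ} (hr : 0 < r) (S : Finset ℂ) :
    ∀ (F : ℂ → ℂ) (M : ℝ), Differentiable ℂ F → (∀ a ∈ S, a ∈ ball c r ∧ F a = 0) →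
      (∀ z, ‖z - c‖ = 3 * r → ‖F z‖ ≤ M) → 2 ^ S.card * ‖F c‖ ≤ M := by
  classical
  induction S using Finset.induction_on with
  | empty =>
    intro F M hF _ hM
    rw [Finset.card_empty, pow_zero, one_mul]
    have h3 : (0 : ℝ) < 3 * r := by positivity
    refine Complex.norm_le_of_forall_mem_frontier_norm_le (U := ball c (3 * r)) isBounded_ball
      hF.diffContOnCl ?_ (subset_closure (mem_ball_self h3))
    intro z hz
    rw [frontier_ball c h3.ne', mem_sphere_iff_norm] at hz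
    exact hM z hz
  | insert a S ha ih =>
    intro F M hF hS hM
    obtain ⟨ha1, ha2⟩ := hS a (Finset.mem_insert_self _ _)
    rw [mem_ball_iff_norm] at ha1
    have hG : Differentiable ℂ (dslope F a) := by
      rw [← differentiableOn_univ, Complex.differentiableOn_dslope univ_mem]
      exact hF.differentiableOn
    have hfac : ∀ z, F z = (z - a) * dslope F a z := by
      intro z
      have h1 := sub_smul_dslope F a z
      rw [ha2, sub_zero, smul_eq_mul] at h1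
      exact h1.symm
    have h2r : 0 < 2 * r := by positivity
    have h1 := ih (dslope F a) (M / (2 * r)) hG (fun b hb => by
      obtain ⟨hb1, hb2⟩ := hS b (Finset.mem_insert_of_mem hb)
      refine ⟨hb1, ?_⟩
      rw [hfac b] at hb2
      rcases mul_eq_zero.1 hb2 with h | h
      · exact absurd (sub_eq_zero.1 h ▸ hb) ha
      · exact h) (fun z hz => by
      have h2 := hM z hz
      rw [hfac z, norm_mul] at h2
      have h3 : 2 * r ≤ ‖z - a‖ := by
        have h4 : ‖z - c‖ ≤ ‖z - a‖ + ‖a - c‖ := by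
          calc ‖z - c‖ = ‖(z - a) + (a - c)‖ := by congr 1; ring
            _ ≤ _ := norm_add_le _ _
        linarith
      rw [le_div_iff₀ h2r]
      calc ‖dslope F a z‖ * (2 * r) ≤ ‖dslope F a z‖ * ‖z - a‖ := by gcongr
        _ = ‖z - a‖ * ‖dslope F a z‖ := mul_comm _ _
        _ ≤ M := h2)
    rw [Finset.card_insert_of_notMem ha, pow_succ, hfac c, norm_mul]
    rw [le_div_iff₀ h2r] at h1
    have h4 : ‖c - a‖ ≤ r := by rw [norm_sub_rev]; exact ha1.le
    calc 2 ^ S.card * 2 * (‖c - a‖ * ‖dslope F a c‖) ≤ 2 ^ S.card * 2 * (r * ‖dslope F a c‖) := by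
          gcongr
      _ = 2 ^ S.card * ‖dslope F a c‖ * (2 * r) := by ring
      _ ≤ M := h1

/-- The parameters in the disc for which the critical value is mapped to `0` by the `j`-th iterate. -/
def zs (d : ℕ) (c₀ : ℂ) (r : ℝ) (j : ℕ) : Set ℂ := {c | c ∈ ball c₀ r ∧ zz d c j = 0}

theorem differentiable_zz (d j : ℕ) : Differentiable ℂ fun c => zz d c j := by
  induction j with
  | zero => exact differentiable_id
  | succ j ih =>
    have h1 : (fun c => zz d c (j + 1)) = fun c => (zz d c j) ^ d + c := by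
      funext c
      exact zz_succ d c j
    rw [h1]
    exact (ih.pow d).add differentiable_id

theorem zs_fin {d : ℕ} {c₀ : ℂ} {r : ℝ} (hr : 0 < r) {j : ℕ} {M : ℝ} (h0 : zz d c₀ j ≠ 0)
    (hM : ∀ z, ‖z - c₀‖ = 3 * r → ‖zz d z j‖ ≤ M) :
    (zs d c₀ r j).Finite ∧ 2 ^ (zs d c₀ r j).ncard * ‖zz d c₀ j‖ ≤ M := by
  have hpos : 0 < ‖zz d c₀ j‖ := norm_pos_iff.2 h0
  have hfin : (zs d c₀ r j).Finite := by
    by_contra hinf
    obtain ⟨k, hk⟩ := pow_unbounded_of_one_lt (M / ‖zz d c₀ j‖) (one_lt_two (α := ℝ))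
    obtain ⟨t, ht, htk⟩ := (show (zs d c₀ r j).Infinite from hinf).exists_subset_card_eq k
    have h1 := jensen_count hr t (fun c => zz d c j) M (differentiable_zz d j)
      (fun a ha => ht ha) hM
    rw [htk] at h1
    rw [div_lt_iff₀ hpos] at hk
    exact absurd h1 (not_le.2 hk)
  refine ⟨hfin, ?_⟩
  have h1 := jensen_count hr hfin.toFinset (fun c => zz d c j) M (differentiable_zz d j)
    (fun a ha => by rw [Set.Finite.mem_toFinset] at ha; exact ha) hM
  rw [Set.ncard_eq_toFinset_card _ hfin]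
  exact h1

theorem zs_card {d : ℕ} {c₀ : ℂ} {r : ℝ} (hr : 0 < r) {j : ℕ} {M : ℝ} (h0 : zz d c₀ j ≠ 0)
    (hM : ∀ z, ‖z - c₀‖ = 3 * r → ‖zz d z j‖ ≤ M) :
    ((zs d c₀ r j).ncard : ℝ) ≤ 2 * (Real.log M - Real.log ‖zz d c₀ j‖) := by
  obtain ⟨-, h1⟩ := zs_fin hr h0 hM
  have hpos : 0 < ‖zz d c₀ j‖ := norm_pos_iff.2 h0
  have h2 := Real.log_le_log (by positivity) h1
  rw [Real.log_mul (by positivity) hpos.ne', Real.log_pow] at h2
  have h3 : (1 / 2 : ℝ) < Real.log 2 := by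
    have := Real.log_two_gt_d9
    linarith
  have h4 : ((zs d c₀ r j).ncard : ℝ) * (1 / 2) ≤ (zs d c₀ r j).ncard * Real.log 2 := by gcongr
  linarith

/-- growth of the iterates -/
theorem grow_le {d : ℕ} (hd : 2 ≤ d) {c : ℂ} (hc : ‖c‖ ≤ 3) {k : ℕ} (hk : ‖zz d c k‖ ≤ 4) (i : ℕ) :
    ‖zz d c (k + i)‖ ≤ 8 ^ (d ^ i) / 2 := by
  induction i with
  | zero =>
    rw [add_zero, pow_zero, pow_one]
    linarith
  | succ i ih =>
    rw [← add_assoc, zz_succ]
    have h1 : (8 : ℝ) ≤ 8 ^ (d ^ i) := by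
      calc (8 : ℝ) = 8 ^ 1 := (pow_one _).symm
        _ ≤ 8 ^ (d ^ i) := pow_le_pow_right₀ (by norm_num) (Nat.one_le_pow _ _ (by omega))
    set t : ℝ := 8 ^ (d ^ i) with ht
    have h2 : (8 : ℝ) ^ (d ^ (i + 1)) = t ^ d := by rw [ht, ← pow_mul, ← pow_succ]
    rw [h2]
    have h3 : (t / 2) ^ d ≤ t ^ d / 4 := by
      rw [div_pow]
      have h5 : (4 : ℝ) ≤ 2 ^ d := by
        calc (4 : ℝ) = 2 ^ 2 := by norm_num
          _ ≤ 2 ^ d := pow_le_pow_right₀ (by norm_num) hd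
      gcongr
    have h4 : (64 : ℝ) ≤ t ^ d := by
      calc (64 : ℝ) = 8 ^ 2 := by norm_num
        _ ≤ t ^ 2 := by gcongr
        _ ≤ t ^ d := pow_le_pow_right₀ (by linarith) hd
    calc ‖zz d c (k + i) ^ d + c‖ ≤ ‖zz d c (k + i)‖ ^ d + ‖c‖ := by
          refine (norm_add_le _ _).trans ?_
          rw [norm_pow]
      _ ≤ (t / 2) ^ d + 3 := by gcongr
      _ ≤ t ^ d / 2 := by linarith

/-- the number of zeros, from the size of an iterate on a larger disc -/
theorem zs_le {d : ℕ} (hd : 2 ≤ d) {c₀ : ℂ} {r : ℝ} (hr : 0 < r) {k : ℕ}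
    (hb : ∀ c, ‖c - c₀‖ ≤ 3 * r → ‖c‖ ≤ 3 ∧ ‖zz d c k‖ ≤ 4) {j : ℕ} (hkj : k ≤ j)
    (h0 : zz d c₀ j ≠ 0) :
    ((zs d c₀ r j).ncard : ℝ) ≤ 5 * (d : ℝ) ^ (j - k) - 2 * Real.log ‖zz d c₀ j‖ := by
  have h1 := zs_card (M := 8 ^ (d ^ (j - k))) hr h0 (fun z hz => by
    obtain ⟨h2, h3⟩ := hb z hz.le
    have h4 := grow_le hd h2 h3 (j - k)
    rw [Nat.add_sub_cancel' hkj] at h4
    have : (0 : ℝ) ≤ 8 ^ (d ^ (j - k)) := by positivity
    linarith)
  rw [Real.log_pow] at h1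
  have h2 : Real.log 8 ≤ 5 / 2 := by
    have : Real.log 8 = 3 * Real.log 2 := by
      rw [show (8 : ℝ) = 2 ^ 3 by norm_num, Real.log_pow]
      norm_num
    rw [this]
    have := Real.log_two_lt_d9
    linarith
  push_cast at h1
  have h3 : (d : ℝ) ^ (j - k) * Real.log 8 ≤ (d : ℝ) ^ (j - k) * (5 / 2) := by gcongr
  linarith

end Pool.Agent.V1186.CN
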