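import Mathlib
import Pool.Agent.V1186.CN.Cnt

/-!
# Holomorphic branches of the preimages of the critical point over a disc of parameters
-/

set_option autoImplicit false

open Set Filter Metric MeasureTheory Topology

namespace Pool.Agent.V1186.CN

open Pool.Agent.TH279.MD Pool.Agent.Y298.SH Pool.Agent.Y298.SH.CD Pool.Agent.Y298.CA
open Pool.Agent.H712R2 (P P_succ)

variable {d : ℕ} {c₀ : ℂ} {R : ℝ} {m : ℕ}

/-- The holomorphic branches over the disc of the solutions `w` of `f_c^m(w) = 0`, not passing through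
`0` before. -/
def Br (d : ℕ) (c₀ : ℂ) (R : ℝ) (m : ℕ) : Set (ℂ → ℂ) :=
  {b | DifferentiableOn ℂ b (ball c₀ R) ∧
    ∀ c ∈ ball c₀ R, (f d c)^[m] (b c) = 0 ∧ ∀ j < m, (f d c)^[j] (b c) ≠ 0}

/-- The values of the branches at the centre. -/
def Gm (d : ℕ) (c₀ : ℂ) (R : ℝ) (m : ℕ) : Set ℂ := (fun b : ℂ → ℂ => b c₀) '' Br d c₀ R m

/-- The solutions of `f_c^m(w) = 0`. -/
def Fm (d : ℕ) (c : ℂ) (m : ℕ) : Set ℂ := {w | (f d c)^[m] w = 0}

theorem Br.step {b : ℂ → ℂ} (hb : b ∈ Br d c₀ R (m + 1)) :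
    (fun c => b c ^ d + c) ∈ Br d c₀ R m := by
  obtain ⟨h1, h2⟩ := hb
  refine ⟨(h1.pow d).add differentiableOn_id, fun c hc => ?_⟩
  obtain ⟨h3, h4⟩ := h2 c hc
  refine ⟨?_, fun j hj => ?_⟩
  · rw [Function.iterate_succ_apply] at h3
    exact h3
  · have h5 := h4 (j + 1) (by omega)
    rw [Function.iterate_succ_apply] at h5
    exact h5

theorem Br.ne {b : ℂ → ℂ} (hb : b ∈ Br d c₀ R (m + 1)) {c : ℂ} (hc : c ∈ ball c₀ R) : b c ≠ 0 :=
  (hb.2 c hc).2 0 (Nat.succ_pos m)

theorem Br_uniq (hd : 2 ≤ d) : ∀ (m : ℕ) (b b' : ℂ → ℂ), b ∈ Br d c₀ R m → b' ∈ Br d c₀ R m →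
    ∀ c ∈ ball c₀ R, b c = b' c → EqOn b b' (ball c₀ R) := by
  intro m
  induction m with
  | zero =>
    intro b b' hb hb' c hc _ x hx
    have h1 := (hb.2 x hx).1
    have h2 := (hb'.2 x hx).1
    simp only [Function.iterate_zero, id_eq] at h1 h2
    rw [h1, h2]
  | succ m ih =>
    intro b b' hb hb' c hc hbb x hx
    have h1 := ih _ _ (Br.step hb) (Br.step hb') c hc (by simp only [hbb])
    have hpow : ∀ y ∈ ball c₀ R, b y ^ d = b' y ^ d := by
      intro y hy
      have h2 := h1 hy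
      simp only at h2
      exact add_right_cancel h2
    -- the quotient takes values in the finite set of the roots of unity
    have hq : ContinuousOn (fun y => b y / b' y) (ball c₀ R) :=
      hb.1.continuousOn.div hb'.1.continuousOn fun y hy => Br.ne hb' hy
    have hroot : ∀ y ∈ ball c₀ R, (b y / b' y) ^ d = 1 := by
      intro y hy
      rw [div_pow, hpow y hy, div_self (pow_ne_zero _ (Br.ne hb' hy))]
    have hfinite : ({w : ℂ | w ^ d = 1} : Set ℂ).Finite := by
      have h3 : ({w : ℂ | w ^ d = 1} : Set ℂ) ⊆ ↑((Polynomial.nthRoots d (1 : ℂ)).toFinset) := by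
        intro w hw
        rw [Finset.mem_coe, Multiset.mem_toFinset, Polynomial.mem_nthRoots (by omega)]
        exact hw
      exact (Finset.finite_toSet _).subset h3
    have hconn : IsPreconnected ((fun y => b y / b' y) '' ball c₀ R) :=
      (convex_ball c₀ R).isPreconnected.image _ hq
    have hsub : ((fun y => b y / b' y) '' ball c₀ R).Subsingleton := by
      have h4 : ((fun y => b y / b' y) '' ball c₀ R) ⊆ {w : ℂ | w ^ d = 1} := by
        rintro _ ⟨y, hy, rfl⟩
        exact hroot y hy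
      exact hfinite.countable.isTotallyDisconnected _ h4 hconn
    have h5 : b x / b' x = b c / b' c := hsub ⟨x, hx, rfl⟩ ⟨c, hc, rfl⟩
    rw [hbb, div_self (Br.ne hb' hc), div_eq_one_iff_eq (Br.ne hb' hx)] at h5
    exact h5

theorem Br_root (hd : 2 ≤ d) (hR : 0 < R) {b : ℂ → ℂ} (hb : b ∈ Br d c₀ R m)
    (hne : ∀ c ∈ ball c₀ R, b c ≠ c) {x : ℂ} (hx : x ^ d + c₀ = b c₀) :
    ∃ u ∈ Br d c₀ R (m + 1), u c₀ = x := by
  have hd0 : (d : ℂ) ≠ 0 := by
    have : d ≠ 0 := by omega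
    exact_mod_cast this
  have hF : DifferentiableOn ℂ (fun c => b c - c) (ball c₀ R) := hb.1.sub differentiableOn_id
  have h0 : ∀ c ∈ ball c₀ R, b c - c ≠ 0 := fun c hc => sub_ne_zero.2 (hne c hc)
  have hc₀ : c₀ ∈ ball c₀ R := mem_ball_self hR
  have hx1 : x ^ d = b c₀ - c₀ := by rw [← hx]; ring
  have hx0 : x ≠ 0 := by
    rintro rfl
    rw [zero_pow (by omega)] at hx1
    exact h0 c₀ hc₀ hx1.symm
  obtain ⟨l, hl1, hl2, hl3⟩ := Pool.Agent.H712R2.M.exists_log_ball hR hF h0 (d * Complex.log x)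
    (by rw [Complex.exp_nat_mul, Complex.exp_log hx0, hx1])
  refine ⟨fun c => Complex.exp (l c / d), ⟨?_, ?_⟩, ?_⟩
  · intro c hc
    have h1 := hl1 c hc
    exact (h1.div_const _).cexp
  · intro c hc
    have h1 : Complex.exp (l c / d) ^ d + c = b c := by
      rw [← Complex.exp_nat_mul, mul_div_cancel₀ _ hd0, hl3 c hc]
      ring
    obtain ⟨h3, h4⟩ := hb.2 c hc
    refine ⟨?_, fun j hj => ?_⟩
    · rw [Function.iterate_succ_apply]
      show (f d c)^[m] (Complex.exp (l c / d) ^ d + c) = 0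
      rw [h1]
      exact h3
    · rcases j with _ | j
      · exact Complex.exp_ne_zero _
      · rw [Function.iterate_succ_apply]
        show (f d c)^[j] (Complex.exp (l c / d) ^ d + c) ≠ 0
        rw [h1]
        exact h4 j (by omega)
  · show Complex.exp (l c₀ / d) = x
    rw [hl2, mul_div_cancel_left₀ _ hd0, Complex.exp_log hx0]

/-- preimages of a finite set: at most `d` for each point -/
theorem pre_le (hd : 2 ≤ d) (c : ℂ) {S : Set ℂ} (hS : S.Finite) :
    ({x : ℂ | x ^ d + c ∈ S} : Set ℂ).Finite ∧ ({x : ℂ | x ^ d + c ∈ S} : Set ℂ).ncard ≤ d * S.ncard := by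
  classical
  set T : Finset ℂ := hS.toFinset.biUnion fun w => (Polynomial.nthRoots d (w - c)).toFinset with hT
  have h1 : ({x : ℂ | x ^ d + c ∈ S} : Set ℂ) ⊆ ↑T := by
    intro x hx
    rw [Finset.mem_coe, hT, Finset.mem_biUnion]
    refine ⟨x ^ d + c, ?_, ?_⟩
    · rw [Set.Finite.mem_toFinset]
      exact hx
    · rw [Multiset.mem_toFinset, Polynomial.mem_nthRoots (by omega)]
      ring
  refine ⟨T.finite_toSet.subset h1, ?_⟩
  calc ({x : ℂ | x ^ d + c ∈ S} : Set ℂ).ncard ≤ (↑T : Set ℂ).ncard :=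
        Set.ncard_le_ncard h1 T.finite_toSet
    _ = T.card := Set.ncard_coe_finset T
    _ ≤ hS.toFinset.card * d := by
        apply Finset.card_biUnion_le_card_mul
        intro w _
        exact (Multiset.toFinset_card_le _).trans (Polynomial.card_nthRoots d _)
    _ = d * S.ncard := by rw [Set.ncard_eq_toFinset_card _ hS, mul_comm]

theorem Fm_succ (d : ℕ) (c : ℂ) (m : ℕ) : Fm d c (m + 1) = {x : ℂ | x ^ d + c ∈ Fm d c m} := by
  ext x
  show (f d c)^[m + 1] x = 0 ↔ (f d c)^[m] (x ^ d + c) = 0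
  rw [Function.iterate_succ_apply]
  rfl

theorem Fm_card (hd : 2 ≤ d) (c : ℂ) (m : ℕ) : (Fm d c m).Finite ∧ (Fm d c m).ncard ≤ d ^ m := by
  induction m with
  | zero =>
    have h1 : Fm d c 0 = {0} := by
      ext x
      simp [Fm]
    rw [h1]
    exact ⟨Set.finite_singleton _, by rw [Set.ncard_singleton, pow_zero]⟩
  | succ m ih =>
    rw [Fm_succ]
    obtain ⟨h1, h2⟩ := pre_le hd c ih.1
    refine ⟨h1, h2.trans ?_⟩
    rw [pow_succ, mul_comm]
    exact Nat.mul_le_mul_right _ ih.2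

theorem Gm_sub (hR : 0 < R) : Gm d c₀ R m ⊆ Fm d c₀ m := by
  rintro _ ⟨b, hb, rfl⟩
  exact (hb.2 c₀ (mem_ball_self hR)).1

theorem Gm_fin (hd : 2 ≤ d) (hR : 0 < R) : (Gm d c₀ R m).Finite :=
  (Fm_card hd c₀ m).1.subset (Gm_sub hR)

/-- exactly `d` preimages outside the critical value -/
theorem pre_ge (hd : 2 ≤ d) (c : ℂ) {S T : Set ℂ} (hS : S.Finite) (hT : T.Finite) (hc : c ∉ S)
    (hST : ∀ x : ℂ, x ^ d + c ∈ S → x ∈ T) : d * S.ncard ≤ T.ncard := by
  classical
  have hroot : ∀ w : ℂ, ∃ ρ : ℂ, ρ ^ d = w - c := fun w => IsAlgClosed.exists_pow_nat_eq _ (by omega)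
  choose ρ hρ using hroot
  have hprim := Complex.isPrimitiveRoot_exp d (by omega)
  set ω : ℂ := Complex.exp (2 * Real.pi * Complex.I / d) with hω
  have hω1 : ω ^ d = 1 := hprim.pow_eq_one
  have h1 : (hS.toFinset ×ˢ Finset.range d).card ≤ hT.toFinset.card := by
    apply Finset.card_le_card_of_injOn (fun p : ℂ × ℕ => ω ^ p.2 * ρ p.1)
    · rintro ⟨w, i⟩ hp
      rw [Finset.mem_coe, Finset.mem_product, Set.Finite.mem_toFinset] at hp
      rw [Finset.mem_coe, Set.Finite.mem_toFinset]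
      apply hST
      show (ω ^ i * ρ w) ^ d + c ∈ S
      rw [mul_pow, ← pow_mul, mul_comm i d, pow_mul, hω1, one_pow, one_mul, hρ, sub_add_cancel]
      exact hp.1
    · rintro ⟨w, i⟩ hp ⟨w', i'⟩ hp' heq
      rw [Finset.mem_coe, Finset.mem_product, Set.Finite.mem_toFinset, Finset.mem_range] at hp hp'
      simp only at heq hp hp'
      have h2 : w - c = w' - c := by
        rw [← hρ w, ← hρ w']
        have h3 : (ω ^ i * ρ w) ^ d = (ω ^ i' * ρ w') ^ d := by rw [heq]
        rwa [mul_pow, mul_pow, ← pow_mul, ← pow_mul, mul_comm i d, mul_comm i' d, pow_mul, pow_mul,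
          hω1, one_pow, one_pow, one_mul, one_mul] at h3
      have h4 : w = w' := by linear_combination h2
      subst h4
      have h5 : ρ w ≠ 0 := by
        intro h6
        have h7 := hρ w
        rw [h6, zero_pow (by omega)] at h7
        apply hc
        have h8 : c = w := by linear_combination h7
        rw [h8]
        exact hp.1
      have h6 : ω ^ i = ω ^ i' := mul_right_cancel₀ h5 heq
      have h7 := hprim.pow_inj hp.2 hp'.2 h6
      rw [h7]
  rw [Finset.card_product, Finset.card_range] at h1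
  rw [Set.ncard_eq_toFinset_card _ hS, Set.ncard_eq_toFinset_card _ hT, mul_comm]
  exact h1

/-- the induction step of the count of the branches -/
theorem Gm_step (hd : 2 ≤ d) (hR : 0 < R) (hz : (zs d c₀ R m).Finite) :
    d * (Gm d c₀ R m).ncard ≤ (Gm d c₀ R (m + 1)).ncard + d * (zs d c₀ R m).ncard := by
  classical
  set Good : Set ℂ := {w | ∃ b ∈ Br d c₀ R m, b c₀ = w ∧ ∀ c ∈ ball c₀ R, b c ≠ c} with hGood
  have hGG : Good ⊆ Gm d c₀ R m := by
    rintro w ⟨b, hb, hw, -⟩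
    exact ⟨b, hb, hw⟩
  have hfin := Gm_fin (d := d) (c₀ := c₀) (m := m) hd hR
  have hGfin : Good.Finite := hfin.subset hGG
  have h1 : d * Good.ncard ≤ (Gm d c₀ R (m + 1)).ncard := by
    refine pre_ge hd c₀ hGfin (Gm_fin hd hR) ?_ ?_
    · rintro ⟨b, hb, hw, hne⟩
      exact hne c₀ (mem_ball_self hR) hw
    · rintro x ⟨b, hb, hw, hne⟩
      obtain ⟨u, hu, hux⟩ := Br_root hd hR hb hne hw.symm
      exact ⟨u, hu, hux⟩
  have h2 : (Gm d c₀ R m \ Good).ncard ≤ (zs d c₀ R m).ncard := by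
    have hex : ∀ w ∈ Gm d c₀ R m \ Good, ∃ c : ℂ, c ∈ ball c₀ R ∧ ∃ b ∈ Br d c₀ R m,
        b c₀ = w ∧ b c = c := by
      rintro w ⟨⟨b, hb, hw⟩, hng⟩
      by_contra hcon
      push Not at hcon
      exact hng ⟨b, hb, hw, fun c hc => hcon c hc b hb hw⟩
    choose! φ hφ using hex
    refine Set.ncard_le_ncard_of_injOn φ ?_ ?_ hz
    · intro w hw
      obtain ⟨h3, b, hb, -, h4⟩ := hφ w hw
      refine ⟨h3, ?_⟩
      have h5 := (hb.2 _ h3).1
      rw [h4] at h5
      exact h5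
    · intro w hw w' hw' heq
      obtain ⟨h3, b, hb, hbw, h4⟩ := hφ w hw
      obtain ⟨h3', b', hb', hbw', h4'⟩ := hφ w' hw'
      have h5 : b (φ w) = b' (φ w) := by
        rw [h4]
        have : b' (φ w) = φ w := by
          rw [heq]
          exact h4'
        rw [this]
      have h6 := Br_uniq hd m b b' hb hb' (φ w) h3 h5 (mem_ball_self hR)
      rw [← hbw, ← hbw', h6]
  have h3 : (Gm d c₀ R m).ncard = Good.ncard + (Gm d c₀ R m \ Good).ncard := by
    rw [add_comm]
    exact (Set.ncard_sdiff_add_ncard_of_subset hGG hfin).symm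
  rw [h3, mul_add]
  have h4 := Nat.mul_le_mul_left d h2
  omega

/-- the number of branches -/
theorem Gm_ge (hd : 2 ≤ d) (hR : 0 < R) (hz : ∀ j, (zs d c₀ R j).Finite) (m : ℕ) :
    (d : ℝ) ^ m * (1 - ∑ j ∈ Finset.range m, ((zs d c₀ R j).ncard : ℝ) / (d : ℝ) ^ j) ≤
      (Gm d c₀ R m).ncard := by
  have hd0 : (0 : ℝ) < d := by
    have : 0 < d := by omega
    exact_mod_cast this
  induction m with
  | zero =>
    have h1 : (1 : ℕ) ≤ (Gm d c₀ R 0).ncard := by
      have h2 : (0 : ℂ) ∈ Gm d c₀ R 0 := by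
        refine ⟨fun _ => 0, ⟨differentiableOn_const 0, fun c _ => ⟨rfl, fun j hj => absurd hj (by omega)⟩⟩, rfl⟩
      exact Nat.one_le_iff_ne_zero.2 (Set.ncard_ne_zero_of_mem h2 (Gm_fin hd hR))
    simp only [pow_zero, Finset.range_zero, Finset.sum_empty, sub_zero, mul_one]
    exact_mod_cast h1
  | succ m ih =>
    have h1 := Gm_step (c₀ := c₀) hd hR (hz m)
    have h2 : (d : ℝ) * (Gm d c₀ R m).ncard ≤ (Gm d c₀ R (m + 1)).ncard +
        d * (zs d c₀ R m).ncard := by exact_mod_cast h1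
    rw [Finset.sum_range_succ]
    have h3 : (d : ℝ) ^ (m + 1) * (1 - (∑ j ∈ Finset.range m, ((zs d c₀ R j).ncard : ℝ) / (d : ℝ) ^ j +
        ((zs d c₀ R m).ncard : ℝ) / (d : ℝ) ^ m)) =
        d * ((d : ℝ) ^ m * (1 - ∑ j ∈ Finset.range m, ((zs d c₀ R j).ncard : ℝ) / (d : ℝ) ^ j)) -
          d * (zs d c₀ R m).ncard := by
      field_simp
      ring
    rw [h3]
    have h4 := mul_le_mul_of_nonneg_left ih hd0.le
    linarith

end Pool.Agent.V1186.CN
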