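import Mathlib
import Pool.Agent.V1186.CN.Cyc8
import Pool.Agent.V1186.CN.Siz2

/-!
# Renormalizations with bounds: the derivative at the critical value
-/

set_option autoImplicit false

open Set Filter Metric MeasureTheory Topology

namespace Pool.Agent.V1186.CN

open Pool.Agent.TH279.MD Pool.Agent.Y298.SH Pool.Agent.Y298.SH.CD Pool.Agent.Y298.CA

variable {d : ℕ} {χ : ℝ} {c₀ : ℂ}

/-- The derivative of the `p`-th iterate at the critical value is bounded in terms of the bounds of a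
renormalization of period `p`. -/
theorem ren_deriv (hd : 2 ≤ d) {c : ℂ} {q : ℕ} {C ρ : ℝ} {U : Set ℂ} (hρ : 0 < ρ)
    (hcov : U ⊆ (f d c)^[q + 1] '' U) (hball : ball (0 : ℂ) ρ ⊆ U)
    (hdiam : ∀ z ∈ U, ∀ z' ∈ U, ‖(f d c)^[q + 1] z - (f d c)^[q + 1] z'‖ ≤ C * ρ) :
    Pd d c (q + 1) ≤ 2 * d * C ^ d := by
  have h0U : (0 : ℂ) ∈ U := hball (mem_ball_self hρ)
  have hC0 : 0 ≤ C := by
    have h1 := hdiam 0 h0U 0 h0U
    rw [sub_self, norm_zero] at h1
    by_contra hcon
    nlinarith [not_le.1 hcon]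
  have hz : ‖zz d c q‖ ≤ C * ρ := by
    obtain ⟨z, hz, hz0⟩ := hcov h0U
    have h1 := hdiam 0 h0U z hz
    rw [hz0, sub_zero, iter_zero hd] at h1
    exact h1
  -- the derivative of the `q`-th iterate
  have hPd : Pd d c q ≤ C * ρ / (ρ ^ d / 2) := by
    have hdiff : Differentiable ℂ (fun w => (f d c)^[q] w - (f d c)^[q] c) := by
      have h1 : Differentiable ℂ ((f d c)^[q]) := by
        have : Differentiable ℂ (f d c) := by
          unfold Pool.Agent.TH279.MD.f
          fun_prop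
        exact this.iterate q
      exact h1.sub_const _
    have h2 : ‖deriv (fun w => (f d c)^[q] w - (f d c)^[q] c) c‖ ≤ C * ρ / (ρ ^ d / 2) := by
      apply Complex.norm_deriv_le_of_forall_mem_sphere_norm_le (by positivity)
      · exact hdiff.diffContOnCl
      · intro w hw
        obtain ⟨z, hz⟩ := IsAlgClosed.exists_pow_nat_eq (w - c) (show 0 < d by omega)
        have hzn : ‖z‖ ^ d = ρ ^ d / 2 := by
          rw [← norm_pow, hz, ← dist_eq_norm]
          exact hw
        have hzρ : ‖z‖ < ρ := by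
          have h3 : ‖z‖ ^ d < ρ ^ d := by
            rw [hzn]
            have : 0 < ρ ^ d := by positivity
            linarith
          exact lt_of_pow_lt_pow_left₀ d hρ.le h3
        have hzU : z ∈ U := hball (by rw [mem_ball_zero_iff]; exact hzρ)
        have h3 := hdiam z hzU 0 h0U
        rw [Function.iterate_succ_apply, Function.iterate_succ_apply] at h3
        have h4 : f d c z = w := by
          show z ^ d + c = w
          rw [hz]
          ring
        have h5 : f d c 0 = c := by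
          show (0 : ℂ) ^ d + c = c
          rw [zero_pow (by omega), zero_add]
        rw [h4, h5] at h3
        exact h3
    rw [deriv_sub_const] at h2
    exact h2
  rw [Pd_succ]
  have hPq : 0 ≤ Pd d c q := Pd_nonneg d c q
  have h6 : ‖zz d c q‖ ^ (d - 1) ≤ (C * ρ) ^ (d - 1) := pow_le_pow_left₀ (norm_nonneg _) hz _
  have hd1 : d - 1 + 1 = d := by omega
  have hρd : ρ ^ d = ρ ^ (d - 1) * ρ := by rw [← pow_succ, hd1]
  have hCd : C ^ d = C ^ (d - 1) * C := by rw [← pow_succ, hd1]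
  calc d * ‖zz d c q‖ ^ (d - 1) * Pd d c q ≤
      d * (C * ρ) ^ (d - 1) * (C * ρ / (ρ ^ d / 2)) := by gcongr
    _ = 2 * d * C ^ d := by
      rw [mul_pow, hρd, hCd]
      field_simp

/-- comparison of the derivatives of the iterates -/
theorem Pd_cmp (hd : 2 ≤ d) {c : ℂ} {S : ℝ} {n : ℕ} (hS0 : 0 ≤ S)
    (hpos : ∀ j ≤ n, 0 < Pd d c₀ j) (hz : ∀ j ≤ n, zz d c₀ j ≠ 0)
    (hS : ∑ j ∈ Finset.range (n + 1), (Pd d c₀ j)⁻¹ ≤ S)
    (hT : Real.exp 1 * S * ‖c - c₀‖ * ∑ j ∈ Finset.range (n + 1), Pd d c₀ j / ‖zz d c₀ j‖ ≤ 1 / d) :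
    Pd d c₀ (n + 1) ≤ d * Pd d c (n + 1) := by
  have hdR : (2 : ℝ) ≤ d := by exact_mod_cast hd
  have hd0 : (0 : ℝ) < d := by linarith
  have H := orbit_cmp hd hpos hz hS hT
  set E : ℝ := Real.exp 1 * S * ‖c - c₀‖ with hE
  have hE0 : 0 ≤ E := by positivity
  set u : ℕ → ℝ := fun j => E * (Pd d c₀ j / ‖zz d c₀ j‖) with hu
  have hu0 : ∀ j, 0 ≤ u j := fun j => by
    have : 0 ≤ Pd d c₀ j := Pd_nonneg d c₀ j
    positivity
  have hsum : ∑ j ∈ Finset.range (n + 1), u j ≤ 1 / d := by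
    rw [← Finset.mul_sum]
    exact hT
  have hpart : ∀ m ≤ n + 1, ∑ j ∈ Finset.range m, u j ≤ 1 / d := fun m hm =>
    (Finset.sum_le_sum_of_subset_of_nonneg (Finset.range_mono hm) fun j _ _ => hu0 j).trans hsum
  have hzc : ∀ j ≤ n, ‖zz d c₀ j‖ * (1 - u j) ≤ ‖zz d c j‖ := by
    intro j hj
    have h1 := H j hj
    have h2 : ‖zz d c₀ j‖ ≤ ‖zz d c j‖ + ‖zz d c j - zz d c₀ j‖ := by
      calc ‖zz d c₀ j‖ = ‖zz d c j - (zz d c j - zz d c₀ j)‖ := by congr 1; ring
        _ ≤ _ := norm_sub_le _ _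
    have h3 : 0 < ‖zz d c₀ j‖ := norm_pos_iff.2 (hz j hj)
    have h4 : ‖zz d c₀ j‖ * u j = E * Pd d c₀ j := by
      simp only [hu]
      field_simp
    nlinarith
  have h1d : (1 : ℝ) / d ≤ 1 / 2 := by
    apply one_div_le_one_div_of_le (by norm_num) hdR
  -- the product
  have key : ∀ m ≤ n + 1, Pd d c₀ m * (1 - ∑ j ∈ Finset.range m, u j) ^ (d - 1) ≤ Pd d c m := by
    intro m
    induction m with
    | zero =>
      intro _
      rw [Finset.range_zero, Finset.sum_empty, sub_zero, one_pow, mul_one]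
      apply le_of_eq
      simp [Pd]
    | succ m ih =>
      intro hm
      have h1 := ih (by omega)
      have h2 := hzc m (by omega)
      have h3 := hpart m (by omega)
      have h4 := hpart (m + 1) hm
      have h5 : 0 ≤ 1 - u m := by
        have : u m ≤ ∑ j ∈ Finset.range (m + 1), u j :=
          Finset.single_le_sum (fun j _ => hu0 j) (Finset.mem_range.2 (by omega))
        linarith
      rw [Pd_succ, Pd_succ, Finset.sum_range_succ]
      have h6 : 1 - (∑ j ∈ Finset.range m, u j + u m) ≤ (1 - ∑ j ∈ Finset.range m, u j) * (1 - u m) := by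
        have h7 : 0 ≤ (∑ j ∈ Finset.range m, u j) * u m :=
          mul_nonneg (Finset.sum_nonneg fun j _ => hu0 j) (hu0 m)
        nlinarith
      have h8 : 0 ≤ 1 - (∑ j ∈ Finset.range m, u j + u m) := by
        rw [← Finset.sum_range_succ]
        linarith
      have hP0 : 0 ≤ Pd d c₀ m := Pd_nonneg d c₀ m
      have hPc : 0 ≤ Pd d c m := Pd_nonneg d c m
      calc d * ‖zz d c₀ m‖ ^ (d - 1) * Pd d c₀ m *
          (1 - (∑ j ∈ Finset.range m, u j + u m)) ^ (d - 1) ≤
          d * ‖zz d c₀ m‖ ^ (d - 1) * Pd d c₀ m *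
            ((1 - ∑ j ∈ Finset.range m, u j) * (1 - u m)) ^ (d - 1) := by gcongr
        _ = d * (‖zz d c₀ m‖ * (1 - u m)) ^ (d - 1) *
            (Pd d c₀ m * (1 - ∑ j ∈ Finset.range m, u j) ^ (d - 1)) := by
          rw [mul_pow, mul_pow]
          ring
        _ ≤ d * ‖zz d c m‖ ^ (d - 1) * Pd d c m := by
          have h9 : 0 ≤ ‖zz d c₀ m‖ * (1 - u m) := by positivity
          have h10 : 0 ≤ Pd d c₀ m * (1 - ∑ j ∈ Finset.range m, u j) ^ (d - 1) := by
            have : 0 ≤ 1 - ∑ j ∈ Finset.range m, u j := by linarith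
            positivity
          gcongr
  have h1 := key (n + 1) le_rfl
  have h2 : (1 : ℝ) / d ≤ (1 - ∑ j ∈ Finset.range (n + 1), u j) ^ (d - 1) := by
    have h3 : 1 - 1 / (d : ℝ) ≤ 1 - ∑ j ∈ Finset.range (n + 1), u j := by linarith
    have h4 : (1 : ℝ) + (d - 1 : ℕ) * (-(1 / d)) ≤ (1 + -(1 / (d : ℝ))) ^ (d - 1) :=
      one_add_mul_le_pow (by linarith) _
    have h5 : (1 : ℝ) + (d - 1 : ℕ) * (-(1 / d)) = 1 / d := by
      rw [Nat.cast_sub (by omega), Nat.cast_one]
      field_simp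
      ring
    rw [h5] at h4
    refine h4.trans ?_
    have h6 : 0 ≤ 1 + -(1 / (d : ℝ)) := by linarith
    gcongr
    linarith
  have hP0 : 0 ≤ Pd d c₀ (n + 1) := Pd_nonneg d c₀ (n + 1)
  have h3 : Pd d c₀ (n + 1) * (1 / d) ≤ Pd d c (n + 1) := le_trans (by gcongr) h1
  rw [mul_one_div, div_le_iff₀ hd0] at h3
  linarith

end Pool.Agent.V1186.CN
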