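import Mathlib
import Pool.Agent.V1186.CN.Rn1

/-!
# Renormalizations with bounds near a parameter with a Lyapunov exponent
-/

set_option autoImplicit false

open Set Filter Metric MeasureTheory Topology

namespace Pool.Agent.V1186.CN

open Pool.Agent.TH279.MD Pool.Agent.Y298.SH Pool.Agent.Y298.SH.CD Pool.Agent.Y298.CA

variable {d : ℕ} {χ : ℝ} {c₀ : ℂ}

/-- at parameters closer than `exp (-(χ + ε) p)` the derivative of the `p`-th iterate is large -/
theorem deriv_large (hd : 2 ≤ d) (h : Lyap d χ c₀) {κ ε : ℝ} (hκ : κ < χ) (hε : 0 < ε) :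
    ∀ᶠ p : ℕ in atTop, ∀ c : ℂ, ‖c - c₀‖ ≤ Real.exp (-(χ + ε) * p) →
      2 * d * Real.exp (κ * p) < Pd d c p := by
  obtain ⟨⟨C₁, lam, hc⟩, hC⟩ := Pool.Agent.Y674.CA.lya d χ c₀ hd h
  have hdR : (2 : ℝ) ≤ d := by exact_mod_cast hd
  have hd0 : (0 : ℝ) < d := by linarith
  have hl := hc.lam1
  have hC1 := hc.C1
  set S : ℝ := C₁ * lam / (lam - 1) with hS
  have hS0 : 0 < S := by
    have : 0 < lam - 1 := by linarith
    have : 0 < C₁ := by linarith
    positivity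
  obtain ⟨C, hC1', hCb⟩ := hC ((χ - κ) / 2) (by linarith)
  have hC0 : 0 < C := by linarith
  have e1 := lyap_sum hd h (ε := ε) hε (Real.log (Real.exp 1 * S * d))
  have e2 : ∀ᶠ p : ℕ in atTop, Real.log (2 * d * d * C) < (χ - κ) / 2 * p :=
    ev_lin _ _ (by linarith)
  have e3 : ∀ᶠ n : ℕ in atTop, ∀ c : ℂ, ‖c - c₀‖ ≤ Real.exp (-(χ + ε) * ((n + 1 : ℕ) : ℝ)) →
      2 * d * Real.exp (κ * ((n + 1 : ℕ) : ℝ)) < Pd d c (n + 1) := by
    filter_upwards [e1, (tendsto_add_atTop_nat 1).eventually e2] with n h1 h2 c hcr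
    have hsum := sum_pos' hc n
    have h3 : Real.exp 1 * S * d * ∑ j ∈ Finset.range (n + 1), Pd d c₀ j / ‖zz d c₀ j‖ ≤
        Real.exp ((χ + ε) * (n + 1)) := by
      rw [← Real.log_mul (by positivity) hsum.ne'] at h1
      exact (Real.log_le_iff_le_exp (by positivity)).1 h1
    have h4 : Real.exp 1 * S * ‖c - c₀‖ *
        ∑ j ∈ Finset.range (n + 1), Pd d c₀ j / ‖zz d c₀ j‖ ≤ 1 / d := by
      rw [le_div_iff₀ hd0]
      calc Real.exp 1 * S * ‖c - c₀‖ * (∑ j ∈ Finset.range (n + 1), Pd d c₀ j / ‖zz d c₀ j‖) * d =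
          ‖c - c₀‖ * (Real.exp 1 * S * d *
            ∑ j ∈ Finset.range (n + 1), Pd d c₀ j / ‖zz d c₀ j‖) := by ring
        _ ≤ Real.exp (-(χ + ε) * ((n + 1 : ℕ) : ℝ)) * Real.exp ((χ + ε) * (n + 1)) := by gcongr
        _ = 1 := by
          rw [← Real.exp_add]
          push_cast
          rw [neg_mul, neg_add_cancel, Real.exp_zero]
    have h5 := Pd_cmp hd hS0.le (fun j _ => hc.Pd_pos j) (fun j _ => hc.zz_ne j)
      (sum_inv_le hc (n + 1)) h4
    obtain ⟨h6, -, -⟩ := hCb (n + 1)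
    have h7 : 2 * d * d * C < Real.exp ((χ - κ) / 2 * ((n + 1 : ℕ) : ℝ)) := by
      rw [← Real.log_lt_iff_lt_exp (by positivity)]
      exact h2
    have h8 : Real.exp ((χ - (χ - κ) / 2) * ((n + 1 : ℕ) : ℝ)) =
        Real.exp (κ * ((n + 1 : ℕ) : ℝ)) * Real.exp ((χ - κ) / 2 * ((n + 1 : ℕ) : ℝ)) := by
      rw [← Real.exp_add]
      congr 1
      ring
    have h9 : 0 < Real.exp (κ * ((n + 1 : ℕ) : ℝ)) := Real.exp_pos _
    have h10 : Real.exp (κ * ((n + 1 : ℕ) : ℝ)) * (2 * d * d * C) <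
        C * (d * Pd d c (n + 1)) := by
      calc Real.exp (κ * ((n + 1 : ℕ) : ℝ)) * (2 * d * d * C) <
          Real.exp (κ * ((n + 1 : ℕ) : ℝ)) * Real.exp ((χ - κ) / 2 * ((n + 1 : ℕ) : ℝ)) := by gcongr
        _ = Real.exp ((χ - (χ - κ) / 2) * ((n + 1 : ℕ) : ℝ)) := h8.symm
        _ ≤ C * Pd d c₀ (n + 1) := h6
        _ ≤ C * (d * Pd d c (n + 1)) := by gcongr
    have hdC : 0 < d * C := by positivity
    by_contra hcon
    rw [not_lt] at hcon
    have h11 : C * (d * Pd d c (n + 1)) ≤ C * (d * (2 * d * Real.exp (κ * ((n + 1 : ℕ) : ℝ)))) := by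
      gcongr
    nlinarith
  obtain ⟨N, hN⟩ := eventually_atTop.1 e3
  filter_upwards [eventually_ge_atTop (N + 1)] with p hp
  obtain ⟨n, rfl⟩ : ∃ n, p = n + 1 := ⟨p - 1, by omega⟩
  exact hN n (by omega)

end Pool.Agent.V1186.CN
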