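import Mathlib
import Pool.Agent.V1186.CN.Rn2
import Pool.Agent.V1186.CN.Cnt2
import Pool.Agent.Y298.CD.Hole

/-!
# Superattracting parameters are renormalizable with universal bounds
-/

set_option autoImplicit false

open Set Filter Metric MeasureTheory Topology

namespace Pool.Agent.V1186.CN

open Pool.Agent.TH279.MD Pool.Agent.Y298.SH Pool.Agent.Y298.SH.CD Pool.Agent.Y298.CA
open Pool.Agent.W746.LD (Univ KC exists_KC)

variable {d : ℕ} {χ : ℝ} {c₀ : ℂ}

theorem ren_centre (hd : 2 ≤ d) : ∃ C : ℝ, 1 ≤ C ∧ ∀ (c : ℂ) (q : ℕ) (R : ℝ), 0 < R →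
    zz d c q = 0 → (∀ k < q, R ≤ ‖zz d c k‖) → 0 < Pd d c q → C ≤ Pd d c q * R ^ (d - 1) →
    ∃ (U : Set ℂ) (ρ : ℝ), (IsOpen U ∧ Bornology.IsBounded U ∧ closure U ⊆ (f d c)^[q + 1] '' U ∧
      (∀ K ⊆ (f d c)^[q + 1] '' U, IsCompact K → IsCompact {z | z ∈ U ∧ (f d c)^[q + 1] z ∈ K}) ∧
      (∀ w ∈ (f d c)^[q + 1] '' U, {z | z ∈ U ∧ (f d c)^[q + 1] z = w}.encard ≤ d)) ∧ 0 < ρ ∧
      (∀ n : ℕ, ball ((f d c)^[n * (q + 1)] 0) ρ ⊆ U) ∧
      ∀ z ∈ U, ∀ z' ∈ U, ‖(f d c)^[q + 1] z - (f d c)^[q + 1] z'‖ ≤ C * ρ := by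
  obtain ⟨C0, e, K⟩ := exists_KC
  have hC1 := K.one_le
  have he := K.pos
  have he4 := K.le
  have hC00 : 0 < C0 := by linarith
  have hdne : d ≠ 0 := by omega
  have hd1 : d - 1 + 1 = d := by omega
  have hd1ne : d - 1 ≠ 0 := by omega
  have h8 : (1 : ℝ) ≤ 8 ^ d := one_le_pow₀ (by norm_num)
  have hCge : (8 : ℝ) ^ d * C0 ≤ 8 ^ d * C0 / e := by
    rw [le_div_iff₀ he]
    have : 0 < (8 : ℝ) ^ d * C0 := by positivity
    nlinarith
  have hC1' : (1 : ℝ) ≤ 8 ^ d * C0 / e := le_trans (by nlinarith) hCge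
  refine ⟨8 ^ d * C0 / e, hC1', ?_⟩
  intro c q R hR hzq hzk hPd hbig
  set C : ℝ := 8 ^ d * C0 / e with hC
  have hCpos : 0 < C := by linarith
  obtain ⟨g, hg, hinv, hg0⟩ := branch_at hd (c := c) (y := 0) hR q (fun k hk hmem => by
    rw [mem_ball_zero_iff] at hmem
    exact absurd (hzk k hk) (not_le.2 hmem)) c hzq
  have hFd : Differentiable ℂ ((f d c)^[q]) := by
    have : Differentiable ℂ (f d c) := by
      unfold Pool.Agent.TH279.MD.f
      fun_prop
    exact this.iterate q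
  have hU : Univ g 0 R := ⟨hg, fun a ha b hb hab => by rw [← hinv a ha, ← hinv b hb, hab]⟩
  have hprod : ∀ v ∈ ball (0 : ℂ) R, deriv ((f d c)^[q]) (g v) * deriv g v = 1 := by
    intro v hv
    have h1 : HasDerivAt (fun x => (f d c)^[q] (g x)) (deriv ((f d c)^[q]) (g v) * deriv g v) v :=
      (hFd (g v)).hasDerivAt.comp v (hg.differentiableAt (isOpen_ball.mem_nhds hv)).hasDerivAt
    have h2 : HasDerivAt (fun x => (f d c)^[q] (g x)) 1 v := by
      refine (hasDerivAt_id v).congr_of_eventuallyEq ?_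
      filter_upwards [isOpen_ball.mem_nhds hv] with x hx
      exact hinv x hx
    exact h1.unique h2
  have hgne : ∀ v ∈ ball (0 : ℂ) R, deriv g v ≠ 0 := fun v hv h0 => by
    have := hprod v hv
    rw [h0, mul_zero] at this
    exact zero_ne_one this
  set m : ℝ := ‖deriv g 0‖ with hm
  have hm0 : 0 < m := norm_pos_iff.2 (hgne 0 (mem_ball_self hR))
  have hmP : Pd d c q * m = 1 := by
    have h1 := congrArg norm (hprod 0 (mem_ball_self hR))
    rw [norm_mul, hg0, norm_one] at h1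
    exact h1
  -- the radius of the image disc
  set s : ℝ := (2 ^ d * C0 * m) ^ (((d - 1 : ℕ) : ℝ)⁻¹) with hs
  have hsp : s ^ (d - 1) = 2 ^ d * C0 * m := Real.rpow_inv_natCast_pow (by positivity) hd1ne
  have hs0 : 0 < s := Real.rpow_pos_of_pos (by positivity) _
  have hsR : s ≤ R / 4 := by
    have h1 : s ^ (d - 1) ≤ (R / 4) ^ (d - 1) := by
      rw [hsp, div_pow, le_div_iff₀ (by positivity)]
      have h2 : (8 : ℝ) ^ d * C0 ≤ Pd d c q * R ^ (d - 1) := hCge.trans hbig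
      have h3 : (8 : ℝ) ^ d * C0 * m ≤ R ^ (d - 1) := by
        calc (8 : ℝ) ^ d * C0 * m ≤ Pd d c q * R ^ (d - 1) * m := by gcongr
          _ = (Pd d c q * m) * R ^ (d - 1) := by ring
          _ = R ^ (d - 1) := by rw [hmP, one_mul]
      refine le_trans ?_ h3
      have h4 : (2 : ℝ) ^ d * 4 ^ (d - 1) ≤ 8 ^ d := by
        calc (2 : ℝ) ^ d * 4 ^ (d - 1) ≤ 2 ^ d * 4 ^ d := by
              gcongr
              · norm_num
              · omega
          _ = 8 ^ d := by rw [← mul_pow]; norm_num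
      calc 2 ^ d * C0 * m * 4 ^ (d - 1) = (2 ^ d * 4 ^ (d - 1)) * (C0 * m) := by ring
        _ ≤ 8 ^ d * (C0 * m) := by gcongr
        _ = _ := by ring
    exact (pow_le_pow_iff_left₀ hs0.le (by positivity) hd1ne).1 h1
  set ρ : ℝ := (e * s * m) ^ ((d : ℝ)⁻¹) with hρ
  have hρp : ρ ^ d = e * s * m := Real.rpow_inv_natCast_pow (by positivity) hdne
  have hρ0 : 0 < ρ := Real.rpow_pos_of_pos (by positivity) _
  have hsR' : s < R := by linarith
  have hsub : ball (0 : ℂ) s ⊆ ball 0 R := ball_subset_ball hsR'.le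
  set U : Set ℂ := {z | z ^ d + c ∈ g '' ball 0 s} with hUdef
  have hW : IsOpen (g '' ball 0 s) := by
    rw [Metric.isOpen_iff]
    rintro _ ⟨v, hv, rfl⟩
    have hv' := mem_ball_zero_iff.1 hv
    have hsubv : ball v (s - ‖v‖) ⊆ ball 0 s := by
      intro w hw
      rw [mem_ball, dist_eq_norm] at hw
      rw [mem_ball_zero_iff]
      calc ‖w‖ = ‖(w - v) + v‖ := by congr 1; ring
        _ ≤ ‖w - v‖ + ‖v‖ := norm_add_le _ _
        _ < s := by linarith
    have hgv : 0 < ‖deriv g v‖ := norm_pos_iff.2 (hgne v (hsub hv))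
    refine ⟨e * (s - ‖v‖) * ‖deriv g v‖, by
      have : 0 < s - ‖v‖ := by linarith
      positivity, fun a ha => ?_⟩
    by_contra hcon
    have h1 := K.komit g v (s - ‖v‖) (by linarith) (hU.mono (hsubv.trans hsub)) a
      (fun w hw hwa => hcon ⟨w, hsubv hw, hwa⟩)
    rw [mem_ball, dist_comm, dist_eq_norm] at ha
    linarith
  have e1 : ∀ z ∈ U, ∃ v ∈ ball (0 : ℂ) s, z ^ d + c = g v ∧ (f d c)^[q + 1] z = v := by
    rintro z ⟨v, hv, hvz⟩
    refine ⟨v, hv, hvz.symm, ?_⟩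
    rw [Function.iterate_succ_apply]
    show (f d c)^[q] (z ^ d + c) = v
    rw [← hvz]
    exact hinv v (hsub hv)
  have e2 : ∀ v ∈ ball (0 : ℂ) s, ∃ z ∈ U, (f d c)^[q + 1] z = v := by
    intro v hv
    obtain ⟨z, hz⟩ := IsAlgClosed.exists_pow_nat_eq (g v - c) (show 0 < d by omega)
    have hzU : z ∈ U := ⟨v, hv, by rw [hz]; ring⟩
    refine ⟨z, hzU, ?_⟩
    rw [Function.iterate_succ_apply]
    show (f d c)^[q] (z ^ d + c) = v
    rw [hz, sub_add_cancel]
    exact hinv v (hsub hv)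
  have himg : (f d c)^[q + 1] '' U = ball 0 s := by
    ext v
    constructor
    · rintro ⟨z, hz, rfl⟩
      obtain ⟨w, hw, -, hw2⟩ := e1 z hz
      rw [hw2]
      exact hw
    · intro hv
      obtain ⟨z, hz, hz2⟩ := e2 v hv
      exact ⟨z, hz, hz2⟩
  have hUs : U ⊆ closedBall 0 (s / 2) := by
    intro z hz
    obtain ⟨v, hv, hv1, -⟩ := e1 z hz
    have hv' := mem_ball_zero_iff.1 hv
    rw [mem_closedBall_zero_iff]
    have h1 := K.lip hR hU (w := v) (by rw [sub_zero]; linarith)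
    rw [hg0, sub_zero, ← hv1, add_sub_cancel_right, norm_pow] at h1
    have h2 : ‖z‖ ^ d ≤ (s / 2) ^ d := by
      refine h1.trans ?_
      have h3 : (s / 2) ^ d = C0 * m * s := by
        rw [div_pow, ← hd1, pow_succ s, hd1, hsp]
        field_simp
      rw [h3]
      gcongr
    exact (pow_le_pow_iff_left₀ (norm_nonneg _) (by positivity) hdne).1 h2
  have h00 : (f d c)^[q + 1] 0 = 0 := by
    rw [iter_zero hd]
    exact hzq
  refine ⟨U, ρ, ⟨?_, ?_, ?_, ?_, ?_⟩, hρ0, ?_, ?_⟩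
  · exact hW.preimage (by fun_prop)
  · exact isBounded_closedBall.subset hUs
  · rw [himg]
    refine (closure_minimal hUs isClosed_closedBall).trans ?_
    exact closedBall_subset_ball (by linarith)
  · intro L hL hLc
    rw [himg] at hL
    have h1 : {z | z ∈ U ∧ (f d c)^[q + 1] z ∈ L} = (fun z : ℂ => z ^ d + c) ⁻¹' (g '' L) := by
      ext z
      constructor
      · rintro ⟨hz, hzL⟩
        obtain ⟨v, hv, hv1, hv2⟩ := e1 z hz
        rw [hv2] at hzL
        exact ⟨v, hzL, hv1.symm⟩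
      · rintro ⟨v, hv, hv1⟩
        have hzU : z ∈ U := ⟨v, hL hv, hv1⟩
        refine ⟨hzU, ?_⟩
        rw [Function.iterate_succ_apply]
        show (f d c)^[q] (z ^ d + c) ∈ L
        have hv1' : g v = z ^ d + c := hv1
        rw [← hv1', hinv v (hsub (hL hv))]
        exact hv
    rw [h1]
    refine Metric.isCompact_of_isClosed_isBounded ?_ ?_
    · refine IsClosed.preimage (by fun_prop) ?_
      exact (hLc.image_of_continuousOn (hg.continuousOn.mono (hL.trans hsub))).isClosed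
    · rw [← h1]
      exact isBounded_closedBall.subset fun z hz => hUs hz.1
  · intro w hw
    rw [himg] at hw
    obtain ⟨h1, h2⟩ := pre_le hd c (S := {g w}) (Set.finite_singleton _)
    have h3 : {z | z ∈ U ∧ (f d c)^[q + 1] z = w} ⊆ {x : ℂ | x ^ d + c ∈ ({g w} : Set ℂ)} := by
      rintro z ⟨hz, hzw⟩
      obtain ⟨v, hv, hv1, hv2⟩ := e1 z hz
      have hvw : v = w := by rw [← hv2, hzw]
      show z ^ d + c = g w
      rw [hv1, hvw]
    refine (Set.encard_le_encard h3).trans ?_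
    rw [← h1.cast_ncard_eq]
    rw [Set.ncard_singleton, mul_one] at h2
    exact_mod_cast h2
  · intro n
    have h1 : (f d c)^[n * (q + 1)] 0 = 0 := by
      induction n with
      | zero => simp
      | succ n ih => rw [Nat.succ_mul, Function.iterate_add_apply, h00, ih]
    rw [h1]
    intro z hz
    rw [mem_ball_zero_iff] at hz
    by_contra hcon
    have h2 := K.komit g 0 s hs0 (hU.mono hsub) (z ^ d + c) (fun w hw hwa => hcon ⟨w, hw, hwa⟩)
    rw [hg0, sub_add_cancel_right, norm_neg, norm_pow] at h2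
    have h3 : ‖z‖ ^ d < ρ ^ d := pow_lt_pow_left₀ hz (norm_nonneg _) hdne
    rw [hρp] at h3
    linarith
  · intro z hz z' hz'
    obtain ⟨v, hv, -, hv2⟩ := e1 z hz
    obtain ⟨v', hv', -, hv2'⟩ := e1 z' hz'
    rw [hv2, hv2']
    rw [mem_ball_zero_iff] at hv hv'
    have h1 : ‖v - v'‖ ≤ 2 * s := by
      have := norm_sub_le v v'
      linarith
    refine h1.trans ?_
    have h2 : (2 * s) ^ d ≤ (C * ρ) ^ d := by
      rw [mul_pow, mul_pow, hρp]
      have h3 : s ^ d = s ^ (d - 1) * s := by rw [← pow_succ, hd1]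
      rw [h3, hsp]
      have h4 : C ≤ C ^ d := le_self_pow₀ hC1' hdne
      have h5 : (2 : ℝ) ^ d * 2 ^ d * C0 ≤ C * e := by
        rw [hC, div_mul_cancel₀ _ he.ne', ← mul_pow]
        have : (2 * 2 : ℝ) ^ d ≤ 8 ^ d := pow_le_pow_left₀ (by norm_num) (by norm_num) _
        gcongr
      calc 2 ^ d * (2 ^ d * C0 * m * s) = (2 ^ d * 2 ^ d * C0) * (m * s) := by ring
        _ ≤ (C * e) * (m * s) := by gcongr
        _ ≤ (C ^ d * e) * (m * s) := by gcongr
        _ = C ^ d * (e * s * m) := by ring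
    exact (pow_le_pow_iff_left₀ (by positivity) (by positivity) hdne).1 h2

end Pool.Agent.V1186.CN
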