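import Mathlib
import Pool.Agent.V1186.CN.Rn3

/-!
# The superattracting parameters close to a parameter with a Lyapunov exponent are renormalizable with
universal bounds
-/

set_option autoImplicit false

open Set Filter Metric MeasureTheory Topology

namespace Pool.Agent.V1186.CN

open Pool.Agent.TH279.MD Pool.Agent.Y298.SH Pool.Agent.Y298.SH.CD Pool.Agent.Y298.CA

variable {d : ℕ} {χ : ℝ} {c₀ : ℂ}

/-- the iterates are Lipschitz along orbits in the disc of radius two -/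
theorem iter_lip (hd : 2 ≤ d) {c x y : ℂ} (hx : ∀ i, ‖(f d c)^[i] x‖ ≤ 2)
    (hy : ∀ i, ‖(f d c)^[i] y‖ ≤ 2) (i : ℕ) :
    ‖(f d c)^[i] x - (f d c)^[i] y‖ ≤ ((d : ℝ) * 2 ^ (d - 1)) ^ i * ‖x - y‖ := by
  induction i with
  | zero => simp
  | succ i ih =>
    rw [Function.iterate_succ_apply', Function.iterate_succ_apply']
    have h1 : f d c ((f d c)^[i] x) - f d c ((f d c)^[i] y) =
        ((f d c)^[i] x) ^ d - ((f d c)^[i] y) ^ d := by
      show ((f d c)^[i] x) ^ d + c - (((f d c)^[i] y) ^ d + c) = _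
      ring
    rw [h1]
    have h2 := pow_lip d (hx i) (hy i)
    calc ‖((f d c)^[i] x) ^ d - ((f d c)^[i] y) ^ d‖ ≤
        d * 2 ^ (d - 1) * ‖(f d c)^[i] x - (f d c)^[i] y‖ := h2
      _ ≤ d * 2 ^ (d - 1) * (((d : ℝ) * 2 ^ (d - 1)) ^ i * ‖x - y‖) := by gcongr
      _ = _ := by ring

/-- lower bounds at the superattracting parameters -/
theorem centre_low (hd : 2 ≤ d) (h : Lyap d χ c₀) : ∃ δ κ₁ κ₃ : ℝ, 0 < δ ∧ 0 < κ₁ ∧
    κ₃ + κ₁ * d < χ ∧ ∀ᶠ q : ℕ in atTop, ∀ c' : ℂ, zz d c' q = 0 →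
      ‖c' - c₀‖ ≤ Real.exp (-(χ - δ) * ((q + 1 : ℕ) : ℝ)) →
      (∀ k < q, Real.exp (-κ₁ * ((q + 1 : ℕ) : ℝ)) ≤ ‖zz d c' k‖) ∧
      Real.exp ((χ - κ₃) * ((q + 1 : ℕ) : ℝ)) ≤ Pd d c' q := by
  obtain ⟨⟨C₁, lam, hc⟩, hC⟩ := Pool.Agent.Y674.CA.lya d χ c₀ hd h
  have hχ : 0 < χ := h.1
  have hdR : (2 : ℝ) ≤ d := by exact_mod_cast hd
  have hd0 : (0 : ℝ) < d := by linarith
  have hl := hc.lam1
  have hC1 := hc.C1
  set S : ℝ := C₁ * lam / (lam - 1) with hS
  have hS0 : 0 < S := by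
    have : 0 < lam - 1 := by linarith
    have : 0 < C₁ := by linarith
    positivity
  obtain ⟨ν, r₀, c₁, hν, hr₀, hc₁, HR⟩ := recurK hd h (K := 1) le_rfl (ε := 1 / 2) (by norm_num)
    (by norm_num)
  set L : ℝ := (d : ℝ) * 2 ^ (d - 1) with hLdef
  have hL1 : 1 < L := by
    have : (1 : ℝ) ≤ 2 ^ (d - 1) := one_le_pow₀ (by norm_num)
    rw [hLdef]
    nlinarith
  have hℓ : 0 < Real.log L := Real.log_pos hL1
  set A : ℝ := Real.log L + χ with hA
  have hA0 : 0 < A := by positivity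
  have hAχ : χ ≤ A := by rw [hA]; linarith
  set τ : ℝ := χ / (8 * d * A) with hτ
  have hτ0 : 0 < τ := by positivity
  have hτA : 8 * d * A * τ = χ := by rw [hτ]; field_simp
  have hτ16 : τ ≤ 1 / 16 := by
    rw [hτ, div_le_iff₀ (by positivity)]
    nlinarith
  set δ : ℝ := χ * τ / 4 with hδ
  have hδ0 : 0 < δ := by positivity
  set κ₁ : ℝ := 2 * A * τ with hκ₁
  have hκ₁0 : 0 < κ₁ := by positivity
  set κ₂ : ℝ := 2 * d * κ₁ with hκ₂
  have hκ₂0 : 0 < κ₂ := by positivity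
  set κ₃ : ℝ := 2 * χ * τ + κ₂ with hκ₃
  have hκ₂χ : κ₂ = χ / 2 := by
    rw [hκ₂, hκ₁]
    linarith
  obtain ⟨C, hC1', hCb⟩ := hC δ hδ0
  have hC0 : 0 < C := by linarith
  refine ⟨δ, κ₁, κ₃, hδ0, hκ₁0, ?_, ?_⟩
  · have h1 : κ₁ * d = χ / 4 := by rw [hκ₁]; linarith
    rw [h1, hκ₃, hκ₂χ]
    nlinarith
  -- the thresholds
  have ev : ∀ a b : ℝ, 0 < a → ∀ᶠ q : ℕ in atTop, b < a * ((q + 1 : ℕ) : ℝ) := fun a b ha =>
    (tendsto_add_atTop_nat 1).eventually (ev_lin a b ha)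
  have hfl : Tendsto (fun q : ℕ => ⌊(1 - τ) * ((q + 1 : ℕ) : ℝ)⌋₊) atTop atTop := by
    refine tendsto_nat_floor_atTop.comp ?_
    exact (tendsto_natCast_atTop_atTop.comp (tendsto_add_atTop_nat 1)).const_mul_atTop
      (by linarith)
  have e0 := hfl.eventually (lyap_sum hd h (ε := δ) hδ0 (Real.log (Real.exp 1 * S * d)))
  filter_upwards [e0, ev (χ * τ / 2) (χ + δ) (by positivity), ev τ 2 hτ0,
    ev (A * τ) (Real.log (2 * C)) (by positivity), ev κ₂ (-Real.log r₀) hκ₂0,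
    ev (3 / 4 * (χ * τ)) (Real.log (C * d / c₁)) (by positivity)]
    with q h0 h1 h2 h3 h4 h5 c' hzq hc'
  set n : ℝ := ((q + 1 : ℕ) : ℝ) with hn
  have hn0 : 0 < n := by rw [hn]; positivity
  have hnq : n = q + 1 := by rw [hn]; push_cast; ring
  set m : ℕ := ⌊(1 - τ) * n⌋₊ with hm
  have hm1 : (m : ℝ) ≤ (1 - τ) * n := Nat.floor_le (by
    have : 0 ≤ 1 - τ := by linarith
    positivity)
  have hm2 : (1 - τ) * n < m + 1 := Nat.lt_floor_add_one _
  -- the comparison with the orbit of `c₀`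
  have hsum := sum_pos' hc m
  have hT : Real.exp 1 * S * ‖c' - c₀‖ *
      ∑ j ∈ Finset.range (m + 1), Pd d c₀ j / ‖zz d c₀ j‖ ≤ 1 / d := by
    have h6 : Real.exp 1 * S * d * ∑ j ∈ Finset.range (m + 1), Pd d c₀ j / ‖zz d c₀ j‖ ≤
        Real.exp ((χ + δ) * (m + 1)) := by
      rw [← Real.log_mul (by positivity) hsum.ne'] at h0
      exact (Real.log_le_iff_le_exp (by positivity)).1 h0
    have h7 : (χ + δ) * (m + 1) ≤ (χ - δ) * n := by
      have h8 : (χ + δ) * m ≤ (χ + δ) * ((1 - τ) * n) := by gcongr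
      have h9 : (χ + δ) * ((1 - τ) * n) ≤ (χ - 3 / 4 * (χ * τ)) * n := by
        have h10 : (χ + δ) * (1 - τ) ≤ χ - 3 / 4 * (χ * τ) := by
          rw [hδ]
          nlinarith [mul_pos hχ hτ0, mul_pos (mul_pos hχ hτ0) hτ0]
        calc (χ + δ) * ((1 - τ) * n) = (χ + δ) * (1 - τ) * n := by ring
          _ ≤ _ := by gcongr
      have h11 : (χ - δ) * n = (χ - 3 / 4 * (χ * τ)) * n + χ * τ / 2 * n := by
        rw [hδ]
        ring
      rw [h11]
      nlinarith
    rw [le_div_iff₀ hd0]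
    calc Real.exp 1 * S * ‖c' - c₀‖ *
        (∑ j ∈ Finset.range (m + 1), Pd d c₀ j / ‖zz d c₀ j‖) * d =
        ‖c' - c₀‖ * (Real.exp 1 * S * d *
          ∑ j ∈ Finset.range (m + 1), Pd d c₀ j / ‖zz d c₀ j‖) := by ring
      _ ≤ Real.exp (-(χ - δ) * n) * Real.exp ((χ + δ) * (m + 1)) := by gcongr
      _ ≤ Real.exp (-(χ - δ) * n) * Real.exp ((χ - δ) * n) := by gcongr
      _ = 1 := by
        rw [← Real.exp_add, neg_mul, neg_add_cancel, Real.exp_zero]
  have hcmp := orbit_cmp hd (fun j _ => hc.Pd_pos j) (fun j _ => hc.zz_ne j)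
    (sum_inv_le hc (m + 1)) hT
  have hPcmp := Pd_cmp hd hS0.le (fun j _ => hc.Pd_pos j) (fun j _ => hc.zz_ne j)
    (sum_inv_le hc (m + 1)) hT
  have h1d : (1 : ℝ) / d ≤ 1 / 2 := one_div_le_one_div_of_le (by norm_num) hdR
  have hearly : ∀ j ≤ m, Real.exp (-(δ * j)) / (2 * C) ≤ ‖zz d c' j‖ := by
    intro j hj
    have hz0 : 0 < ‖zz d c₀ j‖ := norm_pos_iff.2 (hc.zz_ne j)
    have h6 : Real.exp 1 * S * ‖c' - c₀‖ * (Pd d c₀ j / ‖zz d c₀ j‖) ≤ 1 / 2 := by
      refine le_trans ?_ (hT.trans h1d)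
      refine mul_le_mul_of_nonneg_left ?_ (by positivity)
      exact Finset.single_le_sum (f := fun j => Pd d c₀ j / ‖zz d c₀ j‖)
        (fun i _ => div_nonneg (Pd_nonneg d c₀ i) (norm_nonneg _)) (Finset.mem_range.2 (by omega))
    have h7 : ‖zz d c' j - zz d c₀ j‖ ≤ 1 / 2 * ‖zz d c₀ j‖ := by
      refine (hcmp j hj).trans ?_
      calc Real.exp 1 * S * ‖c' - c₀‖ * Pd d c₀ j =
          Real.exp 1 * S * ‖c' - c₀‖ * (Pd d c₀ j / ‖zz d c₀ j‖) * ‖zz d c₀ j‖ := by
            field_simp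
        _ ≤ _ := by gcongr
    have h8 : ‖zz d c₀ j‖ ≤ ‖zz d c' j‖ + ‖zz d c' j - zz d c₀ j‖ := by
      calc ‖zz d c₀ j‖ = ‖zz d c' j - (zz d c' j - zz d c₀ j)‖ := by congr 1; ring
        _ ≤ _ := norm_sub_le _ _
    obtain ⟨-, -, h9⟩ := hCb j
    have h10 : Real.exp (-(δ * j)) / (2 * C) ≤ 1 / 2 * ‖zz d c₀ j‖ := by
      rw [div_le_iff₀ (by positivity)]
      calc Real.exp (-(δ * j)) = Real.exp (-(δ * j)) * 1 := (mul_one _).symm
        _ ≤ Real.exp (-(δ * j)) * (C * Real.exp (δ * j) * ‖zz d c₀ j‖) := by gcongr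
        _ = (Real.exp (-(δ * j)) * Real.exp (δ * j)) * (C * ‖zz d c₀ j‖) := by ring
        _ = C * ‖zz d c₀ j‖ := by rw [← Real.exp_add, neg_add_cancel, Real.exp_zero, one_mul]
        _ = _ := by ring
    linarith
  -- the critical orbit is bounded
  have hmul : c' ∈ N62a1eb23.multibrotSet d := by
    refine centre_mem hd (n := q + 1) (by omega) ?_
    rw [← zz_eq_P hd]
    exact hzq
  have hb2 : ∀ j, ‖zz d c' j‖ ≤ 2 := by
    intro j
    have h6 := (Pool.Agent.H712R2.mem_multibrot_iff hd c').mp hmul (j + 1)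
    rwa [← zz_eq_P hd] at h6
  have hzit : ∀ k i, (f d c')^[i] (zz d c' k) = zz d c' (i + k) := by
    intro k i
    unfold zz
    rw [← Function.iterate_add_apply]
  have h2C : 2 * C < Real.exp (A * τ * n) := by
    rw [← Real.log_lt_iff_lt_exp (by positivity)]
    exact h3
  have hMq : m + 1 ≤ q := by
    have h6 : (m : ℝ) + 2 < q + 1 := by
      rw [← hnq]
      nlinarith
    have h7 : m + 2 < q + 1 := by exact_mod_cast h6
    omega
  -- the lower bound of the critical orbit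
  have hA1 : ∀ x : ℝ, x ≤ A * τ * n → Real.exp (-κ₁ * n) ≤ Real.exp (-x) / (2 * C) := by
    intro x hx
    rw [le_div_iff₀ (by positivity)]
    calc Real.exp (-κ₁ * n) * (2 * C) ≤ Real.exp (-κ₁ * n) * Real.exp (A * τ * n) := by gcongr
      _ = Real.exp (-(A * τ * n)) := by
        rw [← Real.exp_add]
        congr 1
        rw [hκ₁]
        ring
      _ ≤ Real.exp (-x) := Real.exp_le_exp.2 (by linarith)
  have hlow : ∀ k < q, Real.exp (-κ₁ * n) ≤ ‖zz d c' k‖ := by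
    intro k hk
    rcases le_or_gt k m with hkm | hkm
    · refine (hA1 (δ * k) ?_).trans (hearly k hkm)
      have h6 : (k : ℝ) ≤ n := by
        rw [hnq]
        have : (k : ℝ) < q := by exact_mod_cast hk
        linarith
      have h7 : δ ≤ A * τ := by
        rw [hδ]
        nlinarith
      calc δ * k ≤ A * τ * n := by gcongr
        _ = _ := rfl
    · obtain ⟨i, hi⟩ : ∃ i, q = (i + 1) + k := ⟨q - k - 1, by omega⟩
      have hin : ((i : ℝ) + 1) ≤ τ * n := by
        have h6 : (q : ℝ) = (i + 1) + k := by exact_mod_cast hi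
        have h7 : (m : ℝ) + 1 ≤ k := by exact_mod_cast hkm
        nlinarith
      have him : i ≤ m := by
        have h6 : (i : ℝ) < m + 1 := by
          nlinarith
        have h7 : i < m + 1 := by exact_mod_cast h6
        omega
      have h6 := hearly i him
      have h7 : (f d c')^[i + 1] 0 = zz d c' i := iter_zero hd c' i
      have h8 : (f d c')^[i + 1] (zz d c' k) = 0 := by
        rw [hzit, ← hi]
        exact hzq
      have h9 : ∀ j, ‖(f d c')^[j] 0‖ ≤ 2 := by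
        intro j
        rcases j with _ | j
        · simp
        · rw [iter_zero hd]
          exact hb2 j
      have h10 := iter_lip hd (c := c') (x := 0) (y := zz d c' k) h9
        (fun j => by rw [hzit]; exact hb2 _) (i + 1)
      rw [h7, h8, sub_zero, zero_sub, norm_neg] at h10
      have h11 : ((d : ℝ) * 2 ^ (d - 1)) ^ (i + 1) = Real.exp (Real.log L * (i + 1)) := by
        rw [show Real.log L * ((i : ℝ) + 1) = ((i + 1 : ℕ) : ℝ) * Real.log L by push_cast; ring,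
          Real.exp_nat_mul, Real.exp_log (by linarith)]
      rw [h11] at h10
      have hi0 : (0 : ℝ) ≤ i := Nat.cast_nonneg i
      have hδχ : δ ≤ χ := by
        rw [hδ]
        nlinarith
      have h12 : δ * i + Real.log L * (i + 1) ≤ A * τ * n := by
        have h13 : δ * i ≤ χ * (i + 1) := by nlinarith
        have h14 : A * (i + 1) ≤ A * (τ * n) := by gcongr
        have h15 : A * ((i : ℝ) + 1) = Real.log L * (i + 1) + χ * (i + 1) := by
          rw [hA]
          ring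
        linarith
      refine (hA1 _ h12).trans ?_
      have h13 : Real.exp (-(δ * i + Real.log L * (i + 1))) / (2 * C) =
          Real.exp (-(Real.log L * (i + 1))) * (Real.exp (-(δ * i)) / (2 * C)) := by
        rw [neg_add, Real.exp_add]
        ring
      rw [h13]
      calc Real.exp (-(Real.log L * (i + 1))) * (Real.exp (-(δ * i)) / (2 * C)) ≤
          Real.exp (-(Real.log L * (i + 1))) * (Real.exp (Real.log L * (i + 1)) * ‖zz d c' k‖) := by
            gcongr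
            exact h6.trans h10
        _ = (Real.exp (-(Real.log L * (i + 1))) * Real.exp (Real.log L * (i + 1))) *
            ‖zz d c' k‖ := by ring
        _ = ‖zz d c' k‖ := by rw [← Real.exp_add, neg_add_cancel, Real.exp_zero, one_mul]
  refine ⟨hlow, ?_⟩
  -- the late part of the orbit
  set r : ℝ := Real.exp (-(κ₂ * n)) with hr
  have hr0 : 0 < r := Real.exp_pos _
  have hrr : r ≤ r₀ := by
    rw [hr, ← Real.le_log_iff_exp_le hr₀]
    linarith
  have hδ2 : δ ≤ χ / 2 := by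
    rw [hδ]
    nlinarith
  have hcr : ‖c' - c₀‖ ≤ r := by
    refine hc'.trans (Real.exp_le_exp.2 ?_)
    rw [hκ₂χ]
    nlinarith
  have hnear : Near d c₀ (f d c') (1 * r) := by
    rw [one_mul]
    have hnu : Near d c₀ (f d c') ‖c' - c₀‖ := near_uni
    exact ⟨hnu.1, fun w hw => (hnu.2 w hw).trans hcr⟩
  obtain ⟨K, hK⟩ : ∃ K, q = (m + 1) + K := ⟨q - (m + 1), by omega⟩
  have hlate := HR (f d c') r hr0 hrr hnear (zz d c' (m + 1))
    (fun i => by rw [hzit]; exact (hb2 _).trans (by norm_num)) K (fun i hi => by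
      rw [hzit]
      have h6 := hlow (i + (m + 1)) (by omega)
      have h7 : Real.exp (-κ₁ * n) ^ (d - 1) ≤ ‖zz d c' (i + (m + 1))‖ ^ (d - 1) :=
        pow_le_pow_left₀ (Real.exp_pos _).le h6 _
      refine le_trans ?_ h7
      rw [hr, ← Real.exp_mul, ← Real.exp_nat_mul, Nat.cast_sub (by omega), Nat.cast_one]
      apply Real.exp_le_exp.2
      rw [hκ₂]
      have h8 : 0 < κ₁ * n := by positivity
      nlinarith)
  have hlate' : c₁ * r ≤ ‖mu (f d c') (zz d c' (m + 1)) K‖ := by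
    refine le_trans ?_ hlate
    have h6 : (1 : ℝ) ≤ Real.exp (ν * K) := Real.one_le_exp (by positivity)
    have h7 : 0 < c₁ * r := by positivity
    nlinarith
  have hPq : Pd d c' q = Pd d c' (m + 1) * ‖mu (f d c') (zz d c' (m + 1)) K‖ := by
    have h6 : ∀ j, Pd d c' j = ‖mu (f d c') c' j‖ := fun j => by
      rw [mu_f]
      rfl
    rw [h6 q, h6 (m + 1), hK, mu_add, norm_mul]
    rfl
  obtain ⟨h6, -, -⟩ := hCb (m + 1)
  have h7 : C * d / c₁ < Real.exp (3 / 4 * (χ * τ) * n) := by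
    rw [← Real.log_lt_iff_lt_exp (by positivity)]
    exact h5
  have h8 : (χ - 5 / 4 * (χ * τ)) * n ≤ (χ - δ) * ((m + 1 : ℕ) : ℝ) := by
    push_cast
    have h9 : (χ - δ) * ((1 - τ) * n) ≤ (χ - δ) * (m + 1) := by
      have : 0 ≤ χ - δ := by linarith
      gcongr
    have h10 : χ - 5 / 4 * (χ * τ) ≤ (χ - δ) * (1 - τ) := by
      rw [hδ]
      nlinarith [mul_pos (mul_pos hχ hτ0) hτ0]
    calc (χ - 5 / 4 * (χ * τ)) * n ≤ (χ - δ) * (1 - τ) * n := by gcongr
      _ = (χ - δ) * ((1 - τ) * n) := by ring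
      _ ≤ _ := h9
  have h9 : Real.exp ((χ - 5 / 4 * (χ * τ)) * n) ≤ C * d * Pd d c' (m + 1) := by
    calc Real.exp ((χ - 5 / 4 * (χ * τ)) * n) ≤ Real.exp ((χ - δ) * ((m + 1 : ℕ) : ℝ)) :=
          Real.exp_le_exp.2 h8
      _ ≤ C * Pd d c₀ (m + 1) := h6
      _ ≤ C * (d * Pd d c' (m + 1)) := by gcongr
      _ = _ := by ring
  rw [div_lt_iff₀ hc₁] at h7
  have h10 : Real.exp ((χ - κ₃) * n) * (C * d) ≤ Pd d c' q * (C * d) := by
    calc Real.exp ((χ - κ₃) * n) * (C * d) ≤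
        Real.exp ((χ - κ₃) * n) * (Real.exp (3 / 4 * (χ * τ) * n) * c₁) := by gcongr
      _ = (Real.exp ((χ - κ₃) * n) * Real.exp (3 / 4 * (χ * τ) * n)) * c₁ := by ring
      _ = (Real.exp ((χ - 5 / 4 * (χ * τ)) * n) * r) * c₁ := by
        rw [hr, ← Real.exp_add, ← Real.exp_add]
        congr 2
        rw [hκ₃]
        ring
      _ ≤ (C * d * Pd d c' (m + 1) * r) * c₁ := by gcongr
      _ = Pd d c' (m + 1) * (c₁ * r) * (C * d) := by ring
      _ ≤ Pd d c' (m + 1) * ‖mu (f d c') (zz d c' (m + 1)) K‖ * (C * d) := by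
        have : 0 ≤ Pd d c' (m + 1) := Pd_nonneg d c' (m + 1)
        gcongr
      _ = Pd d c' q * (C * d) := by rw [hPq]
  exact le_of_mul_le_mul_right h10 (by positivity)

end Pool.Agent.V1186.CN
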