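import Mathlib
import Pool.Agent.V1186.CN.Rn4

/-!
# Renormalizable parameters close to a parameter with a Lyapunov exponent
-/

set_option autoImplicit false

open Set Filter Metric MeasureTheory Topology

namespace Pool.Agent.V1186.CN

open Pool.Agent.TH279.MD Pool.Agent.Y298.SH Pool.Agent.Y298.SH.CD Pool.Agent.Y298.CA
open Pool.Agent.H712R2 (P)

variable {d : ℕ} {χ : ℝ} {c₀ : ℂ}

/-- `z ^ d + c` is renormalizable of period `p` with bounds `C`. -/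
def RenB (d : ℕ) (C : ℝ) (c : ℂ) (p : ℕ) : Prop :=
  ∃ (U : Set ℂ) (ρ : ℝ), (IsOpen U ∧ Bornology.IsBounded U ∧ closure U ⊆ (f d c)^[p] '' U ∧
      (∀ K ⊆ (f d c)^[p] '' U, IsCompact K → IsCompact {z | z ∈ U ∧ (f d c)^[p] z ∈ K}) ∧
      (∀ w ∈ (f d c)^[p] '' U, {z | z ∈ U ∧ (f d c)^[p] z = w}.encard ≤ d)) ∧ 0 < ρ ∧
      (∀ n : ℕ, ball ((f d c)^[n * p] 0) ρ ⊆ U) ∧
      ∀ z ∈ U, ∀ z' ∈ U, ‖(f d c)^[p] z - (f d c)^[p] z'‖ ≤ C * ρ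

/-- the superattracting parameters close to `c₀` are renormalizable with universal bounds -/
theorem centre_ren (hd : 2 ≤ d) : ∃ C : ℝ, 1 ≤ C ∧ ∀ (χ : ℝ) (c₀ : ℂ), Lyap d χ c₀ →
    ∃ δ : ℝ, 0 < δ ∧ ∀ᶠ p : ℕ in atTop, ∀ c' : ℂ, (f d c')^[p] 0 = 0 →
      ‖c' - c₀‖ ≤ Real.exp (-(χ - δ) * p) → RenB d C c' p := by
  obtain ⟨C, hC1, H⟩ := ren_centre (d := d) hd
  refine ⟨C, hC1, fun χ c₀ h => ?_⟩
  have hχ : 0 < χ := h.1
  obtain ⟨δ, κ₁, κ₃, hδ, hκ₁, hκ, HL⟩ := centre_low hd h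
  refine ⟨δ, hδ, ?_⟩
  have hd0 : (0 : ℝ) < d := by exact_mod_cast (by omega : 0 < d)
  have e1 : ∀ᶠ q : ℕ in atTop, Real.log C < (χ - (κ₃ + κ₁ * d)) * ((q + 1 : ℕ) : ℝ) :=
    (tendsto_add_atTop_nat 1).eventually (ev_lin _ _ (by linarith))
  obtain ⟨N, hN⟩ := eventually_atTop.1 (HL.and e1)
  filter_upwards [eventually_ge_atTop (N + 1)] with p hp c' hc' hdist
  obtain ⟨q, rfl⟩ : ∃ q, p = q + 1 := ⟨p - 1, by omega⟩
  obtain ⟨h1, h2⟩ := hN q (by omega)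
  have hzq : zz d c' q = 0 := by
    rw [← iter_zero hd]
    exact hc'
  obtain ⟨h3, h4⟩ := h1 c' hzq hdist
  refine H c' q (Real.exp (-κ₁ * ((q + 1 : ℕ) : ℝ))) (Real.exp_pos _) hzq h3
    (lt_of_lt_of_le (Real.exp_pos _) h4) ?_
  have hC0 : 0 < C := by linarith
  have h5 : C < Real.exp ((χ - (κ₃ + κ₁ * d)) * ((q + 1 : ℕ) : ℝ)) := by
    rw [← Real.log_lt_iff_lt_exp hC0]
    exact h2
  have h6 : Real.exp (-κ₁ * ((q + 1 : ℕ) : ℝ)) ^ (d - 1) =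
      Real.exp (-(κ₁ * ((d : ℝ) - 1)) * ((q + 1 : ℕ) : ℝ)) := by
    rw [← Real.exp_nat_mul, Nat.cast_sub (by omega), Nat.cast_one]
    congr 1
    ring
  rw [h6]
  calc C ≤ Real.exp ((χ - (κ₃ + κ₁ * d)) * ((q + 1 : ℕ) : ℝ)) := h5.le
    _ ≤ Real.exp ((χ - κ₃) * ((q + 1 : ℕ) : ℝ) + -(κ₁ * ((d : ℝ) - 1)) * ((q + 1 : ℕ) : ℝ)) := by
      apply Real.exp_le_exp.2
      have : 0 ≤ κ₁ * ((q + 1 : ℕ) : ℝ) := by positivity
      nlinarith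
    _ = Real.exp ((χ - κ₃) * ((q + 1 : ℕ) : ℝ)) *
        Real.exp (-(κ₁ * ((d : ℝ) - 1)) * ((q + 1 : ℕ) : ℝ)) := Real.exp_add _ _
    _ ≤ _ := by gcongr

/-- existence of renormalizable parameters close to `c₀` -/
theorem ren_ex (hd : 2 ≤ d) : ∃ C : ℝ, 1 ≤ C ∧ ∀ (χ : ℝ) (c₀ : ℂ), Lyap d χ c₀ →
    ∀ ε : ℝ, 0 < ε → ∀ᶠ n : ℕ in atTop, ∃ (p : ℕ) (c : ℂ), (p = n ∨ p = n + 1) ∧
      (f d c)^[p] 0 = 0 ∧ RenB d C c p ∧ ‖c - c₀‖ ≤ Real.exp (-(χ - ε) * p) := by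
  obtain ⟨C, hC1, H⟩ := centre_ren (d := d) hd
  refine ⟨C, hC1, fun χ c₀ h ε hε => ?_⟩
  have hχ : 0 < χ := h.1
  obtain ⟨δ, hδ, HR⟩ := H χ c₀ h
  have hmin : 0 < min (min δ ε) χ := by positivity
  filter_upwards [siz_ex hd h hmin, HR, (tendsto_add_atTop_nat 1).eventually HR] with n h1 h2 h3
  obtain ⟨c', hc', hdist⟩ := h1
  have hm1 : min (min δ ε) χ ≤ δ := (min_le_left _ _).trans (min_le_left _ _)
  have hm2 : min (min δ ε) χ ≤ ε := (min_le_left _ _).trans (min_le_right _ _)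
  have hm3 : min (min δ ε) χ ≤ χ := min_le_right _ _
  have key : ∀ (p : ℕ) (x : ℝ), (p : ℝ) ≤ (n : ℝ) + 1 → min (min δ ε) χ ≤ x →
      ‖c' - c₀‖ ≤ Real.exp (-(χ - x) * p) := by
    intro p x hp hx
    refine hdist.trans (Real.exp_le_exp.2 ?_)
    have hp0 : (0 : ℝ) ≤ p := Nat.cast_nonneg p
    have h4 : (χ - x) * p ≤ (χ - min (min δ ε) χ) * p := by gcongr
    have h5 : (χ - min (min δ ε) χ) * p ≤ (χ - min (min δ ε) χ) * ((n : ℝ) + 1) := by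
      have : 0 ≤ χ - min (min δ ε) χ := by linarith
      gcongr
    linarith
  rcases hc' with hc' | hc'
  · have hper : (f d c')^[n] 0 = 0 := hc'
    exact ⟨n, c', Or.inl rfl, hper, h2 c' hper (key n δ (by linarith) hm1),
      key n ε (by linarith) hm2⟩
  · have hper : (f d c')^[n + 1] 0 = 0 := hc'
    exact ⟨n + 1, c', Or.inr rfl, hper, h3 c' hper (key (n + 1) δ (by push_cast; exact le_rfl) hm1),
      key (n + 1) ε (by push_cast; exact le_rfl) hm2⟩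

end Pool.Agent.V1186.CN
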