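import Mathlib
import Pool.Agent.V1186.CN.Cnt2

/-!
# Counting superattracting parameters in small discs: the lower bound
-/

set_option autoImplicit false

open Set Filter Metric MeasureTheory Topology

namespace Pool.Agent.V1186.CN

open Pool.Agent.TH279.MD Pool.Agent.Y298.SH Pool.Agent.Y298.SH.CD Pool.Agent.Y298.CA
open Pool.Agent.H712R2 (P P_succ)

variable {d : ℕ} {c₀ : ℂ} {R : ℝ} {m : ℕ}

theorem root_dist (hd : 2 ≤ d) {ζ : ℂ} (h1 : ζ ^ d = 1) (hne : ζ ≠ 1) : 1 ≤ d * ‖1 - ζ‖ := by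
  have hdR : (0 : ℝ) < d := by
    have : 0 < d := by omega
    exact_mod_cast this
  have hn : ‖ζ‖ = 1 := by
    have h2 : ‖ζ‖ ^ d = 1 := by rw [← norm_pow, h1, norm_one]
    exact (pow_eq_one_iff_of_nonneg (norm_nonneg _) (by omega)).1 h2
  have h3 : ∑ i ∈ Finset.range d, ζ ^ i = 0 := by
    have h4 := mul_neg_geom_sum ζ d
    rw [h1, sub_self] at h4
    exact (mul_eq_zero.1 h4).resolve_left (sub_ne_zero.2 hne.symm)
  have h5 : ∀ i : ℕ, ‖1 - ζ ^ i‖ ≤ i * ‖1 - ζ‖ := by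
    intro i
    rw [← mul_neg_geom_sum ζ i, norm_mul, mul_comm]
    refine mul_le_mul_of_nonneg_right ?_ (norm_nonneg _)
    refine (norm_sum_le _ _).trans ?_
    simp [hn]
  have h6 : (d : ℂ) = ∑ i ∈ Finset.range d, (1 - ζ ^ i) := by
    rw [Finset.sum_sub_distrib, h3, Finset.sum_const, Finset.card_range, nsmul_eq_mul]
    ring
  have h7 : (d : ℝ) ≤ d * (d * ‖1 - ζ‖) := by
    calc (d : ℝ) = ‖(d : ℂ)‖ := by rw [Complex.norm_natCast]
      _ ≤ ∑ i ∈ Finset.range d, ‖1 - ζ ^ i‖ := by rw [h6]; exact norm_sum_le _ _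
      _ ≤ ∑ i ∈ Finset.range d, d * ‖1 - ζ‖ := by
          refine Finset.sum_le_sum fun i hi => (h5 i).trans ?_
          rw [Finset.mem_range] at hi
          have : (i : ℝ) ≤ d := by exact_mod_cast hi.le
          gcongr
      _ = _ := by rw [Finset.sum_const, Finset.card_range, nsmul_eq_mul]
  by_contra hcon
  push Not at hcon
  have : d * (d * ‖1 - ζ‖) < d * 1 := mul_lt_mul_of_pos_left hcon hdR
  linarith

/-- the map is injective near the critical value -/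
theorem inj_near (hd : 2 ≤ d) {ε : ℝ} (hε : ε ≤ ‖c₀‖ / (4 * d)) {y y' : ℂ}
    (hy : ‖y - c₀‖ < ε) (hy' : ‖y' - c₀‖ < ε) (h : y ^ d = y' ^ d) : y = y' := by
  have hdR : (2 : ℝ) ≤ d := by exact_mod_cast hd
  have hε0 : 0 < ε := (norm_nonneg _).trans_lt hy
  have hc0 : 0 < ‖c₀‖ := by
    by_contra hcon
    have h1 : ‖c₀‖ = 0 := le_antisymm (not_lt.1 hcon) (norm_nonneg _)
    rw [h1, zero_div] at hε
    linarith
  by_contra hne
  have h1 : ‖c₀‖ / (4 * d) ≤ ‖c₀‖ / 8 := by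
    apply div_le_div_of_nonneg_left hc0.le (by norm_num)
    linarith
  have hy0 : 3 / 4 * ‖c₀‖ ≤ ‖y‖ := by
    have h2 : ‖c₀‖ ≤ ‖y‖ + ‖y - c₀‖ := by
      calc ‖c₀‖ = ‖y - (y - c₀)‖ := by congr 1; ring
        _ ≤ _ := norm_sub_le _ _
    linarith
  have hy0' : y ≠ 0 := by
    rintro rfl
    rw [norm_zero] at hy0
    linarith
  have h2 : (y' / y) ^ d = 1 := by
    rw [div_pow, h, div_self]
    rw [← h]
    exact pow_ne_zero _ hy0'
  have h3 : y' / y ≠ 1 := by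
    intro h4
    rw [div_eq_one_iff_eq hy0'] at h4
    exact hne h4.symm
  have h4 := root_dist hd h2 h3
  have h5 : ‖1 - y' / y‖ * ‖y‖ = ‖y - y'‖ := by
    rw [← norm_mul]
    congr 1
    field_simp
  have h6 : ‖y - y'‖ < 2 * ε := by
    calc ‖y - y'‖ = ‖(y - c₀) - (y' - c₀)‖ := by congr 1; ring
      _ ≤ ‖y - c₀‖ + ‖y' - c₀‖ := norm_sub_le _ _
      _ < 2 * ε := by linarith
  have h7 : ‖y‖ ≤ d * ‖y - y'‖ := by
    rw [← h5]
    calc ‖y‖ = 1 * ‖y‖ := (one_mul _).symm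
      _ ≤ (d * ‖1 - y' / y‖) * ‖y‖ := by gcongr
      _ = _ := by ring
  have h8 : d * (2 * ε) ≤ ‖c₀‖ / 2 := by
    calc d * (2 * ε) ≤ d * (2 * (‖c₀‖ / (4 * d))) := by gcongr
      _ = _ := by field_simp; norm_num
  have h9 : d * ‖y - y'‖ ≤ d * (2 * ε) := by gcongr
  linarith

/-- few preimages of the critical point are near the critical point -/
theorem small_card (hd : 2 ≤ d) {ε : ℝ} (hε1 : ε ≤ 1) (hε : ε ≤ ‖c₀‖ / (4 * d)) (m : ℕ) :
    ({w : ℂ | w ∈ Fm d c₀ (m + 2) ∧ ‖w‖ < ε} : Set ℂ).ncard ≤ d ^ (m + 1) := by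
  set Y : Set ℂ := {y | y ∈ Fm d c₀ (m + 1) ∧ ‖y - c₀‖ < ε} with hY
  have hYf : Y.Finite := (Fm_card hd c₀ (m + 1)).1.subset fun y hy => hy.1
  obtain ⟨h1, h2⟩ := pre_le hd c₀ hYf
  have h3 : ({w : ℂ | w ∈ Fm d c₀ (m + 2) ∧ ‖w‖ < ε} : Set ℂ) ⊆ {x : ℂ | x ^ d + c₀ ∈ Y} := by
    rintro w ⟨hw, hwε⟩
    rw [Fm_succ] at hw
    refine ⟨hw, ?_⟩
    rw [add_sub_cancel_right, norm_pow]
    refine lt_of_le_of_lt ?_ hwε
    calc ‖w‖ ^ d ≤ ‖w‖ ^ 1 := pow_le_pow_of_le_one (norm_nonneg _) (by linarith) (by omega)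
      _ = ‖w‖ := pow_one _
  have h4 : Y.ncard ≤ d ^ m := by
    refine le_trans ?_ (Fm_card hd c₀ m).2
    refine Set.ncard_le_ncard_of_injOn (fun y => y ^ d + c₀) ?_ ?_ (Fm_card hd c₀ m).1
    · rintro y ⟨hy, -⟩
      rw [Fm_succ] at hy
      exact hy
    · rintro y ⟨-, hy⟩ y' ⟨-, hy'⟩ heq
      exact inj_near hd hε hy hy' (add_right_cancel heq)
  calc _ ≤ ({x : ℂ | x ^ d + c₀ ∈ Y} : Set ℂ).ncard := Set.ncard_le_ncard h3 h1
    _ ≤ d * Y.ncard := h2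
    _ ≤ d * d ^ m := Nat.mul_le_mul_left _ h4
    _ = d ^ (m + 1) := by rw [pow_succ, mul_comm]

/-- rotation of a branch -/
theorem Br_rot {ω : ℂ} (hω : ω ^ d = 1) {b : ℂ → ℂ} (hd : 2 ≤ d) (hb : b ∈ Br d c₀ R (m + 1)) :
    (fun c => ω * b c) ∈ Br d c₀ R (m + 1) := by
  have hω0 : ω ≠ 0 := by
    rintro rfl
    rw [zero_pow (by omega)] at hω
    exact zero_ne_one hω
  refine ⟨hb.1.const_mul ω, fun c hc => ?_⟩
  obtain ⟨h1, h2⟩ := hb.2 c hc
  have h3 : f d c (ω * b c) = f d c (b c) := by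
    show (ω * b c) ^ d + c = b c ^ d + c
    rw [mul_pow, hω, one_mul]
  refine ⟨?_, fun j hj => ?_⟩
  · rw [Function.iterate_succ_apply, h3, ← Function.iterate_succ_apply]
    exact h1
  · rcases j with _ | j
    · exact mul_ne_zero hω0 (h2 0 hj)
    · rw [Function.iterate_succ_apply, h3, ← Function.iterate_succ_apply]
      exact h2 _ hj

/-- points far away do not come to zero -/
theorem far_iter (hd : 2 ≤ d) {c x : ℂ} (hc : ‖c‖ ≤ 3) (hx : 4 < ‖x‖) (j : ℕ) :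
    4 < ‖(f d c)^[j] x‖ := by
  induction j with
  | zero => exact hx
  | succ j ih =>
    rw [Function.iterate_succ_apply']
    set y := (f d c)^[j] x
    show 4 < ‖y ^ d + c‖
    have h1 : ‖y‖ ^ d ≤ ‖y ^ d + c‖ + ‖c‖ := by
      calc ‖y‖ ^ d = ‖(y ^ d + c) - c‖ := by rw [add_sub_cancel_right, norm_pow]
        _ ≤ _ := norm_sub_le _ _
    have h2 : ‖y‖ ^ 2 ≤ ‖y‖ ^ d := pow_le_pow_right₀ (by linarith) hd
    nlinarith

/-- **Two branches: one of them is attained.** -/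
theorem pair (hd : 2 ≤ d) {δ : ℝ} (hδ : 0 < δ) (ω : ℂ) (hω : ω ^ d = 1) (hω1 : ω ≠ 1) :
    ∃ K : ℝ, 0 < K ∧ ∀ (c₀ : ℂ) (R : ℝ) (N m : ℕ) (b : ℂ → ℂ), ‖c₀‖ ≤ 2 → 0 < R → R ≤ 1 →
      ‖zz d c₀ N‖ ≤ 2 → b ∈ Br d c₀ R (m + 1) → 2 * δ ≤ ‖b c₀‖ →
      K ≤ ‖deriv (fun c => zz d c N) c₀‖ * (δ * R / 9) → δ ≤ 9 →
      ∃ c ∈ ball c₀ (δ * R / 9), zz d c N = b c ∨ zz d c N = ω * b c := by
  have hw0 : 0 < ‖ω - 1‖ := norm_pos_iff.2 (sub_ne_zero.2 hω1)
  have hωn : ‖ω‖ = 1 := by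
    have h2 : ‖ω‖ ^ d = 1 := by rw [← norm_pow, hω, norm_one]
    exact (pow_eq_one_iff_of_nonneg (norm_nonneg _) (by omega)).1 h2
  obtain ⟨C', hC'⟩ := Pool.Agent.Lev.J_schottky.main ((1 / δ + 1) / ‖ω - 1‖)
  set D : ℝ := max C' 0 with hD
  have hD0 : 0 ≤ D := le_max_right _ _
  refine ⟨16 * (1 + 2 * D) + 1, by positivity, ?_⟩
  intro c₀ R N m b hc₀ hR hR1 hN hb hbδ hK hδ9
  by_contra hcon
  push Not at hcon
  set r : ℝ := δ * R / 9 with hr
  have hr0 : 0 < r := by positivity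
  have hrR : r ≤ R := by
    rw [hr, div_le_iff₀ (by norm_num)]
    nlinarith
  have hc₀m : c₀ ∈ ball c₀ R := mem_ball_self hR
  have hb4 : ∀ c ∈ ball c₀ R, ‖b c‖ ≤ 4 := by
    intro c hc
    by_contra h4
    push Not at h4
    have h5 : ‖c‖ ≤ 3 := by
      rw [mem_ball_iff_norm] at hc
      have h6 : ‖c‖ ≤ ‖c₀‖ + ‖c - c₀‖ := by
        calc ‖c‖ = ‖c₀ + (c - c₀)‖ := by congr 1; ring
          _ ≤ _ := norm_add_le _ _
      linarith
    have h6 := far_iter hd h5 h4 (m + 1)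
    rw [(hb.2 c hc).1, norm_zero] at h6
    linarith
  have hmaps : MapsTo b (ball c₀ R) (ball (b c₀) 9) := by
    intro c hc
    rw [mem_ball_iff_norm]
    refine (norm_sub_le _ _).trans_lt ?_
    have h1 := hb4 c hc
    have h2 := hb4 c₀ hc₀m
    linarith
  have hsub : ball c₀ r ⊆ ball c₀ R := ball_subset_ball hrR
  have hbl : ∀ c ∈ ball c₀ r, δ ≤ ‖b c‖ := by
    intro c hc
    have h1 := Complex.dist_le_div_mul_dist_of_mapsTo_ball hb.1 (fun x hx => ball_subset_closedBall (hmaps hx)) (hsub hc)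
    rw [mem_ball] at hc
    have h2 : 9 / R * dist c c₀ ≤ δ := by
      calc 9 / R * dist c c₀ ≤ 9 / R * r := by gcongr
        _ = δ := by rw [hr]; field_simp
    rw [dist_eq_norm] at h1
    have h3 : ‖b c₀‖ ≤ ‖b c‖ + ‖b c - b c₀‖ := by
      calc ‖b c₀‖ = ‖b c - (b c - b c₀)‖ := by congr 1; ring
        _ ≤ _ := norm_sub_le _ _
    linarith
  have hb0 : ∀ c ∈ ball c₀ r, b c ≠ 0 := fun c hc h0 => by
    have := hbl c hc
    rw [h0, norm_zero] at this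
    linarith
  set G : ℂ → ℂ := fun c => (zz d c N / b c - 1) / (ω - 1) with hG
  have hGd : DifferentiableOn ℂ G (ball c₀ r) :=
    (((differentiable_zz d N).differentiableOn.div (hb.1.mono hsub) hb0).sub_const 1).div_const _
  have hG01 : ∀ c ∈ ball c₀ r, G c ≠ 0 ∧ G c ≠ 1 := by
    intro c hc
    obtain ⟨h1, h2⟩ := hcon c hc
    have hw : ω - 1 ≠ 0 := sub_ne_zero.2 hω1
    refine ⟨?_, ?_⟩
    · apply div_ne_zero _ hw
      rw [sub_ne_zero]
      intro h3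
      rw [div_eq_one_iff_eq (hb0 c hc)] at h3
      exact h1 h3
    · intro h3
      apply h2
      have h4 : (zz d c N / b c - 1) / (ω - 1) = 1 := h3
      rw [div_eq_one_iff_eq hw, sub_left_inj, div_eq_iff (hb0 c hc)] at h4
      exact h4
  have hGM : ‖G c₀‖ ≤ (1 / δ + 1) / ‖ω - 1‖ := by
    show ‖(zz d c₀ N / b c₀ - 1) / (ω - 1)‖ ≤ _
    rw [norm_div]
    refine div_le_div_of_nonneg_right ?_ hw0.le
    refine (norm_sub_le _ _).trans ?_
    rw [norm_one, norm_div]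
    have h1 : ‖zz d c₀ N‖ / ‖b c₀‖ ≤ 2 / (2 * δ) := by gcongr
    have h2 : 2 / (2 * δ) = 1 / δ := by field_simp
    rw [h2] at h1
    linarith
  have hbd := hC' G c₀ r hr0 hGd hG01 hGM
  have hzz : ∀ c ∈ ball c₀ (r / 2), ‖zz d c N‖ ≤ 4 * (1 + 2 * D) := by
    intro c hc
    have hc' : c ∈ ball c₀ r := ball_subset_ball (by linarith) hc
    have h1 : zz d c N = b c * (1 + (ω - 1) * G c) := by
      show zz d c N = b c * (1 + (ω - 1) * ((zz d c N / b c - 1) / (ω - 1)))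
      rw [mul_div_cancel₀ _ (sub_ne_zero.2 hω1)]
      have := hb0 c hc'
      field_simp
      ring
    rw [h1, norm_mul]
    have h2 : ‖(1 : ℂ) + (ω - 1) * G c‖ ≤ 1 + 2 * D := by
      refine (norm_add_le _ _).trans ?_
      rw [norm_one, norm_mul]
      have h3 : ‖ω - 1‖ ≤ 2 := by
        refine (norm_sub_le _ _).trans ?_
        rw [hωn, norm_one]
        norm_num
      have h4 : ‖G c‖ ≤ D := (hbd c hc).trans (le_max_left _ _)
      gcongr
    have h3 := hb4 c (hsub hc')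
    gcongr
  have hder : ‖deriv (fun c => zz d c N) c₀‖ ≤ 4 * (1 + 2 * D) / (r / 4) := by
    apply Complex.norm_deriv_le_of_forall_mem_sphere_norm_le (by positivity)
    · exact (differentiable_zz d N).diffContOnCl
    · intro z hz
      apply hzz
      rw [mem_sphere] at hz
      rw [mem_ball, hz]
      linarith
  have h1 : ‖deriv (fun c => zz d c N) c₀‖ * r ≤ 16 * (1 + 2 * D) := by
    calc ‖deriv (fun c => zz d c N) c₀‖ * r ≤ 4 * (1 + 2 * D) / (r / 4) * r := by gcongr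
      _ = _ := by field_simp; ring
  linarith

theorem zz_add (d : ℕ) (c : ℂ) (N j : ℕ) : zz d c (N + j) = (f d c)^[j] (zz d c N) := by
  show (f d c)^[N + j] c = (f d c)^[j] ((f d c)^[N] c)
  rw [add_comm, Function.iterate_add_apply]

/-- **The number of the branches is bounded by the number of the zeros.** -/
theorem count_low (hd : 2 ≤ d) {δ : ℝ} (hδ : 0 < δ) (hδ1 : 2 * δ ≤ 1) (hδc : 2 * δ ≤ ‖c₀‖ / (4 * d))
    (hc₀ : ‖c₀‖ ≤ 2) :
    ∃ K : ℝ, 0 < K ∧ ∀ (R : ℝ) (N m : ℕ), 0 < R → R ≤ 1 → ‖zz d c₀ N‖ ≤ 2 →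
      (zs d c₀ (δ * R / 9) (N + (m + 2))).Finite →
      K ≤ ‖deriv (fun c => zz d c N) c₀‖ * (δ * R / 9) →
      (Gm d c₀ R (m + 2)).ncard ≤ 2 * (zs d c₀ (δ * R / 9) (N + (m + 2))).ncard + d ^ (m + 1) := by
  classical
  have hprim := Complex.isPrimitiveRoot_exp d (by omega)
  set ω : ℂ := Complex.exp (2 * Real.pi * Complex.I / d) with hωdef
  have hω : ω ^ d = 1 := hprim.pow_eq_one
  have hω1 : ω ≠ 1 := hprim.ne_one (by omega)
  have hω0 : ω ≠ 0 := by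
    intro h0
    rw [h0, zero_pow (by omega)] at hω
    exact zero_ne_one hω
  have hωn : ‖ω‖ = 1 := by
    have h2 : ‖ω‖ ^ d = 1 := by rw [← norm_pow, hω, norm_one]
    exact (pow_eq_one_iff_of_nonneg (norm_nonneg _) (by omega)).1 h2
  obtain ⟨K, hK0, hK⟩ := pair hd hδ ω hω hω1
  refine ⟨K, hK0, ?_⟩
  intro R N m hR hR1 hN hfin hKR
  set r : ℝ := δ * R / 9 with hr
  have hrR : r ≤ R := by
    rw [hr, div_le_iff₀ (by norm_num)]
    nlinarith
  have hGfin := Gm_fin (d := d) (c₀ := c₀) (m := m + 2) hd hR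
  set G' : Set ℂ := {w | w ∈ Gm d c₀ R (m + 2) ∧ 2 * δ ≤ ‖w‖} with hG'
  set A : Set ℂ := {w | w ∈ G' ∧ ∃ b ∈ Br d c₀ R (m + 2), b c₀ = w ∧ ∃ c ∈ ball c₀ r,
    zz d c N = b c} with hA
  have hG'f : G'.Finite := hGfin.subset fun w hw => hw.1
  have hAf : A.Finite := hG'f.subset fun w hw => hw.1
  -- the attained ones
  have hA1 : A.ncard ≤ (zs d c₀ r (N + (m + 2))).ncard := by
    have hex : ∀ w ∈ A, ∃ c : ℂ, c ∈ ball c₀ r ∧ ∃ b ∈ Br d c₀ R (m + 2), b c₀ = w ∧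
        zz d c N = b c := by
      rintro w ⟨-, b, hb, hw, c, hc, h⟩
      exact ⟨c, hc, b, hb, hw, h⟩
    choose! φ hφ using hex
    refine Set.ncard_le_ncard_of_injOn φ ?_ ?_ hfin
    · intro w hw
      obtain ⟨h3, b, hb, -, h4⟩ := hφ w hw
      refine ⟨h3, ?_⟩
      rw [zz_add, h4]
      exact (hb.2 _ (ball_subset_ball hrR h3)).1
    · intro w hw w' hw' heq
      obtain ⟨h3, b, hb, hbw, h4⟩ := hφ w hw
      obtain ⟨h3', b', hb', hbw', h4'⟩ := hφ w' hw'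
      have h5 : b (φ w) = b' (φ w) := by
        rw [← h4]
        rw [← heq] at h4'
        exact h4'
      have h6 := Br_uniq hd (m + 2) b b' hb hb' (φ w) (ball_subset_ball hrR h3) h5 (mem_ball_self hR)
      rw [← hbw, ← hbw', h6]
  -- the others
  have hA2 : (G' \ A).ncard ≤ A.ncard := by
    refine Set.ncard_le_ncard_of_injOn (fun w => ω * w) ?_ ?_ hAf
    · rintro w ⟨⟨⟨b, hb, hw⟩, hwδ⟩, hna⟩
      simp only at hw
      have hwδ' : 2 * δ ≤ ‖b c₀‖ := by rw [hw]; exact hwδ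
      obtain ⟨c, hc, h⟩ := hK c₀ R N (m + 1) b hc₀ hR hR1 hN hb hwδ' hKR (by linarith)
      have h1 : zz d c N ≠ b c := by
        intro h2
        exact hna ⟨⟨⟨b, hb, hw⟩, hwδ⟩, b, hb, hw, c, hc, h2⟩
      have h3 := h.resolve_left h1
      have h4 := Br_rot hω hd hb
      refine ⟨⟨⟨_, h4, ?_⟩, ?_⟩, _, h4, ?_, c, hc, h3⟩
      · show ω * b c₀ = ω * w
        rw [hw]
      · show 2 * δ ≤ ‖ω * w‖
        rw [norm_mul, hωn, one_mul]
        exact hwδ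
      · show ω * b c₀ = ω * w
        rw [hw]
    · intro w _ w' _ heq
      exact mul_left_cancel₀ hω0 heq
  have hAG : A ⊆ G' := fun w hw => hw.1
  have h1 : G'.ncard = (G' \ A).ncard + A.ncard :=
    (Set.ncard_sdiff_add_ncard_of_subset hAG hG'f).symm
  have h2 := small_card hd hδ1 hδc m
  have h3 : (Gm d c₀ R (m + 2)).ncard ≤ G'.ncard +
      ({w : ℂ | w ∈ Fm d c₀ (m + 2) ∧ ‖w‖ < 2 * δ} : Set ℂ).ncard := by
    refine le_trans (Set.ncard_le_ncard ?_ ?_) (Set.ncard_union_le _ _)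
    · intro w hw
      by_cases hwδ : 2 * δ ≤ ‖w‖
      · exact Or.inl ⟨hw, hwδ⟩
      · exact Or.inr ⟨Gm_sub hR hw, not_le.1 hwδ⟩
    · exact hG'f.union ((Fm_card hd c₀ (m + 2)).1.subset fun w hw => hw.1)
  omega

end Pool.Agent.V1186.CN
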