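import Mathlib
import Pool.Agent.V1186.CN.Cnt3

/-!
# Counting superattracting parameters in small discs about a Lyapunov parameter
-/

set_option autoImplicit false

open Set Filter Metric MeasureTheory Topology

namespace Pool.Agent.V1186.CN

open Pool.Agent.TH279.MD Pool.Agent.Y298.SH Pool.Agent.Y298.SH.CD Pool.Agent.Y298.CA
open Pool.Agent.H712R2 (P P_succ)

variable {d : ℕ} {χ : ℝ} {c₀ : ℂ}

/-- the critical orbits of the parameters near `c₀` -/
theorem orbit_bd (hd : 2 ≤ d) (h : Lyap d χ c₀) {ε : ℝ} (hε : 0 < ε) (hε1 : ε < 1) :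
    ∃ l₀ : ℝ, 0 < l₀ ∧ ∀ l : ℝ, l₀ ≤ l → ∀ c : ℂ, ‖c - c₀‖ ≤ Real.exp (-l) →
      ∀ k : ℕ, (k : ℝ) ≤ (1 - ε) * l / χ → zz d c k ≠ 0 ∧ ‖zz d c k‖ ≤ 3 := by
  obtain ⟨⟨C₁, lam, hc⟩, hlya⟩ := Pool.Agent.Y674.CA.lya d χ c₀ hd h
  have hχ : 0 < χ := h.1
  have hdR : (2 : ℝ) ≤ d := by exact_mod_cast hd
  have hl1 := hc.lam1
  have hC₁ := hc.C1
  set S : ℝ := C₁ * lam / (lam - 1) with hS
  have hlm : 0 < lam - 1 := by linarith
  have hlam0 : 0 < lam := by linarith
  have hC₁0 : 0 < C₁ := by linarith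
  have hS0 : 0 < S := by positivity
  set ε₂ : ℝ := ε * χ / 8 with hε₂
  have hε₂0 : 0 < ε₂ := by positivity
  obtain ⟨C, hC1, hC⟩ := hlya ε₂ hε₂0
  have hC0 : 0 < C := by linarith
  have t1 := ev_exp (1 / χ * C ^ 2) (C ^ 2) (ε / 2) (1 / (d * (Real.exp 1 * S))) (by positivity)
    (by positivity)
  obtain ⟨l₀, hl₀⟩ := eventually_atTop.mp t1
  refine ⟨max l₀ 1, by positivity, ?_⟩
  intro l hl c hcc k hk
  have s1 := hl₀ l ((le_max_left _ _).trans hl)
  have hl0 : 1 ≤ l := (le_max_right _ _).trans hl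
  set s : ℝ := Real.exp (-l) with hs
  have hs0 : 0 < s := Real.exp_pos _
  have hkl : (k : ℝ) ≤ l / χ := by
    refine hk.trans ?_
    rw [div_le_div_iff_of_pos_right hχ]
    nlinarith
  have hkl' : ((k : ℝ) + 1) ≤ 1 / χ * l + 1 := by
    have : l / χ = 1 / χ * l := by ring
    linarith
  have hterm : ∀ j ≤ k, s * (Pd d c₀ j / ‖zz d c₀ j‖) ≤ C ^ 2 * Real.exp (-(ε / 2) * l) := by
    intro j hj
    obtain ⟨-, g2, g3⟩ := hC j
    have hz0 : 0 < ‖zz d c₀ j‖ := norm_pos_iff.2 (hc.zz_ne j)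
    have h17 : 1 / ‖zz d c₀ j‖ ≤ C * Real.exp (ε₂ * j) := by
      rw [div_le_iff₀ hz0]
      exact g3
    have hjl : (j : ℝ) ≤ (1 - ε) * l / χ := le_trans (by exact_mod_cast hj) hk
    have hexp : -l + (χ + 2 * ε₂) * j ≤ -(ε / 2) * l := by
      have h1 : (χ + 2 * ε₂) * j ≤ (χ + 2 * ε₂) * ((1 - ε) * l / χ) := by gcongr
      have h2 : (χ + 2 * ε₂) * ((1 - ε) * l / χ) = (1 - ε) * l + 2 * (ε₂ / χ) * ((1 - ε) * l) := by
        field_simp
      have h3 : ε₂ / χ ≤ ε / 8 := by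
        rw [div_le_iff₀ hχ]
        linarith
      have h4 : 0 ≤ (1 - ε) * l := mul_nonneg (by linarith) (by linarith)
      have h5 : 2 * (ε₂ / χ) * ((1 - ε) * l) ≤ 2 * (ε / 8) * ((1 - ε) * l) := by gcongr
      have h6 : (1 - ε) * l ≤ l := by nlinarith
      have h7 : 2 * (ε / 8) * ((1 - ε) * l) ≤ 2 * (ε / 8) * l := by gcongr
      nlinarith
    calc s * (Pd d c₀ j / ‖zz d c₀ j‖) = s * (Pd d c₀ j * (1 / ‖zz d c₀ j‖)) := by ring
      _ ≤ s * ((C * Real.exp ((χ + ε₂) * j)) * (C * Real.exp (ε₂ * j))) := by gcongr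
      _ = C ^ 2 * Real.exp (-l + (χ + 2 * ε₂) * j) := by
        rw [hs]
        rw [show Real.exp (-l) * ((C * Real.exp ((χ + ε₂) * j)) * (C * Real.exp (ε₂ * j))) =
          C ^ 2 * (Real.exp (-l) * (Real.exp ((χ + ε₂) * j) * Real.exp (ε₂ * j))) by ring,
          ← Real.exp_add, ← Real.exp_add]
        congr 2
        ring
      _ ≤ _ := by gcongr
  set T : ℝ := ∑ j ∈ Finset.range (k + 1), Pd d c₀ j / ‖zz d c₀ j‖ with hT
  have hT0 : 0 ≤ T := Finset.sum_nonneg fun i _ => div_nonneg (Pd_nonneg d c₀ i) (norm_nonneg _)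
  have hTs : Real.exp 1 * S * s * T ≤ 1 / d := by
    have h1 : s * T ≤ (1 / χ * l + 1) * (C ^ 2 * Real.exp (-(ε / 2) * l)) := by
      rw [hT, Finset.mul_sum]
      refine (Finset.sum_le_sum fun j hj => hterm j (by rw [Finset.mem_range] at hj; omega)).trans ?_
      rw [Finset.sum_const, Finset.card_range, nsmul_eq_mul]
      push_cast
      gcongr
    have h2 : (1 / χ * l + 1) * (C ^ 2 * Real.exp (-(ε / 2) * l)) =
        (1 / χ * C ^ 2 * l + C ^ 2) * Real.exp (-(ε / 2) * l) := by ring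
    rw [h2] at h1
    calc Real.exp 1 * S * s * T = (Real.exp 1 * S) * (s * T) := by ring
      _ ≤ (Real.exp 1 * S) * (1 / (d * (Real.exp 1 * S))) := by
        have := h1.trans s1.le
        gcongr
      _ = 1 / d := by
        field_simp
  have hTc : Real.exp 1 * S * ‖c - c₀‖ * T ≤ 1 / d := by
    refine le_trans ?_ hTs
    gcongr
  have hcmp := orbit_cmp hd (fun j _ => hc.Pd_pos j) (fun j _ => hc.zz_ne j)
    (sum_inv_le hc (k + 1)) hTc k le_rfl
  have hz0 : 0 < ‖zz d c₀ k‖ := norm_pos_iff.2 (hc.zz_ne k)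
  have h1 : Real.exp 1 * S * ‖c - c₀‖ * Pd d c₀ k ≤ ‖zz d c₀ k‖ / 2 := by
    have h2 : Pd d c₀ k / ‖zz d c₀ k‖ ≤ T :=
      Finset.single_le_sum (f := fun j => Pd d c₀ j / ‖zz d c₀ j‖)
        (fun i _ => div_nonneg (Pd_nonneg d c₀ i) (norm_nonneg _)) (Finset.mem_range.2 (by omega))
    have h3 : Real.exp 1 * S * ‖c - c₀‖ * (Pd d c₀ k / ‖zz d c₀ k‖) ≤ 1 / d := by
      refine le_trans ?_ hTc
      gcongr
    have h4 : (1 : ℝ) / d ≤ 1 / 2 := one_div_le_one_div_of_le (by norm_num) hdR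
    have h5 : Real.exp 1 * S * ‖c - c₀‖ * Pd d c₀ k / ‖zz d c₀ k‖ ≤ 1 / 2 := by
      rw [mul_div_assoc]
      linarith
    rw [div_le_iff₀ hz0] at h5
    linarith
  have h2 := hcmp.trans h1
  have h3 := hc.bd k
  refine ⟨?_, ?_⟩
  · intro h0
    rw [h0, zero_sub, norm_neg] at h2
    linarith
  · have h4 : ‖zz d c k‖ ≤ ‖zz d c k - zz d c₀ k‖ + ‖zz d c₀ k‖ := by
      simpa using norm_add_le (zz d c k - zz d c₀ k) (zz d c₀ k)
    linarith

/-- **The upper bound.** -/
theorem count_up (hd : 2 ≤ d) (h : Lyap d χ c₀) {ε : ℝ} (hε : 0 < ε) (hε1 : ε < 1) :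
    ∃ l₀ : ℝ, 0 < l₀ ∧ ∀ l : ℝ, l₀ ≤ l → ∀ j : ℕ, (zs d c₀ (Real.exp (-l)) j).Finite ∧
      ((zs d c₀ (Real.exp (-l)) j).ncard : ℝ) ≤
        (d : ℝ) ^ j * Real.exp (-((1 - ε) * (Real.log d / χ) * l)) := by
  obtain ⟨⟨C₁, lam, hc⟩, hlya⟩ := Pool.Agent.Y674.CA.lya d χ c₀ hd h
  have hχ : 0 < χ := h.1
  have hdR : (2 : ℝ) ≤ d := by exact_mod_cast hd
  have hd0 : (0 : ℝ) < d := by linarith
  have hlogd : 0 < Real.log d := Real.log_pos (by linarith)
  set D : ℝ := Real.log d / χ with hD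
  have hD0 : 0 < D := by positivity
  obtain ⟨C, hC1, hC⟩ := hlya 1 one_pos
  have hC0 : 0 < C := by linarith
  obtain ⟨l₁, hl₁0, hl₁⟩ := orbit_bd hd h (ε := ε / 2) (by positivity) (by linarith)
  have t1 := ev_exp 0 (10 * Real.exp (D * Real.log 3 + Real.log d)) (ε / 2 * D) 1 (by positivity)
    one_pos
  have t2 := ev_exp (4 * (1 / χ)) (4 * (Real.log C + 1)) (ε / 4 * D) 1 (by positivity) one_pos
  have t3 := ev_exp 0 (Real.exp (D * Real.log 3 + Real.log d)) (ε / 4 * D) 1 (by positivity) one_pos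
  obtain ⟨l₂, hl₂⟩ := eventually_atTop.mp (t1.and (t2.and t3))
  have hlog3 : 0 < Real.log 3 := Real.log_pos (by norm_num)
  refine ⟨max (l₁ + Real.log 3) l₂, lt_max_of_lt_left (by linarith), ?_⟩
  intro l hl j
  obtain ⟨s1, s2, s3⟩ := hl₂ l ((le_max_right _ _).trans hl)
  have hl3 : l₁ ≤ l - Real.log 3 := by
    have := (le_max_left _ _).trans hl
    linarith
  have hl0 : 0 < l - Real.log 3 := by linarith
  have hr0 : 0 < Real.exp (-l) := Real.exp_pos _
  have h3r : 3 * Real.exp (-l) = Real.exp (-(l - Real.log 3)) := by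
    rw [neg_sub, sub_eq_add_neg, Real.exp_add, Real.exp_log (by norm_num)]
  set k : ℕ := ⌊(1 - ε / 2) * (l - Real.log 3) / χ⌋₊ with hk
  have hk0 : 0 ≤ (1 - ε / 2) * (l - Real.log 3) / χ := by
    apply div_nonneg _ hχ.le
    apply mul_nonneg (by linarith) hl0.le
  have hkle : (k : ℝ) ≤ (1 - ε / 2) * (l - Real.log 3) / χ := Nat.floor_le hk0
  have hkge : (1 - ε / 2) * (l - Real.log 3) / χ - 1 < k := by
    have := Nat.lt_floor_add_one ((1 - ε / 2) * (l - Real.log 3) / χ)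
    linarith
  have hb : ∀ c, ‖c - c₀‖ ≤ 3 * Real.exp (-l) → ∀ i ≤ k, zz d c i ≠ 0 ∧ ‖zz d c i‖ ≤ 3 := by
    intro c hcc i hi
    rw [h3r] at hcc
    exact hl₁ _ hl3 c hcc i (le_trans (by exact_mod_cast hi) hkle)
  have hb' : ∀ c, ‖c - c₀‖ ≤ 3 * Real.exp (-l) → ‖c‖ ≤ 3 ∧ ‖zz d c k‖ ≤ 4 := by
    intro c hcc
    have h1 := (hb c hcc 0 (Nat.zero_le _)).2
    have h2 := (hb c hcc k le_rfl).2
    exact ⟨h1, by linarith⟩
  rcases lt_or_ge j k with hjk | hkj
  · have h1 : zs d c₀ (Real.exp (-l)) j = ∅ := by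
      rw [Set.eq_empty_iff_forall_notMem]
      rintro c ⟨hc1, hc2⟩
      rw [mem_ball_iff_norm] at hc1
      exact (hb c (by linarith) j hjk.le).1 hc2
    rw [h1, Set.ncard_empty, Nat.cast_zero]
    exact ⟨Set.finite_empty, by positivity⟩
  · have hz := hc.zz_ne j
    have hz0 : 0 < ‖zz d c₀ j‖ := norm_pos_iff.2 hz
    have hfin := (zs_fin (M := 8 ^ (d ^ (j - k))) hr0 hz (fun z hz' => by
      obtain ⟨h2, h3⟩ := hb' z hz'.le
      have h4 := grow_le hd h2 h3 (j - k)
      rw [Nat.add_sub_cancel' hkj] at h4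
      have : (0 : ℝ) ≤ 8 ^ (d ^ (j - k)) := by positivity
      linarith)).1
    refine ⟨hfin, (zs_le hd hr0 hb' hkj hz).trans ?_⟩
    obtain ⟨-, -, g3⟩ := hC j
    have h1 : -Real.log ‖zz d c₀ j‖ ≤ Real.log C + j := by
      have h2 := Real.log_le_log one_pos g3
      rw [Real.log_one, Real.log_mul (by positivity) hz0.ne',
        Real.log_mul hC0.ne' (Real.exp_ne_zero _), Real.log_exp] at h2
      linarith
    -- the size of `d ^ k`
    have hdk : Real.exp ((1 - ε / 2) * D * l - (D * Real.log 3 + Real.log d)) ≤ (d : ℝ) ^ k := by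
      rw [← Real.exp_log (pow_pos hd0 k), Real.log_pow, Real.exp_le_exp]
      have h2 : ((1 - ε / 2) * (l - Real.log 3) / χ - 1) * Real.log d ≤ k * Real.log d := by
        have := hkge.le
        gcongr
      have h3 : ((1 - ε / 2) * (l - Real.log 3) / χ - 1) * Real.log d =
          (1 - ε / 2) * D * l - ((1 - ε / 2) * D * Real.log 3 + Real.log d) := by
        rw [hD]
        field_simp
        ring
      have h4 : (1 - ε / 2) * D * Real.log 3 ≤ D * Real.log 3 := by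
        have : 0 ≤ ε / 2 * (D * Real.log 3) := by positivity
        nlinarith
      linarith
    set X : ℝ := (d : ℝ) ^ (j - k) with hX
    have hX1 : 1 ≤ X := one_le_pow₀ (by linarith)
    have hXj : (d : ℝ) ^ j = X * (d : ℝ) ^ k := by rw [hX, ← pow_add, Nat.sub_add_cancel hkj]
    have hXlin : ((j - k : ℕ) : ℝ) + 1 ≤ X := by
      have h2 : ((j - k : ℕ) : ℝ) + 1 ≤ 2 ^ (j - k) := by
        have : (j - k) + 1 ≤ 2 ^ (j - k) := Nat.lt_two_pow_self
        exact_mod_cast this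
      refine h2.trans ?_
      rw [hX]
      gcongr
    -- the factor
    set Y : ℝ := (d : ℝ) ^ k * Real.exp (-((1 - ε) * D * l)) with hY
    have hYl : Real.exp (ε / 2 * D * l) * Real.exp (-(D * Real.log 3 + Real.log d)) ≤ Y := by
      calc Real.exp (ε / 2 * D * l) * Real.exp (-(D * Real.log 3 + Real.log d)) =
          Real.exp ((1 - ε / 2) * D * l - (D * Real.log 3 + Real.log d)) *
            Real.exp (-((1 - ε) * D * l)) := by
            rw [← Real.exp_add, ← Real.exp_add]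
            congr 1
            ring
        _ ≤ Y := by rw [hY]; gcongr
    have hE : Real.exp (D * Real.log 3 + Real.log d) * Real.exp (-(D * Real.log 3 + Real.log d)) = 1 := by
      rw [← Real.exp_add, add_neg_cancel, Real.exp_zero]
    set E : ℝ := Real.exp (D * Real.log 3 + Real.log d) with hEdef
    have hE0 : 0 < E := Real.exp_pos _
    have hEi : Real.exp (-(D * Real.log 3 + Real.log d)) = 1 / E := by
      rw [hEdef, Real.exp_neg, one_div]
    rw [hEi] at hYl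
    have e1 : Real.exp (ε / 2 * D * l) * Real.exp (-(ε / 2 * D) * l) = 1 := by
      rw [← Real.exp_add]
      have : ε / 2 * D * l + -(ε / 2 * D) * l = 0 := by ring
      rw [this, Real.exp_zero]
    have e2 : Real.exp (ε / 4 * D * l) * Real.exp (-(ε / 4 * D) * l) = 1 := by
      rw [← Real.exp_add]
      have : ε / 4 * D * l + -(ε / 4 * D) * l = 0 := by ring
      rw [this, Real.exp_zero]
    have e3 : Real.exp (ε / 2 * D * l) = Real.exp (ε / 4 * D * l) * Real.exp (ε / 4 * D * l) := by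
      rw [← Real.exp_add]
      congr 1
      ring
    have hY10 : 10 ≤ Y := by
      have h2 : 10 * E ≤ Real.exp (ε / 2 * D * l) := by
        have h3 : 10 * E * Real.exp (-(ε / 2 * D) * l) < 1 := by linarith
        calc 10 * E = 10 * E * (Real.exp (ε / 2 * D * l) * Real.exp (-(ε / 2 * D) * l)) := by
              rw [e1, mul_one]
          _ = (10 * E * Real.exp (-(ε / 2 * D) * l)) * Real.exp (ε / 2 * D * l) := by ring
          _ ≤ 1 * Real.exp (ε / 2 * D * l) := by gcongr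
          _ = _ := one_mul _
      calc (10 : ℝ) = 10 * E * (1 / E) := by field_simp
        _ ≤ Real.exp (ε / 2 * D * l) * (1 / E) := by gcongr
        _ ≤ Y := hYl
    have hYb : 4 * (Real.log C + 1 + l / χ) ≤ Y := by
      have h2 : 4 * (Real.log C + 1 + l / χ) ≤ Real.exp (ε / 4 * D * l) := by
        have h3 : (4 * (1 / χ) * l + 4 * (Real.log C + 1)) * Real.exp (-(ε / 4 * D) * l) < 1 := s2
        calc 4 * (Real.log C + 1 + l / χ) = (4 * (1 / χ) * l + 4 * (Real.log C + 1)) *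
              (Real.exp (ε / 4 * D * l) * Real.exp (-(ε / 4 * D) * l)) := by
              rw [e2]
              ring
          _ = ((4 * (1 / χ) * l + 4 * (Real.log C + 1)) * Real.exp (-(ε / 4 * D) * l)) *
              Real.exp (ε / 4 * D * l) := by ring
          _ ≤ 1 * Real.exp (ε / 4 * D * l) := by gcongr
          _ = _ := one_mul _
      have h3 : E ≤ Real.exp (ε / 4 * D * l) := by
        have h4 : E * Real.exp (-(ε / 4 * D) * l) < 1 := by linarith
        calc E = E * (Real.exp (ε / 4 * D * l) * Real.exp (-(ε / 4 * D) * l)) := by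
              rw [e2, mul_one]
          _ = (E * Real.exp (-(ε / 4 * D) * l)) * Real.exp (ε / 4 * D * l) := by ring
          _ ≤ 1 * Real.exp (ε / 4 * D * l) := by gcongr
          _ = _ := one_mul _
      calc 4 * (Real.log C + 1 + l / χ) ≤ Real.exp (ε / 4 * D * l) := h2
        _ = Real.exp (ε / 4 * D * l) * (E * (1 / E)) := by field_simp
        _ ≤ Real.exp (ε / 4 * D * l) * (Real.exp (ε / 4 * D * l) * (1 / E)) := by gcongr
        _ = Real.exp (ε / 2 * D * l) * (1 / E) := by rw [e3]; ring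
        _ ≤ Y := hYl
    have hfinal : (d : ℝ) ^ j * Real.exp (-((1 - ε) * D * l)) = X * Y := by
      rw [hXj, hY]
      ring
    rw [hfinal]
    have hlogC : 0 ≤ Real.log C := Real.log_nonneg hC1
    have hjk : (j : ℝ) = ((j - k : ℕ) : ℝ) + k := by
      rw [Nat.cast_sub hkj]
      ring
    have hkl : (k : ℝ) ≤ l / χ := by
      refine hkle.trans ?_
      rw [div_le_div_iff_of_pos_right hχ]
      nlinarith
    have h5 : Real.log C + j ≤ X * (Y / 4) := by
      have h6 : Real.log C + j ≤ ((j - k : ℕ) : ℝ) + (Real.log C + 1 + l / χ) := by linarith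
      have h7 : 1 ≤ Real.log C + 1 + l / χ := by
        have : 0 ≤ l / χ := by
          apply div_nonneg _ hχ.le
          linarith
        linarith
      have h8 : ((j - k : ℕ) : ℝ) + (Real.log C + 1 + l / χ) ≤
          (((j - k : ℕ) : ℝ) + 1) * (Real.log C + 1 + l / χ) := by
        have : (0 : ℝ) ≤ ((j - k : ℕ) : ℝ) := Nat.cast_nonneg _
        nlinarith
      calc Real.log C + j ≤ (((j - k : ℕ) : ℝ) + 1) * (Real.log C + 1 + l / χ) := h6.trans h8
        _ ≤ X * (Y / 4) := by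
          gcongr
          linarith
    have h6 : 5 * X ≤ X * (Y / 2) := by nlinarith
    linarith

end Pool.Agent.V1186.CN
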