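import Mathlib
import Pool.Agent.V1186.CN.Cnt4

/-!
# Counting superattracting parameters in small discs about a Lyapunov parameter: the lower bound
-/

set_option autoImplicit false

open Set Filter Metric MeasureTheory Topology

namespace Pool.Agent.V1186.CN

open Pool.Agent.TH279.MD Pool.Agent.Y298.SH Pool.Agent.Y298.SH.CD Pool.Agent.Y298.CA
open Pool.Agent.H712R2 (P P_succ)

variable {d : ℕ} {χ : ℝ} {c₀ : ℂ}

/-- exponentials beat constants -/
theorem ev_ge (A a : ℝ) (ha : 0 < a) : ∀ᶠ l : ℝ in atTop, A ≤ Real.exp (a * l) := by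
  have h1 : Tendsto (fun l : ℝ => Real.exp (a * l)) atTop atTop :=
    Real.tendsto_exp_atTop.comp (tendsto_id.const_mul_atTop ha)
  exact h1.eventually_ge_atTop A

/-- **The lower bound.** -/
theorem count_lo (hd : 2 ≤ d) (h : Lyap d χ c₀) {ε : ℝ} (hε : 0 < ε) (hε1 : ε < 1) :
    ∃ l₀ : ℝ, 0 < l₀ ∧ ∀ l : ℝ, l₀ ≤ l → ∀ n : ℕ, (1 + ε) * l / χ ≤ n →
      (n : ℝ) ≤ Real.exp (Real.log d / χ / 2 * l) →
      (d : ℝ) ^ n * Real.exp (-((1 + ε) * (Real.log d / χ) * l)) ≤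
        (zs d c₀ (Real.exp (-l)) n).ncard := by
  obtain ⟨⟨C₁, lam, hc⟩, hlya⟩ := Pool.Agent.Y674.CA.lya d χ c₀ hd h
  have hχ : 0 < χ := h.1
  have hdR : (2 : ℝ) ≤ d := by exact_mod_cast hd
  have hd0 : (0 : ℝ) < d := by linarith
  have hlogd : 0 < Real.log d := Real.log_pos (by linarith)
  set D : ℝ := Real.log d / χ with hD
  have hD0 : 0 < D := by positivity
  have hc₀ : 0 < ‖c₀‖ := norm_pos_iff.2 (hc.zz_ne 0)
  have hc₀2 : ‖c₀‖ ≤ 2 := hc.bd 0
  set δ : ℝ := min (1 / 2) (‖c₀‖ / (8 * d)) with hδ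
  have hδ0 : 0 < δ := lt_min (by norm_num) (by positivity)
  have hδ1 : 2 * δ ≤ 1 := by
    have := min_le_left (1 / 2 : ℝ) (‖c₀‖ / (8 * d))
    linarith
  have hδc : 2 * δ ≤ ‖c₀‖ / (4 * d) := by
    have h1 := min_le_right (1 / 2 : ℝ) (‖c₀‖ / (8 * d))
    have h2 : ‖c₀‖ / (4 * d) = 2 * (‖c₀‖ / (8 * d)) := by
      field_simp
      norm_num
    linarith
  obtain ⟨K, hK0, hK⟩ := count_low (c₀ := c₀) hd hδ0 hδ1 hδc hc₀2
  obtain ⟨κ, ε₀, J, hκ, hε₀, hgrow⟩ := hc.grow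
  set ε₂ : ℝ := ε * χ / 8 with hε₂
  have hε₂0 : 0 < ε₂ := by positivity
  obtain ⟨C, hC1, hC⟩ := hlya ε₂ hε₂0
  have hC0 : 0 < C := by linarith
  obtain ⟨l₁, hl₁0, hl₁⟩ := count_up hd h (ε := 1 / 8) (by norm_num) (by norm_num)
  set L9 : ℝ := Real.log (9 / δ) with hL9
  have hL90 : 0 < L9 := by
    apply Real.log_pos
    rw [lt_div_iff₀ hδ0]
    linarith
  have t1 := ev_ge (K * C / κ) (ε / 4) (by positivity)
  have t2 := ev_ge (4 * Real.exp (7 / 8 * D * L9)) (3 / 8 * D) (by positivity)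
  have t3 := ev_ge (8 * d) (ε / 2 * D) (by positivity)
  obtain ⟨l₂, hl₂⟩ := eventually_atTop.mp (t1.and (t2.and t3))
  refine ⟨max (l₁ + L9) (max l₂ (max (J * χ) (6 * χ / ε))), lt_max_of_lt_left (by linarith), ?_⟩
  intro l hl n hn1 hn2
  have ha1 : l₁ + L9 ≤ l := (le_max_left _ _).trans hl
  have ha2 : l₂ ≤ l := (le_max_left _ _).trans ((le_max_right _ _).trans hl)
  have ha3 : J * χ ≤ l := (le_max_left _ _).trans ((le_max_right _ _).trans
    ((le_max_right _ _).trans hl))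
  have ha4 : 6 * χ / ε ≤ l := (le_max_right _ _).trans ((le_max_right _ _).trans
    ((le_max_right _ _).trans hl))
  obtain ⟨s1, s2, s3⟩ := hl₂ l ha2
  have hl0 : 0 < l := by linarith
  set l' : ℝ := l - L9 with hl'
  have hl'1 : l₁ ≤ l' := by linarith
  set R : ℝ := Real.exp (-l') with hR
  have hR0 : 0 < R := Real.exp_pos _
  have hR1 : R ≤ 1 := by
    rw [hR, Real.exp_le_one_iff]
    linarith
  have hrR : δ * R / 9 = Real.exp (-l) := by
    rw [hR, hl', neg_sub, sub_eq_add_neg, Real.exp_add, hL9, Real.exp_log (by positivity)]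
    field_simp
  have hup := hl₁ l' hl'1
  set N : ℕ := ⌈(1 + ε / 2) * l / χ⌉₊ with hN
  have hN1 : (1 + ε / 2) * l / χ ≤ N := Nat.le_ceil _
  have hN2 : (N : ℝ) < (1 + ε / 2) * l / χ + 1 := Nat.ceil_lt_add_one (by positivity)
  have hJN : J ≤ N := by
    have h1 : (J : ℝ) ≤ l / χ := by
      rw [le_div_iff₀ hχ]
      exact ha3
    have h2 : l / χ ≤ (1 + ε / 2) * l / χ := by
      rw [div_le_div_iff_of_pos_right hχ]
      nlinarith
    exact_mod_cast (h1.trans h2).trans hN1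
  have hgN := hgrow c₀ hc c₀ (by rw [sub_self, norm_zero]; exact hε₀.le) N hJN (fun j _ => by
    show Pd d c₀ j / 2 ≤ Pd d c₀ j
    linarith [Pd_nonneg d c₀ j])
  rw [P_succ_eq hd] at hgN
  have hPd : K ≤ κ * Pd d c₀ N * Real.exp (-l) := by
    obtain ⟨g1, -, -⟩ := hC N
    have h1 : l + ε / 4 * l ≤ (χ - ε₂) * N := by
      have h2 : (χ - ε₂) * ((1 + ε / 2) * l / χ) ≤ (χ - ε₂) * N := by
        apply mul_le_mul_of_nonneg_left hN1
        rw [hε₂]
        nlinarith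
      refine le_trans ?_ h2
      have h3 : (χ - ε₂) * ((1 + ε / 2) * l / χ) = (1 - ε / 8) * (1 + ε / 2) * l := by
        rw [hε₂]
        field_simp
      rw [h3]
      have h4 : 1 + ε / 4 ≤ (1 - ε / 8) * (1 + ε / 2) := by nlinarith
      nlinarith
    have h2 : Real.exp (l + ε / 4 * l) ≤ C * Pd d c₀ N := (Real.exp_le_exp.2 h1).trans g1
    rw [Real.exp_add] at h2
    have h3 : K * C / κ * Real.exp l ≤ C * Pd d c₀ N := by
      refine le_trans ?_ h2
      rw [mul_comm]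
      gcongr
    have h4 : K ≤ κ / C * (C * Pd d c₀ N) * Real.exp (-l) := by
      calc K = κ / C * (K * C / κ * Real.exp l) * Real.exp (-l) := by
            have h5 : Real.exp l * Real.exp (-l) = 1 := by rw [← Real.exp_add, add_neg_cancel, Real.exp_zero]
            calc K = K * (Real.exp l * Real.exp (-l)) := by rw [h5, mul_one]
              _ = _ := by field_simp
        _ ≤ _ := by gcongr
    calc K ≤ κ / C * (C * Pd d c₀ N) * Real.exp (-l) := h4
      _ = _ := by field_simp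
  have hKd : K ≤ ‖deriv (fun c => zz d c N) c₀‖ * (δ * R / 9) := by
    rw [hrR]
    refine hPd.trans ?_
    have := Real.exp_pos (-l)
    gcongr
    exact hgN
  -- the index
  have hmex : N + 2 ≤ n := by
    have h1 : (N : ℝ) + 2 ≤ n := by
      have h2 : 3 ≤ ε / 2 * l / χ := by
        rw [le_div_iff₀ hχ]
        rw [div_le_iff₀ hε] at ha4
        linarith
      have h3 : (1 + ε) * l / χ = (1 + ε / 2) * l / χ + ε / 2 * l / χ := by ring
      linarith
    exact_mod_cast h1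
  obtain ⟨m, rfl⟩ : ∃ m, n = N + (m + 2) := ⟨n - N - 2, by omega⟩
  have hsub : zs d c₀ (Real.exp (-l)) (N + (m + 2)) ⊆ zs d c₀ R (N + (m + 2)) := by
    rintro c ⟨h1, h2⟩
    refine ⟨ball_subset_ball ?_ h1, h2⟩
    rw [hR, Real.exp_le_exp]
    linarith
  have hfin : (zs d c₀ (δ * R / 9) (N + (m + 2))).Finite := by
    rw [hrR]
    exact (hup _).1.subset hsub
  have hlow := hK R N m hR0 hR1 (hc.bd N) hfin hKd
  rw [hrR] at hlow
  have hge := Gm_ge (c₀ := c₀) hd hR0 (fun j => (hup j).1) (m + 2)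
  have hsum : ∑ j ∈ Finset.range (m + 2), ((zs d c₀ R j).ncard : ℝ) / (d : ℝ) ^ j ≤ 1 / 4 := by
    have h1 : ∀ j ∈ Finset.range (m + 2), ((zs d c₀ R j).ncard : ℝ) / (d : ℝ) ^ j ≤
        Real.exp (-((1 - 1 / 8) * D * l')) := by
      intro j _
      rw [div_le_iff₀ (pow_pos hd0 j), mul_comm]
      exact (hup j).2
    refine (Finset.sum_le_sum h1).trans ?_
    rw [Finset.sum_const, Finset.card_range, nsmul_eq_mul]
    have h2 : ((m + 2 : ℕ) : ℝ) ≤ Real.exp (D / 2 * l) := by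
      refine le_trans ?_ hn2
      exact_mod_cast (by omega : m + 2 ≤ N + (m + 2))
    calc ((m + 2 : ℕ) : ℝ) * Real.exp (-((1 - 1 / 8) * D * l')) ≤
        Real.exp (D / 2 * l) * Real.exp (-((1 - 1 / 8) * D * l')) := by gcongr
      _ = Real.exp (-(3 / 8 * D * l)) * Real.exp (7 / 8 * D * L9) := by
        rw [← Real.exp_add, ← Real.exp_add, hl']
        congr 1
        ring
      _ ≤ 1 / 4 := by
        have h5 : Real.exp (-(3 / 8 * D * l)) * Real.exp (3 / 8 * D * l) = 1 := by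
          rw [← Real.exp_add, neg_add_cancel, Real.exp_zero]
        have h6 : Real.exp (-(3 / 8 * D * l)) * (4 * Real.exp (7 / 8 * D * L9)) ≤ 1 := by
          rw [← h5]
          have := Real.exp_pos (-(3 / 8 * D * l))
          gcongr
        linarith
  have hlow' : ((Gm d c₀ R (m + 2)).ncard : ℝ) ≤
      2 * (zs d c₀ (Real.exp (-l)) (N + (m + 2))).ncard + (d : ℝ) ^ (m + 1) := by
    exact_mod_cast hlow
  set Z : ℝ := ((zs d c₀ (Real.exp (-l)) (N + (m + 2))).ncard : ℝ) with hZ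
  have h7 : (d : ℝ) ^ (m + 2) * (3 / 4) ≤ (Gm d c₀ R (m + 2)).ncard := by
    refine le_trans ?_ hge
    have : (0 : ℝ) < (d : ℝ) ^ (m + 2) := by positivity
    apply mul_le_mul_of_nonneg_left _ this.le
    linarith
  have h8 : (d : ℝ) ^ (m + 1) ≤ (d : ℝ) ^ (m + 2) / 2 := by
    rw [pow_succ (d : ℝ) (m + 1)]
    have : (0 : ℝ) < (d : ℝ) ^ (m + 1) := by positivity
    nlinarith
  have h9 : (d : ℝ) ^ (m + 2) / 8 ≤ Z := by linarith
  refine le_trans ?_ h9
  -- the size of `d ^ N`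
  have hdN : (d : ℝ) ^ N ≤ Real.exp ((1 + ε / 2) * D * l) * d := by
    rw [← Real.exp_log (pow_pos hd0 N), Real.log_pow]
    have h10 : (N : ℝ) * Real.log d ≤ (1 + ε / 2) * D * l + Real.log d := by
      have h11 : (N : ℝ) * Real.log d ≤ ((1 + ε / 2) * l / χ + 1) * Real.log d := by
        have := hN2.le
        gcongr
      have h12 : ((1 + ε / 2) * l / χ + 1) * Real.log d = (1 + ε / 2) * D * l + Real.log d := by
        rw [hD]
        field_simp
      linarith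
    calc Real.exp (N * Real.log d) ≤ Real.exp ((1 + ε / 2) * D * l + Real.log d) :=
          Real.exp_le_exp.2 h10
      _ = _ := by rw [Real.exp_add, Real.exp_log hd0]
  have h13 : (d : ℝ) ^ (N + (m + 2)) = (d : ℝ) ^ N * (d : ℝ) ^ (m + 2) := pow_add _ _ _
  rw [h13]
  have h14 : Real.exp (-((1 + ε) * D * l)) * Real.exp ((1 + ε / 2) * D * l) * Real.exp (ε / 2 * D * l) = 1 := by
    rw [← Real.exp_add, ← Real.exp_add]
    have : -((1 + ε) * D * l) + (1 + ε / 2) * D * l + ε / 2 * D * l = 0 := by ring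
    rw [this, Real.exp_zero]
  have h15 : Real.exp (-((1 + ε) * D * l)) * Real.exp ((1 + ε / 2) * D * l) * (8 * d) ≤ 1 := by
    refine le_trans ?_ h14.le
    have := Real.exp_pos (-((1 + ε) * D * l))
    have := Real.exp_pos ((1 + ε / 2) * D * l)
    gcongr
  have h16 : (d : ℝ) ^ N * Real.exp (-((1 + ε) * D * l)) ≤ 1 / 8 := by
    calc (d : ℝ) ^ N * Real.exp (-((1 + ε) * D * l)) ≤
        (Real.exp ((1 + ε / 2) * D * l) * d) * Real.exp (-((1 + ε) * D * l)) := by gcongr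
      _ ≤ 1 / 8 := by linarith
  calc (d : ℝ) ^ N * (d : ℝ) ^ (m + 2) * Real.exp (-((1 + ε) * D * l)) =
      ((d : ℝ) ^ N * Real.exp (-((1 + ε) * D * l))) * (d : ℝ) ^ (m + 2) := by ring
    _ ≤ 1 / 8 * (d : ℝ) ^ (m + 2) := by gcongr
    _ = _ := by ring

/-- The parameters in the disc for which `0` is periodic of exact period `n + 1`. -/
def ze (d : ℕ) (c₀ : ℂ) (r : ℝ) (n : ℕ) : Set ℂ :=
  {c | c ∈ ball c₀ r ∧ zz d c n = 0 ∧ ∀ j < n, zz d c j ≠ 0}

theorem zs_sub_ze (hd : 2 ≤ d) {r : ℝ} {n : ℕ} {c : ℂ} (hc : c ∈ zs d c₀ r n) :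
    c ∈ ze d c₀ r n ∨ ∃ i < n / 2 + 1, c ∈ zs d c₀ r i := by
  obtain ⟨h1, h2⟩ := hc
  by_cases hall : ∀ j < n, zz d c j ≠ 0
  · exact Or.inl ⟨h1, h2, hall⟩
  · push Not at hall
    obtain ⟨j, hj, hj0⟩ := hall
    right
    rw [← iter_zero hd] at h2 hj0
    have hp1 : Function.IsPeriodicPt (f d c) (n + 1) 0 := h2
    have hp2 : Function.IsPeriodicPt (f d c) (j + 1) 0 := hj0
    set p := Function.minimalPeriod (f d c) 0 with hp
    have hpos : 0 < p := hp2.minimalPeriod_pos (Nat.succ_pos j)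
    have hdvd : p ∣ n + 1 := hp1.minimalPeriod_dvd
    have hle : p ≤ j + 1 := hp2.minimalPeriod_le (Nat.succ_pos j)
    obtain ⟨q, hq⟩ := hdvd
    have hq2 : 2 ≤ q := by
      by_contra hcon
      have h3 : q = 0 ∨ q = 1 := by omega
      rcases h3 with h3 | h3
      · rw [h3] at hq
        omega
      · rw [h3, mul_one] at hq
        omega
    have h4 : p * 2 ≤ n + 1 := by
      rw [hq]
      exact Nat.mul_le_mul_left p hq2
    obtain ⟨i, hi⟩ : ∃ i, p = i + 1 := ⟨p - 1, by omega⟩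
    refine ⟨i, by omega, h1, ?_⟩
    rw [← iter_zero hd, ← hi]
    exact Function.isPeriodicPt_minimalPeriod (f d c) 0

/-- **The exact periods.** -/
theorem count_ex (hd : 2 ≤ d) (h : Lyap d χ c₀) {ε : ℝ} (hε : 0 < ε) (hε1 : ε ≤ 1 / 8) :
    ∃ l₀ : ℝ, 0 < l₀ ∧ ∀ l : ℝ, l₀ ≤ l → ∀ n : ℕ, (1 + ε) * l / χ ≤ n →
      (n : ℝ) ≤ Real.exp (Real.log d / χ / 2 * l) →
      (d : ℝ) ^ n * Real.exp (-((1 + ε) * (Real.log d / χ) * l)) / 2 ≤
        (ze d c₀ (Real.exp (-l)) n).ncard := by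
  classical
  have hχ : 0 < χ := h.1
  have hdR : (2 : ℝ) ≤ d := by exact_mod_cast hd
  have hd0 : (0 : ℝ) < d := by linarith
  have hlogd : 0 < Real.log d := Real.log_pos (by linarith)
  set D : ℝ := Real.log d / χ with hD
  have hD0 : 0 < D := by positivity
  obtain ⟨l₁, hl₁0, hl₁⟩ := count_lo hd h hε (by linarith)
  obtain ⟨l₂, hl₂0, hl₂⟩ := count_up hd h hε (by linarith)
  obtain ⟨l₃, hl₃⟩ := eventually_atTop.mp (ev_ge (2 * d) (5 / 16 * D) (by positivity))
  refine ⟨max l₁ (max l₂ l₃), lt_max_of_lt_left hl₁0, ?_⟩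
  intro l hl n hn1 hn2
  have g1 := hl₁ l ((le_max_left _ _).trans hl) n hn1 hn2
  have g2 := hl₂ l ((le_max_left _ _).trans ((le_max_right _ _).trans hl))
  have g3 := hl₃ l ((le_max_right _ _).trans ((le_max_right _ _).trans hl))
  have hl0 : 0 < l := hl₁0.trans_le ((le_max_left _ _).trans hl)
  set r : ℝ := Real.exp (-l) with hr
  have hEf : (ze d c₀ r n).Finite := (g2 n).1.subset fun c hc => ⟨hc.1, hc.2.1⟩
  have hcard : (zs d c₀ r n).ncard ≤ (ze d c₀ r n).ncard +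
      ∑ i ∈ Finset.range (n / 2 + 1), (zs d c₀ r i).ncard := by
    rw [Set.ncard_eq_toFinset_card _ (g2 n).1, Set.ncard_eq_toFinset_card _ hEf]
    have h1 : (g2 n).1.toFinset ⊆ hEf.toFinset ∪
        (Finset.range (n / 2 + 1)).biUnion fun i => (g2 i).1.toFinset := by
      intro c hc
      rw [Set.Finite.mem_toFinset] at hc
      rw [Finset.mem_union, Finset.mem_biUnion]
      rcases zs_sub_ze hd hc with h2 | ⟨i, hi, h2⟩
      · exact Or.inl (by rw [Set.Finite.mem_toFinset]; exact h2)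
      · exact Or.inr ⟨i, Finset.mem_range.2 hi, by rw [Set.Finite.mem_toFinset]; exact h2⟩
    refine (Finset.card_le_card h1).trans ((Finset.card_union_le _ _).trans ?_)
    refine Nat.add_le_add_left ?_ _
    refine Finset.card_biUnion_le.trans (le_of_eq ?_)
    exact Finset.sum_congr rfl fun i _ => (Set.ncard_eq_toFinset_card _ (g2 i).1).symm
  have hcard' : ((zs d c₀ r n).ncard : ℝ) ≤ (ze d c₀ r n).ncard +
      ∑ i ∈ Finset.range (n / 2 + 1), ((zs d c₀ r i).ncard : ℝ) := by exact_mod_cast hcard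
  have hsum : ∑ i ∈ Finset.range (n / 2 + 1), ((zs d c₀ r i).ncard : ℝ) ≤
      (d : ℝ) ^ (n / 2 + 1) * Real.exp (-((1 - ε) * D * l)) := by
    have h1 : ∀ i ∈ Finset.range (n / 2 + 1), ((zs d c₀ r i).ncard : ℝ) ≤
        (d : ℝ) ^ i * Real.exp (-((1 - ε) * D * l)) := fun i _ => (g2 i).2
    refine (Finset.sum_le_sum h1).trans ?_
    rw [← Finset.sum_mul]
    refine mul_le_mul_of_nonneg_right ?_ (Real.exp_pos _).le
    have h2 : ∀ k : ℕ, ∑ i ∈ Finset.range k, (d : ℝ) ^ i ≤ (d : ℝ) ^ k := by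
      intro k
      induction k with
      | zero => simp
      | succ k ih =>
        rw [Finset.sum_range_succ, pow_succ]
        have : (0 : ℝ) < (d : ℝ) ^ k := by positivity
        nlinarith
    exact h2 _
  have hhalf : (d : ℝ) ^ (n / 2 + 1) * Real.exp (-((1 - ε) * D * l)) ≤
      (d : ℝ) ^ n * Real.exp (-((1 + ε) * D * l)) / 2 := by
    have h1 : (d : ℝ) ^ n = (d : ℝ) ^ (n / 2) * (d : ℝ) ^ (n - n / 2) := by
      rw [← pow_add, Nat.add_sub_cancel' (Nat.div_le_self n 2)]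
    have h2 : Real.exp ((1 + ε) / 2 * D * l) ≤ (d : ℝ) ^ (n - n / 2) := by
      rw [← Real.exp_log (pow_pos hd0 (n - n / 2)), Real.log_pow, Real.exp_le_exp]
      have h3 : (n : ℝ) / 2 ≤ ((n - n / 2 : ℕ) : ℝ) := by
        have h4 : n ≤ 2 * (n - n / 2) := by omega
        have h5 : (n : ℝ) ≤ 2 * ((n - n / 2 : ℕ) : ℝ) := by exact_mod_cast h4
        linarith
      calc (1 + ε) / 2 * D * l = ((1 + ε) * l / χ) / 2 * Real.log d := by
            rw [hD]
            field_simp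
        _ ≤ (n : ℝ) / 2 * Real.log d := by gcongr
        _ ≤ _ := by gcongr
    rw [h1, pow_succ]
    have h3 : d * Real.exp (-((1 - ε) * D * l)) ≤
        Real.exp ((1 + ε) / 2 * D * l) * Real.exp (-((1 + ε) * D * l)) / 2 := by
      have h4 : 2 * d * Real.exp (-((1 - ε) * D * l)) ≤
          Real.exp ((1 + ε) / 2 * D * l) * Real.exp (-((1 + ε) * D * l)) := by
        calc 2 * d * Real.exp (-((1 - ε) * D * l)) ≤
            Real.exp (5 / 16 * D * l) * Real.exp (-((1 - ε) * D * l)) := by gcongr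
          _ = Real.exp (5 / 16 * D * l - (1 - ε) * D * l) := by
            rw [← Real.exp_add]
            congr 1
          _ ≤ Real.exp ((1 + ε) / 2 * D * l + -((1 + ε) * D * l)) := by
            rw [Real.exp_le_exp]
            have h5 : 0 ≤ D * l := by positivity
            nlinarith
          _ = _ := Real.exp_add _ _
      linarith
    have h4 : (0 : ℝ) < (d : ℝ) ^ (n / 2) := by positivity
    calc (d : ℝ) ^ (n / 2) * d * Real.exp (-((1 - ε) * D * l)) =
        (d : ℝ) ^ (n / 2) * (d * Real.exp (-((1 - ε) * D * l))) := by ring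
      _ ≤ (d : ℝ) ^ (n / 2) * (Real.exp ((1 + ε) / 2 * D * l) * Real.exp (-((1 + ε) * D * l)) / 2) := by
        gcongr
      _ ≤ (d : ℝ) ^ (n / 2) * ((d : ℝ) ^ (n - n / 2) * Real.exp (-((1 + ε) * D * l)) / 2) := by
        gcongr
      _ = _ := by ring
  linarith

end Pool.Agent.V1186.CN
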