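import Mathlib
import Pool.Agent.V1186.CN.Cnt5
import Pool.Agent.V1186.CN.Typ

/-!
# Counting superattracting parameters in small discs about a Lyapunov parameter: the statement
-/

set_option autoImplicit false

open Set Filter Metric MeasureTheory Topology

namespace Pool.Agent.V1186.CN

open Pool.Agent.TH279.MD Pool.Agent.Y298.SH Pool.Agent.Y298.SH.CD Pool.Agent.Y298.CA
open Pool.Agent.H712R2 (P P_succ)

variable {d : ℕ} {χ : ℝ} {c₀ : ℂ}

/-- The parameters at distance less than `r` for which `0` is periodic of a period dividing `n`. -/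
def Zn (d n : ℕ) (c₀ : ℂ) (r : ℝ) : Set ℂ := {c | ‖c - c₀‖ < r ∧ (f d c)^[n] 0 = 0}

/-- The parameters for which `0` is periodic of exact period `n`. -/
def Ex (d n : ℕ) : Set ℂ := {c | (f d c)^[n] 0 = 0 ∧ ∀ j, 1 ≤ j → j < n → (f d c)^[j] 0 ≠ 0}

theorem Zn_eq (hd : 2 ≤ d) (n : ℕ) (c₀ : ℂ) (r : ℝ) : Zn d (n + 1) c₀ r = zs d c₀ r n := by
  ext c
  show (‖c - c₀‖ < r ∧ (f d c)^[n + 1] 0 = 0) ↔ (c ∈ ball c₀ r ∧ zz d c n = 0)
  rw [mem_ball_iff_norm, iter_zero hd]

theorem Ex_eq (hd : 2 ≤ d) (n : ℕ) (c₀ : ℂ) (r : ℝ) :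
    {c | ‖c - c₀‖ < r ∧ c ∈ Ex d (n + 1)} = ze d c₀ r n := by
  ext c
  show (‖c - c₀‖ < r ∧ ((f d c)^[n + 1] 0 = 0 ∧ ∀ j, 1 ≤ j → j < n + 1 → (f d c)^[j] 0 ≠ 0)) ↔
    (c ∈ ball c₀ r ∧ zz d c n = 0 ∧ ∀ j < n, zz d c j ≠ 0)
  rw [mem_ball_iff_norm, iter_zero hd]
  refine and_congr Iff.rfl (and_congr Iff.rfl ⟨fun h j hj => ?_, fun h j hj1 hj2 => ?_⟩)
  · rw [← iter_zero hd]
    exact h (j + 1) (by omega) (by omega)
  · obtain ⟨i, rfl⟩ : ∃ i, j = i + 1 := ⟨j - 1, by omega⟩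
    rw [iter_zero hd]
    exact h i (by omega)

theorem count_main (hd : 2 ≤ d) (h : Lyap d χ c₀) {ε : ℝ} (hε : 0 < ε) (hε1 : ε ≤ 1 / 8) :
    ∃ r₀ : ℝ, 0 < r₀ ∧ r₀ < 1 ∧ ∀ r : ℝ, 0 < r → r < r₀ → ∀ n : ℕ, 1 ≤ n →
      (Zn d n c₀ r).Finite ∧
      ((Zn d n c₀ r).ncard : ℝ) ≤ (d : ℝ) ^ n * r ^ ((1 - ε) * (Real.log d / χ)) ∧
      ((1 + ε) * Real.log (1 / r) / χ ≤ n →
        (d : ℝ) ^ n * min (r ^ ((1 + ε) * (Real.log d / χ))) (1 / (n : ℝ) ^ 3) ≤
          ({c | ‖c - c₀‖ < r ∧ c ∈ Ex d n} : Set ℂ).ncard) := by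
  have hχ : 0 < χ := h.1
  have hdR : (2 : ℝ) ≤ d := by exact_mod_cast hd
  have hd0 : (0 : ℝ) < d := by linarith
  have hlogd : 0 < Real.log d := Real.log_pos (by linarith)
  set D : ℝ := Real.log d / χ with hD
  have hD0 : 0 < D := by positivity
  obtain ⟨l₁, hl₁0, hl₁⟩ := count_ex hd h (ε := ε / 2) (by positivity) (by linarith)
  obtain ⟨l₂, hl₂0, hl₂⟩ := count_up hd h hε (by linarith)
  have t1 := ev_ge (2 * d) (ε / 2 * D) (by positivity)
  have t2 := ev_exp ((1 + ε / 2) / χ) 0 (D / 2) 1 (by positivity) one_pos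
  have t3 := ev_ge (2 * d) (D / 4) (by positivity)
  obtain ⟨l₃, hl₃⟩ := eventually_atTop.mp (t1.and (t2.and t3))
  set l₀ : ℝ := max l₁ (max l₂ (max l₃ (max (2 * χ / ε) 1))) with hl₀
  have hl₀1 : 1 ≤ l₀ := (le_max_right _ _).trans ((le_max_right _ _).trans
    ((le_max_right _ _).trans (le_max_right _ _)))
  refine ⟨Real.exp (-l₀), Real.exp_pos _, ?_, ?_⟩
  · rw [Real.exp_lt_one_iff]
    linarith
  intro r hr0 hr n hn
  obtain ⟨n', rfl⟩ : ∃ n', n = n' + 1 := ⟨n - 1, by omega⟩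
  set l : ℝ := Real.log (1 / r) with hl
  have hrl : r = Real.exp (-l) := by
    rw [hl, one_div, Real.log_inv, neg_neg, Real.exp_log hr0]
  have hll : l₀ < l := by
    rw [hrl, Real.exp_lt_exp] at hr
    linarith
  have hla : l₁ ≤ l := (le_max_left _ _).trans hll.le
  have hlb : l₂ ≤ l := ((le_max_left _ _).trans (le_max_right _ _)).trans hll.le
  have hlc : l₃ ≤ l := ((le_max_left _ _).trans ((le_max_right _ _).trans
    (le_max_right _ _))).trans hll.le
  have hld : 2 * χ / ε ≤ l := ((le_max_left _ _).trans ((le_max_right _ _).trans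
    ((le_max_right _ _).trans (le_max_right _ _)))).trans hll.le
  have hl0 : 0 < l := by linarith
  have hrpow : ∀ a : ℝ, r ^ a = Real.exp (-(a * l)) := by
    intro a
    rw [hrl, ← Real.exp_mul]
    congr 1
    ring
  obtain ⟨hfin, hup⟩ := hl₂ l hlb n'
  rw [← hrl] at hfin hup
  rw [Zn_eq hd, Ex_eq hd]
  refine ⟨hfin, ?_, ?_⟩
  · refine hup.trans ?_
    rw [hrpow]
    have : (d : ℝ) ^ n' ≤ (d : ℝ) ^ (n' + 1) := pow_le_pow_right₀ (by linarith) (Nat.le_succ _)
    gcongr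
  · intro hn1
    push_cast at hn1
    have hn2 : (1 + ε / 2) * l / χ ≤ n' := by
      have h1 : (1 + ε) * l / χ = (1 + ε / 2) * l / χ + ε / 2 * l / χ := by ring
      have h2 : 1 ≤ ε / 2 * l / χ := by
        rw [le_div_iff₀ hχ]
        rw [div_le_iff₀ hε] at hld
        linarith
      linarith
    have hpow : (d : ℝ) ^ (n' + 1) = d * (d : ℝ) ^ n' := by rw [pow_succ, mul_comm]
    rcases le_or_gt (n' : ℝ) (Real.exp (D / 2 * l)) with hcase | hcase
    · have h1 := hl₁ l hla n' hn2 hcase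
      rw [← hrl] at h1
      refine le_trans ?_ h1
      have h2 : (d : ℝ) * r ^ ((1 + ε) * D) ≤ Real.exp (-((1 + ε / 2) * D * l)) / 2 := by
        rw [hrpow]
        have h3 := (hl₃ l hlc).1
        have h4 : Real.exp (-((1 + ε) * D * l)) * Real.exp (ε / 2 * D * l) =
            Real.exp (-((1 + ε / 2) * D * l)) := by
          rw [← Real.exp_add]
          congr 1
          ring
        have h5 : 2 * (d : ℝ) * Real.exp (-((1 + ε) * D * l)) ≤
            Real.exp (ε / 2 * D * l) * Real.exp (-((1 + ε) * D * l)) := by gcongr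
        linarith
      calc (d : ℝ) ^ (n' + 1) * min (r ^ ((1 + ε) * D)) (1 / ((n' + 1 : ℕ) : ℝ) ^ 3) ≤
          (d : ℝ) ^ (n' + 1) * r ^ ((1 + ε) * D) := by
            gcongr
            exact min_le_left _ _
        _ = (d : ℝ) ^ n' * (d * r ^ ((1 + ε) * D)) := by rw [hpow]; ring
        _ ≤ (d : ℝ) ^ n' * (Real.exp (-((1 + ε / 2) * D * l)) / 2) := by gcongr
        _ = _ := by ring
    · have hn'0 : (0 : ℝ) < n' := (Real.exp_pos _).trans hcase
      set l' : ℝ := 2 / D * Real.log n' with hl'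
      have hll' : l ≤ l' := by
        have h1 := (Real.lt_log_iff_exp_lt hn'0).2 hcase
        rw [hl', div_mul_eq_mul_div, le_div_iff₀ hD0]
        linarith
      have hexp : Real.exp (D / 2 * l') = n' := by
        have h1 : D / 2 * l' = Real.log n' := by
          rw [hl']
          field_simp
        rw [h1, Real.exp_log hn'0]
      obtain ⟨-, s2, s3⟩ := hl₃ l' (hlc.trans hll')
      have hn3 : (1 + ε / 2) * l' / χ ≤ n' := by
        rw [← hexp]
        have h1 : ((1 + ε / 2) / χ * l' + 0) * Real.exp (-(D / 2) * l') < 1 := s2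
        have h2 : Real.exp (-(D / 2) * l') * Real.exp (D / 2 * l') = 1 := by
          rw [← Real.exp_add]
          have : -(D / 2) * l' + D / 2 * l' = 0 := by ring
          rw [this, Real.exp_zero]
        calc (1 + ε / 2) * l' / χ = ((1 + ε / 2) / χ * l' + 0) *
              (Real.exp (-(D / 2) * l') * Real.exp (D / 2 * l')) := by rw [h2]; ring
          _ = (((1 + ε / 2) / χ * l' + 0) * Real.exp (-(D / 2) * l')) * Real.exp (D / 2 * l') := by
            ring
          _ ≤ 1 * Real.exp (D / 2 * l') := by gcongr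
          _ = _ := one_mul _
      have h1 := hl₁ l' (hla.trans hll') n' hn3 (by rw [hexp])
      have hsub : ze d c₀ (Real.exp (-l')) n' ⊆ ze d c₀ r n' := by
        rintro c ⟨h2, h3⟩
        refine ⟨ball_subset_ball ?_ h2, h3⟩
        rw [hrl, Real.exp_le_exp]
        linarith
      have hEf : (ze d c₀ r n').Finite := hfin.subset fun c hc => ⟨hc.1, hc.2.1⟩
      have h2 : ((ze d c₀ (Real.exp (-l')) n').ncard : ℝ) ≤ (ze d c₀ r n').ncard := by
        exact_mod_cast Set.ncard_le_ncard hsub hEf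
      refine le_trans ?_ (h1.trans h2)
      have hn'3 : 1 / ((n' + 1 : ℕ) : ℝ) ^ 3 ≤ Real.exp (-(3 / 2 * D * l')) := by
        have h3 : (n' : ℝ) ^ 3 ≤ ((n' + 1 : ℕ) : ℝ) ^ 3 := by
          gcongr
          omega
        have h4 : Real.exp (-(3 / 2 * D * l')) = 1 / (n' : ℝ) ^ 3 := by
          rw [← hexp, ← Real.exp_nat_mul, one_div, ← Real.exp_neg]
          congr 1
          push_cast
          ring
        rw [h4]
        exact one_div_le_one_div_of_le (by positivity) h3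
      have h5 : (d : ℝ) * Real.exp (-(3 / 2 * D * l')) ≤ Real.exp (-((1 + ε / 2) * D * l')) / 2 := by
        have h6 : 2 * (d : ℝ) * Real.exp (-(3 / 2 * D * l')) ≤
            Real.exp (D / 4 * l') * Real.exp (-(3 / 2 * D * l')) := by gcongr
        have h7 : Real.exp (D / 4 * l') * Real.exp (-(3 / 2 * D * l')) ≤
            Real.exp (-((1 + ε / 2) * D * l')) := by
          rw [← Real.exp_add, Real.exp_le_exp]
          have h8 : 0 ≤ D * l' := by
            have : 0 < l' := hl0.trans_le hll'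
            positivity
          nlinarith
        linarith
      calc (d : ℝ) ^ (n' + 1) * min (r ^ ((1 + ε) * D)) (1 / ((n' + 1 : ℕ) : ℝ) ^ 3) ≤
          (d : ℝ) ^ (n' + 1) * (1 / ((n' + 1 : ℕ) : ℝ) ^ 3) := by
            gcongr
            exact min_le_right _ _
        _ ≤ (d : ℝ) ^ (n' + 1) * Real.exp (-(3 / 2 * D * l')) := by gcongr
        _ = (d : ℝ) ^ n' * (d * Real.exp (-(3 / 2 * D * l'))) := by rw [hpow]; ring
        _ ≤ (d : ℝ) ^ n' * (Real.exp (-((1 + ε / 2) * D * l')) / 2) := by gcongr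
        _ = _ := by ring

theorem Ex_sub_cen {n : ℕ} (hn : 1 ≤ n) : Ex d n ⊆ cen d n := fun _ hc => ⟨n, hn, le_rfl, hc.1⟩

/-- the distance to the parameters of exact period `n` -/
theorem dist_ex (hd : 2 ≤ d) (h : Lyap d χ c₀) :
    Tendsto (fun n : ℕ => -Real.log (infDist c₀ (Ex d n)) / n) atTop (𝓝 χ) := by
  obtain ⟨⟨C₁, lam, hc⟩, -⟩ := Pool.Agent.Y674.CA.lya d χ c₀ hd h
  have hχ : 0 < χ := h.1
  have hdR : (2 : ℝ) ≤ d := by exact_mod_cast hd
  have hgap := lyap_gap hd h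
  rw [Metric.tendsto_atTop']
  intro η hη
  -- the constant
  set ε : ℝ := min (1 / 8) (η / (2 * χ)) with hε
  have hε0 : 0 < ε := lt_min (by norm_num) (by positivity)
  have hε1 : ε ≤ 1 / 8 := min_le_left _ _
  have hε2 : ε * χ ≤ η / 2 := by
    calc ε * χ ≤ η / (2 * χ) * χ := by
          gcongr
          exact min_le_right _ _
      _ = η / 2 := by field_simp
  obtain ⟨r₀, hr₀, hr₀1, H⟩ := count_main hd h hε0 hε1
  have ht1 : Tendsto (fun n : ℕ => Real.exp (-(χ / (1 + ε) * n))) atTop (𝓝 0) := by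
    apply Real.tendsto_exp_neg_atTop_nhds_zero.comp
    exact (tendsto_natCast_atTop_atTop).const_mul_atTop (by positivity)
  rw [Metric.tendsto_atTop'] at hgap
  obtain ⟨N₁, hN₁⟩ := hgap η hη
  obtain ⟨N₂, hN₂⟩ := eventually_atTop.mp (ht1.eventually_lt_const hr₀)
  refine ⟨max N₁ (max N₂ 1), fun n hn => ?_⟩
  have hn1 : N₁ < n := (le_max_left _ _).trans_lt hn
  have hn2 : N₂ ≤ n := ((le_max_left _ _).trans (le_max_right _ _)).trans hn.le
  have hn3 : 1 ≤ n := ((le_max_right _ _).trans (le_max_right _ _)).trans hn.le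
  have hn0 : (0 : ℝ) < n := by exact_mod_cast hn3
  set r : ℝ := Real.exp (-(χ / (1 + ε) * n)) with hr
  have hr0 : 0 < r := Real.exp_pos _
  have hrr : r < r₀ := hN₂ n hn2
  have hlog : Real.log (1 / r) = χ / (1 + ε) * n := by
    rw [one_div, Real.log_inv, hr, Real.log_exp, neg_neg]
  obtain ⟨-, -, hlow⟩ := H r hr0 hrr n hn3
  have hcount := hlow (by
    rw [hlog]
    apply le_of_eq
    field_simp)
  have hne : ({c | ‖c - c₀‖ < r ∧ c ∈ Ex d n} : Set ℂ).Nonempty := by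
    apply Set.nonempty_of_ncard_ne_zero
    intro h0
    rw [h0, Nat.cast_zero] at hcount
    have : 0 < (d : ℝ) ^ n * min (r ^ ((1 + ε) * (Real.log d / χ))) (1 / (n : ℝ) ^ 3) := by
      have h1 : 0 < r ^ ((1 + ε) * (Real.log d / χ)) := Real.rpow_pos_of_pos hr0 _
      have h2 : (0 : ℝ) < 1 / (n : ℝ) ^ 3 := by positivity
      have h3 : 0 < min (r ^ ((1 + ε) * (Real.log d / χ))) (1 / (n : ℝ) ^ 3) := lt_min h1 h2
      positivity
    linarith
  obtain ⟨c, hc1, hc2⟩ := hne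
  have hd1 : infDist c₀ (Ex d n) ≤ r := by
    refine (infDist_le_dist_of_mem hc2).trans ?_
    rw [dist_comm, dist_eq_norm]
    exact hc1.le
  have hd2 : gap d c₀ n ≤ infDist c₀ (Ex d n) := infDist_le_infDist_of_subset (Ex_sub_cen hn3) ⟨c, hc2⟩
  have hg0 : 0 < gap d c₀ n := gap_pos hc hn3
  have h1 := hN₁ n hn1
  rw [Real.dist_eq, abs_lt] at h1 ⊢
  have h2 : Real.log (gap d c₀ n) ≤ Real.log (infDist c₀ (Ex d n)) := Real.log_le_log hg0 hd2
  have h3 : Real.log (infDist c₀ (Ex d n)) ≤ -(χ / (1 + ε) * n) := by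
    have := Real.log_le_log (hg0.trans_le hd2) hd1
    rwa [hr, Real.log_exp] at this
  constructor
  · have h4 : (χ - η) * n < χ / (1 + ε) * n := by
      have h5 : χ - η < χ / (1 + ε) := by
        rw [lt_div_iff₀ (by linarith)]
        nlinarith
      exact mul_lt_mul_of_pos_right h5 hn0
    have h6 : χ - η < -Real.log (infDist c₀ (Ex d n)) / n := by
      rw [lt_div_iff₀ hn0]
      linarith
    linarith
  · refine lt_of_le_of_lt ?_ h1.2
    have : -Real.log (infDist c₀ (Ex d n)) / n ≤ -Real.log (gap d c₀ n) / n := by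
      gcongr
    linarith

end Pool.Agent.V1186.CN
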