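import Mathlib
import Pool.Agent.V1186.CN.Typ
import Pool.Agent.H107.MLC.Near
import Pool.Agent.Helper240.ZFM.Q2b

/-!
# The rays which land at typical parameters
-/

set_option autoImplicit false

open Set Filter Metric MeasureTheory Topology

namespace Pool.Agent.V1186.CN

open Pool.Agent.TH279.MD Pool.Agent.Y298.SH Pool.Agent.Y298.SH.CD Pool.Agent.Y298.CA
open Pool.Agent.H712R2 (P P_succ)
open Pool.Agent.H713R2 (IsBeta IsExteriorMap exteriorMap_unique)
open Pool.Agent.W677.Mar (pt)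
open Pool.Agent.Y272.TY (Typ MM deriv_iter log_sq_small log_two_le loglog16 cc rl rl_pos rl_lt pt_mem
  differentiableAt_cc psi_eq)
open N62a1eb23 (multibrotSet)

variable {d : ℕ} {C₁ lam : ℝ} {c : ℂ} {β : ℂ → ℂ} {θ A : ℝ} {R : ℂ}

/-! ### Slow variation of the iterated logarithm -/

theorem LL_step (hd : 2 ≤ d) {η : ℝ} (hη : 0 < η) :
    ∀ᶠ n : ℕ in atTop, LL d (n + 1) ≤ LL d n + η := by
  have hld : 0 < Real.log d := Real.log_pos (by exact_mod_cast (by omega : 1 < d))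
  filter_upwards [log_sq_small (Real.log d * 6 / η), eventually_ge_atTop 16] with n h1 hn
  have hn1 : (16 : ℝ) ≤ n := by exact_mod_cast hn
  have hn0 : (0 : ℝ) < n := by linarith
  have h3 := LL_ge hd hn
  have h4 := log_two_le n
  have hlogn : 1 < Real.log n := by
    have h5 : Real.log 16 ≤ Real.log n := Real.log_le_log (by norm_num) hn1
    have h6 : Real.log 16 = 4 * Real.log 2 := by
      rw [show (16 : ℝ) = 2 ^ 4 by norm_num, Real.log_pow]; norm_num
    have := Real.log_two_gt_d9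
    linarith
  -- increments of the logarithms
  have h5 : Real.log ((n : ℝ) + 1) ≤ Real.log n + 1 / n := by
    have h6 : Real.log (((n : ℝ) + 1) / n) ≤ ((n : ℝ) + 1) / n - 1 :=
      Real.log_le_sub_one_of_pos (by positivity)
    rw [Real.log_div (by positivity) (by positivity)] at h6
    have h7 : ((n : ℝ) + 1) / n - 1 = 1 / n := by field_simp; ring
    linarith
  have hlogn1 : 1 < Real.log ((n : ℝ) + 1) :=
    hlogn.trans_le (Real.log_le_log hn0 (by linarith))
  have h6 : Real.log (Real.log ((n : ℝ) + 1)) ≤ Real.log (Real.log n) + 1 / n := by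
    have h7 : Real.log (Real.log ((n : ℝ) + 1) / Real.log n) ≤
        Real.log ((n : ℝ) + 1) / Real.log n - 1 :=
      Real.log_le_sub_one_of_pos (by positivity)
    rw [Real.log_div (by positivity) (by positivity)] at h7
    have h8 : Real.log ((n : ℝ) + 1) / Real.log n - 1 ≤ 1 / n := by
      rw [sub_le_iff_le_add, div_le_iff₀ (by linarith)]
      have h9 : 0 < 1 / (n : ℝ) := by positivity
      nlinarith
    linarith
  have h7 : Real.log (Real.log ((n : ℝ) + 1)) ≤ Real.log ((n : ℝ) + 2) := by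
    have h8 := Real.log_le_sub_one_of_pos (show 0 < Real.log ((n : ℝ) + 1) by linarith)
    have h9 : Real.log ((n : ℝ) + 1) ≤ Real.log ((n : ℝ) + 2) :=
      Real.log_le_log (by positivity) (by linarith)
    linarith
  have h8 : ((n : ℝ) + 1) * Real.log d * Real.log (Real.log ((n : ℝ) + 1)) ≤
      n * Real.log d * Real.log (Real.log n) +
        Real.log d * (Real.log ((n : ℝ) + 2) + 1) := by
    have h9 : (n : ℝ) * Real.log (Real.log ((n : ℝ) + 1)) ≤ n * Real.log (Real.log n) + 1 := by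
      have h10 : (n : ℝ) * (1 / n) = 1 := by field_simp
      nlinarith
    nlinarith
  have hLL0 : 0 ≤ LL d n := Real.sqrt_nonneg _
  have hsq : LL d n ^ 2 = n * Real.log d * Real.log (Real.log n) := by
    unfold LL
    rw [Real.sq_sqrt]
    have : 0 ≤ Real.log (Real.log (n : ℝ)) := Real.log_nonneg hlogn.le
    positivity
  -- the main estimate
  have h9 : Real.log d * (Real.log ((n : ℝ) + 2) + 1) ≤ η * (2 * LL d n) := by
    have h10 : Real.log ((n : ℝ) + 2) + 1 ≤ 6 * Real.log ((n : ℝ) + 2) ^ 2 := by nlinarith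
    have h11 : Real.log d * (Real.log ((n : ℝ) + 2) + 1) ≤
        η * (Real.log d * 6 / η * Real.log ((n : ℝ) + 2) ^ 2) := by
      calc Real.log d * (Real.log ((n : ℝ) + 2) + 1) ≤
          Real.log d * (6 * Real.log ((n : ℝ) + 2) ^ 2) := by gcongr
        _ = _ := by field_simp
    refine h11.trans (mul_le_mul_of_nonneg_left (h1.trans h3) hη.le)
  rw [show LL d (n + 1) = √(((n + 1 : ℕ) : ℝ) * Real.log d * Real.log (Real.log ((n + 1 : ℕ) : ℝ)))
    from rfl, Real.sqrt_le_left (by positivity)]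
  push_cast
  nlinarith

/-! ### The derivative of the conformal map between two levels -/

theorem rl_ratio (hd : 2 ≤ d) (k : ℕ) : 1 - rl d k ≤ d * (1 - rl d (k + 1)) := by
  have hdR : (2 : ℝ) ≤ d := by exact_mod_cast hd
  have h1 : rl d k = rl d (k + 1) ^ d := by
    unfold rl
    rw [← Real.exp_nat_mul]
    congr 1
    rw [pow_succ]
    field_simp
  have h2 := one_add_mul_le_pow (a := rl d (k + 1) - 1) (by linarith [rl_pos d (k + 1)]) d
  rw [show 1 + (rl d (k + 1) - 1) = rl d (k + 1) by ring] at h2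
  rw [h1]
  linarith

theorem rl_mono (hd : 2 ≤ d) {k l : ℕ} (h : k ≤ l) : rl d k ≤ rl d l := by
  have hdR : (2 : ℝ) ≤ d := by exact_mod_cast hd
  unfold rl
  rw [Real.exp_le_exp, neg_le_neg_iff]
  gcongr
  linarith

theorem one_sub_rl (d k : ℕ) : 1 - rl d k ≤ 4 / (d : ℝ) ^ k := by
  have := Real.add_one_le_exp (-(4 / (d : ℝ) ^ k))
  unfold rl
  linarith

/-- the distortion constant -/
noncomputable def QQ (d : ℕ) : ℝ := 6 * Real.log d + 8

theorem deriv_level (hd : 2 ≤ d) (hβ : IsBeta d β) (θ : ℝ) {k : ℕ} {ρ : ℝ} (h1 : rl d k ≤ ρ)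
    (h2 : ρ ≤ rl d (k + 1)) : |Real.log ‖deriv (cc β) (pt ρ θ)‖ -
      Real.log ‖deriv (cc β) (pt (rl d k) θ)‖| ≤ QQ d := by
  have hdR : (2 : ℝ) ≤ d := by exact_mod_cast hd
  have h3 := Pool.Agent.Y288.TY.t_BLip d β hd hβ θ (rl d k) ρ (rl_mono hd (Nat.zero_le k)) h1
    (h2.trans_lt (rl_lt hd _))
  refine h3.trans ?_
  unfold QQ
  have h4 : (1 - rl d k) / (1 - ρ) ≤ d := by
    have h5 : 0 < 1 - ρ := by linarith [rl_lt hd (k + 1)]
    rw [div_le_iff₀ h5]
    have := rl_ratio hd k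
    nlinarith
  have h5 : 0 < (1 - rl d k) / (1 - ρ) :=
    div_pos (by linarith [rl_lt hd k]) (by linarith [rl_lt hd (k + 1)])
  have h6 := Real.log_le_log h5 h4
  linarith

theorem deriv_cc_ne' (hβ : IsBeta d β) {x : ℂ} (hx : x ∈ ball (0 : ℂ) 1) (hx0 : x ≠ 0)
    {ψ : ℂ → ℂ} (hψ : IsExteriorMap (multibrotSet d) ψ) :
    deriv (cc β) x ≠ 0 ∧ ‖deriv ψ x⁻¹‖ = ‖deriv (cc β) x‖ * ‖x‖ ^ 2 := by
  have hx1 : 1 < ‖x⁻¹‖ := by
    rw [norm_inv]
    rw [mem_ball_zero_iff] at hx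
    exact one_lt_inv_iff₀.2 ⟨norm_pos_iff.2 hx0, hx⟩
  have hopen : IsOpen {z : ℂ | 1 < ‖z‖} := isOpen_lt continuous_const continuous_norm
  have heq : ψ =ᶠ[𝓝 x⁻¹] fun w => cc β w⁻¹ := by
    filter_upwards [hopen.mem_nhds hx1] with w hw
    rw [exteriorMap_unique hβ hψ hw]
    unfold cc
    rw [inv_inv]
  have hcc := (differentiableAt_cc hβ hx hx0).hasDerivAt
  have hinv : HasDerivAt (fun w : ℂ => w⁻¹) (-((x⁻¹) ^ 2)⁻¹) x⁻¹ :=
    hasDerivAt_inv (inv_ne_zero hx0)
  have hcomp : HasDerivAt (fun w : ℂ => cc β w⁻¹) (deriv (cc β) x * (-((x⁻¹) ^ 2)⁻¹)) x⁻¹ := by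
    have h1 : HasDerivAt (cc β) (deriv (cc β) x) ((x⁻¹)⁻¹) := by rw [inv_inv]; exact hcc
    exact h1.comp x⁻¹ hinv
  have hder : deriv ψ x⁻¹ = deriv (cc β) x * (-((x⁻¹) ^ 2)⁻¹) := by
    rw [heq.deriv_eq]
    exact hcomp.deriv
  have hne : deriv ψ x⁻¹ ≠ 0 :=
    Pool.Agent.Helper202.Univ.deriv_ne_zero hopen hψ.diff hψ.inj hx1
  constructor
  · intro h0
    rw [h0, zero_mul] at hder
    exact hne hder
  · rw [hder, norm_mul, norm_neg, norm_inv, norm_pow, norm_inv, inv_pow, inv_inv]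

/-- the distance to the Multibrot set from below -/
theorem koebe_low {ψ : ℂ → ℂ} (hψ : IsExteriorMap (multibrotSet d) ψ) {w : ℂ} (hw : 1 < ‖w‖)
    {m : ℂ} (hm : m ∈ multibrotSet d) : (‖w‖ - 1) * ‖deriv ψ w‖ ≤ 4 * ‖ψ w - m‖ := by
  set ρ : ℝ := ‖w‖ - 1 with hρ
  have hρ0 : 0 < ρ := by rw [hρ]; linarith
  have hopen : IsOpen {z : ℂ | 1 < ‖z‖} := isOpen_lt continuous_const continuous_norm
  have hin : ∀ z ∈ ball (0 : ℂ) 1, 1 < ‖w + ρ * z‖ := by
    intro z hz
    rw [mem_ball_zero_iff] at hz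
    have h1 : ‖(ρ : ℂ) * z‖ < ρ := by
      rw [norm_mul, Complex.norm_real, Real.norm_eq_abs, abs_of_pos hρ0]
      nlinarith [norm_nonneg z]
    have h2 : ‖w‖ ≤ ‖w + ρ * z‖ + ‖(ρ : ℂ) * z‖ := by
      calc ‖w‖ = ‖(w + ρ * z) - ρ * z‖ := by congr 1; ring
        _ ≤ _ := norm_sub_le _ _
    linarith
  have haff : ∀ z : ℂ, HasDerivAt (fun z : ℂ => w + ρ * z) (ρ : ℂ) z := by
    intro z
    simpa using ((hasDerivAt_id z).const_mul (ρ : ℂ)).const_add w
  have hd1 : DifferentiableOn ℂ (fun z => ψ (w + ρ * z) - ψ w) (ball 0 1) := by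
    intro z hz
    have h1 : DifferentiableAt ℂ ψ (w + ρ * z) :=
      hψ.diff.differentiableAt (hopen.mem_nhds (hin z hz))
    exact ((h1.comp z (haff z).differentiableAt).sub_const _).differentiableWithinAt
  have hinj : InjOn (fun z => ψ (w + ρ * z) - ψ w) (ball 0 1) := by
    intro a ha b hb hab
    have h1 : ψ (w + ρ * a) = ψ (w + ρ * b) := by simpa using hab
    have h2 := hψ.inj (hin a ha) (hin b hb) h1
    have h3 : (ρ : ℂ) * a = ρ * b := by simpa using h2
    exact mul_left_cancel₀ (by exact_mod_cast hρ0.ne') h3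
  have hv : ∀ z ∈ ball (0 : ℂ) 1, (fun z => ψ (w + ρ * z) - ψ w) z ≠ m - ψ w := by
    intro z hz h1
    have h2 : ψ (w + ρ * z) = m := by simpa using h1
    have h3 : ψ (w + ρ * z) ∈ (multibrotSet d)ᶜ := by
      rw [← hψ.image]
      exact mem_image_of_mem ψ (hin z hz)
    rw [h2] at h3
    exact h3 hm
  have h1 := ZFM.J_q2b.koebe_quarter hd1 hinj (by simp) hv
  have h2 : deriv (fun z => ψ (w + ρ * z) - ψ w) 0 = deriv ψ w * ρ := by
    have h3 : DifferentiableAt ℂ ψ (w + ρ * 0) :=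
      hψ.diff.differentiableAt (hopen.mem_nhds (hin 0 (mem_ball_self one_pos)))
    have h4 := (h3.hasDerivAt.comp (0 : ℂ) (haff 0)).sub_const (ψ w)
    have h5 : deriv ψ (w + ρ * 0) = deriv ψ w := by simp
    rw [h5] at h4
    exact h4.deriv
  rw [h2, norm_mul, Complex.norm_real, Real.norm_eq_abs, abs_of_pos hρ0, norm_sub_rev m] at h1
  linarith

/-! ### Landing -/

theorem ray_seg (hβ : IsBeta d β) (θ : ℝ) {a b B : ℝ} (ha : 0 < a) (hb : b < 1)
    (hB : ∀ ρ ∈ Icc a b, ‖deriv (cc β) (pt ρ θ)‖ ≤ B) {x y : ℝ} (hx : x ∈ Icc a b)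
    (hy : y ∈ Icc a b) : ‖cc β (pt y θ) - cc β (pt x θ)‖ ≤ B * |y - x| := by
  have hpt : ∀ ρ : ℝ, pt ρ θ = ρ * Complex.exp (θ * Complex.I) := by
    intro ρ
    unfold pt circleMap
    rw [zero_add]
  have hder : ∀ ρ ∈ Icc a b, HasDerivWithinAt (fun ρ : ℝ => cc β (pt ρ θ))
      (deriv (cc β) (pt ρ θ) * Complex.exp (θ * Complex.I)) (Icc a b) ρ := by
    intro ρ hρ
    obtain ⟨h1, h2⟩ := pt_mem (ha.trans_le hρ.1) (hρ.2.trans_lt hb) θ
    have h3 := (differentiableAt_cc hβ h1 h2).hasDerivAt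
    have h4 : HasDerivAt (fun ρ : ℝ => pt ρ θ) (Complex.exp (θ * Complex.I)) ρ := by
      have h5 : HasDerivAt (fun ρ : ℝ => (ρ : ℂ) * Complex.exp (θ * Complex.I))
          (1 * Complex.exp (θ * Complex.I)) ρ := (Complex.ofRealCLM.hasDerivAt).mul_const _
      rw [one_mul] at h5
      exact h5.congr_of_eventuallyEq (Eventually.of_forall fun t => hpt t)
    exact (h3.comp ρ h4).hasDerivWithinAt
  have h1 := Convex.norm_image_sub_le_of_norm_hasDerivWithin_le (C := B) hder (fun ρ hρ => by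
    rw [norm_mul, Complex.norm_exp_ofReal_mul_I, mul_one]
    exact hB ρ hρ) (convex_Icc a b) hx hy
  rwa [Real.norm_eq_abs] at h1

theorem land_up (hd : 2 ≤ d) (hβ : IsBeta d β) (h : Typ d β θ c A R) : ∃ K : ℝ, 0 < K ∧
    ∀ᶠ l : ℕ in atTop, ∀ ρ ∈ Icc (rl d l) (rl d (l + 1)),
      ‖cc β (pt ρ θ) - c‖ ≤ K * Real.exp (-(l * Real.log d) + 30 * LL d l) := by
  have hdR : (2 : ℝ) ≤ d := by exact_mod_cast hd
  have hld : Real.log 2 ≤ Real.log d := Real.log_le_log (by norm_num) hdR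
  have hl2 := Real.log_two_gt_d9
  set e : ℕ → ℝ := fun k => 4 * Real.exp (QQ d) *
    Real.exp (-(k * Real.log d) + 30 * LL d k) with he
  have he0 : ∀ k, 0 < e k := fun k => by rw [he]; positivity
  obtain ⟨N, hN⟩ := eventually_atTop.1 (h.lil.and (LL_step hd (η := 1 / 100) (by norm_num)))
  -- segments
  have hseg : ∀ k, N ≤ k → ∀ x ∈ Icc (rl d k) (rl d (k + 1)), ∀ y ∈ Icc (rl d k) (rl d (k + 1)),
      ‖cc β (pt y θ) - cc β (pt x θ)‖ ≤ e k := by
    intro k hk x hx y hy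
    have hB : ∀ ρ ∈ Icc (rl d k) (rl d (k + 1)), ‖deriv (cc β) (pt ρ θ)‖ ≤
        Real.exp (QQ d) * Real.exp (30 * LL d k) := by
      intro ρ hρ
      have h1 := (abs_le.1 (deriv_level hd hβ θ hρ.1 hρ.2)).2
      have h2 := (abs_le.1 (hN k hk).1).2
      have h3 : Real.log ‖deriv (cc β) (pt ρ θ)‖ ≤ QQ d + 30 * LL d k := by
        unfold LL
        linarith
      rcases (norm_nonneg (deriv (cc β) (pt ρ θ))).eq_or_lt with h0 | h0
      · rw [← h0]; positivity
      · rw [← Real.exp_add, ← Real.log_le_iff_le_exp h0]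
        exact h3
    have h1 := ray_seg hβ θ (rl_pos d k) (rl_lt hd (k + 1)) hB hx hy
    refine h1.trans ?_
    have h2 : |y - x| ≤ 4 / (d : ℝ) ^ k := by
      have h3 := one_sub_rl d k
      have h4 := rl_lt hd (k + 1)
      rw [abs_le]
      constructor <;> linarith [hx.1, hx.2, hy.1, hy.2]
    have h3 : 4 / (d : ℝ) ^ k = 4 * Real.exp (-(k * Real.log d)) := by
      rw [Real.exp_neg, Real.exp_nat_mul, Real.exp_log (by linarith)]
      rfl
    calc Real.exp (QQ d) * Real.exp (30 * LL d k) * |y - x| ≤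
        Real.exp (QQ d) * Real.exp (30 * LL d k) * (4 / (d : ℝ) ^ k) := by gcongr
      _ = e k := by
        rw [h3, he]
        simp only
        rw [Real.exp_add]
        ring
  have hratio : ∀ k, N ≤ k → e (k + 1) ≤ 3 / 4 * e k := by
    intro k hk
    have h1 := (hN k hk).2
    have h2 : Real.exp (-(((k + 1 : ℕ) : ℝ) * Real.log d) + 30 * LL d (k + 1)) ≤
        Real.exp (-(k * Real.log d) + 30 * LL d k) * (3 / 4) := by
      have h3 : (3 / 4 : ℝ) = Real.exp (Real.log (3 / 4)) := (Real.exp_log (by norm_num)).symm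
      rw [h3, ← Real.exp_add, Real.exp_le_exp]
      push_cast
      have h4 : -0.3 ≤ Real.log (3 / 4) := by
        have h5 : Real.log (3 / 4) = -Real.log (4 / 3) := by
          rw [← Real.log_inv]; norm_num
        have h6 := Real.log_le_sub_one_of_pos (show (0 : ℝ) < 4 / 3 by norm_num)
        rw [h5]
        have h7 : Real.log (4 / 3) ≤ 0.3 := by
          rw [← Real.log_exp 0.3]
          apply Real.log_le_log (by norm_num)
          have h8 := Real.quadratic_le_exp_of_nonneg (show (0 : ℝ) ≤ 0.3 by norm_num)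
          norm_num at h8 ⊢
          linarith
        linarith
      nlinarith
    calc e (k + 1) = 4 * Real.exp (QQ d) *
        Real.exp (-(((k + 1 : ℕ) : ℝ) * Real.log d) + 30 * LL d (k + 1)) := rfl
      _ ≤ 4 * Real.exp (QQ d) * (Real.exp (-(k * Real.log d) + 30 * LL d k) * (3 / 4)) := by
        gcongr
      _ = 3 / 4 * e k := by rw [he]; ring
  -- telescoping
  have htel : ∀ l, N ≤ l → ∀ m, l ≤ m → ‖cc β (pt (rl d m) θ) - cc β (pt (rl d l) θ)‖ ≤
      4 * (e l - e m) := by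
    intro l hl m hm
    induction m, hm using Nat.le_induction with
    | base => simp
    | succ m hm ih =>
      have h1 := hseg m (hl.trans hm) (rl d m) ⟨le_rfl, rl_mono hd (Nat.le_succ m)⟩ (rl d (m + 1))
        ⟨rl_mono hd (Nat.le_succ m), le_rfl⟩
      have h2 := hratio m (hl.trans hm)
      calc ‖cc β (pt (rl d (m + 1)) θ) - cc β (pt (rl d l) θ)‖ =
          ‖(cc β (pt (rl d (m + 1)) θ) - cc β (pt (rl d m) θ)) +
            (cc β (pt (rl d m) θ) - cc β (pt (rl d l) θ))‖ := by congr 1; ring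
        _ ≤ e m + 4 * (e l - e m) := (norm_add_le _ _).trans (add_le_add h1 ih)
        _ ≤ _ := by linarith
  have hrl : Tendsto (rl d) atTop (𝓝[<] 1) := by
    rw [tendsto_nhdsWithin_iff]
    refine ⟨?_, Eventually.of_forall fun n => rl_lt hd n⟩
    have h1 : Tendsto (fun k : ℕ => 1 - 4 * ((d : ℝ)⁻¹) ^ k) atTop (𝓝 (1 - 4 * 0)) :=
      tendsto_const_nhds.sub ((tendsto_pow_atTop_nhds_zero_of_lt_one (by positivity)
        (inv_lt_one_of_one_lt₀ (by linarith))).const_mul 4)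
    rw [mul_zero, sub_zero] at h1
    refine tendsto_of_tendsto_of_tendsto_of_le_of_le h1 tendsto_const_nhds (fun k => ?_)
      fun k => (rl_lt hd k).le
    have h2 := one_sub_rl d k
    rw [div_eq_mul_inv, ← inv_pow] at h2
    simp only
    linarith
  have hend : ∀ l, N ≤ l → ‖c - cc β (pt (rl d l) θ)‖ ≤ 4 * e l := by
    intro l hl
    have h1 : Tendsto (fun m : ℕ => ‖cc β (pt (rl d m) θ) - cc β (pt (rl d l) θ)‖) atTop
        (𝓝 ‖c - cc β (pt (rl d l) θ)‖) := ((h.land.comp hrl).sub_const _).norm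
    refine le_of_tendsto h1 ?_
    filter_upwards [eventually_ge_atTop l] with m hm
    have := htel l hl m hm
    linarith [he0 m]
  refine ⟨20 * Real.exp (QQ d), by positivity, ?_⟩
  filter_upwards [eventually_ge_atTop N] with l hl ρ hρ
  have h1 := hseg l hl (rl d l) ⟨le_rfl, rl_mono hd (Nat.le_succ l)⟩ ρ hρ
  have h2 := hend l hl
  rw [norm_sub_rev] at h2
  calc ‖cc β (pt ρ θ) - c‖ = ‖(cc β (pt ρ θ) - cc β (pt (rl d l) θ)) +
        (cc β (pt (rl d l) θ) - c)‖ := by congr 1; ring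
    _ ≤ e l + 4 * e l := (norm_add_le _ _).trans (add_le_add h1 h2)
    _ = _ := by rw [he]; ring

/-! ### The levels of the ray -/

/-- the radius at level `n` -/
noncomputable def lev (d n : ℕ) : ℝ := Real.exp (4 / (d : ℝ) ^ n)

theorem lev_inv (d n : ℕ) : (lev d n)⁻¹ = rl d n := by
  unfold lev rl
  rw [Real.exp_neg]

theorem norm_ray {r : ℝ} (hr : 0 < r) (θ : ℝ) :
    ‖(r : ℂ) * Complex.exp (θ * Complex.I)‖ = r := by
  rw [norm_mul, Complex.norm_exp_ofReal_mul_I, mul_one, Complex.norm_real, Real.norm_eq_abs,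
    abs_of_pos hr]

theorem inv_ray (r θ : ℝ) : ((r : ℂ) * Complex.exp (θ * Complex.I))⁻¹ = pt r⁻¹ (-θ) := by
  unfold pt circleMap
  rw [mul_inv, ← Complex.exp_neg, zero_add]
  push_cast
  congr 2
  ring

/-- the derivative of the exterior map on the ray -/
theorem deriv_psi_ray (hβ : IsBeta d β) {ψ : ℂ → ℂ} (hψ : IsExteriorMap (multibrotSet d) ψ)
    {r : ℝ} (hr : 1 < r) (θ : ℝ) : deriv (cc β) (pt r⁻¹ (-θ)) ≠ 0 ∧
    ‖deriv ψ (r * Complex.exp (θ * Complex.I))‖ = ‖deriv (cc β) (pt r⁻¹ (-θ))‖ * (r⁻¹) ^ 2 := by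
  have h1 : r⁻¹ < 1 := inv_lt_one_of_one_lt₀ hr
  have h2 : 0 < r⁻¹ := by positivity
  obtain ⟨h3, h4⟩ := pt_mem h2 h1 (-θ)
  obtain ⟨h5, h6⟩ := deriv_cc_ne' hβ h3 h4 hψ
  rw [← inv_ray, inv_inv, norm_inv, norm_ray (by linarith), inv_ray] at h6
  exact ⟨h5, h6⟩

theorem at_level (hd : 2 ≤ d) (hβ : IsBeta d β) {ψ : ℂ → ℂ}
    (hψ : IsExteriorMap (multibrotSet d) ψ) (h : Typ d β (-θ) c A R) : ∃ B : ℝ, 0 ≤ B ∧
    ∀ n : ℕ, |Real.log (Pd d c n) - n * Real.log d +
      Real.log ‖deriv ψ (lev d n * Complex.exp (θ * Complex.I))‖| ≤ B * Real.log (n + 2) ^ 2 := by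
  have hdR : (2 : ℝ) ≤ d := by exact_mod_cast hd
  have hA := h.A0
  refine ⟨A + 17, by linarith, fun n => ?_⟩
  have h1 := h.simi n
  have hlev : 1 < lev d n := by
    unfold lev
    rw [Real.one_lt_exp_iff]
    positivity
  obtain ⟨h2, h3⟩ := deriv_psi_ray hβ hψ hlev θ
  rw [← Pd_eq_MM hd] at h1
  rw [h3, lev_inv] at *
  have h4 : 0 < ‖deriv (cc β) (pt (rl d n) (-θ))‖ := norm_pos_iff.2 h2
  rw [Real.log_mul h4.ne' (pow_ne_zero _ (rl_pos d n).ne'), Real.log_pow]
  have h5 : Real.log (rl d n) = -(4 / (d : ℝ) ^ n) := by unfold rl; rw [Real.log_exp]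
  have h6 : 4 / (d : ℝ) ^ n ≤ 4 := by
    apply div_le_self (by norm_num)
    exact one_le_pow₀ (by linarith)
  have h7 : 0 ≤ 4 / (d : ℝ) ^ n := by positivity
  have h8 := log_two_le n
  have h9 : 8 ≤ 17 * Real.log ((n : ℝ) + 2) ^ 2 := by nlinarith
  rw [h5]
  rw [abs_le] at h1 ⊢
  push_cast
  constructor <;> nlinarith [h1.1, h1.2]

theorem dist_level (hd : 2 ≤ d) (hβ : IsBeta d β) {ψ : ℂ → ℂ}
    (hψ : IsExteriorMap (multibrotSet d) ψ) (h : Typ d β (-θ) c A R) : ∃ B : ℝ, 0 ≤ B ∧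
    ∀ n : ℕ, |Real.log (Pd d c n) +
      Real.log (infDist (ψ (lev d n * Complex.exp (θ * Complex.I))) (multibrotSet d))| ≤
        B * Real.log (n + 2) ^ 2 := by
  have hdR : (2 : ℝ) ≤ d := by exact_mod_cast hd
  obtain ⟨B, hB, H⟩ := at_level hd hβ hψ h
  set F : ℕ → ℝ := fun n => |Real.log (Pd d c n) +
      Real.log (infDist (ψ (lev d n * Complex.exp (θ * Complex.I))) (multibrotSet d))| with hF
  have hsum : 0 ≤ ∑ i ∈ Finset.range 3, F i := Finset.sum_nonneg fun i _ => abs_nonneg _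
  refine ⟨B + 21 + 3 * ∑ i ∈ Finset.range 3, F i, by positivity, fun n => ?_⟩
  have h8 := log_two_le n
  have hsq : 0.47 ≤ Real.log ((n : ℝ) + 2) ^ 2 := by nlinarith
  rcases lt_or_ge n 3 with hn | hn
  · have h1 : F n ≤ ∑ i ∈ Finset.range 3, F i :=
      Finset.single_le_sum (f := F) (fun i _ => abs_nonneg _) (Finset.mem_range.2 hn)
    have h2 : ∑ i ∈ Finset.range 3, F i ≤
        3 * (∑ i ∈ Finset.range 3, F i) * Real.log ((n : ℝ) + 2) ^ 2 := by nlinarith
    have h3 : 0 ≤ (B + 21) * Real.log ((n : ℝ) + 2) ^ 2 := by positivity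
    calc F n ≤ ∑ i ∈ Finset.range 3, F i := h1
      _ ≤ _ := by nlinarith
  · have h1 := H n
    have hlev : 1 < lev d n := by
      unfold lev
      rw [Real.one_lt_exp_iff]
      positivity
    have hl0 : 0 < lev d n := by linarith
    have hnw := norm_ray hl0 θ
    set w : ℂ := lev d n * Complex.exp (θ * Complex.I) with hw
    have hw1 : 1 < ‖w‖ := by rw [hnw]; exact hlev
    have h4 : 4 / (d : ℝ) ^ n ≤ 1 / 2 := by
      have h5 : (8 : ℝ) ≤ (d : ℝ) ^ n := by
        calc (8 : ℝ) = 2 ^ 3 := by norm_num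
          _ ≤ (d : ℝ) ^ 3 := by gcongr
          _ ≤ (d : ℝ) ^ n := pow_le_pow_right₀ (by linarith) hn
      rw [div_le_iff₀ (by linarith)]
      linarith
    have h40 : 0 < 4 / (d : ℝ) ^ n := by positivity
    have h5 : lev d n ≤ 2 := by
      have h6 : Real.exp (1 / 2) ≤ 2 := by
        have h7 : Real.exp (1 / 2) * Real.exp (1 / 2) = Real.exp 1 := by
          rw [← Real.exp_add]; norm_num
        have h8 := Real.exp_one_lt_d9
        have h9 := Real.exp_pos (1 / 2)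
        nlinarith
      exact (Real.exp_le_exp.2 h4).trans h6
    have hup := Pool.Agent.H107.MLC.ext_dist hd hψ hw1 (by rw [hnw]; exact h5)
    have hMne : (multibrotSet d).Nonempty := ⟨c, h.mem hd hβ⟩
    have hlow : (‖w‖ - 1) * ‖deriv ψ w‖ / 4 ≤ infDist (ψ w) (multibrotSet d) := by
      rw [le_infDist hMne]
      intro m hm
      rw [dist_eq_norm]
      have := koebe_low hψ hw1 hm
      linarith
    have hopen : IsOpen {z : ℂ | 1 < ‖z‖} := isOpen_lt continuous_const continuous_norm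
    have hD : 0 < ‖deriv ψ w‖ :=
      norm_pos_iff.2 (Pool.Agent.Helper202.Univ.deriv_ne_zero hopen hψ.diff hψ.inj hw1)
    rw [hnw] at hup hlow
    have hl1 : 4 / (d : ℝ) ^ n ≤ lev d n - 1 := by
      have := Real.add_one_le_exp (4 / (d : ℝ) ^ n)
      unfold lev
      linarith
    have hl2 : lev d n - 1 ≤ 2 * (4 / (d : ℝ) ^ n) := by
      have h6 := Real.add_one_le_exp (-(4 / (d : ℝ) ^ n))
      have h7 : Real.exp (-(4 / (d : ℝ) ^ n)) * lev d n = 1 := by
        unfold lev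
        rw [← Real.exp_add]
        simp
      nlinarith
    have hpos : 0 < lev d n - 1 := by linarith
    have hlow0 : 0 < (lev d n - 1) * ‖deriv ψ w‖ / 4 := by positivity
    have g1 := Real.log_le_log hlow0 hlow
    have g2 := Real.log_le_log (hlow0.trans_le hlow) hup
    have g3 := Real.log_le_log h40 hl1
    have g4 := Real.log_le_log hpos hl2
    have e1 : Real.log (4 / (d : ℝ) ^ n) = Real.log 4 - n * Real.log d := by
      rw [Real.log_div (by norm_num) (by positivity), Real.log_pow]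
    have e4 : Real.log 4 = 2 * Real.log 2 := by
      rw [show (4 : ℝ) = 2 ^ 2 by norm_num, Real.log_pow]; norm_num
    rw [Real.log_div (by positivity) (by norm_num), Real.log_mul hpos.ne' hD.ne'] at g1
    rw [Real.log_mul (by norm_num) (by positivity), Real.log_mul hpos.ne' hD.ne'] at g2
    rw [e1] at g3
    rw [Real.log_mul (by norm_num) h40.ne', e1] at g4
    have l1 := Real.log_two_lt_d9
    have l2 := Real.log_two_gt_d9
    have hfin : (B + 21) * Real.log ((n : ℝ) + 2) ^ 2 ≤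
        (B + 21 + 3 * ∑ i ∈ Finset.range 3, F i) * Real.log ((n : ℝ) + 2) ^ 2 := by
      have : 0 ≤ 3 * (∑ i ∈ Finset.range 3, F i) * Real.log ((n : ℝ) + 2) ^ 2 := by positivity
      linarith
    refine le_trans ?_ hfin
    rw [abs_le] at h1 ⊢
    constructor <;> nlinarith [h1.1, h1.2]

theorem land_level (hd : 2 ≤ d) (hβ : IsBeta d β) {ψ : ℂ → ℂ}
    (hψ : IsExteriorMap (multibrotSet d) ψ) (h : Typ d β (-θ) c A R) : ∀ᶠ n : ℕ in atTop,
    ∀ r : ℝ, 4 / (d : ℝ) ^ (n + 1) ≤ Real.log r → Real.log r ≤ 4 / (d : ℝ) ^ n → 1 < r →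
      |Real.log ‖ψ (r * Complex.exp (θ * Complex.I)) - c‖ + n * Real.log d| ≤ 31 * LL d n := by
  have hdR : (2 : ℝ) ≤ d := by exact_mod_cast hd
  obtain ⟨K, hK, hup⟩ := land_up hd hβ h
  filter_upwards [hup, h.lil, absorb hd (Real.log K) 0 le_rfl,
    absorb hd (Real.log d + QQ d + 8) 0 le_rfl] with n h1 h2 h3 h4 r hr1 hr2 hr
  rw [zero_mul, add_zero] at h3 h4
  have hr0 : 0 < r := by linarith
  have hrexp : r⁻¹ = Real.exp (-Real.log r) := by rw [Real.exp_neg, Real.exp_log hr0]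
  have hρ : r⁻¹ ∈ Icc (rl d n) (rl d (n + 1)) := by
    rw [hrexp]
    unfold rl
    constructor <;> rw [Real.exp_le_exp] <;> linarith
  have h5 := h1 r⁻¹ hρ
  rw [← psi_eq hβ hψ hr] at h5
  set w : ℂ := r * Complex.exp (θ * Complex.I) with hw
  have hnw : ‖w‖ = r := norm_ray hr0 θ
  have hw1 : 1 < ‖w‖ := by rw [hnw]; exact hr
  have h6 := koebe_low hψ hw1 (h.mem hd hβ)
  obtain ⟨h7, h8⟩ := deriv_psi_ray hβ hψ hr θ
  have hD0 : 0 < ‖deriv (cc β) (pt r⁻¹ (-θ))‖ := norm_pos_iff.2 h7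
  have hri : 0 < r⁻¹ := by positivity
  rw [← hw] at h8
  rw [hnw, h8] at h6
  have h9 : 0 < (r - 1) * (‖deriv (cc β) (pt r⁻¹ (-θ))‖ * r⁻¹ ^ 2) := by
    have : 0 < r - 1 := by linarith
    positivity
  have h10 : 0 < ‖ψ w - c‖ := by linarith
  have h11 := Real.log_le_log h9 h6
  rw [Real.log_mul (by linarith : r - 1 ≠ 0) (by positivity), Real.log_mul hD0.ne' (by positivity),
    Real.log_pow, Real.log_inv, Real.log_mul (by norm_num) h10.ne'] at h11
  have h12 := (abs_le.1 (deriv_level hd hβ (-θ) hρ.1 hρ.2)).1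
  have h13 := (abs_le.1 h2).1
  have h14 : Real.log 4 - (n + 1) * Real.log d ≤ Real.log (r - 1) := by
    have h15 : 4 / (d : ℝ) ^ (n + 1) ≤ r - 1 := by
      have := Real.log_le_sub_one_of_pos hr0
      linarith
    have h16 := Real.log_le_log (by positivity) h15
    rw [Real.log_div (by norm_num) (by positivity), Real.log_pow] at h16
    push_cast at h16
    exact h16
  have h17 : Real.log r ≤ 4 := by
    refine hr2.trans (div_le_self (by norm_num) (one_le_pow₀ (by linarith)))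
  have h18 := Real.log_le_log h10 h5
  rw [Real.log_mul hK.ne' (Real.exp_ne_zero _), Real.log_exp] at h18
  have h19 : 30 * √(n * Real.log d * Real.log (Real.log n)) = 30 * LL d n := rfl
  rw [abs_le]
  push_cast at h11
  constructor <;> linarith

end Pool.Agent.V1186.CN
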